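import Mathlib
import Pool.Agent.Lib.MP_12eaff_co.Pot

set_option autoImplicit false

/-!
A checker for list colouring of small graphs by a coefficient of the graph polynomial.
-/

namespace Pool.Agent.Lib.MP_12eaff_co.AT

open Finset MvPolynomial

variable {n : ℕ}

/-- The graph polynomial of a list of edges. -/
noncomputable def P (E : List (Fin n × Fin n)) : MvPolynomial (Fin n) ℤ :=
  (E.map fun e => X e.1 - X e.2).prod

/-- The number of ends equal to `v`. -/
def cnt (v : Fin n) : List (Fin n × Fin n) → ℕ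
  | [] => 0
  | e :: E => (bif v.val == e.1.val then 1 else 0) + (bif v.val == e.2.val then 1 else 0) + cnt v E

theorem coeff_cons (e : Fin n × Fin n) (E : List (Fin n × Fin n)) (f : Fin n →₀ ℕ) :
    coeff f (P (e :: E)) = (if f e.1 ≠ 0 then coeff (f - Finsupp.single e.1 1) (P E) else 0) -
      if f e.2 ≠ 0 then coeff (f - Finsupp.single e.2 1) (P E) else 0 := by
  have : P (e :: E) = X e.1 * P E - X e.2 * P E := by simp [P, sub_mul]
  simp only [this, coeff_sub, coeff_X_mul', Finsupp.mem_support_iff]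

theorem le_cnt (v : Fin n) (E : List (Fin n × Fin n)) :
    ∀ f : Fin n →₀ ℕ, coeff f (P E) ≠ 0 → f v ≤ cnt v E := by
  induction E with
  | nil =>
    intro f h
    have : f = 0 := by
      by_contra q
      simp [P, coeff_one, Ne.symm q] at h
    simp [this]
  | cons e E ih =>
    intro f h
    have k : ∀ u, coeff (f - Finsupp.single u 1) (P E) ≠ 0 →
        f v ≤ (bif v.val == u.val then 1 else 0) + cnt v E := fun u q => by
      have := ih _ q
      by_cases c : v = u
      · subst c
        simp at this ⊢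
        omega
      · have c' : (v.val == u.val) = false := by simpa [Fin.val_inj] using c
        simpa [c', Finsupp.single_apply, Ne.symm c] using this
    rw [coeff_cons] at h
    by_cases a : coeff (f - Finsupp.single e.1 1) (P E) = 0
    · by_cases b : coeff (f - Finsupp.single e.2 1) (P E) = 0
      · simp [a, b] at h
      · have := k _ b
        rw [cnt]
        omega
    · have := k _ a
      rw [cnt]
      omega

theorem P_hom (E : List (Fin n × Fin n)) : (P E).IsHomogeneous E.length := by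
  induction E with
  | nil => simpa [P] using isHomogeneous_one (Fin n) ℤ
  | cons e E ih =>
    have : P (e :: E) = (X e.1 - X e.2) * P E := by simp [P]
    rw [this, List.length_cons, add_comm]
    exact ((isHomogeneous_X ℤ e.1).sub (isHomogeneous_X ℤ e.2)).mul ih

theorem col_of_coeff (E : List (Fin n × Fin n)) (f : Fin n →₀ ℕ) (h : coeff f (P E) ≠ 0)
    (L : Fin n → Finset ℕ) (hL : ∀ i, f i < #(L i)) :
    ∃ c : Fin n → ℕ, (∀ i, c i ∈ L i) ∧ ∀ e ∈ E, c e.1 ≠ c e.2 := by
  have h0 : P E ≠ 0 := fun q => by simp [q] at h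
  have hd : (P E).totalDegree = f.degree := by
    rw [(P_hom E).totalDegree h0]
    by_contra q
    exact h ((P_hom E).coeff_eq_zero (Ne.symm q))
  obtain ⟨s, hs, he⟩ := combinatorial_nullstellensatz_exists_eval_nonzero (P E) f h hd
    (fun i => (L i).image ((↑) : ℕ → ℤ))
    (fun i => by rw [card_image_of_injective _ Nat.cast_injective]; exact hL i)
  choose c c1 c2 using fun i => mem_image.1 (hs i)
  refine ⟨c, c1, fun e hE q => he ?_⟩
  rw [P, map_list_prod, List.prod_eq_zero_iff, List.map_map, List.mem_map]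
  exact ⟨e, hE, by simp [← c2, q]⟩

/-- The weights of the ends and the numbers of later ends. -/
def prep : List (Fin n × Fin n) → List (ℕ × ℕ × ℕ × ℕ)
  | [] => []
  | e :: E => (16 ^ e.1.val, 16 ^ e.2.val, cnt e.1 E, cnt e.2 E) :: prep E

/-- Evaluate the argument first. -/
noncomputable def force (t : ℕ) (f : ℕ → ℕ) : ℕ := Nat.rec (f 0) (fun k _ => f k.succ) t

theorem force_eq (t : ℕ) (f : ℕ → ℕ) : force t f = f t := by cases t <;> rfl

/-- The signed count of orientations modulo `1000003`. -/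
noncomputable def go (l : List (ℕ × ℕ × ℕ × ℕ)) : ℕ → ℕ :=
  List.rec (fun t => bif Nat.beq t 0 then 1 else 0) (fun e _ ih t => Nat.add
    (bif Nat.blt 0 (Nat.mod (Nat.div t e.1) 16) &&
        (Nat.ble (Nat.mod (Nat.div t e.2.1) 16) e.2.2.2 || Nat.beq e.1 e.2.1) then
      force (Nat.sub t e.1) fun k => Nat.mul (Nat.mod (ih k) 1000003) 1 else 0)
    (bif Nat.blt 0 (Nat.mod (Nat.div t e.2.1) 16) &&
        (Nat.ble (Nat.mod (Nat.div t e.1) 16) e.2.2.1 || Nat.beq e.1 e.2.1) then
      force (Nat.sub t e.2.1) fun k => Nat.mul (Nat.mod (ih k) 1000003) 1000002 else 0)) l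

theorem go_nil (t : ℕ) : go [] t = bif Nat.beq t 0 then 1 else 0 := rfl

theorem go_cons (e : ℕ × ℕ × ℕ × ℕ) (E : List (ℕ × ℕ × ℕ × ℕ)) (t : ℕ) : go (e :: E) t =
    (bif Nat.blt 0 (t / e.1 % 16) && (Nat.ble (t / e.2.1 % 16) e.2.2.2 || Nat.beq e.1 e.2.1) then
      go E (t - e.1) % 1000003 * 1 else 0) +
    (bif Nat.blt 0 (t / e.2.1 % 16) && (Nat.ble (t / e.1 % 16) e.2.2.1 || Nat.beq e.1 e.2.1) then
      go E (t - e.2.1) % 1000003 * 1000002 else 0) := by
  rw [← force_eq (t - e.1) fun k => go E k % 1000003 * 1,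
    ← force_eq (t - e.2.1) fun k => go E k % 1000003 * 1000002]
  rfl

/-- The code of an exponent vector. -/
def enc (f : Fin n → ℕ) : ℕ := ∑ i, f i * 16 ^ i.val

theorem enc_dg {f : Fin n → ℕ} (h : ∀ i, f i < 16) (i : Fin n) :
    enc f / 16 ^ i.val % 16 = f i :=
  congrArg (fun g => (g i).val) (finFunctionFinEquiv.symm_apply_apply fun i => ⟨f i, h i⟩)

theorem enc_dec {t : ℕ} (h : t < 16 ^ n) : enc (fun i : Fin n => t / 16 ^ i.val % 16) = t :=
  congrArg Fin.val (finFunctionFinEquiv.apply_symm_apply (⟨t, h⟩ : Fin (16 ^ n)))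

theorem enc_sub (f : Fin n →₀ ℕ) (u : Fin n) (h : f u ≠ 0) :
    enc f - 16 ^ u.val = enc (f - Finsupp.single u 1 : Fin n →₀ ℕ) := by
  have : enc f = enc (f - Finsupp.single u 1 : Fin n →₀ ℕ) + enc (Finsupp.single u 1) := by
    rw [enc, enc, enc, ← sum_add_distrib]
    refine sum_congr rfl fun i _ => ?_
    rw [← add_mul, Finsupp.tsub_apply, Nat.sub_add_cancel]
    by_cases c : u = i
    · subst c
      simp
      omega
    · simp [c]
  have e : enc (Finsupp.single u 1) = 16 ^ u.val := by
    simp [enc, Finsupp.single_apply]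
  omega

theorem go_spec (E : List (Fin n × Fin n)) : ∀ f : Fin n →₀ ℕ, (∀ i, f i < 16) →
    ((go (prep E) (enc f) : ℕ) : ZMod 1000003) = (coeff f (P E) : ℤ) := by
  induction E with
  | nil =>
    intro f h
    by_cases q : f = 0
    · simp [q, go_nil, prep, enc, P]
    · have : enc f ≠ 0 := fun z => q (Finsupp.ext fun i => by simpa [z] using (enc_dg h i).symm)
      have c : Nat.beq (enc f) 0 = false :=
        Bool.eq_false_iff.2 fun z => this (Nat.eq_of_beq_eq_true z)
      simp [go_nil, prep, P, c, coeff_one, Ne.symm q]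
  | cons e E ih =>
    intro f h
    have key : ∀ (u v : Fin n) (a : ℕ) (x : Bool), (u = v → x = true) →
        (((bif Nat.blt 0 (f u) && (Nat.ble (f v) (cnt v E) || x) then
          go (prep E) (enc f - 16 ^ u.val) % 1000003 * a else 0 : ℕ)) : ZMod 1000003) =
          ((if f u ≠ 0 then coeff (f - Finsupp.single u 1) (P E) else 0 : ℤ) : ZMod 1000003) * a := by
      intro u v a x hx
      by_cases c : f u = 0
      · rw [c, if_neg (by simp), show Nat.blt 0 0 = false from rfl]
        simp
      · have c1 : Nat.blt 0 (f u) = true := by simpa [Nat.blt_eq] using Nat.pos_of_ne_zero c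
        rw [if_pos c, c1, Bool.true_and]
        cases d : Nat.ble (f v) (cnt v E) || x
        · rw [Bool.or_eq_false_iff] at d
          have uv : u ≠ v := fun z => by simp [hx z] at d
          have : coeff (f - Finsupp.single u 1) (P E) = 0 := by
            by_contra q
            have := le_cnt v E _ q
            simp [uv] at this
            simp [Nat.ble_eq_true_of_le this] at d
          simp [this]
        · rw [cond_true, enc_sub f u c, Nat.cast_mul, ZMod.natCast_mod,
            ih _ fun i => lt_of_le_of_lt (by simp) (h i)]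
    have hw : ((1000002 : ℕ) : ZMod 1000003) = -1 := by
      rw [eq_neg_iff_add_eq_zero]
      exact_mod_cast ZMod.natCast_self 1000003
    simp only [go_cons, prep, enc_dg h, Nat.cast_add]
    rw [key e.1 e.2 1 _ (fun z => by simp [z]),
      key e.2 e.1 1000002 _ (fun z => by simp [z]), coeff_cons, hw]
    push_cast
    ring

/-- The certificate `t` is a code with a coefficient that is not zero. -/
noncomputable def ok (E : List (Fin n × Fin n)) (t : ℕ) : Bool :=
  Nat.blt t (16 ^ n) && !(go (prep E) t % 1000003 == 0)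

/-- List colouring from a certificate. -/
theorem col_of_ok (E : List (Fin n × Fin n)) (t : ℕ) (h : ok E t = true) (L : Fin n → Finset ℕ)
    (hL : ∀ i : Fin n, t / 16 ^ i.val % 16 < #(L i)) :
    ∃ c : Fin n → ℕ, (∀ i, c i ∈ L i) ∧ ∀ e ∈ E, c e.1 ≠ c e.2 := by
  simp only [ok, Bool.and_eq_true, Nat.blt_eq, Bool.not_eq_true', beq_eq_false_iff_ne] at h
  let f : Fin n →₀ ℕ := Finsupp.equivFunOnFinite.symm fun i => t / 16 ^ i.val % 16
  refine col_of_coeff E f (fun q => h.2 ?_) L hL
  have := go_spec E f fun i => Nat.mod_lt _ (by norm_num)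
  rw [q, show enc f = t from enc_dec h.1] at this
  exact Nat.mod_eq_zero_of_dvd ((ZMod.natCast_eq_zero_iff _ _).1 (by simpa using this))

/-- All pairs with increasing ends. -/
def prs (n : ℕ) : List (Fin n × Fin n) :=
  (List.finRange n).flatMap fun i =>
    ((List.finRange n).filter fun j => Nat.blt i.val j.val).map fun j => (i, j)

theorem mem_prs {i j : Fin n} (h : i < j) : (i, j) ∈ prs n := by
  simpa [prs, Nat.blt_eq] using h

/-- The unordered pair `i j` occurs in `R`. -/
def mem2 (R : List (Fin n × Fin n)) (i j : Fin n) : Bool :=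
  R.any fun q => (q.1.val == i.val && q.2.val == j.val) || (q.1.val == j.val && q.2.val == i.val)

theorem mem2_iff {R : List (Fin n × Fin n)} {i j : Fin n} :
    mem2 R i j = true ↔ (i, j) ∈ R ∨ (j, i) ∈ R := by
  simp only [mem2, List.any_eq_true, Bool.or_eq_true, Bool.and_eq_true, beq_iff_eq, Fin.val_inj]
  constructor
  · rintro ⟨⟨a, b⟩, h, ⟨rfl, rfl⟩ | ⟨rfl, rfl⟩⟩
    exacts [Or.inl h, Or.inr h]
  · rintro (h | h)
    exacts [⟨_, h, Or.inl ⟨rfl, rfl⟩⟩, ⟨_, h, Or.inr ⟨rfl, rfl⟩⟩]

/-- The degree of `i`. -/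
def dg (R : List (Fin n × Fin n)) (i : Fin n) : ℕ := ((List.finRange n).filter (mem2 R i)).length

/-- The check of one graph: lists of size `dg R i + s i - 1` are enough. -/
noncomputable def leaf (s : Fin n → ℕ) (R : List (Fin n × Fin n)) (t : ℕ) : Bool :=
  ((List.finRange n).all fun i => Nat.ble (t / 16 ^ i.val % 16 + 2) (dg R i + s i)) &&
    ok ((prs n).filter fun p => mem2 R p.1 p.2) t

/-- The check of all graphs between `R` and `R ++ F`. -/
noncomputable def tree (s : Fin n → ℕ) (sk : List (Fin n × Fin n) → Bool) (C : List ℕ) :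
    List (Fin n × Fin n) → List (Fin n × Fin n) → ℕ → Bool
  | [], R, k => sk R || leaf s R (C.getD k 0)
  | p :: F, R, k => tree s sk C F (p :: R) (2 * k + 1) && tree s sk C F R (2 * k)

/-- The check of all graphs that contain `R` and avoid `N`. -/
noncomputable def chk (s : Fin n → ℕ) (sk : List (Fin n × Fin n) → Bool) (R N : List (Fin n × Fin n))
    (C : List ℕ) : Bool :=
  tree s sk C ((prs n).filter fun p => !mem2 R p.1 p.2 && !mem2 N p.1 p.2) R 0

open BK
open scoped Classical

variable {V : Type} [Fintype V] {G : SimpleGraph V} {D : ℕ}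

theorem dg_le {φ : Fin n → V} (inj : Function.Injective φ) {R : List (Fin n × Fin n)}
    (hR : ∀ i j, mem2 R i j = true → G.Adj (φ i) (φ j)) (i : Fin n) :
    dg R i ≤ #(nb G (φ i) ∩ univ.image φ) := by
  rw [dg, ← List.toFinset_card_of_nodup ((List.nodup_finRange n).filter _),
    ← card_image_of_injective _ inj]
  refine card_le_card fun v hv => ?_
  obtain ⟨j, hj, rfl⟩ := mem_image.1 hv
  simp only [List.mem_toFinset, List.mem_filter] at hj
  simp [hR i j hj.2]

theorem leaf_spec (nc : ¬ Colr G D) {φ : Fin n → V} (inj : Function.Injective φ) {c : V → ℕ}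
    (hc : PCol G D c) (hu : ∀ v, (∀ i, φ i ≠ v) → c v < D) {s : Fin n → ℕ}
    (hs : ∀ i, #(nb G (φ i)) + s i ≤ D + 1) {R : List (Fin n × Fin n)}
    (hR : ∀ i j, mem2 R i j = true ↔ G.Adj (φ i) (φ j)) (t : ℕ) : leaf s R t = false := by
  by_contra q
  simp only [leaf, Bool.not_eq_false, Bool.and_eq_true, List.all_eq_true, Nat.ble_eq] at q
  obtain ⟨d, d1, d2⟩ := col_of_ok _ t q.2
    (fun i => range D \ (nb G (φ i) \ univ.image φ).image c) fun i => by
      have h1 := q.1 i (List.mem_finRange i)
      have h2 := dg_le inj (fun i j => (hR i j).1) i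
      have h3 := card_sdiff_add_card_inter (nb G (φ i)) (univ.image φ)
      have h4 := card_image_le (s := nb G (φ i) \ univ.image φ) (f := c)
      have h5 := le_card_sdiff ((nb G (φ i) \ univ.image φ).image c) (range D)
      have h6 := hs i
      rw [card_range] at h5
      omega
  have out : ∀ i v, G.Adj (φ i) v → (¬ ∃ j, φ j = v) → d i ≠ c v := fun i v a n e =>
    (mem_sdiff.1 (d1 i)).2 (mem_image.2 ⟨v, by simpa [a] using n, e.symm⟩)
  have ins : ∀ i j, i < j → G.Adj (φ i) (φ j) → d i ≠ d j := fun i j l a =>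
    d2 (i, j) (List.mem_filter.2 ⟨mem_prs l, (hR i j).2 a⟩)
  refine nc ⟨Function.extend φ d c, fun v => ?_, fun u v a => ?_⟩
  · by_cases e : ∃ i, φ i = v
    · obtain ⟨i, rfl⟩ := e
      rw [inj.extend_apply]
      exact mem_range.1 (mem_sdiff.1 (d1 i)).1
    · rw [Function.extend_apply' _ _ _ e]
      exact hu v (not_exists.1 e)
  · by_cases e : ∃ i, φ i = u <;> by_cases e' : ∃ i, φ i = v
    · obtain ⟨i, rfl⟩ := e
      obtain ⟨j, rfl⟩ := e'
      rw [inj.extend_apply, inj.extend_apply]
      rcases lt_trichotomy i j with l | l | l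
      exacts [ins i j l a, absurd (l ▸ a) G.irrefl, (ins j i l a.symm).symm]
    · obtain ⟨i, rfl⟩ := e
      rw [inj.extend_apply, Function.extend_apply' _ _ _ e']
      exact out i v a e'
    · obtain ⟨i, rfl⟩ := e'
      rw [inj.extend_apply, Function.extend_apply' _ _ _ e]
      exact (out i u a.symm e).symm
    · rw [Function.extend_apply' _ _ _ e, Function.extend_apply' _ _ _ e']
      exact hc u v a (hu u (not_exists.1 e))

theorem tree_spec {A : Fin n → Fin n → Prop} (sy : ∀ i j, A i j → A j i) {s : Fin n → ℕ}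
    {sk : List (Fin n × Fin n) → Bool} {C : List ℕ} (F : List (Fin n × Fin n)) :
    ∀ (R : List (Fin n × Fin n)) (k : ℕ), tree s sk C F R k = true → (∀ p ∈ R, A p.1 p.2) →
      (∀ i j, A i j → mem2 R i j = true ∨ mem2 F i j = true) →
      ∃ R' t, (∀ i j, mem2 R' i j = true ↔ A i j) ∧ (sk R' = true ∨ leaf s R' t = true) := by
  induction F with
  | nil =>
    intro R k h h1 h2
    refine ⟨R, _, fun i j => ⟨fun q => ?_, fun q => by simpa [mem2] using h2 i j q⟩,
      by simpa [tree] using h⟩
    exact (mem2_iff.1 q).elim (h1 _) fun z => sy _ _ (h1 _ z)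
  | cons p F ih =>
    intro R k h h1 h2
    rw [tree, Bool.and_eq_true] at h
    by_cases a : A p.1 p.2
    · refine ih _ _ h.1 (by simpa [a] using h1) fun i j q => ?_
      have := h2 i j q
      simp only [mem2_iff, List.mem_cons] at this ⊢
      tauto
    · refine ih _ _ h.2 h1 fun i j q => ?_
      have := h2 i j q
      have n1 : (i, j) ≠ p := fun z => a (z ▸ q)
      have n2 : (j, i) ≠ p := fun z => a (z ▸ sy _ _ q)
      simp only [mem2_iff, List.mem_cons] at this ⊢
      tauto

/-- The general form: the graph induced on the image of `φ` is one of the skipped graphs. -/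
theorem chk_col (nc : ¬ Colr G D) {φ : Fin n → V} (inj : Function.Injective φ) {c : V → ℕ}
    (hc : PCol G D c) (hu : ∀ v, (∀ i, φ i ≠ v) → c v < D) {s : Fin n → ℕ}
    (hs : ∀ i, #(nb G (φ i)) + s i ≤ D + 1) {R N : List (Fin n × Fin n)}
    (hR : ∀ p ∈ R, G.Adj (φ p.1) (φ p.2)) (hN : ∀ p ∈ N, ¬ G.Adj (φ p.1) (φ p.2))
    {sk : List (Fin n × Fin n) → Bool} {C : List ℕ} (h : chk s sk R N C = true) :
    ∃ R', (∀ i j, mem2 R' i j = true ↔ G.Adj (φ i) (φ j)) ∧ sk R' = true := by
  have key : ∀ i j, i < j → G.Adj (φ i) (φ j) → mem2 R i j = true ∨ mem2 ((prs n).filter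
      fun p => !mem2 R p.1 p.2 && !mem2 N p.1 p.2) i j = true := fun i j l a => by
    by_cases r : mem2 R i j = true
    · exact Or.inl r
    · have : ¬ mem2 N i j = true := fun z =>
        (mem2_iff.1 z).elim (fun y => hN _ y a) fun y => hN _ y a.symm
      exact Or.inr (mem2_iff.2 (Or.inl (List.mem_filter.2 ⟨mem_prs l, by simp [r, this]⟩)))
  obtain ⟨R', t, h1, h2⟩ := tree_spec (A := fun i j => G.Adj (φ i) (φ j)) (fun _ _ a => a.symm)
    _ R 0 h hR fun i j a => by
      rcases lt_trichotomy i j with l | l | l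
      · exact key i j l a
      · exact absurd (l ▸ a) G.irrefl
      · simpa only [mem2_iff, or_comm] using key j i l a.symm
  exact ⟨R', h1, h2.resolve_right (by simp [leaf_spec nc inj hc hu hs h1 t])⟩

/-- The form for a critical graph, with skipped graphs. -/
theorem chk_cr' (h : CR G D) (φ : Fin n → V) (inj : Function.Injective φ)
    (R N : List (Fin n × Fin n)) (r0 : R ≠ []) (hR : ∀ p ∈ R, G.Adj (φ p.1) (φ p.2))
    (hN : ∀ p ∈ N, ¬ G.Adj (φ p.1) (φ p.2)) (sk : List (Fin n × Fin n) → Bool) (C : List ℕ)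
    (k : chk (fun _ => 0) sk R N C = true) :
    ∃ R', (∀ i j, mem2 R' i j = true ↔ G.Adj (φ i) (φ j)) ∧ sk R' = true := by
  obtain ⟨p, hp⟩ := List.exists_mem_of_ne_nil R r0
  obtain ⟨c, c1, c2⟩ := h.del (univ.image φ) _ _ (mem_image_of_mem φ (mem_univ p.2)) (hR p hp)
  exact chk_col h.ncol inj c1 (fun v hv => (c2 v).2 (by simpa using hv)) (fun i => h.deg _) hR hN k

/-- The form for a critical graph. -/
theorem chk_cr (h : CR G D) (φ : Fin n → V) (inj : Function.Injective φ)
    (R N : List (Fin n × Fin n)) (r0 : R ≠ []) (hR : ∀ p ∈ R, G.Adj (φ p.1) (φ p.2))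
    (hN : ∀ p ∈ N, ¬ G.Adj (φ p.1) (φ p.2)) (C : List ℕ)
    (k : chk (fun _ => 0) (fun _ => false) R N C = true) : False := by
  obtain ⟨_, -, q⟩ := chk_cr' h φ inj R N r0 hR hN _ C k
  simp at q

/-- Some degree is larger than `B`. -/
def big (B : ℕ) (R : List (Fin n × Fin n)) : Bool :=
  (List.finRange n).any fun i => Nat.blt B (dg R i)

theorem big_false {B : ℕ} (deg : ∀ v, #(nb G v) ≤ B) {φ : Fin n → V} (inj : Function.Injective φ)
    {R : List (Fin n × Fin n)} (hR : ∀ i j, mem2 R i j = true ↔ G.Adj (φ i) (φ j)) :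
    big B R = false := by
  by_contra q
  simp only [big, Bool.not_eq_false, List.any_eq_true, Nat.blt_eq] at q
  obtain ⟨i, -, hi⟩ := q
  have := dg_le inj (fun i j => (hR i j).1) i
  have := card_le_card (inter_subset_left (s₁ := nb G (φ i)) (s₂ := univ.image φ))
  have := deg (φ i)
  omega

/-- The form for a critical graph, without the graphs of too large degree. -/
theorem chk_crB (h : CR G D) {B : ℕ} (hB : D + 1 ≤ B) (φ : Fin n → V)
    (inj : Function.Injective φ) (R N : List (Fin n × Fin n)) (r0 : R ≠ [])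
    (hR : ∀ p ∈ R, G.Adj (φ p.1) (φ p.2)) (hN : ∀ p ∈ N, ¬ G.Adj (φ p.1) (φ p.2)) (C : List ℕ)
    (k : chk (fun _ => 0) (big B) R N C = true) : False := by
  obtain ⟨_, q, q'⟩ := chk_cr' h φ inj R N r0 hR hN _ C k
  simp [big_false (fun v => (h.deg v).trans hB) inj q] at q'

omit [Fintype V] in
/-- Injectivity from the edges `R` and the inequalities `Q`. -/
theorem inj_of (φ : Fin n → V) (R Q : List (Fin n × Fin n))
    (hR : ∀ p ∈ R, G.Adj (φ p.1) (φ p.2)) (hQ : ∀ p ∈ Q, φ p.1 ≠ φ p.2)
    (k : ((prs n).all fun p => mem2 R p.1 p.2 || mem2 Q p.1 p.2) = true) :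
    Function.Injective φ := by
  refine Function.Injective.of_lt_imp_ne fun i j l => ?_
  have := List.all_eq_true.1 k _ (mem_prs l)
  simp only [Bool.or_eq_true, mem2_iff] at this
  rcases this with (q | q) | q | q
  exacts [(hR _ q).ne, (hR _ q).ne', hQ _ q, (hQ _ q).symm]

end Pool.Agent.Lib.MP_12eaff_co.AT
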