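import Pool.Agent.Lib.MP_12eaff_co.ATS

set_option autoImplicit false
set_option linter.unusedSectionVars false

/-!
The static lemmas for graphs whose induced subgraphs off a set `Dm` have bad lists.
-/

namespace Pool.Agent.Lib.MP_12eaff_co.AT

open Finset BK
open scoped Classical

variable {V : Type} [Fintype V] {G : SimpleGraph V} {D : ℕ} {Dm : Finset V} {n : ℕ}

/-- Every set off `Dm` that contains an edge has bad lists of size degree minus one. -/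
def Stat (G : SimpleGraph V) (D : ℕ) (Dm : Finset V) : Prop :=
  ∀ T : Finset V, Disjoint T Dm → ∀ x y, x ∈ T → y ∈ T → G.Adj y x → ∃ L : V → Finset ℕ,
    (∀ v, L v ⊆ range D) ∧ (∀ v ∈ T, #(nb G v ∩ T) ≤ #(L v) + 1) ∧ ¬ LC G T L

theorem _root_.Pool.Agent.Lib.MP_12eaff_co.BK.CR.stat (h : CR G D) : Stat G D Dm :=
  fun T _ _ _ hx _ a => by
    obtain ⟨L, l1, l2, l3⟩ := h.bad T hx a
    exact ⟨L, l1, fun v _ => l2 v, l3⟩

theorem Stat.mono (h : Stat G D Dm) {Dm' : Finset V} (k : Dm ⊆ Dm') : Stat G D Dm' :=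
  fun T hT => h T (hT.mono_right k)

/-- Transfer along a map that is an induced embedding off `Dm'`. -/
theorem Stat.comap (h : Stat G D Dm) {V' : Type} [Fintype V'] {G' : SimpleGraph V'}
    {Dm' : Finset V'} (e : V' → V) (h0 : ∀ v, v ∉ Dm' → e v ∉ Dm)
    (h1 : ∀ u v, u ∉ Dm' → v ∉ Dm' → e u = e v → u = v)
    (h2 : ∀ u v, u ∉ Dm' → v ∉ Dm' → (G'.Adj u v ↔ G.Adj (e u) (e v))) : Stat G' D Dm' := by
  intro T hT x y hx hy a
  have o : ∀ v ∈ T, v ∉ Dm' := fun v hv => disjoint_left.1 hT hv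
  obtain ⟨L, l1, l2, l3⟩ := h (T.image e) (disjoint_left.2 fun v hv => by
    obtain ⟨u, hu, rfl⟩ := mem_image.1 hv
    exact h0 u (o u hu)) _ _ (mem_image_of_mem e hx) (mem_image_of_mem e hy)
    ((h2 y x (o y hy) (o x hx)).1 a)
  refine ⟨fun v => L (e v), fun v => l1 _, fun v hv => ?_, fun ⟨f, f1, f2⟩ => l3 ?_⟩
  · refine le_trans (card_le_card_of_injOn e (fun u hu => ?_) fun u hu w hw q => ?_)
      (l2 _ (mem_image_of_mem e hv))
    · simp only [mem_coe, mem_inter, mem_nb] at hu ⊢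
      exact ⟨(h2 v u (o v hv) (o u hu.2)).1 hu.1, mem_image_of_mem e hu.2⟩
    · simp only [mem_coe, mem_inter] at hu hw
      exact h1 u w (o u hu.2) (o w hw.2) q
  · have : Nonempty V' := ⟨x⟩
    choose! s s1 s2 using fun v (hv : v ∈ T.image e) => mem_image.1 hv
    refine ⟨fun v => f (s v), fun v hv => ?_, fun u hu v hv q => f2 _ (s1 u hu) _ (s1 v hv) ?_⟩
    · simpa [s2 v hv] using f1 _ (s1 v hv)
    · rwa [h2 _ _ (o _ (s1 u hu)) (o _ (s1 v hv)), s2 u hu, s2 v hv]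

theorem leaf_bad {φ : Fin n → V} (inj : Function.Injective φ) {L : V → Finset ℕ} {s : Fin n → ℕ}
    (hL : ∀ i, #(nb G (φ i) ∩ univ.image φ) + s i ≤ #(L (φ i)) + 1)
    (nl : ¬ LC G (univ.image φ) L) {R : List (Fin n × Fin n)}
    (hR : ∀ i j, mem2 R i j = true ↔ G.Adj (φ i) (φ j)) (t : ℕ) : leaf s R t = false := by
  by_contra q
  simp only [leaf, Bool.not_eq_false, Bool.and_eq_true, List.all_eq_true, Nat.ble_eq] at q
  obtain ⟨d, d1, d2⟩ := col_of_ok _ t q.2 (fun i => L (φ i)) fun i => by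
    have h1 := q.1 i (List.mem_finRange i)
    have h2 := dg_le inj (fun i j => (hR i j).1) i
    have h3 := hL i
    omega
  have ins : ∀ i j, i < j → G.Adj (φ i) (φ j) → d i ≠ d j := fun i j l a =>
    d2 (i, j) (List.mem_filter.2 ⟨mem_prs l, (hR i j).2 a⟩)
  refine nl ⟨Function.extend φ d 0, fun v hv => ?_, fun u hu v hv a => ?_⟩
  · obtain ⟨i, -, rfl⟩ := mem_image.1 hv
    rw [inj.extend_apply]
    exact d1 i
  · obtain ⟨i, -, rfl⟩ := mem_image.1 hu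
    obtain ⟨j, -, rfl⟩ := mem_image.1 hv
    rw [inj.extend_apply, inj.extend_apply]
    rcases lt_trichotomy i j with l | l | l
    exacts [ins i j l a, absurd (l ▸ a) G.irrefl, (ins j i l a.symm).symm]

/-- The list form: the graph induced on the image of `φ` is one of the skipped graphs. -/
theorem chk_bad {φ : Fin n → V} (inj : Function.Injective φ) {L : V → Finset ℕ} {s : Fin n → ℕ}
    (hL : ∀ i, #(nb G (φ i) ∩ univ.image φ) + s i ≤ #(L (φ i)) + 1)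
    (nl : ¬ LC G (univ.image φ) L) {R N : List (Fin n × Fin n)}
    (hR : ∀ p ∈ R, G.Adj (φ p.1) (φ p.2)) (hN : ∀ p ∈ N, ¬ G.Adj (φ p.1) (φ p.2))
    {sk : List (Fin n × Fin n) → Bool} {C : List ℕ} (h : chk s sk R N C = true) :
    ∃ R', (∀ i j, mem2 R' i j = true ↔ G.Adj (φ i) (φ j)) ∧ sk R' = true := by
  have key : ∀ i j, i < j → G.Adj (φ i) (φ j) → mem2 R i j = true ∨ mem2 ((prs n).filter
      fun p => !mem2 R p.1 p.2 && !mem2 N p.1 p.2) i j = true := fun i j l a => by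
    by_cases r : mem2 R i j = true
    · exact Or.inl r
    · have : ¬ mem2 N i j = true := fun z =>
        (mem2_iff.1 z).elim (fun y => hN _ y a) fun y => hN _ y a.symm
      exact Or.inr (mem2_iff.2 (Or.inl (List.mem_filter.2 ⟨mem_prs l, by simp [r, this]⟩)))
  obtain ⟨R', t, h1, h2⟩ := tree_spec (A := fun i j => G.Adj (φ i) (φ j)) (fun _ _ a => a.symm)
    _ R 0 h hR fun i j a => by
      rcases lt_trichotomy i j with l | l | l
      · exact key i j l a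
      · exact absurd (l ▸ a) G.irrefl
      · simpa only [mem2_iff, or_comm] using key j i l a.symm
  exact ⟨R', h1, h2.resolve_right (by simp [leaf_bad inj hL nl h1 t])⟩

namespace Stat

theorem chk' (h : Stat G D Dm) (φ : Fin n → V) (inj : Function.Injective φ) (o : ∀ i, φ i ∉ Dm)
    (R N : List (Fin n × Fin n)) (r0 : R ≠ []) (hR : ∀ p ∈ R, G.Adj (φ p.1) (φ p.2))
    (hN : ∀ p ∈ N, ¬ G.Adj (φ p.1) (φ p.2)) (sk : List (Fin n × Fin n) → Bool) (C : List ℕ)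
    (k : chk (fun _ => 0) sk R N C = true) :
    ∃ R', (∀ i j, mem2 R' i j = true ↔ G.Adj (φ i) (φ j)) ∧ sk R' = true := by
  obtain ⟨p, hp⟩ := List.exists_mem_of_ne_nil R r0
  obtain ⟨L, -, l2, l3⟩ := h (univ.image φ) (by simpa [disjoint_left] using o) _ _
    (mem_image_of_mem φ (mem_univ p.2)) (mem_image_of_mem φ (mem_univ p.1)) (hR p hp)
  exact chk_bad inj (fun i => l2 _ (mem_image_of_mem φ (mem_univ i))) l3 hR hN k

theorem chk (h : Stat G D Dm) (φ : Fin n → V) (inj : Function.Injective φ) (o : ∀ i, φ i ∉ Dm)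
    (R N : List (Fin n × Fin n)) (r0 : R ≠ []) (hR : ∀ p ∈ R, G.Adj (φ p.1) (φ p.2))
    (hN : ∀ p ∈ N, ¬ G.Adj (φ p.1) (φ p.2)) (C : List ℕ)
    (k : AT.chk (fun _ => 0) (fun _ => false) R N C = true) : False := by
  obtain ⟨_, -, q⟩ := h.chk' φ inj o R N r0 hR hN _ C k
  simp at q

/-- The check for the join of a clique with a graph on `m` vertices. -/
theorem chk_join (h : Stat G D Dm) {W : Finset V} (hW : IsClq G W) (oW : ∀ w ∈ W, w ∉ Dm) (t : ℕ)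
    {m : ℕ} (ht : t ≤ #W) (ψ : Fin m → V) (inj : Function.Injective ψ) (o : ∀ i, ψ i ∉ Dm)
    (hx : ∀ w ∈ W, ∀ i, G.Adj w (ψ i))
    (R N : List (Fin m × Fin m)) (r0 : jn t R ≠ []) (hR : ∀ p ∈ R, G.Adj (ψ p.1) (ψ p.2))
    (hN : ∀ p ∈ N, ¬ G.Adj (ψ p.1) (ψ p.2)) (C : List ℕ)
    (k : AT.chk (fun _ => 0) (fun _ => false) (jn t R) (sh t N) C = true) : False := by
  obtain ⟨φ, f1, f2, f0, f3⟩ := join_emb hW ht ψ inj hx
  refine h.chk φ f1 (fun i => ?_) _ (sh t N) r0 (f3 R hR) (fun p hp => ?_) C k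
  · induction i using Fin.addCases with
    | left i => exact oW _ (f0 i)
    | right i => exact f2 i ▸ o i
  · obtain ⟨r, hr, rfl⟩ := List.mem_map.1 hp
    simpa [f2] using hN r hr

/-- No two disjoint non-edges in the common neighbourhood of a `K4`. -/
theorem k4two (h : Stat G D Dm) {W : Finset V} (hW : IsClq G W)
    (oW : ∀ w ∈ W, w ∉ Dm) (h4 : 4 ≤ #W) {a b c d : V}
    (o : a ∉ Dm ∧ b ∉ Dm ∧ c ∉ Dm ∧ d ∉ Dm)
    (hx : ∀ w ∈ W, G.Adj w a ∧ G.Adj w b ∧ G.Adj w c ∧ G.Adj w d) (ab : a ≠ b) (cd : c ≠ d)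
    (ac : a ≠ c) (ad : a ≠ d) (bc : b ≠ c) (bd : b ≠ d) (n : ¬ G.Adj a b) (n' : ¬ G.Adj c d) :
    False :=
  chk_join h hW oW 4 h4 ![a, b, c, d]
    (inj_of (G := G) _ [] [(0, 1), (0, 2), (0, 3), (1, 2), (1, 3), (2, 3)] (by simp) (by simp [*])
      (by decide))
    (by simpa [Fin.forall_fin_succ] using o)
    (fun w hw => by simpa [Fin.forall_fin_succ] using hx w hw) [] [(0, 1), (2, 3)] (by decide)
    (by simp) (by simp [*])
    [572662597, 573711173, 573711173, 859984944, 572728133, 1110660144, 573776709, 1128420400,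
      572728133, 573776709, 607343664, 876762160, 858018864, 1126454320, 874796080, 1145324801]
    (by decide +kernel)

/-- No independent triple in the common neighbourhood of a `K6`. -/
theorem k6e3 (h : Stat G D Dm) {W : Finset V} (hW : IsClq G W)
    (oW : ∀ w ∈ W, w ∉ Dm) (h6 : 6 ≤ #W) {a b c : V}
    (o : a ∉ Dm ∧ b ∉ Dm ∧ c ∉ Dm)
    (hx : ∀ w ∈ W, G.Adj w a ∧ G.Adj w b ∧ G.Adj w c) (ab : a ≠ b) (ac : a ≠ c) (bc : b ≠ c)
    (n1 : ¬ G.Adj a b) (n2 : ¬ G.Adj a c) (n3 : ¬ G.Adj b c) : False :=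
  chk_join h hW oW 6 h6 ![a, b, c]
    (inj_of (G := G) _ [] [(0, 1), (0, 2), (1, 2)] (by simp) (by simp [*]) (by decide))
    (by simpa [Fin.forall_fin_succ] using o)
    (fun w hw => by simpa [Fin.forall_fin_succ] using hx w hw) [] [(0, 1), (0, 2), (1, 2)]
    (by decide) (by simp) (by simp [*]) [18324280353] (by decide +kernel)

/-- No induced path `a b c d` in the common neighbourhood of a triangle. -/
theorem k3p4 (h : Stat G D Dm) {W : Finset V} (hW : IsClq G W)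
    (oW : ∀ w ∈ W, w ∉ Dm) (h3 : 3 ≤ #W) {a b c d : V}
    (o : a ∉ Dm ∧ b ∉ Dm ∧ c ∉ Dm ∧ d ∉ Dm)
    (hx : ∀ w ∈ W, G.Adj w a ∧ G.Adj w b ∧ G.Adj w c ∧ G.Adj w d) (ab : G.Adj a b)
    (bc : G.Adj b c) (cd : G.Adj c d) (ac : ¬ G.Adj a c) (ad : ¬ G.Adj a d) (bd : ¬ G.Adj b d) :
    False :=
  chk_join h hW oW 3 h3 ![a, b, c, d]
    (inj_of (G := G) _ [(0, 1), (1, 2), (2, 3)] [(0, 2), (0, 3), (1, 3)] (by simp [*])
      (by
        have : a ≠ c := fun z => ad (z ▸ cd)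
        have : a ≠ d := fun z => ac (z ▸ cd.symm)
        have : b ≠ d := fun z => ad (z ▸ ab)
        simp [*])
      (by decide))
    (by simpa [Fin.forall_fin_succ] using o)
    (fun w hw => by simpa [Fin.forall_fin_succ] using hx w hw) [(0, 1), (1, 2), (2, 3)]
    [(0, 2), (0, 3), (1, 3)] (by decide) (by simp [*]) (by simp [*]) [36901938]
    (by decide +kernel)

/-- No induced cycle `a c b d` in the common neighbourhood of an edge. -/
theorem k2c4 (h : Stat G D Dm) {W : Finset V} (hW : IsClq G W)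
    (oW : ∀ w ∈ W, w ∉ Dm) (h2 : 2 ≤ #W) {a b c d : V}
    (o : a ∉ Dm ∧ b ∉ Dm ∧ c ∉ Dm ∧ d ∉ Dm)
    (hx : ∀ w ∈ W, G.Adj w a ∧ G.Adj w b ∧ G.Adj w c ∧ G.Adj w d) (ab : a ≠ b) (cd : c ≠ d)
    (ac : G.Adj a c) (ad : G.Adj a d) (bc : G.Adj b c) (bd : G.Adj b d) (n : ¬ G.Adj a b)
    (n' : ¬ G.Adj c d) : False :=
  chk_join h hW oW 2 h2 ![a, b, c, d]
    (inj_of (G := G) _ [(0, 2), (0, 3), (1, 2), (1, 3)] [(0, 1), (2, 3)] (by simp [*])
      (by simp [*]) (by decide))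
    (by simpa [Fin.forall_fin_succ] using o)
    (fun w hw => by simpa [Fin.forall_fin_succ] using hx w hw) [(0, 2), (0, 3), (1, 2), (1, 3)]
    [(0, 1), (2, 3)] (by decide) (by simp [*]) (by simp [*]) [2236963] (by decide +kernel)

/-- The common neighbourhood of a `K4` is almost complete, or an independent triple with at most
one more vertex. -/
theorem k4nb (h : Stat G D Dm) {W B : Finset V} (hW : IsClq G W) (h4 : 4 ≤ W.card)
    (oW : ∀ w ∈ W, w ∉ Dm) (oB : ∀ w ∈ B, w ∉ Dm)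
    (hB : ∀ b ∈ B, ∀ w ∈ W, G.Adj w b) : (∃ u, IsClq G (B.erase u)) ∨
      ∃ a ∈ B, ∃ b ∈ B, ∃ c ∈ B, a ≠ b ∧ a ≠ c ∧ b ≠ c ∧ ¬ G.Adj a b ∧ ¬ G.Adj a c ∧ ¬ G.Adj b c ∧
        (∀ x ∈ B, x ≠ a → x ≠ b → x ≠ c → ∀ y ∈ B, y ≠ x → G.Adj x y) ∧ W.card + B.card ≤ 8 := by
  rw [or_iff_not_imp_left]
  intro n
  have ne : ∀ u, ∃ c ∈ B, ∃ d ∈ B, c ≠ u ∧ d ≠ u ∧ c ≠ d ∧ ¬ G.Adj c d := fun u => by
    by_contra! k
    exact n ⟨u, fun c hc d hd => k c (mem_of_mem_erase hc) d (mem_of_mem_erase hd)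
      (ne_of_mem_erase hc) (ne_of_mem_erase hd)⟩
  have T : ∀ a ∈ B, ∀ b ∈ B, ∀ c ∈ B, ∀ d ∈ B, a ≠ b → c ≠ d → ¬ G.Adj a b → ¬ G.Adj c d →
      a = c ∨ a = d ∨ b = c ∨ b = d := fun a ha b hb c hc d hd e1 e2 k1 k2 => by
    by_contra! k
    exact k4two h hW oW h4 ⟨oB a ha, oB b hb, oB c hc, oB d hd⟩ (fun w z => ⟨hB a ha w z, hB b hb w z, hB c hc w z, hB d hd w z⟩) e1 e2
      k.1 k.2.1 k.2.2.1 k.2.2.2 k1 k2
  obtain ⟨t, -⟩ := card_pos.1 (by omega : 0 < W.card)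
  obtain ⟨a, ha, b, hb, -, -, ab, k⟩ := ne t
  obtain ⟨c, hc, c1, c2, c3⟩ : ∃ c ∈ B, c ≠ a ∧ c ≠ b ∧ ¬ G.Adj b c := by
    obtain ⟨c, hc, d, hd, x1, x2, x3, x4⟩ := ne a
    have := T a ha b hb c hc d hd ab x3 k x4
    have := G.adj_comm c d
    grind
  have d3 : ¬ G.Adj a c := by
    obtain ⟨x, hx, y, hy, x1, x2, x3, x4⟩ := ne b
    have := T a ha b hb x hx y hy ab x3 k x4
    have := T b hb c hc x hx y hy c2.symm x3 c3 x4
    have := G.adj_comm x y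
    grind
  have un : ∀ x ∈ B, x ≠ a → x ≠ b → x ≠ c → ∀ y ∈ B, y ≠ x → G.Adj x y :=
    fun x hx x1 x2 x3 y hy e => by
      by_contra z
      have := T x hx y hy a ha b hb e.symm ab z k
      have := T x hx y hy a ha c hc e.symm c1.symm z d3
      have := T x hx y hy b hb c hc e.symm c2.symm z c3
      grind
  refine ⟨a, ha, b, hb, c, hc, ab, c1.symm, c2.symm, k, d3, c3, un, not_lt.1 fun l => ?_⟩
  have m : ∀ x, x ∈ ((B.erase a).erase b).erase c ↔ x ∈ B ∧ x ≠ a ∧ x ≠ b ∧ x ≠ c := fun x => by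
    simp only [mem_erase]; tauto
  have := card_erase_add_one ha
  have := card_erase_add_one (mem_erase.2 ⟨ab.symm, hb⟩)
  have := card_erase_add_one (mem_erase.2 ⟨c2, mem_erase.2 ⟨c1, hc⟩⟩)
  have := card_union_of_disjoint (s := W) (t := ((B.erase a).erase b).erase c)
    (disjoint_left.2 fun x p q => (hB x ((m x).1 q).1 x p).ne rfl)
  refine k6e3 h (W := W ∪ ((B.erase a).erase b).erase c) (fun x hx y hy e => ?_)
    (fun x hx => (mem_union.1 hx).elim (oW x) fun p => oB x ((m x).1 p).1) (by omega)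
    ⟨oB a ha, oB b hb, oB c hc⟩ (fun x hx => ?_) ab c1.symm c2.symm k d3 c3
  · simp only [mem_union, m] at hx hy
    rcases hx with p | p <;> rcases hy with q | q
    exacts [hW x p y q e, hB y q.1 x p, (hB x p.1 y q).symm,
      un x p.1 p.2.1 p.2.2.1 p.2.2.2 y q.1 e.symm]
  · simp only [mem_union, m] at hx
    rcases hx with p | p
    · exact ⟨hB a ha x p, hB b hb x p, hB c hc x p⟩
    · exact ⟨un x p.1 p.2.1 p.2.2.1 p.2.2.2 a ha p.2.1.symm,
        un x p.1 p.2.1 p.2.2.1 p.2.2.2 b hb p.2.2.1.symm,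
        un x p.1 p.2.1 p.2.2.1 p.2.2.2 c hc p.2.2.2.symm⟩

/-- Two cliques with four common vertices form an almost complete graph. -/
theorem two4 (h : Stat G D Dm) {A B : Finset V} (hA : IsClq G A) (hB : IsClq G B)
    (o : ∀ w ∈ A ∪ B, w ∉ Dm)
    (h4 : 4 ≤ (A ∩ B).card) : ∃ u, IsClq G ((A ∪ B).erase u) := by
  have ad : ∀ b ∈ A ∪ B, ∀ w ∈ A ∩ B, w ≠ b → G.Adj w b := fun b p w q e =>
    (mem_union.1 p).elim (fun p => hA w (mem_inter.1 q).1 b p e) fun p => hB w (mem_inter.1 q).2 b p e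
  rcases k4nb h (B := (A ∪ B) \ (A ∩ B)) (fun a p b q => hA a (mem_inter.1 p).1 b (mem_inter.1 q).1)
    h4 (fun w p => o w (mem_union_left _ (mem_inter.1 p).1)) (fun w p => o w (mem_sdiff.1 p).1)
    (fun b p w q => ad b (mem_sdiff.1 p).1 w q fun e => (mem_sdiff.1 p).2 (e ▸ q)) with
    ⟨u, k⟩ | ⟨a, ha, b, hb, c, hc, e1, e2, e3, n1, n2, n3, -⟩
  · refine ⟨u, fun x p y q e => ?_⟩
    rw [mem_erase] at p q
    by_cases p' : x ∈ A ∩ B
    · exact ad y q.2 x p' e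
    by_cases q' : y ∈ A ∩ B
    · exact (ad x p.2 y q' e.symm).symm
    exact k x (mem_erase.2 ⟨p.1, mem_sdiff.2 ⟨p.2, p'⟩⟩) y (mem_erase.2 ⟨q.1, mem_sdiff.2 ⟨q.2, q'⟩⟩) e
  · have := mem_union.1 (mem_sdiff.1 ha).1
    have := mem_union.1 (mem_sdiff.1 hb).1
    have := mem_union.1 (mem_sdiff.1 hc).1
    grind [IsClq]

/-- A triangle joined to `K4 - ab` and a vertex `z` that misses a vertex `x` of the middle edge. -/
theorem k3dia (h : Stat G D Dm) {W : Finset V} (hW : IsClq G W)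
    (oW : ∀ w ∈ W, w ∉ Dm) (h3 : 3 ≤ #W) {x y a b z : V}
    (o : x ∉ Dm ∧ y ∉ Dm ∧ a ∉ Dm ∧ b ∉ Dm ∧ z ∉ Dm)
    (hx : ∀ w ∈ W, G.Adj w x ∧ G.Adj w y ∧ G.Adj w a ∧ G.Adj w b ∧ G.Adj w z) (xy : G.Adj x y)
    (xa : G.Adj x a) (xb : G.Adj x b) (ya : G.Adj y a) (yb : G.Adj y b) (ab : a ≠ b) (xz : x ≠ z)
    (n : ¬ G.Adj a b) (n' : ¬ G.Adj x z) : False :=
  chk_join h hW oW 3 h3 ![x, y, a, b, z]
    (inj_of (G := G) _ [(0, 1), (0, 2), (0, 3), (1, 2), (1, 3)]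
      [(2, 3), (0, 4), (1, 4), (2, 4), (3, 4)] (by simp [*])
      (by
        have : y ≠ z := fun e => n' (e ▸ xy)
        have : a ≠ z := fun e => n' (e ▸ xa)
        have : b ≠ z := fun e => n' (e ▸ xb)
        simp [*])
      (by decide))
    (by simpa [Fin.forall_fin_succ] using o)
    (fun w hw => by simpa [Fin.forall_fin_succ] using hx w hw)
    [(0, 1), (0, 2), (0, 3), (1, 2), (1, 3)] [(2, 3), (0, 4)] (by decide) (by simp [*])
    (by simp [*])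
    [322176323, 607274064, 591545424, 876692560, 590693424, 874857520, 843400240, 1145324801]
    (by decide +kernel)

/-- A vertex with three neighbours in the core of a clique with two twins is complete to it. -/
theorem core_three (h : Stat G D Dm) {Y : Finset V} (hY : IsClq G Y) (h5 : 5 ≤ #Y) {a b z : V}
    (oY : ∀ w ∈ Y, w ∉ Dm) (o : a ∉ Dm ∧ b ∉ Dm ∧ z ∉ Dm)
    (hx : ∀ y ∈ Y, G.Adj y a ∧ G.Adj y b) (ab : a ≠ b) (n : ¬ G.Adj a b) (hz : z ∉ Y)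
    (h3 : 3 ≤ #(Y.filter (G.Adj z))) : ∀ x ∈ Y, G.Adj z x := by
  intro x x1
  by_contra k
  obtain ⟨W, w1, cW⟩ := exists_subset_card_eq h3
  have w2 : ∀ w ∈ W, w ∈ Y ∧ G.Adj z w := fun w p => mem_filter.1 (w1 p)
  obtain ⟨y, y1, y2⟩ := exists_mem_notMem_of_card_lt_card (s := insert x W) (t := Y)
    ((card_insert_le _ _).trans_lt (by omega))
  rw [mem_insert, not_or] at y2
  exact k3dia h (fun p hp q hq => hY p (w2 p hp).1 q (w2 q hq).1)
    (fun w p => oY w (w2 w p).1) cW.ge ⟨oY x x1, oY y y1, o⟩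
    (fun w p => ⟨hY w (w2 w p).1 x x1 fun e => k (e ▸ (w2 w p).2),
      hY w (w2 w p).1 y y1 fun e => y2.2 (e ▸ p), (hx w (w2 w p).1).1, (hx w (w2 w p).1).2,
      (w2 w p).2.symm⟩) (hY x x1 y y1 (Ne.symm y2.1)) (hx x x1).1 (hx x x1).2 (hx y y1).1
    (hx y y1).2 ab (fun e => hz (e ▸ x1)) n fun e => k e.symm

end Stat

end Pool.Agent.Lib.MP_12eaff_co.AT
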