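import Mathlib
import Pool.Agent.Lib.MP_12eaff_co.BK.RS
import Pool.Agent.Lib.MP_12eaff_co.BK.TSE
import Pool.Agent.Lib.MP_12eaff_co.BK.E3b
import Pool.Agent.Lib.MP_12eaff_co.BK.Ext

set_option autoImplicit false

namespace Pool.Agent.Lib.MP_12eaff_co.BK

open Finset
open scoped Classical

variable {V : Type} [Fintype V] {G : SimpleGraph V} {D : ℕ}

open RA in
theorem same8 (h : MC G D) (ts : TSst G D) (e3 : E3st G D) (hD : 7 ≤ D) {Q : Finset V}
    (hQ : IsClq G Q) (hc : Q.card = D) {z y : V} (hz : z ∉ Q)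
    (hT : 5 ≤ (Q.filter (G.Adj z)).card) (hy : y ∉ insert z Q)
    (ay : ∀ x ∈ Q.filter (G.Adj z), G.Adj y x) : False := by
  obtain ⟨x1, h1, x2, h2, h12⟩ := (one_lt_card (s := Q.filter (G.Adj z))).mp (by omega)
  have b1 := ay _ h1
  have b2 := ay _ h2
  rw [mem_filter] at h1 h2
  rw [mem_insert, not_or] at hy
  have dq : ∀ q ∈ Q, ∀ v, (∀ a ∈ Q, a ≠ q → G.Adj v a) → D ≤ dX G x1 x2 v + 1 := fun q hq v hv => by
    have := dX_ge hQ h1.1 h2.1 (erase_subset q Q) fun a ha =>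
      hv a (mem_erase.mp ha).2 (mem_erase.mp ha).1
    have := card_erase_of_mem hq
    omega
  have dq' : ∀ q ∈ Q, D ≤ dX G x1 x2 q + 1 := fun q hq =>
    dq q hq q fun a ha e => hQ _ hq _ ha e.symm
  have dz := dX_ge hQ h1.1 h2.1 (filter_subset (G.Adj z) Q) fun a ha => (mem_filter.mp ha).2
  have dy := dX_ge hQ h1.1 h2.1 (filter_subset (G.Adj z) Q) ay
  have ad : ∀ {v x q}, x ∈ Q → q ∈ Q → G.Adj v x → ¬ G.Adj v q → G.Adj x q :=
    fun hx hq a b => hQ _ hx _ hq fun e => b (e ▸ a)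
  have key : ∀ q ∈ Q, ∀ q' ∈ Q, ¬ G.Adj z q → ¬ G.Adj y q' → q = q' := by
    intro q hq q' hq' n n'
    by_contra e
    have := dq' q hq
    have := dq' q' hq'
    exact ts x1 x2 z q y q' (hQ _ h1.1 _ h2.1 h12) h1.2.symm (ad h1.1 hq h1.2 n) b1.symm
      (ad h1.1 hq' b1 n') h2.2.symm (ad h2.1 hq h2.2 n) b2.symm (ad h2.1 hq' b2 n')
      (fun k => hz (k ▸ hq)) (fun k => hy.2 (k ▸ hq')) (fun k => hy.1 k.symm)
      (fun k => hz (k ▸ hq')) (fun k => hy.2 (k ▸ hq)) e n n' (by omega) (by omega)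
  obtain ⟨q, hq, n⟩ := miss h hQ hc z
  obtain ⟨q', hq', n'⟩ := miss h hQ hc y
  obtain rfl := key q hq q' hq' n n'
  have az : ∀ a ∈ Q, a ≠ q → G.Adj z a := fun a ha e => by
    by_contra k
    exact e (key a ha q hq k n')
  have ay' : ∀ a ∈ Q, a ≠ q → G.Adj y a := fun a ha e => by
    by_contra k
    exact e (key q hq a ha n k).symm
  have nzy : ¬ G.Adj z y := nonadj h (W := Q.erase q)
    (fun a ha b hb => hQ a (mem_erase.mp ha).2 b (mem_erase.mp hb).2)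
    (by rw [card_erase_of_mem hq]; omega)
    (fun a ha => az a (mem_erase.mp ha).2 (mem_erase.mp ha).1)
    fun a ha => ay' a (mem_erase.mp ha).2 (mem_erase.mp ha).1
  have := dq q hq z az
  have := dq q hq y ay'
  have := dq' q hq
  exact e3 x1 x2 z y q (hQ _ h1.1 _ h2.1 h12) h1.2.symm b1.symm (ad h1.1 hq h1.2 n) h2.2.symm
    b2.symm (ad h2.1 hq h2.2 n) (fun k => hy.1 k.symm) (fun k => hz (k ▸ hq))
    (fun k => hy.2 (k ▸ hq)) nzy n n' (by omega)

theorem ra8 (h : MC G D) (hD : 8 ≤ D) : RAst G D := by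
  intro Q z hQ hc hz
  by_contra hT
  replace hT : 5 ≤ (Q.filter (G.Adj z)).card := by omega
  have sub : ∀ x ∈ Q.filter (G.Adj z), x ∈ insert z Q := fun x hx =>
    mem_insert_of_mem (mem_filter.mp hx).1
  by_cases h1 : ∀ x ∈ Q.filter (G.Adj z), ∃ y, G.Adj x y ∧ y ∉ insert z Q
  swap
  · push Not at h1
    obtain ⟨x1, h1, k⟩ := h1
    obtain ⟨x2, h2, n2⟩ := exists_mem_notMem_of_card_lt_card (s := {x1})
      (t := Q.filter (G.Adj z)) (by rw [card_singleton]; omega)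
    obtain ⟨c, c1, c2⟩ := col_del h (insert z Q) (sub _ h1) (mem_filter.mp h1).2
    exact RA.core h hQ hc hz hT h1 h2 (fun e => n2 (mem_singleton.mpr e)) c1 c2
      fun y _ a b => absurd (k y a) b
  choose! y ya yb using h1
  have bad : ∀ x1 ∈ Q.filter (G.Adj z), ∀ x2 ∈ Q.filter (G.Adj z), y x1 ≠ y x2 →
      ∃ W, IsClq G W ∧ (∀ a ∈ W, G.Adj (y x1) a ∧ G.Adj (y x2) a ∧ a ∉ insert z Q) ∧
        D ≤ W.card + 1 := by
    intro x1 h1 x2 h2 hne
    by_contra k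
    push Not at k
    obtain ⟨c, c1, c2, c3⟩ := col_delAdd h (insert z Q) (sub _ h1) (sub _ h2) (ya _ h1).symm
      (ya _ h2).symm fun _ _ _ W a b => k W a b
    refine RA.core h hQ hc hz hT h1 h2 (fun e => hne (e ▸ rfl)) c1 c2 fun u u' a b a' b' => ?_
    rw [RA.uniq h hQ hc hz h1 a b (ya _ h1) (yb _ h1),
      RA.uniq h hQ hc hz h2 a' b' (ya _ h2) (yb _ h2)]
    exact c3 hne (yb _ h1) (yb _ h2)
  obtain ⟨x1, h1⟩ := (card_pos (s := Q.filter (G.Adj z))).mp (by omega)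
  by_cases h4 : ∀ x ∈ Q.filter (G.Adj z), y x1 = y x
  · exact same8 h (ts h) (e3 h) (by omega) hQ hc hz hT (yb _ h1) fun x hx => h4 x hx ▸ (ya x hx).symm
  push Not at h4
  obtain ⟨x2, h2, n12⟩ := h4
  obtain ⟨W, w1, w2, w3⟩ := bad x1 h1 x2 h2 n12
  have few : ∀ v, (∀ a ∈ W, G.Adj v a) → ((Q.filter (G.Adj z)).filter (G.Adj v)).card ≤ 2 := by
    intro v hv
    have := RA.two h v ((Q.filter (G.Adj z)).filter (G.Adj v)) W
      (disjoint_left.mpr fun a ha hb => (w2 a hb).2.2 (sub a (mem_filter.mp ha).1))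
      (fun a ha => (mem_filter.mp ha).2) hv
    omega
  have f1 := few _ fun a ha => (w2 a ha).1
  have f2 := few _ fun a ha => (w2 a ha).2.1
  obtain ⟨x3, h3, n3⟩ := exists_mem_notMem_of_card_lt_card (t := Q.filter (G.Adj z))
    (s := (Q.filter (G.Adj z)).filter (G.Adj (y x1)) ∪ (Q.filter (G.Adj z)).filter (G.Adj (y x2)))
    (lt_of_le_of_lt (card_union_le _ _) (by omega))
  rw [mem_union, not_or] at n3
  have n13 : y x1 ≠ y x3 := fun e => n3.1 (mem_filter.mpr ⟨h3, e ▸ (ya _ h3).symm⟩)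
  have n23 : y x2 ≠ y x3 := fun e => n3.2 (mem_filter.mpr ⟨h3, e ▸ (ya _ h3).symm⟩)
  obtain ⟨W', v1, v2, v3⟩ := bad x1 h1 x3 h3 n13
  obtain ⟨W'', u1, u2, u3⟩ := bad x2 h2 x3 h3 n23
  have s1 := RA.two h (y x1) {x1} (W ∪ W') (disjoint_singleton_left.mpr fun k =>
      (mem_union.mp k).elim (fun k => (w2 _ k).2.2 (sub _ h1)) fun k => (v2 _ k).2.2 (sub _ h1))
    (fun a ha => mem_singleton.mp ha ▸ (ya _ h1).symm)
    fun a k => (mem_union.mp k).elim (fun k => (w2 _ k).1) fun k => (v2 _ k).1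
  rw [card_singleton] at s1
  have s2 := card_union_add_card_inter W W'
  exact e3b h (W ∩ W') (y x1) (y x2) (y x3)
    (fun a ha b hb => w1 a (mem_inter.mp ha).1 b (mem_inter.mp hb).1) (by omega) (by omega)
    n12 n13 n23 (RA.nonadj h w1 w3 (fun a ha => (w2 a ha).1) fun a ha => (w2 a ha).2.1)
    (RA.nonadj h v1 v3 (fun a ha => (v2 a ha).1) fun a ha => (v2 a ha).2.1)
    (RA.nonadj h u1 u3 (fun a ha => (u2 a ha).1) fun a ha => (u2 a ha).2.1) fun x hx =>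
      ⟨(w2 x (mem_inter.mp hx).1).1.symm, (w2 x (mem_inter.mp hx).1).2.1.symm,
        (v2 x (mem_inter.mp hx).2).2.1.symm⟩

/-- A set with few missing edges, at most two at each vertex, is small. -/
theorem near (h : MC G D) (hD : 8 ≤ D) (Q S : Finset V) (hS : S.card ≤ 7)
    (un : ∀ a ∈ Q, ∀ b ∈ Q, a ≠ b → ¬ G.Adj a b → a ∈ S)
    (two : ∀ a ∈ Q, ∃ N : Finset V, N.card ≤ 2 ∧ ∀ b ∈ Q, a ≠ b → ¬ G.Adj a b → b ∈ N) :
    Q.card ≤ D := by
  by_contra n
  have big : ∀ a ∈ Q, ∀ R ⊆ Q, R.card ≤ ((R.erase a).filter (G.Adj a)).card + 3 := by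
    intro a ha R hR
    obtain ⟨N, n1, n2⟩ := two a ha
    have := card_le_card (s := R) (t := insert a ((R.erase a).filter (G.Adj a) ∪ N)) fun b hb => by
      by_cases e : a = b
      · simp [e]
      · by_cases k : G.Adj a b
        · simp [k, hb, Ne.symm e]
        · simp [n2 b (hR hb) e k]
    have := card_insert_le a ((R.erase a).filter (G.Adj a) ∪ N)
    have := card_union_le ((R.erase a).filter (G.Adj a)) N
    omega
  have T : ∀ a ∈ Q, ∀ b ∈ Q, ∀ c ∈ Q, ∀ d ∈ Q, a ≠ b → c ≠ d → a ≠ c → a ≠ d → b ≠ c → b ≠ d →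
      ¬ G.Adj a b → ¬ G.Adj c d → False := by
    intro a ha b hb c hc d hd e1 e2 e3 e4 e5 e6 k1 k2
    have := le_card_sdiff S Q
    obtain ⟨x, hx, y, hy, e⟩ := (one_lt_card (s := Q \ S)).1 (by omega)
    rw [mem_sdiff] at hx hy
    have ad : ∀ {x}, x ∈ Q ∧ x ∉ S → ∀ v ∈ Q, v = x ∨ G.Adj x v := fun hx v hv => by
      by_contra! k
      exact hx.2 (un _ hx.1 v hv k.1.symm k.2)
    have ad' : ∀ {x}, x ∈ Q ∧ x ∉ S → ∀ v ∈ Q, v ∈ S → G.Adj x v := fun hx v hv k =>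
      (ad hx v hv).resolve_left fun e => hx.2 (e ▸ k)
    have dx : ∀ v ∈ Q, D ≤ dX G x y v + 2 := fun v hv => by
      have := big v hv Q Subset.rfl
      have : ((Q.erase v).filter (G.Adj v)).card ≤ dX G x y v := card_le_card fun u hu => by
        obtain ⟨u1, u2⟩ := mem_filter.1 hu
        exact mem_filter.2 ⟨mem_nb.2 u2, ad hx u (mem_of_mem_erase u1),
          ad hy u (mem_of_mem_erase u1)⟩
      omega
    have sa := un a ha b hb e1 k1
    have sb := un b hb a ha e1.symm fun k => k1 k.symm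
    have sc := un c hc d hd e2 k2
    have sd := un d hd c hc e2.symm fun k => k2 k.symm
    have := dx a ha
    have := dx b hb
    have := dx c hc
    have := dx d hd
    exact ts h x y a b c d ((ad hx y hy.1).resolve_left e.symm) (ad' hx a ha sa) (ad' hx b hb sb)
      (ad' hx c hc sc) (ad' hx d hd sd) (ad' hy a ha sa) (ad' hy b hb sb) (ad' hy c hc sc)
      (ad' hy d hd sd) e1 e2 e3 e4 e5 e6 k1 k2 (by omega) (by omega)
  have star : ∀ a ∈ Q, ∃ c ∈ Q, ∃ d ∈ Q, c ≠ a ∧ d ≠ a ∧ c ≠ d ∧ ¬ G.Adj c d := by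
    intro a ha
    by_contra! k
    have cl : IsClq G (Q.erase a) := fun c hc d hd e =>
      k c (mem_of_mem_erase hc) d (mem_of_mem_erase hd) (ne_of_mem_erase hc) (ne_of_mem_erase hd) e
    have := h.cf _ cl
    have := card_erase_of_mem ha
    have := ra8 h hD _ a cl (by omega) (notMem_erase _ _)
    have := big a ha Q Subset.rfl
    omega
  obtain ⟨x, hx⟩ := (card_pos (s := Q)).1 (by omega)
  obtain ⟨a, ha, b, hb, -, -, ab, k⟩ := star x hx
  have one : ∀ a ∈ Q, ∀ b ∈ Q, a ≠ b → ¬ G.Adj a b → ∃ c ∈ Q, c ≠ a ∧ c ≠ b ∧ ¬ G.Adj b c := by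
    intro a ha b hb ab k
    obtain ⟨c, hc, d, hd, e1, e2, e3, k'⟩ := star a ha
    by_cases x : c = b
    · exact ⟨d, hd, e2, fun e => e3 (x.trans e.symm), x ▸ k'⟩
    by_cases y : d = b
    · exact ⟨c, hc, e1, x, fun z => k' (y ▸ z.symm)⟩
    exact (T a ha b hb c hc d hd ab e3 e1.symm e2.symm (Ne.symm x) (Ne.symm y) k k').elim
  obtain ⟨c, hc, c1, c2, c3⟩ := one a ha b hb ab k
  obtain ⟨d, hd, d1, d2, d3⟩ := one b hb a ha ab.symm fun z => k z.symm
  obtain rfl : c = d := by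
    by_contra e
    exact T a ha d hd b hb c hc d2.symm c2.symm ab c1.symm d1 (Ne.symm e) d3 c3
  have mW : ∀ x ∈ ((Q.erase a).erase b).erase c, x ∈ Q ∧ x ≠ a ∧ x ≠ b ∧ x ≠ c := fun x hx => by
    simp only [mem_erase] at hx
    tauto
  have := card_erase_of_mem ha
  have := card_erase_of_mem (mem_erase.2 ⟨ab.symm, hb⟩)
  have := card_erase_of_mem (mem_erase.2 ⟨c2, mem_erase.2 ⟨c1, hc⟩⟩)
  refine e3b h (((Q.erase a).erase b).erase c) a b c (fun x hx y hy e => ?_) (by omega) (by omega)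
    ab c1.symm c2.symm k d3 c3 fun x hx => ?_
  · obtain ⟨x1, x2, x3, -⟩ := mW x hx
    obtain ⟨y1, y2, y3, -⟩ := mW y hy
    by_contra z
    exact T a ha b hb x x1 y y1 ab e x2.symm y2.symm x3.symm y3.symm k z
  · obtain ⟨x1, x2, x3, x4⟩ := mW x hx
    refine ⟨by_contra fun z => ?_, by_contra fun z => ?_, by_contra fun z => ?_⟩
    · exact T x x1 a ha b hb c hc x2 c2.symm x3 x4 ab c1.symm z c3
    · exact T x x1 b hb a ha c hc x3 c1.symm x2 x4 ab.symm c2.symm z d3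
    · exact T x x1 c hc a ha b hb x4 ab x2 x3 c1 c2 z k

/-- `w` has a neighbour outside `Q` with colour `γ`. -/
def Sees (G : SimpleGraph V) (Q : Finset V) (c : V → ℕ) (w : V) (γ : ℕ) : Prop :=
  ∃ e, G.Adj w e ∧ e ∉ Q ∧ c e = γ

theorem out2 (h : MC G D) {Q : Finset V} (hQ : IsClq G Q) (cQ : Q.card = D) {w : V} (hw : w ∈ Q) :
    (nb G w \ Q).card ≤ 2 :=
  sel_out h.deg cQ (sel_mem_uni.2 ⟨hw, fun y hy e => hQ w hw y hy e.symm⟩)

/-- The two patterns that block a largest clique. -/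
theorem hallK (h : MC G D) {Q : Finset V} (hQ : IsClq G Q) (cQ : Q.card = D) {c : V → ℕ}
    (c1 : PCol G D c) (c2 : ∀ v, c v < D ↔ v ∉ Q) : (∃ γ, ∀ w ∈ Q, Sees G Q c w γ) ∨
      ∃ γ ζ w0, γ ≠ ζ ∧ ∀ w ∈ Q, w ≠ w0 → Sees G Q c w γ ∧ Sees G Q c w ζ := by
  by_contra! n
  have ms : ∀ w γ, γ ∈ (nb G w \ Q).image c ↔ Sees G Q c w γ := fun w γ => by
    simp [Sees, and_assoc]
  obtain ⟨f, f1, f2⟩ := ext_hall Q (range D) (fun w => (nb G w \ Q).image c) (by simp [cQ])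
    (fun w hw => card_image_le.trans (out2 h hQ cQ hw))
    (fun γ _ => by
      obtain ⟨w, w1, w2⟩ := n.1 γ
      exact card_lt_card ⟨filter_subset _ _, fun k => w2 ((ms _ _).1 (mem_filter.1 (k w1)).2)⟩)
    fun γ hγ ζ _ e => by
      obtain ⟨v, hv⟩ := (card_pos (s := Q)).1 (by have := mem_range.1 hγ; omega)
      obtain ⟨w, w1, -, w2⟩ := n.2 γ ζ v e
      obtain ⟨u, u1, u0, u2⟩ := n.2 γ ζ w e
      have := card_le_card (s := Q.filter fun w => γ ∈ (nb G w \ Q).image c ∧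
        ζ ∈ (nb G w \ Q).image c) (t := (Q.erase w).erase u) fun x hx => by
        obtain ⟨x1, x2, x3⟩ := mem_filter.1 hx
        rw [ms] at x2 x3
        exact mem_erase.2 ⟨fun k => u2 (k ▸ x2) (k ▸ x3),
          mem_erase.2 ⟨fun k => w2 (k ▸ x2) (k ▸ x3), x1⟩⟩
      have := card_erase_of_mem w1
      have := card_erase_of_mem (mem_erase.2 ⟨u0, u1⟩)
      have := one_lt_card.2 ⟨u, u1, w, w1, u0⟩
      omega
  refine h.ncol ⟨fun v => if v ∈ Q then f v else c v, fun v => ?_, fun u v k => ?_⟩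
  · dsimp only
    split_ifs with x
    · exact mem_range.1 (f2 v x).1
    · exact (c2 v).2 x
  · dsimp only
    split_ifs with x y y
    · exact f1 u x v y k.ne
    · exact fun e => (f2 u x).2 ((ms _ _).2 ⟨v, k, y, e.symm⟩)
    · exact fun e => (f2 v y).2 ((ms _ _).2 ⟨u, k.symm, x, e⟩)
    · exact c1 u v k ((c2 u).2 x)

end Pool.Agent.Lib.MP_12eaff_co.BK
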