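import Mathlib
import Pool.Agent.Lib.MP_12eaff_co.S8a
import Pool.Agent.Lib.MP_12eaff_co.Acc.Hole

set_option autoImplicit false
set_option linter.unusedSectionVars false

namespace Pool.Agent.Lib.MP_12eaff_co.Acc

open Finset Pool.Agent.Lib.MP_12eaff_co.BK
open scoped Classical

variable {V : Type} [Fintype V] {G : SimpleGraph V} {D : ℕ} {c : V → ℕ} {a : V} {K : Finset V}

/-- Colours that are not used on `K`. -/
noncomputable def Abs (D : ℕ) (c : V → ℕ) (K : Finset V) : Finset ℕ := range D \ K.image c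

theorem mem_Abs {γ : ℕ} : γ ∈ Abs D c K ↔ γ < D ∧ ∀ k ∈ K, c k ≠ γ := by simp [Abs]

theorem sees_card (deg : ∀ v, (nb G v).card ≤ D + 1) (hK : IsClq G K) {w : V} (hw : w ∈ K)
    (A : Finset ℕ) (T : Finset V) (hA : ∀ γ ∈ A, Sees G K c w γ)
    (hT : ∀ e ∈ T, G.Adj w e ∧ e ∉ K ∧ c e ∉ A) : A.card + T.card + K.card ≤ D + 2 := by
  have a1 : A.card ≤ ((nb G w \ K) \ T).card := (card_le_card fun γ h => by
    obtain ⟨e, e1, e2, rfl⟩ := hA γ h
    exact mem_image_of_mem c (by simpa [e1, e2] using fun k => (hT e k).2.2 h)).trans card_image_le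
  have a2 := card_sdiff_add_card_eq_card (s := T) (t := nb G w \ K) fun e h => by
    simp [(hT e h).1, (hT e h).2.1]
  have a3 := card_le_card (s := K.erase w) (t := nb G w ∩ K) fun x h => by
    simp [hK w hw x (mem_of_mem_erase h) (ne_of_mem_erase h).symm, mem_of_mem_erase h]
  have := card_sdiff_add_card_inter (nb G w) K
  have := card_erase_add_one hw
  have := deg w
  omega

namespace HC

theorem inj (h : HC G D a c) (hK : IsClq G K) : Set.InjOn c K := fun u hu v hv e => by
  by_contra k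
  exact h.ne (hK u hu v hv k) e

theorem card_abs (h : HC G D a c) (hK : IsClq G K) (ha : a ∉ K) :
    (Abs D c K).card + K.card = D := by
  rw [Abs, ← card_image_of_injOn (h.inj hK), card_sdiff_add_card_eq_card, card_range]
  intro γ hγ
  obtain ⟨k, hk, rfl⟩ := mem_image.1 hγ
  exact mem_range.2 (h.lt k fun e => ha (e ▸ hk))

/-- Recolouring a set of vertices. -/
theorem put_pcol (h : HC G D a c) (K : Finset V) (f : V → ℕ)
    (f1 : ∀ w ∈ K, ¬ Sees G K c w (f w)) (f2 : ∀ u ∈ K, ∀ v ∈ K, G.Adj u v → f u ≠ f v)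
    {u v : V} (k : G.Adj u v) :
    (if u ∈ K then f u else c u) ≠ if v ∈ K then f v else c v := by
  split_ifs with x y y
  · exact f2 u x v y k
  · exact fun e => f1 u x ⟨v, k, y, e.symm⟩
  · exact fun e => f1 v y ⟨u, k.symm, x, e⟩
  · exact h.ne k

theorem put (h : HC G D a c) (ha : a ∉ K) (f : V → ℕ) (f0 : ∀ w ∈ K, f w < D)
    (f1 : ∀ w ∈ K, ¬ Sees G K c w (f w)) (f2 : ∀ u ∈ K, ∀ v ∈ K, G.Adj u v → f u ≠ f v) :
    HC G D a fun v => if v ∈ K then f v else c v :=
  ⟨fun _ _ k _ => h.put_pcol K f f1 f2 k, by simp [ha, h.hole], fun v e => by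
    split_ifs with x
    exacts [f0 v x, h.lt v e]⟩

theorem fill (nc : ¬ Colr G D) (h : HC G D a c) (ha : a ∈ K) (f : V → ℕ) (f0 : ∀ w ∈ K, f w < D)
    (f1 : ∀ w ∈ K, ¬ Sees G K c w (f w)) (f2 : ∀ u ∈ K, ∀ v ∈ K, G.Adj u v → f u ≠ f v) : False :=
  nc ⟨fun v => if v ∈ K then f v else c v, fun v => by
    dsimp only
    split_ifs with x
    exacts [f0 v x, h.lt v fun e => x (e ▸ ha)], fun _ _ k => h.put_pcol K f f1 f2 k⟩

/-- Two vertices exchange their colours. -/
theorem swap' (h : HC G D a c) {u w : V} (e : u ≠ a) (e' : w ≠ a) (hu : Uq G c u w)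
    (hw : Uq G c w u) : HC G D a (c ∘ Equiv.swap u w) := by
  refine ⟨fun x y k _ => ?_, by simp [Equiv.swap_apply_of_ne_of_ne e.symm e'.symm, h.hole],
    fun v k => h.lt _ fun x => k ?_⟩
  · have := h.ne k
    have := hu x
    have := hu y
    have := hw x
    have := hw y
    have := k.ne
    have := k.symm
    simp only [Function.comp, Equiv.swap_apply_def]
    grind
  · rw [Equiv.swap_apply_eq_iff, Equiv.swap_apply_of_ne_of_ne e.symm e'.symm] at x
    exact x

/-- The hole has at most one repeated colour. -/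
theorem dbl (deg : ∀ v, (nb G v).card ≤ D + 1) (nc : ¬ Colr G D) (h : HC G D a c) (S : Finset V)
    (hS : ∀ x ∈ S, G.Adj a x) : S.card ≤ (S.image c).card + 1 := by
  have a1 := card_le_card (s := range D) (t := S.image c ∪ (nb G a \ S).image c) fun γ k => by
    obtain ⟨m, m1, rfl⟩ := h.sees nc (mem_range.1 k)
    rw [← image_union]
    exact mem_image_of_mem c (by simp [m1])
  have := card_union_le (S.image c) ((nb G a \ S).image c)
  have := card_image_le (s := nb G a \ S) (f := c)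
  have := card_sdiff_add_card_eq_card (s := S) (t := nb G a) fun x k => mem_nb.2 (hS x k)
  have := deg a
  rw [card_range] at a1
  omega

/-- Two doubled neighbours of the hole are the same pair. -/
theorem dbl2 (deg : ∀ v, (nb G v).card ≤ D + 1) (nc : ¬ Colr G D) (h : HC G D a c)
    {x x' y y' : V} (hx : G.Adj a x) (hx' : G.Adj a x') (hy : G.Adj a y) (hy' : G.Adj a y')
    (e1 : x ≠ x') (e2 : y ≠ y') (c1 : c x = c x') (c2 : c y = c y') : y = x ∨ y = x' := by
  by_contra! k
  by_cases e : c y = c x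
  · have := h.dbl deg nc {y, x, x'} (by simp [*])
    rw [card_eq_three.2 ⟨y, x, x', k.1, k.2, e1, rfl⟩] at this
    simp [e, c1] at this
  · have := h.dbl deg nc {y', y, x, x'} (by simp [*])
    rw [card_insert_of_notMem (by simp only [mem_insert, mem_singleton]; grind),
      card_eq_three.2 ⟨y, x, x', k.1, k.2, e1, rfl⟩] at this
    have := card_le_two (a := c y') (b := c x')
    simp only [image_insert, image_singleton, c1, c2, insert_idem, pair_eq_singleton] at *
    omega

/-- The two patterns that block a clique containing the hole. -/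
theorem blocked (deg : ∀ v, (nb G v).card ≤ D + 1) (nc : ¬ Colr G D) (h : HC G D a c)
    (hK : IsClq G K) (ha : a ∈ K) : (∀ w ∈ K, ∀ γ ∈ Abs D c K, Sees G K c w γ) ∨
      ∃ x ∈ K, x ≠ a ∧ ∀ w ∈ K, w ≠ x → Sees G K c w (c x) ∧ ∀ γ ∈ Abs D c K, Sees G K c w γ := by
  have : ¬ ∀ s : Finset K, s.card ≤
      (s.biUnion fun w => (range D).filter fun γ => ¬ Sees G K c w γ).card := fun k => by
    obtain ⟨f, f1, f2⟩ := (all_card_le_biUnion_card_iff_exists_injective _).1 k
    refine h.fill nc ha (fun v => if x : v ∈ K then f ⟨v, x⟩ else 0) (fun w x => ?_)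
      (fun w x => ?_) fun u x v y k => ?_
    · simpa [x] using mem_range.1 (mem_filter.1 (f2 ⟨w, x⟩)).1
    · simpa [x] using (mem_filter.1 (f2 ⟨w, x⟩)).2
    · simpa [x, y, f1.eq_iff] using k.ne
  push Not at this
  obtain ⟨s, hs⟩ := this
  set U := s.biUnion fun w => (range D).filter fun γ => ¬ Sees G K c w γ with hU
  set T := s.image Subtype.val with hT
  have cT : T.card = s.card := card_image_of_injective _ Subtype.val_injective
  have TK : T ⊆ K := fun x k => by
    obtain ⟨y, -, rfl⟩ := mem_image.1 k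
    exact y.2
  have mU : ∀ w ∈ T, ∀ γ < D, ¬ Sees G K c w γ → γ ∈ U := fun w k γ x y => by
    obtain ⟨u, u1, rfl⟩ := mem_image.1 k
    exact mem_biUnion.2 ⟨u, u1, mem_filter.2 ⟨mem_range.2 x, y⟩⟩
  have ci := card_image_of_injOn ((h.inj hK).mono (coe_subset.2 ((erase_subset a T).trans TK)))
  have sub : (T.erase a).image c ⊆ U := fun γ k => by
    obtain ⟨w, w1, rfl⟩ := mem_image.1 k
    exact mU w (mem_of_mem_erase w1) _ (h.lt w (ne_of_mem_erase w1))
      fun ⟨e, e1, _, e3⟩ => h.ne e1 e3.symm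
  have := card_le_card sub
  have aT : a ∈ T := by
    by_contra k
    rw [erase_eq_of_notMem k] at *
    omega
  have := card_erase_add_one aT
  have eq := eq_of_subset_of_card_le sub (by omega)
  have se : ∀ w ∈ T, ∀ γ < D, (∀ k ∈ T, c k ≠ γ) → Sees G K c w γ := fun w k γ x y => by
    by_contra z
    obtain ⟨u, u1, u2⟩ := mem_image.1 (eq ▸ mU w k γ x z)
    exact y u (mem_of_mem_erase u1) u2
  have := sees_card deg hK ha (range D \ (T.erase a).image c) ∅ (fun γ k =>
    se a aT γ (mem_range.1 (mem_sdiff.1 k).1) fun u x e => by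
      by_cases z : u = a
      · exact (mem_range.1 (mem_sdiff.1 k).1).ne (by rw [← e, z, h.hole])
      · exact (mem_sdiff.1 k).2 (e ▸ mem_image_of_mem c (mem_erase.2 ⟨z, x⟩))) (by simp)
  have := le_card_sdiff ((T.erase a).image c) (range D)
  have kD := sees_card (c := c) deg hK ha ∅ ∅ (by simp) (by simp)
  rw [card_range] at this
  by_cases e : K ⊆ T
  · exact .inl fun w x γ y => se w (e x) γ (mem_Abs.1 y).1 fun k z => (mem_Abs.1 y).2 k (TK z)
  obtain ⟨x, x1, x2⟩ := not_subset.1 e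
  have xa : x ≠ a := fun z => x2 (z ▸ aT)
  have e2 := eq_of_subset_of_card_le (s := insert x T) (t := K) (insert_subset x1 TK) (by
    rw [card_insert_of_notMem x2]
    have := card_le_card (s := (T.erase a).image c) (t := range D) fun γ k => by
      obtain ⟨w, w1, rfl⟩ := mem_image.1 k
      exact mem_range.2 (h.lt w (ne_of_mem_erase w1))
    rw [card_range] at this
    simp only [card_empty] at *
    omega)
  refine .inr ⟨x, x1, xa, fun w y z => ?_⟩
  have wT : w ∈ T := (mem_insert.1 (e2 ▸ y)).resolve_left z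
  exact ⟨se w wT _ (h.lt x xa) fun k p q => x2 (h.inj hK (TK p) x1 q ▸ p),
    fun γ y => se w wT γ (mem_Abs.1 y).1 fun k z => (mem_Abs.1 y).2 k (TK z)⟩

/-- The hole can enter the clique `K` at `z`. -/
theorem entry (deg : ∀ v, (nb G v).card ≤ D + 1) (nc : ¬ Colr G D) (h : HC G D a c)
    (hK : IsClq G K) (ha : a ∉ K) {z : V} (hz : z ∈ K) (u : Uq G c a z) :
    (∀ w ∈ K, (G.Adj w a ∨ Sees G K c w (c z)) ∧ ∀ γ ∈ Abs D c K, Sees G K c w γ) ∨
      ∃ x ∈ K, x ≠ z ∧ ∀ w ∈ K, w ≠ x → Sees G K c w (c x) ∧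
        (G.Adj w a ∨ Sees G K c w (c z)) ∧ ∀ γ ∈ Abs D c K, Sees G K c w γ := by
  have za : z ≠ a := fun e => ha (e ▸ hz)
  have sv : ∀ v, v ≠ z → v ≠ a → Acc.shift D c a z v = c v := fun v x y => by
    simp [Acc.shift, Function.update_of_ne x, Function.update_of_ne y]
  have se : ∀ w γ, Sees G K (Acc.shift D c a z) w γ → G.Adj w a ∧ γ = c z ∨ Sees G K c w γ := by
    rintro w γ ⟨e, e1, e2, e3⟩
    by_cases x : e = a
    · exact .inl ⟨x ▸ e1, by simpa [Acc.shift, x, Function.update_of_ne za.symm] using e3.symm⟩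
    · exact .inr ⟨e, e1, e2, sv e (fun y => e2 (y ▸ hz)) x ▸ e3⟩
  have ab : ∀ γ < D, (∀ k ∈ K, k ≠ z → c k ≠ γ) → γ ∈ Abs D (Acc.shift D c a z) K :=
    fun γ x y => mem_Abs.2 ⟨x, fun k p => by
      by_cases q : k = z
      · simpa [Acc.shift, q] using x.ne'
      · exact sv k q (fun e => ha (e ▸ p)) ▸ y k p q⟩
  have fin : ∀ w, (∀ γ ∈ Abs D (Acc.shift D c a z) K, Sees G K (Acc.shift D c a z) w γ) →
      (G.Adj w a ∨ Sees G K c w (c z)) ∧ ∀ γ ∈ Abs D c K, Sees G K c w γ := fun w k =>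
    ⟨(se w _ (k _ (ab _ (h.lt z za) fun k p q e => q (h.inj hK p hz e)))).imp_left And.left,
      fun γ x => (se w γ (k γ (ab γ (mem_Abs.1 x).1 fun k p _ => (mem_Abs.1 x).2 k p))).resolve_left
        fun y => (mem_Abs.1 x).2 z hz y.2.symm⟩
  refine ((h.shift za u).blocked deg nc hK hz).imp (fun k w x => fin w (k w x))
    fun ⟨x, x1, x2, k⟩ => ⟨x, x1, x2, fun w p q => ⟨?_, fin w (k w p q).2⟩⟩
  have := (k w p q).1
  rw [sv x x2 fun e => ha (e ▸ x1)] at this
  exact (se w _ this).resolve_left fun y => x2 (h.inj hK x1 hz y.2)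

/-- A hole with three uniquely coloured neighbours in a clique misses at most one member. -/
theorem hanger (deg : ∀ v, (nb G v).card ≤ D + 1) (nc : ¬ Colr G D) (h : HC G D a c)
    (hK : IsClq G K) (ha : a ∉ K) {Z : Finset V} (hZ : Z ⊆ K) (h3 : 3 ≤ Z.card)
    (u : ∀ z ∈ Z, G.Adj a z ∧ Uq G c a z) {w w' : V} (hw : w ∈ K) (hw' : w' ∈ K)
    (n : ¬ G.Adj a w) (n' : ¬ G.Adj a w') : w = w' := by
  have ca := h.card_abs hK ha
  have dj : ∀ S ⊆ K, (Abs D c K ∪ S.image c).card = (Abs D c K).card + S.card := fun S k => by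
    rw [card_union_of_disjoint (disjoint_left.2 fun γ x y => by
      obtain ⟨e, e1, e2⟩ := mem_image.1 y
      exact (mem_Abs.1 x).2 e (k e1) e2), card_image_of_injOn ((h.inj hK).mono (coe_subset.2 k))]
  have key : ∀ w ∈ K, ¬ G.Adj a w → ∀ v ∈ K, v ≠ w →
      Sees G K c v (c w) ∧ ∀ γ ∈ Abs D c K, Sees G K c v γ := fun w hw n => by
    by_contra k
    have s : ∀ z ∈ Z, Sees G K c w (c z) ∧ ∀ γ ∈ Abs D c K, Sees G K c w γ := fun z hz => by
      rcases h.entry deg nc hK ha (hZ hz) (u z hz).2 with p | ⟨x, -, -, p⟩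
      · exact (p w hw).imp_left fun q => q.resolve_left fun e => n e.symm
      · exact (p w hw fun e => k fun v a b => ⟨e ▸ (p v a (e ▸ b)).1, (p v a (e ▸ b)).2.2⟩).2.imp_left
          fun q => q.resolve_left fun e => n e.symm
    obtain ⟨z, hz⟩ := card_pos.1 (by omega : 0 < Z.card)
    have := sees_card deg hK hw (Abs D c K ∪ Z.image c) ∅ (fun γ x => (mem_union.1 x).elim
      ((s z hz).2 γ) fun y => by
        obtain ⟨e, e1, rfl⟩ := mem_image.1 y
        exact (s e e1).1) (by simp)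
    have := dj Z hZ
    omega
  by_contra e
  obtain ⟨z, hz⟩ := card_pos.1 (by omega : 0 < Z.card)
  have k1 := key w hw n z (hZ hz) fun x => n (x ▸ (u z hz).1)
  have k2 := key w' hw' n' z (hZ hz) fun x => n' (x ▸ (u z hz).1)
  have := sees_card deg hK (hZ hz) (Abs D c K ∪ image c {w, w'}) {a} (fun γ x =>
    (mem_union.1 x).elim (k1.2 γ) fun y => by
      simp only [image_insert, image_singleton, mem_insert, mem_singleton] at y
      rcases y with rfl | rfl
      exacts [k1.1, k2.1]) fun x y => by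
      have := h.lt w fun e => ha (e ▸ hw)
      have := h.lt w' fun e => ha (e ▸ hw')
      rw [mem_singleton.1 y]
      refine ⟨(u z hz).1.symm, ha, ?_⟩
      simp only [mem_union, mem_Abs, h.hole, image_insert, image_singleton, mem_insert, mem_singleton]
      omega
  have := dj {w, w'} (by simp [insert_subset_iff, hw, hw'])
  rw [card_pair e] at this
  simp only [card_singleton] at *
  omega

end HC

end Pool.Agent.Lib.MP_12eaff_co.Acc
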