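import Mathlib
import Pool.Agent.Lib.MP_12eaff_co.BK.Hax

set_option autoImplicit false

namespace Pool.Agent.Lib.MP_12eaff_co.BK

open Finset
open scoped Classical

variable {V : Type} [Fintype V] {G : SimpleGraph V} {w t : ℕ}

namespace Red

/-- A set complete to one of its vertices lies in a closed neighbourhood. -/
theorem card_le (deg : ∀ v, (nb G v).card + 1 ≤ w + t) {U : Finset V} {c : V}
    (h : ∀ u ∈ U, c ≠ u → G.Adj c u) : U.card ≤ w + t :=
  ((card_le_card (t := insert c (nb G c)) fun u hu => by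
    by_cases e : c = u
    · simp [e]
    · simp [h u hu e]).trans (card_insert_le _ _)).trans (deg c)

theorem inter_ge (deg : ∀ v, (nb G v).card + 1 ≤ w + t) {Q R : Finset V} (hQ : IsClq G Q)
    (hR : IsClq G R) (cQ : Q.card = w) (cR : R.card = w) (h : ¬ Disjoint Q R) :
    w ≤ (Q ∩ R).card + t := by
  obtain ⟨c, h1, h2⟩ := not_disjoint_iff.1 h
  have := card_le deg (U := Q ∪ R) (c := c) fun u hu e =>
    (mem_union.1 hu).elim (fun a => hQ c h1 u a e) fun a => hR c h2 u a e
  have := card_union_add_card_inter Q R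
  omega

omit [Fintype V] in
theorem meet {Q A B : Finset V} (hA : A ⊆ Q) (hB : B ⊆ Q) (h : Q.card < A.card + B.card) :
    (A ∩ B).Nonempty := by
  have := card_union_add_card_inter A B
  have := card_le_card (union_subset hA hB)
  exact card_pos.1 (by omega)

/-- Hajnal's inequality for the largest cliques that meet a given one. -/
theorem core (deg : ∀ v, (nb G v).card + 1 ≤ w + t) (cf : ∀ Q, IsClq G Q → Q.card ≤ w)
    (hw : 2 * t < w) {Q : Finset V} (hQ : IsClq G Q) (cQ : Q.card = w) (F : Finset (Finset V))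
    (hF : ∀ R ∈ F, IsClq G R ∧ R.card = w ∧ ¬ Disjoint Q R) :
    ∃ C U : Finset V, C ⊆ Q ∧ (∀ R ∈ F, C ⊆ R) ∧ (∀ c ∈ C, ∀ u ∈ U, c ≠ u → G.Adj c u) ∧
      C ⊆ U ∧ (∀ u ∈ U, u ∈ Q ∨ ∃ R ∈ F, u ∈ R) ∧ 2 * w ≤ C.card + U.card ∧ C.Nonempty := by
  induction F using Finset.induction_on with
  | empty => exact ⟨Q, Q, Subset.rfl, by simp, hQ, Subset.rfl, fun u hu => .inl hu, by omega,
      card_pos.1 (by omega)⟩
  | insert R F _ ih =>
    obtain ⟨C, U, h1, h2, h3, h4, h5, h6, c, hc⟩ := ih fun R hR => hF R (mem_insert_of_mem hR)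
    obtain ⟨r1, r2, r3⟩ := hF R (mem_insert_self _ _)
    have u1 := card_le deg (h3 c hc)
    have u2 := inter_ge deg hQ r1 cQ r2 r3
    refine ⟨C ∩ R, U ∪ R, inter_subset_left.trans h1, fun S hS => ?_, fun a ha u hu e => ?_,
      inter_subset_right.trans subset_union_right, fun u hu => ?_, ?_, ?_⟩
    · rcases mem_insert.1 hS with rfl | hS
      · exact inter_subset_right
      · exact inter_subset_left.trans (h2 S hS)
    · exact (mem_union.1 hu).elim (fun b => h3 a (mem_inter.1 ha).1 u b e)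
        fun b => r1 a (mem_inter.1 ha).2 u b e
    · rcases mem_union.1 hu with b | b
      · exact (h5 u b).imp_right fun ⟨S, s1, s2⟩ => ⟨S, mem_insert_of_mem s1, s2⟩
      · exact .inr ⟨R, mem_insert_self _ _, b⟩
    · have k := cf (C \ R ∪ U ∩ R) fun a ha b hb e => by
        simp only [mem_union, mem_sdiff, mem_inter] at ha hb
        rcases ha with ha | ha
        · exact h3 a ha.1 b (hb.elim (fun x => h4 x.1) fun x => x.1) e
        · rcases hb with hb | hb
          · exact (h3 b hb.1 a ha.1 e.symm).symm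
          · exact r1 a ha.2 b hb.2 e
      rw [card_union_of_disjoint (disjoint_left.2 fun a ha hb =>
        (mem_sdiff.1 ha).2 (mem_inter.1 hb).2)] at k
      have := card_sdiff_add_card_inter C R
      have := card_union_add_card_inter U R
      omega
    · obtain ⟨a, ha⟩ := meet h1 (inter_subset_left : Q ∩ R ⊆ Q) (by omega)
      exact ⟨a, by simp_all⟩

/-- An independent set that meets every largest clique. -/
theorem hit (ht : 2 ≤ t) (hw : 3 * t ≤ w + 1) (deg : ∀ v, (nb G v).card + 1 ≤ w + t)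
    (cf : ∀ Q, IsClq G Q → Q.card ≤ w) : ∃ I : Finset V, (∀ a ∈ I, ∀ b ∈ I, ¬ G.Adj a b) ∧
      ∀ Q, IsClq G Q → Q.card = w → ∃ a ∈ I, a ∈ Q := by
  rcases isEmpty_or_nonempty V with hV | hV
  · exact ⟨∅, by simp, fun Q _ h => by rw [eq_empty_of_isEmpty Q, card_empty] at h; omega⟩
  obtain ⟨T, -, ⟨T1, T2⟩, Tm⟩ := Finite.exists_le_maximal (p := fun T : Finset (Finset V) =>
    (∀ Q ∈ T, IsClq G Q ∧ Q.card = w) ∧ ∀ Q ∈ T, ∀ R ∈ T, Q ≠ R → Disjoint Q R) (a := ∅)
    (by simp)
  have ex : ∀ Q, ∃ C U : Finset V, Q ∈ T → C ⊆ Q ∧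
      (∀ R, IsClq G R → R.card = w → ¬ Disjoint Q R → C ⊆ R) ∧
      (∀ c ∈ C, ∀ u ∈ U, c ≠ u → G.Adj c u) ∧ C ⊆ U ∧ (∀ R ∈ T, Q ≠ R → Disjoint U R) ∧
      2 * w ≤ C.card + U.card ∧ C.Nonempty := fun Q => by
    by_cases hQ : Q ∈ T
    · obtain ⟨C, U, h1, h2, h3, h4, h5, h6, h7⟩ := core deg cf (by omega) (T1 Q hQ).1 (T1 Q hQ).2
        (univ.filter fun R => IsClq G R ∧ R.card = w ∧ ¬ Disjoint Q R) (by simp)
      refine ⟨C, U, fun _ => ⟨h1, fun R a b c => h2 R (by simp [a, b, c]), h3, h4,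
        fun R hR e => disjoint_left.2 fun u hu hr => ?_, h6, h7⟩⟩
      rcases h5 u hu with a | ⟨S, s1, s2⟩
      · exact disjoint_left.1 (T2 Q hQ R hR e) a hr
      · obtain ⟨-, a, b, c⟩ := mem_filter.1 s1
        have i1 := inter_ge deg (T1 Q hQ).1 a (T1 Q hQ).2 b c
        have i2 := inter_ge deg (T1 R hR).1 a (T1 R hR).2 b (not_disjoint_iff.2 ⟨u, hr, s2⟩)
        obtain ⟨x, hx⟩ := meet (inter_subset_right : Q ∩ S ⊆ S)
          (inter_subset_right : R ∩ S ⊆ S) (by omega)
        simp only [mem_inter] at hx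
        exact disjoint_left.1 (T2 Q hQ R hR e) hx.1.1 hx.2.1
    · exact ⟨∅, ∅, fun h => absurd h hQ⟩
  choose C U hC using ex
  obtain ⟨g, g1, g2⟩ := hax_ne _ V (T.filter fun Q => 2 * t ≤ (C Q).card) C
    (fun u v => G.Adj u v ∧ ∃ Q ∈ T, ∃ R ∈ T, Q ≠ R ∧ u ∈ Q ∧ v ∈ R) t hV
    (fun u v ⟨a, Q, q, R, r, e, x, y⟩ => ⟨a.symm, R, r, Q, q, e.symm, y, x⟩)
    (fun v => by
      by_cases hv : ∃ Q ∈ T, v ∈ Q
      · obtain ⟨Q, q, x⟩ := hv
        refine ⟨nb G v \ Q.erase v, ?_, fun u ⟨a, Q', q', R, r, e, x', y⟩ => ?_⟩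
        · rw [card_sdiff_of_subset fun y hy =>
            mem_nb.2 ((T1 Q q).1 v x y (mem_of_mem_erase hy) (ne_of_mem_erase hy).symm),
            card_erase_of_mem x, (T1 Q q).2]
          have := deg v
          omega
        · obtain rfl : Q = Q' := by_contra fun n => disjoint_left.1 (T2 Q q Q' q' n) x x'
          exact mem_sdiff.2 ⟨mem_nb.2 a, fun z =>
            disjoint_left.1 (T2 Q q R r e) (mem_of_mem_erase z) y⟩
      · exact ⟨∅, by simp, fun u ⟨_, Q, q, _, _, _, x, _⟩ => absurd ⟨Q, q, x⟩ hv⟩)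
    (fun Q q R r e => (T2 Q (mem_filter.1 q).1 R (mem_filter.1 r).1 e).mono
      (hC Q (mem_filter.1 q).1).1 (hC R (mem_filter.1 r).1).1) (by omega)
    fun Q q => (mem_filter.1 q).2
  have ex : ∀ Q, ∃ a, Q ∈ T → a ∈ C Q ∧ (2 * t ≤ (C Q).card → a = g Q) := fun Q => by
    by_cases hQ : Q ∈ T
    · by_cases h : 2 * t ≤ (C Q).card
      · exact ⟨g Q, fun _ => ⟨g1 Q (mem_filter.2 ⟨hQ, h⟩), fun _ => rfl⟩⟩
      · obtain ⟨a, ha⟩ := (hC Q hQ).2.2.2.2.2.2
        exact ⟨a, fun _ => ⟨ha, fun k => absurd k h⟩⟩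
    · exact ⟨g Q, fun h => absurd h hQ⟩
  choose f hf using ex
  have small : ∀ Q ∈ T, ∀ R ∈ T, Q ≠ R → G.Adj (f Q) (f R) → 2 * t ≤ (C Q).card := by
    intro Q q R r e a
    obtain ⟨-, -, h3, -, h5, h6, -⟩ := hC Q q
    have n : f R ∉ U Q := disjoint_right.1 (h5 R r e) ((hC R r).1 (hf R r).1)
    have := card_le deg (U := insert (f R) (U Q)) (c := f Q) fun u hu k =>
      (mem_insert.1 hu).elim (fun x => x ▸ a) fun x => h3 _ (hf Q q).1 u x k
    rw [card_insert_of_notMem n] at this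
    omega
  refine ⟨T.image f, fun a ha b hb k => ?_, fun R r1 r2 => ?_⟩
  · obtain ⟨Q, q, rfl⟩ := mem_image.1 ha
    obtain ⟨R, r, rfl⟩ := mem_image.1 hb
    have e : Q ≠ R := fun e => k.ne (by rw [e])
    have s1 := small Q q R r e k
    have s2 := small R r Q q e.symm k.symm
    refine g2 Q (mem_filter.2 ⟨q, s1⟩) R (mem_filter.2 ⟨r, s2⟩) e ?_
    rw [← (hf Q q).2 s1, ← (hf R r).2 s2]
    exact ⟨k, Q, q, R, r, e, (hC Q q).1 (hf Q q).1, (hC R r).1 (hf R r).1⟩
  · obtain ⟨Q, q, h⟩ : ∃ Q ∈ T, ¬ Disjoint Q R := by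
      by_contra! n
      have := n R (Tm (y := insert R T) ⟨by simpa [r1, r2] using T1, fun A a B b e => by
        rcases mem_insert.1 a with a | a <;> rcases mem_insert.1 b with b | b
        · exact absurd (a.trans b.symm) e
        · exact a ▸ (n B b).symm
        · exact b ▸ n A a
        · exact T2 A a B b e⟩ (subset_insert _ _) (mem_insert_self _ _))
      rw [disjoint_self, bot_eq_empty] at this
      rw [this, card_empty] at r2
      omega
    exact ⟨f Q, mem_image_of_mem f q, (hC Q q).2.1 R r1 r2 h (hf Q q).1⟩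

end Red

/-- Degrees at most `D+1` and cliques at most `w` force a colouring with `D` colours. -/
def St (V : Type) [Fintype V] (D w : ℕ) : Prop :=
  ∀ G : SimpleGraph V, (∀ v, (nb G v).card ≤ D + 1) → (∀ Q, IsClq G Q → Q.card ≤ w) → Colr G D

theorem St.step {s : ℕ} (hw : 3 * s + 4 ≤ w) (h : St V (w + s) w) : St V (w + 1 + s) (w + 1) := by
  intro G deg cf
  obtain ⟨I, I1, I2⟩ := Red.hit (t := s + 2) (by omega) (by omega)
    (fun v => by have := deg v; omega) cf
  obtain ⟨M, hI, M1, Mm⟩ := Finite.exists_le_maximal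
    (p := fun M : Finset V => ∀ a ∈ M, ∀ b ∈ M, ¬ G.Adj a b) I1
  let G' : SimpleGraph V :=
    { Adj := fun a b => G.Adj a b ∧ a ∉ M ∧ b ∉ M
      symm := ⟨fun a b h => ⟨h.1.symm, h.2.2, h.2.1⟩⟩
      loopless := ⟨fun a h => h.1.ne rfl⟩ }
  obtain ⟨c, c1, c2⟩ := h G' (fun v => by
    by_cases hv : v ∈ M
    · rw [eq_empty_of_forall_notMem (s := nb G' v) fun x hx => (mem_nb.1 hx).2.1 hv]
      simp
    · obtain ⟨m, m1, m2⟩ : ∃ m ∈ M, G.Adj v m := by
        by_contra! n
        refine hv (Mm (y := insert v M) (fun a ha b hb k => ?_) (subset_insert _ _)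
          (mem_insert_self _ _))
        rcases mem_insert.1 ha with x | x <;> rcases mem_insert.1 hb with y | y
        · exact k.ne (x.trans y.symm)
        · exact n b y (x ▸ k)
        · exact n a x (y ▸ k.symm)
        · exact M1 a x b y k
      have := card_le_card (s := nb G' v) (t := (nb G v).erase m) fun x hx =>
        mem_erase.2 ⟨fun e => (mem_nb.1 hx).2.2 (e ▸ m1), mem_nb.2 (mem_nb.1 hx).1⟩
      rw [card_erase_of_mem (mem_nb.2 m2)] at this
      have := deg v
      omega) fun Q hQ => by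
    have q : IsClq G Q := fun a ha b hb e => (hQ a ha b hb e).1
    by_contra n
    obtain ⟨a, a1, a2⟩ := I2 Q q (by have := cf Q q; omega)
    obtain ⟨b, b1, b2⟩ := exists_mem_ne (s := Q) (by omega) a
    exact (hQ a a2 b b1 b2.symm).2.1 (hI a1)
  refine ⟨fun v => if v ∈ M then w + s else c v, fun v => ?_, fun u v k => ?_⟩
  · have := c1 v
    dsimp only
    split_ifs <;> omega
  · have := c1 u
    have := c1 v
    dsimp only
    split_ifs with a b b
    · exact absurd k (M1 u a v b)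
    · omega
    · omega
    · exact c2 u v ⟨k, a, b⟩

theorem St.lift {s : ℕ} (hw : 3 * s + 4 ≤ w) (h : St V (w + s) w) (k : ℕ) :
    St V (w + k + s) (w + k) := by
  induction k with
  | zero => exact h
  | succ k ih => exact St.step (w := w + k) (by omega) ih

theorem St.of_MC {D : ℕ} (h : ∀ G : SimpleGraph V, ¬ MC G D) : St V D D := by
  intro G
  induction hn : G.support.ncard using Nat.strong_induction_on generalizing G with
  | _ n ih =>
    intro h1 h2
    by_contra h3
    exact h G ⟨h1, h2, h3, fun G' hG =>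
      ih _ (hn ▸ Set.ncard_lt_ncard hG (Set.toFinite _)) G' rfl⟩

/-- From one maximum degree to all larger ones, in the language of the library. -/
theorem St.final {s : ℕ} (hw : 3 * s + 4 ≤ w) (h : St V (w + s) w) (G : SimpleGraph V)
    [DecidableRel G.Adj] (hG : w + s + 1 ≤ G.maxDegree) (hc : G.CliqueFree (G.maxDegree - s)) :
    G.Colorable (G.maxDegree - 1) := by
  obtain ⟨k, hk⟩ := Nat.exists_eq_add_of_le hG
  obtain ⟨c, c1, c2⟩ := h.lift hw k G (fun v => by
    have a := G.degree_le_maxDegree v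
    have b : (nb G v).card = G.degree v := by
      rw [← SimpleGraph.card_neighborFinset_eq_degree]
      congr 1
      ext x
      simp
    omega) (fun Q hQ => by
    by_contra q
    obtain ⟨Q', a, b⟩ := exists_subset_card_eq (show G.maxDegree - s ≤ Q.card by omega)
    exact hc Q' ⟨fun x hx y hy hne => hQ x (a hx) y (a hy) hne, b⟩)
  rw [SimpleGraph.colorable_iff_exists_bdd_nat_coloring]
  exact ⟨SimpleGraph.Coloring.mk c (fun {u w} h => c2 u w h), fun v => by
    have := c1 v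
    show c v < _
    omega⟩

/-- The conjecture follows from the case of maximum degree nine. -/
theorem all_of_nine (h : ∀ G : SimpleGraph V, ¬ MC G 8) (G : SimpleGraph V) [DecidableRel G.Adj]
    (hG : 9 ≤ G.maxDegree) (hc : G.CliqueFree G.maxDegree) : G.Colorable (G.maxDegree - 1) :=
  St.final (s := 0) (w := 8) (by omega) (St.of_MC h) G hG hc

end Pool.Agent.Lib.MP_12eaff_co.BK
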