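import Mathlib
import Pool.Agent.Lib.MP_12eaff_co.S8a

set_option autoImplicit false

namespace Pool.Agent.Lib.MP_12eaff_co.BK

open Finset
open scoped Classical

variable {V : Type} [Fintype V] {G : SimpleGraph V} {D : ℕ}

/-- Delete `X` and add a few edges, at most two at each vertex. -/
theorem col_virt (h : MC G D) (hD : 8 ≤ D) (X : Finset V) (F : V → V → Prop) {x y : V}
    (hx : x ∈ X) (a : G.Adj y x) (S : Finset V) (hS : S.card ≤ 7)
    (hF : ∀ u v, F u v → u ∈ S ∧ v ∈ S)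
    (gain : ∀ u, ∃ N : Finset V, N.card ≤ (nb G u ∩ X).card ∧ N.card ≤ 2 ∧
      ∀ v, F u v ∨ F v u → v ∈ N) :
    ∃ c, PCol G D c ∧ (∀ v, c v < D ↔ v ∉ X) ∧
      ∀ u v, u ≠ v → u ∉ X → v ∉ X → F u v → c u ≠ c v :=
  RS.col_gen h X F hx a (fun u => (gain u).imp fun _ k => ⟨k.1, k.2.2⟩) fun Q hQ =>
    near h hD Q S hS (fun a ha b hb e k => ((hQ a ha b hb e).resolve_left k).elim
      (fun f => (hF _ _ f).1) fun f => (hF _ _ f).2)
      fun a ha => (gain a).imp fun _ k => ⟨k.2.1, fun b hb e n =>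
        k.2.2 b ((hQ a ha b hb e).resolve_left n)⟩

omit [Fintype V] in
theorem two_ite {p q : Prop} [Decidable p] [Decidable q] {A B T : Finset V} {a b : V}
    (hA : A.card ≤ 1) (hB : B.card ≤ 1) (e : p → q → a ≠ b) (ha : p → a ∈ T) (hb : q → b ∈ T) :
    ((if p then A else ∅) ∪ if q then B else ∅).card ≤ T.card ∧
      ((if p then A else ∅) ∪ if q then B else ∅).card ≤ 2 := by
  have := card_union_le A B
  split_ifs with x y y
  · have := one_lt_card.2 ⟨a, ha x, b, hb y, e x y⟩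
    omega
  · have := card_pos.2 ⟨a, ha x⟩
    rw [union_empty]
    omega
  · have := card_pos.2 ⟨b, hb y⟩
    rw [empty_union]
    omega
  · simp

/-- A vertex outside a largest clique has at most one neighbour in it. -/
theorem rs8 (h : MC G D) (hD : 8 ≤ D) {Q : Finset V} (hQ : IsClq G Q) (cQ : Q.card = D)
    {z x1 x2 : V} (hz : z ∉ Q) (h1 : x1 ∈ Q) (h2 : x2 ∈ Q) (a1 : G.Adj z x1) (a2 : G.Adj z x2) :
    x1 = x2 := by
  by_contra n
  have mo : ∀ {w e}, e ∈ nb G w \ Q ↔ G.Adj w e ∧ e ∉ Q := by simp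
  have mi : ∀ {w e}, e ∈ nb G w ∩ Q ↔ G.Adj w e ∧ e ∈ Q := by simp
  have t2 := RS.two_le h1 h2 n a1 a2
  have rz := ra8 h hD Q z hQ cQ hz
  have U : ∀ x ∈ Q, G.Adj z x → ((nb G x \ Q).erase z).card ≤ 1 := fun x hx a => by
    have := out2 h hQ cQ hx
    rw [card_erase_of_mem (mo.2 ⟨a.symm, hz⟩)]
    omega
  by_cases hu : ∃ u, u ∈ (nb G x1 \ Q).erase z ∧ u ∈ (nb G x2 \ Q).erase z
  · obtain ⟨u, u1, u2⟩ := hu
    obtain ⟨uz, b1, uQ⟩ : u ≠ z ∧ G.Adj x1 u ∧ u ∉ Q := by simpa using u1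
    have b2 := (mo.1 (mem_of_mem_erase u2)).1
    have ru := ra8 h hD Q u hQ cQ uQ
    have c0 := card_union_add_card_inter (Q.filter (G.Adj z)) (Q.filter (G.Adj u))
    have c1 := one_lt_card.2 ⟨x1, mem_inter.2 ⟨mem_filter.2 ⟨h1, a1⟩, mem_filter.2 ⟨h1, b1.symm⟩⟩,
      x2, mem_inter.2 ⟨mem_filter.2 ⟨h2, a2⟩, mem_filter.2 ⟨h2, b2.symm⟩⟩, n⟩
    have c2 := le_card_sdiff (Q.filter (G.Adj z) ∪ Q.filter (G.Adj u)) Q
    obtain ⟨w, hw, w', hw', e⟩ :=
      (one_lt_card (s := Q \ (Q.filter (G.Adj z) ∪ Q.filter (G.Adj u)))).1 (by omega)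
    obtain ⟨w1, w2, w3⟩ : w ∈ Q ∧ ¬ G.Adj z w ∧ ¬ G.Adj u w := by
      simp only [mem_sdiff, mem_union, mem_filter] at hw; tauto
    obtain ⟨v1, v2, v3⟩ : w' ∈ Q ∧ ¬ G.Adj z w' ∧ ¬ G.Adj u w' := by
      simp only [mem_sdiff, mem_union, mem_filter] at hw'; tauto
    have o := out2 h hQ cQ w1
    have o' := out2 h hQ cQ v1
    obtain ⟨c, k1, k2, k3⟩ := col_virt h hD Q
      (fun a b => (a = z ∧ b ∈ nb G w \ Q) ∨ (a = u ∧ b ∈ nb G w' \ Q)) h1 a1
      (insert z (insert u (nb G w \ Q ∪ nb G w' \ Q)))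
      (by
        have := card_insert_le z (insert u (nb G w \ Q ∪ nb G w' \ Q))
        have := card_insert_le u (nb G w \ Q ∪ nb G w' \ Q)
        have := card_union_le (nb G w \ Q) (nb G w' \ Q)
        omega)
      (fun a b k => by
        simp only [mem_insert, mem_union]
        tauto)
      fun a => by
        by_cases x : a = z
        · subst x
          refine ⟨_, o.trans t2, o, fun v k => ?_⟩
          rcases k with (k | k) | k | k
          · exact k.2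
          · exact absurd k.1.symm uz
          · exact absurd (mo.1 k.2).1.symm w2
          · exact absurd (mo.1 k.2).1.symm v2
        by_cases y : a = u
        · subst y
          refine ⟨_, o'.trans (RS.two_le h1 h2 n b1.symm b2.symm), o', fun v k => ?_⟩
          rcases k with (k | k) | k | k
          · exact absurd k.1 uz
          · exact k.2
          · exact absurd (mo.1 k.2).1.symm w3
          · exact absurd (mo.1 k.2).1.symm v3
        obtain ⟨q1, q2⟩ := two_ite (p := G.Adj w a) (q := G.Adj w' a) (A := {z}) (B := {u})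
          (T := nb G a ∩ Q) (by simp) (by simp) (fun _ _ => e) (fun k => mi.2 ⟨k.symm, w1⟩)
          fun k => mi.2 ⟨k.symm, v1⟩
        refine ⟨_, q1, q2, fun v k => ?_⟩
        rcases k with (k | k) | k | k
        · exact absurd k.1 x
        · exact absurd k.1 y
        · simp [k.1, (mo.1 k.2).1]
        · simp [k.1, (mo.1 k.2).1]
    have s1 : ¬ Sees G Q c w (c z) := fun ⟨e, e1, e2, e3⟩ =>
      k3 z e (fun k => w2 (k ▸ e1.symm)) hz e2 (.inl ⟨rfl, mo.2 ⟨e1, e2⟩⟩) e3.symm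
    have s2 : ¬ Sees G Q c w' (c u) := fun ⟨e, e1, e2, e3⟩ =>
      k3 u e (fun k => v3 (k ▸ e1.symm)) uQ e2 (.inr ⟨rfl, mo.2 ⟨e1, e2⟩⟩) e3.symm
    have s3 : ∀ x ∈ Q, G.Adj z x → u ∈ (nb G x \ Q).erase z → ∀ γ, Sees G Q c x γ →
        γ = c z ∨ γ = c u := fun x hx a b γ ⟨e, e1, e2, e3⟩ => by
      by_cases k : e = z
      · exact .inl (k ▸ e3.symm)
      · exact .inr (card_le_one.1 (U x hx a) _ (mem_erase.2 ⟨k, mo.2 ⟨e1, e2⟩⟩) _ b ▸ e3.symm)
    rcases hallK h hQ cQ k1 k2 with ⟨γ, p⟩ | ⟨γ, ζ, w0, p0, p⟩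
    · rcases s3 x1 h1 a1 u1 γ (p x1 h1) with rfl | rfl
      · exact s1 (p w w1)
      · exact s2 (p w' v1)
    · have : (γ = c z ∨ γ = c u) ∧ (ζ = c z ∨ ζ = c u) := by
        by_cases k : x1 = w0
        · have := p x2 h2 fun e => n (k.trans e.symm)
          exact ⟨s3 x2 h2 a2 u2 _ this.1, s3 x2 h2 a2 u2 _ this.2⟩
        · exact ⟨s3 x1 h1 a1 u1 _ (p x1 h1 k).1, s3 x1 h1 a1 u1 _ (p x1 h1 k).2⟩
      by_cases k : w = w0
      · have := p w' v1 fun x => e (k.trans x.symm)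
        grind
      · have := p w w1 k
        grind
  · obtain ⟨w, w1, w2⟩ := exists_mem_notMem_of_card_lt_card (s := Q.filter (G.Adj z)) (t := Q)
      (by omega)
    have w2 : ¬ G.Adj z w := fun k => w2 (mem_filter.2 ⟨w1, k⟩)
    have o := out2 h hQ cQ w1
    have U1 := U x1 h1 a1
    have U2 := U x2 h2 a2
    obtain ⟨c, k1, k2, k3⟩ := col_virt h hD Q (fun a b => (a = z ∧ b ∈ nb G w \ Q) ∨
      (a ∈ (nb G x1 \ Q).erase z ∧ b ∈ (nb G x2 \ Q).erase z)) h1 a1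
      (insert z (nb G w \ Q ∪ ((nb G x1 \ Q).erase z ∪ (nb G x2 \ Q).erase z)))
      (by
        have := card_insert_le z (nb G w \ Q ∪ ((nb G x1 \ Q).erase z ∪ (nb G x2 \ Q).erase z))
        have := card_union_le (nb G w \ Q) ((nb G x1 \ Q).erase z ∪ (nb G x2 \ Q).erase z)
        have := card_union_le ((nb G x1 \ Q).erase z) ((nb G x2 \ Q).erase z)
        omega)
      (fun a b k => by
        simp only [mem_insert, mem_union]
        tauto)
      fun a => by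
        by_cases x : a = z
        · subst x
          refine ⟨_, o.trans t2, o, fun v k => ?_⟩
          rcases k with (k | k) | k | k
          · exact k.2
          · exact absurd k.1 (notMem_erase _ _)
          · exact absurd (mo.1 k.2).1.symm w2
          · exact absurd k.2 (notMem_erase _ _)
        by_cases y : a ∈ (nb G x1 \ Q).erase z
        · obtain ⟨q1, q2⟩ := two_ite (p := G.Adj w a) (q := True) (A := {z}) (T := nb G a ∩ Q)
            (by simp) U2 (fun _ _ (e : w = x1) => w2 (e ▸ a1)) (fun k => mi.2 ⟨k.symm, w1⟩)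
            fun _ => mi.2 ⟨(mo.1 (mem_of_mem_erase y)).1.symm, h1⟩
          refine ⟨_, q1, q2, fun v k => ?_⟩
          rcases k with (k | k) | k | k
          · exact absurd k.1 x
          · exact mem_union_right _ k.2
          · simp [k.1, (mo.1 k.2).1]
          · exact absurd ⟨a, y, k.2⟩ hu
        · obtain ⟨q1, q2⟩ := two_ite (p := G.Adj w a) (q := a ∈ (nb G x2 \ Q).erase z) (A := {z})
            (T := nb G a ∩ Q) (by simp) U1 (fun _ _ (e : w = x2) => w2 (e ▸ a2))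
            (fun k => mi.2 ⟨k.symm, w1⟩) fun y => mi.2 ⟨(mo.1 (mem_of_mem_erase y)).1.symm, h2⟩
          refine ⟨_, q1, q2, fun v k => ?_⟩
          rcases k with (k | k) | k | k
          · exact absurd k.1 x
          · exact absurd k.1 y
          · simp [k.1, (mo.1 k.2).1]
          · exact mem_union_right _ (by rw [if_pos k.2]; exact k.1)
    have s1 : ¬ Sees G Q c w (c z) := fun ⟨e, e1, e2, e3⟩ =>
      k3 z e (fun k => w2 (k ▸ e1.symm)) hz e2 (.inl ⟨rfl, mo.2 ⟨e1, e2⟩⟩) e3.symm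
    have s2 : ∀ x γ, γ ≠ c z → Sees G Q c x γ → ∃ e ∈ (nb G x \ Q).erase z, e ∉ Q ∧ c e = γ :=
      fun x γ k ⟨e, e1, e2, e3⟩ =>
        ⟨e, mem_erase.2 ⟨fun x => k (x ▸ e3.symm), mo.2 ⟨e1, e2⟩⟩, e2, e3⟩
    have s3 : ∀ γ, γ ≠ c z → Sees G Q c x1 γ → Sees G Q c x2 γ → False := fun γ k p q => by
      obtain ⟨e, e1, e2, e3⟩ := s2 _ _ k p
      obtain ⟨f, f1, f2, f3⟩ := s2 _ _ k q
      exact k3 e f (fun x => hu ⟨e, e1, x ▸ f1⟩) e2 f2 (.inr ⟨e1, f1⟩) (e3.trans f3.symm)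
    rcases hallK h hQ cQ k1 k2 with ⟨γ, p⟩ | ⟨γ, ζ, w0, p0, p⟩
    · exact s3 γ (fun e => s1 (e ▸ p w w1)) (p x1 h1) (p x2 h2)
    · by_cases k : w = w0
      · have p1 := p x1 h1 fun e => w2 (k.trans e.symm ▸ a1)
        have p2 := p x2 h2 fun e => w2 (k.trans e.symm ▸ a2)
        by_cases x : γ = c z
        · exact s3 ζ (fun e => p0 (x.trans e.symm)) p1.2 p2.2
        · exact s3 γ x p1.1 p2.1
      · have s4 : ∀ x ∈ Q, G.Adj z x → x = w0 := fun x hx a => by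
          by_contra y
          obtain ⟨e, e1, -, e3⟩ := s2 _ _ (fun e => s1 (e ▸ (p w w1 k).1)) (p x hx y).1
          obtain ⟨f, f1, -, f3⟩ := s2 _ _ (fun e => s1 (e ▸ (p w w1 k).2)) (p x hx y).2
          exact p0 (e3.symm.trans (card_le_one.1 (U x hx a) _ e1 _ f1 ▸ f3))
        exact n ((s4 x1 h1 a1).trans (s4 x2 h2 a2).symm)

/-- Largest cliques that meet are equal. -/
theorem dj8 (h : MC G D) (hD : 8 ≤ D) {Q R : Finset V} (hQ : IsClq G Q) (cQ : Q.card = D)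
    (hR : IsClq G R) (cR : R.card = D) {v : V} (h1 : v ∈ Q) (h2 : v ∈ R) : Q = R := by
  by_contra n
  obtain ⟨z, z1, z2⟩ : ∃ z ∈ R, z ∉ Q := by
    by_contra! k
    exact n (eq_of_subset_of_card_le k (by omega)).symm
  have o := out2 h hQ cQ h1
  have := card_le_card (s := R \ Q) (t := nb G v \ Q) fun x hx =>
    mem_sdiff.2 ⟨mem_nb.2 (hR v h2 x (mem_sdiff.1 hx).1 fun e => (mem_sdiff.1 hx).2 (e ▸ h1)),
      (mem_sdiff.1 hx).2⟩
  have := card_sdiff_add_card_inter R Q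
  obtain ⟨a, ha, b, hb, e⟩ := (one_lt_card (s := R ∩ Q)).1 (by omega)
  rw [mem_inter] at ha hb
  exact e (rs8 h hD hQ cQ z2 ha.2 hb.2 (hR z z1 a ha.1 fun e => z2 (e ▸ ha.2))
    (hR z z1 b hb.1 fun e => z2 (e ▸ hb.2)))

end Pool.Agent.Lib.MP_12eaff_co.BK
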