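import Mathlib

set_option autoImplicit false

namespace Pool.Agent.Lib.MP_12eaff_co

open Finset
open scoped Classical

variable {V : Type} (G : SimpleGraph V)

/-- Number of neighbours of `v` in `S`. -/
noncomputable def dg (S : Finset V) (v : V) : ℕ := (S.filter (G.Adj v)).card

/-- `S` has a proper colouring with `k` colours. -/
def Col (S : Finset V) (k : ℕ) : Prop :=
  ∃ c : V → ℕ, (∀ u ∈ S, c u < k) ∧ ∀ u ∈ S, ∀ w ∈ S, G.Adj u w → c u ≠ c w

/-- Twice the number of edges inside `S`. -/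
noncomputable def ee (S : Finset V) : ℕ := ∑ u ∈ S, dg G S u

/-- Vertices whose deletion makes `S` colourable. -/
noncomputable def crit (S : Finset V) (k : ℕ) : Finset V := S.filter (fun z => Col G (S.erase z) k)

/-- `D` is a union of components of `S`. -/
def Cl (S D : Finset V) : Prop := D ⊆ S ∧ ∀ u ∈ D, ∀ w ∈ S, G.Adj u w → w ∈ D

variable {G}

theorem dg_insert {S : Finset V} {w : V} (hw : w ∉ S) (v : V) :
    dg G (insert w S) v = dg G S v + if G.Adj v w then 1 else 0 := by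
  unfold dg
  rw [filter_insert]
  split_ifs with h
  · rw [card_insert_of_notMem (by simp [hw])]
  · rfl

theorem dg_erase {S : Finset V} {w : V} (hw : w ∈ S) (v : V) :
    dg G S v = dg G (S.erase w) v + if G.Adj v w then 1 else 0 := by
  rw [← dg_insert (notMem_erase w S), insert_erase hw]

theorem dg_erase_self (S : Finset V) (v : V) : dg G (S.erase v) v = dg G S v := by
  by_cases h : v ∈ S
  · rw [dg_erase h v]; simp
  · rw [erase_eq_of_notMem h]

theorem dg_insert_self (S : Finset V) (v : V) : dg G (insert v S) v = dg G S v := by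
  rw [← dg_erase_self (insert v S), ← dg_erase_self S, erase_insert_eq_erase]

theorem dg_mono {S T : Finset V} (h : S ⊆ T) (v : V) : dg G S v ≤ dg G T v :=
  card_le_card (filter_subset_filter _ h)

theorem le_dg {S N : Finset V} {v : V} (h : ∀ u ∈ N, u ∈ S ∧ G.Adj v u) : N.card ≤ dg G S v :=
  card_le_card (fun u hu => mem_filter.mpr (h u hu))

theorem dg_congr {S T : Finset V} {v : V} (h : ∀ u, G.Adj v u → (u ∈ S ↔ u ∈ T)) :
    dg G S v = dg G T v := by
  unfold dg
  congr 1
  ext u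
  simp only [mem_filter]
  exact ⟨fun h1 => ⟨(h u h1.2).mp h1.1, h1.2⟩, fun h1 => ⟨(h u h1.2).mpr h1.1, h1.2⟩⟩

theorem dg_cl {S D : Finset V} (h : Cl G S D) {u : V} (hu : u ∈ D) : dg G D u = dg G S u :=
  dg_congr (fun w hw => ⟨fun h1 => h.1 h1, fun h1 => h.2 u hu w h1 hw⟩)

theorem ee_insert {S : Finset V} {v : V} (hv : v ∉ S) :
    ee G (insert v S) = ee G S + 2 * dg G S v := by
  unfold ee
  rw [sum_insert hv, dg_insert_self, sum_congr rfl (fun u _ => dg_insert hv u), sum_add_distrib,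
    ← card_filter]
  have : (S.filter (fun u => G.Adj u v)).card = dg G S v := by
    unfold dg; congr 1; ext u; simp [G.adj_comm]
  rw [this]; ring

theorem ee_erase {S : Finset V} {v : V} (hv : v ∈ S) :
    ee G S = ee G (S.erase v) + 2 * dg G S v := by
  rw [← dg_erase_self, ← ee_insert (notMem_erase v S), insert_erase hv]

theorem ee_even (S : Finset V) : 2 ∣ ee G S := by
  induction S using Finset.induction_on with
  | empty => simp [ee]
  | insert v S hv ih => rw [ee_insert hv]; omega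

theorem Col.mono {S T : Finset V} {k : ℕ} (h : Col G T k) (hs : S ⊆ T) : Col G S k := by
  obtain ⟨c, h1, h2⟩ := h
  exact ⟨c, fun u hu => h1 u (hs hu), fun u hu w hw => h2 u (hs hu) w (hs hw)⟩

theorem col_update {S : Finset V} {k : ℕ} {c : V → ℕ} {v : V} {x : ℕ} (hx : x < k)
    (h1 : ∀ u ∈ S, u ≠ v → c u < k)
    (h2 : ∀ u ∈ S, ∀ w ∈ S, u ≠ v → w ≠ v → G.Adj u w → c u ≠ c w)
    (h3 : ∀ u ∈ S, G.Adj v u → c u ≠ x) : Col G S k := by
  refine ⟨Function.update c v x, fun u hu => ?_, fun u hu w hw huw => ?_⟩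
  · by_cases h : u = v
    · subst h; simpa using hx
    · simpa [h] using h1 u hu h
  · by_cases h : u = v
    · subst h
      rw [Function.update_self, Function.update_of_ne huw.ne']
      exact (h3 w hw huw).symm
    · by_cases h' : w = v
      · subst h'
        rw [Function.update_self, Function.update_of_ne h]
        exact h3 u hu huw.symm
      · rw [Function.update_of_ne h, Function.update_of_ne h']
        exact h2 u hu w hw h h' huw

theorem free_colour (N : Finset V) (c : V → ℕ) {k : ℕ} (h : (N.image c).card < k) :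
    ∃ x < k, ∀ u ∈ N, c u ≠ x := by
  obtain ⟨x, hx, hx'⟩ := exists_mem_notMem_of_card_lt_card (s := N.image c) (t := range k)
    (by simpa using h)
  exact ⟨x, mem_range.mp hx, fun u hu h1 => hx' (mem_image.mpr ⟨u, hu, h1⟩)⟩

theorem Col.of_erase {S : Finset V} {k : ℕ} {v : V} (h : Col G (S.erase v) k) (hd : dg G S v < k) :
    Col G S k := by
  obtain ⟨c, h1, h2⟩ := h
  obtain ⟨x, hx, hx'⟩ := free_colour (S.filter (G.Adj v)) c (card_image_le.trans_lt hd)
  exact col_update hx (fun u hu h => h1 u (mem_erase.mpr ⟨h, hu⟩))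
    (fun u hu w hw h h' => h2 u (mem_erase.mpr ⟨h, hu⟩) w (mem_erase.mpr ⟨h', hw⟩))
    (fun u hu h => hx' u (mem_filter.mpr ⟨hu, h⟩))

theorem Col.insert {S : Finset V} {k : ℕ} {v : V} (h : Col G S k) (hd : dg G S v < k) :
    Col G (insert v S) k :=
  Col.of_erase (v := v) (h.mono (by rw [erase_insert_eq_erase]; exact erase_subset _ _))
    (by rwa [dg_insert_self])

theorem col_cl {S D : Finset V} {k : ℕ} (h : Cl G S D) (h1 : Col G D k) (h2 : Col G (S \ D) k) :
    Col G S k := by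
  obtain ⟨c, a1, a2⟩ := h1
  obtain ⟨d, b1, b2⟩ := h2
  refine ⟨fun u => if u ∈ D then c u else d u, fun u hu => ?_, fun u hu w hw huw => ?_⟩
  · by_cases hD : u ∈ D
    · simpa [hD] using a1 u hD
    · simpa [hD] using b1 u (mem_sdiff.mpr ⟨hu, hD⟩)
  · by_cases hD : u ∈ D
    · have := h.2 u hD w hw huw
      simpa [hD, this] using a2 u hD w this huw
    · have : w ∉ D := fun h3 => hD (h.2 w h3 u hu huw.symm)
      simpa [hD, this] using b2 u (mem_sdiff.mpr ⟨hu, hD⟩) w (mem_sdiff.mpr ⟨hw, this⟩) huw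

theorem Col.add {S T : Finset V} {k l : ℕ} (h1 : Col G S k) (h2 : Col G T l) :
    Col G (S ∪ T) (k + l) := by
  obtain ⟨c, a1, a2⟩ := h1
  obtain ⟨d, b1, b2⟩ := h2
  refine ⟨fun u => if u ∈ S then c u else k + d u, fun u hu => ?_, fun u hu w hw huw => ?_⟩
  · by_cases hS : u ∈ S
    · have := a1 u hS
      simp only [hS, if_true]; omega
    · have := b1 u ((mem_union.mp hu).resolve_left hS)
      simp only [hS, if_false]; omega
  · by_cases hS : u ∈ S <;> by_cases hS' : w ∈ S <;> simp only [hS, hS', if_true, if_false]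
    · exact a2 u hS w hS' huw
    · have := a1 u hS; omega
    · have := a1 w hS'; omega
    · have := b2 u ((mem_union.mp hu).resolve_left hS) w ((mem_union.mp hw).resolve_left hS') huw
      omega

theorem mem_crit {S : Finset V} {k : ℕ} {z : V} : z ∈ crit G S k ↔ z ∈ S ∧ Col G (S.erase z) k :=
  mem_filter

theorem crit_ge {S : Finset V} {k : ℕ} (hS : ¬ Col G S k) {z : V} (hz : z ∈ crit G S k) :
    k ≤ dg G S z := by
  by_contra h
  exact hS ((mem_crit.mp hz).2.of_erase (not_le.mp h))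

theorem crit_nbr {S : Finset V} {k : ℕ} (hS : ¬ Col G S k) {z u : V} (hz : z ∈ crit G S k)
    (hd : dg G S z ≤ k) (hu : u ∈ S) (hzu : G.Adj z u) : u ∈ crit G S k := by
  obtain ⟨hz, c, h1, h2⟩ := mem_crit.mp hz
  refine mem_crit.mpr ⟨hu, ?_⟩
  have hu' : u ∈ S.erase z := mem_erase.mpr ⟨hzu.ne', hu⟩
  by_cases h : ∃ w ∈ S, G.Adj z w ∧ w ≠ u ∧ c w = c u
  · exfalso
    obtain ⟨w, hw, hzw, hwu, hc⟩ := h
    have : ((S.filter (G.Adj z)).image c).card < k := by
      refine lt_of_lt_of_le (lt_of_le_of_ne card_image_le (fun h3 => ?_)) hd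
      exact hwu (card_image_iff.mp h3 (by simp [hw, hzw]) (by simp [hu, hzu]) hc)
    obtain ⟨x, hx, hx'⟩ := free_colour _ c this
    exact hS (col_update hx (fun u hu h => h1 u (mem_erase.mpr ⟨h, hu⟩))
      (fun u hu w hw h h' => h2 u (mem_erase.mpr ⟨h, hu⟩) w (mem_erase.mpr ⟨h', hw⟩))
      (fun u hu h => hx' u (mem_filter.mpr ⟨hu, h⟩)))
  · push Not at h
    exact col_update (v := z) (h1 u hu')
      (fun a ha h => h1 a (mem_erase.mpr ⟨h, mem_of_mem_erase ha⟩))
      (fun a ha w hw h h' => h2 a (mem_erase.mpr ⟨h, mem_of_mem_erase ha⟩) w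
        (mem_erase.mpr ⟨h', mem_of_mem_erase hw⟩))
      (fun a ha h3 => h a (mem_of_mem_erase ha) h3 (ne_of_mem_erase ha))

theorem crit_cl {S : Finset V} {k : ℕ} (hS : ¬ Col G S k) (h : ∀ z ∈ crit G S k, dg G S z ≤ k) :
    Cl G S (crit G S k) :=
  ⟨filter_subset _ _, fun u hu _ hw huw => crit_nbr hS hu (h u hu) hw huw⟩

/-- A union of components containing a critical vertex is not colourable. -/
theorem cl_not_col {S D : Finset V} {k : ℕ} (hS : ¬ Col G S k) (h : Cl G S D) {z : V}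
    (hz : z ∈ crit G S k) (hD : z ∈ D) : ¬ Col G D k := fun h1 =>
  hS (col_cl h h1 ((mem_crit.mp hz).2.mono (fun _ hu =>
    mem_erase.mpr ⟨fun h3 => (mem_sdiff.mp hu).2 (h3 ▸ hD), (mem_sdiff.mp hu).1⟩)))

/-- A vertex completing a two-regular set from which one vertex was removed. -/
theorem parity {B R : Finset V} {a g : V} (hg : g ∉ B) (hB : Col G B 2) (hB' : ¬ Col G (insert g B) 2)
    (hd : ∀ z ∈ crit G (insert g B) 2, dg G (insert g B) z = 2) (ha : a ∈ R)
    (hR : ∀ u ∈ R, dg G R u = 2) (hC : Cl G B (R.erase a)) {z : V}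
    (hz : z ∈ crit G (insert g B) 2) (hz' : z ∈ R.erase a) :
    (∀ u ∈ R, G.Adj a u → G.Adj g u) ∧
      ∀ u ∈ R.erase a, u ∈ crit G (insert g B) 2 → G.Adj g u → G.Adj a u := by
  have cl := crit_cl hB' (fun z hz => (hd z hz).le)
  set K := (R.erase a).filter (fun u => u ∈ crit G (insert g B) 2) with hK
  have a1 : ∀ u ∈ K, (G.Adj u g ↔ G.Adj u a) ∧ dg G K u + (if G.Adj u a then 1 else 0) = 2 := by
    intro u hu
    obtain ⟨u1, u2⟩ := mem_filter.mp hu
    have b1 := hd u u2
    rw [dg_insert hg, ← dg_cl hC u1] at b1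
    have b2 := hR u (mem_of_mem_erase u1)
    rw [dg_erase ha] at b2
    have b3 : dg G K u = dg G (R.erase a) u := dg_congr (fun w hw => ⟨fun h => (mem_filter.mp h).1,
      fun h => mem_filter.mpr ⟨h, cl.2 u u2 w (mem_insert_of_mem (hC.1 h)) hw⟩⟩)
    refine ⟨?_, by omega⟩
    split_ifs at b1 b2 <;> first | omega | tauto
  have a2 : ∃ u ∈ K, G.Adj u a := by
    by_contra h
    push Not at h
    refine cl_not_col hB' (D := K) ⟨fun u hu => mem_insert_of_mem (hC.1 (mem_filter.mp hu).1),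
      fun u hu w hw huw => ?_⟩ hz (mem_filter.mpr ⟨hz', hz⟩)
      (hB.mono (fun u hu => hC.1 (mem_filter.mp hu).1))
    obtain ⟨u1, u2⟩ := mem_filter.mp hu
    rcases mem_insert.mp hw with rfl | h3
    · exact absurd ((a1 u hu).1.mp huw) (h u hu)
    · exact mem_filter.mpr ⟨hC.2 u u1 w h3 huw, cl.2 u u2 w hw huw⟩
  have a3 : ee G K + (K.filter (fun u => G.Adj u a)).card = 2 * K.card := by
    rw [ee, card_filter, ← sum_add_distrib, sum_congr rfl (fun u hu => (a1 u hu).2)]
    simp [mul_comm]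
  have a4 : 0 < (K.filter (fun u => G.Adj u a)).card := by
    obtain ⟨u, hu, hua⟩ := a2
    exact card_pos.mpr ⟨u, mem_filter.mpr ⟨hu, hua⟩⟩
  have a5 := ee_even (G := G) K
  have a6 : K.filter (fun u => G.Adj u a) = R.filter (G.Adj a) := by
    refine eq_of_subset_of_card_le (fun u hu => ?_) ?_
    · obtain ⟨u1, u2⟩ := mem_filter.mp hu
      exact mem_filter.mpr ⟨mem_of_mem_erase (mem_filter.mp u1).1, u2.symm⟩
    · have := hR a ha
      unfold dg at this
      omega
  refine ⟨fun u hu hau => ?_, fun u hu hu' hgu => ?_⟩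
  · have : u ∈ K.filter (fun u => G.Adj u a) := a6 ▸ mem_filter.mpr ⟨hu, hau⟩
    exact ((a1 u (mem_filter.mp this).1).1.mpr hau.symm).symm
  · exact ((a1 u (mem_filter.mpr ⟨hu, hu'⟩)).1.mp hgu.symm).symm

theorem no_grow [Fintype V] {X : Type*} (P : X → Finset V → Prop)
    (h : ∀ x W, P x W → ∃ x' W', P x' W' ∧ W.card < W'.card) (x : X) (W : Finset V) : ¬ P x W := by
  have : ∀ n x W, P x W → Fintype.card V - W.card ≠ n := by
    intro n
    induction n using Nat.strong_induction_on with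
    | _ n ih =>
      intro x W hP hn
      obtain ⟨x', W', h1, h2⟩ := h x W hP
      have := card_le_univ W'
      exact ih _ (by omega) x' W' h1 rfl
  exact fun hP => this _ x W hP rfl

/-- The other neighbour of a vertex of degree two. -/
theorem other_nbr {S : Finset V} {a y : V} (h : dg G S a = 2) (hy : y ∈ S) (hay : G.Adj a y) :
    ∃ e ∈ S, G.Adj a e ∧ e ≠ y ∧ ∀ u ∈ S, G.Adj a u → u = y ∨ u = e := by
  obtain ⟨u, w, huw, h1⟩ := card_eq_two.mp h
  have m : ∀ x, x ∈ S ∧ G.Adj a x ↔ x = u ∨ x = w := fun x => by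
    rw [← mem_filter, h1]; simp
  rcases (m y).mp ⟨hy, hay⟩ with rfl | rfl
  · exact ⟨w, ((m w).mpr (Or.inr rfl)).1, ((m w).mpr (Or.inr rfl)).2, huw.symm,
      fun x h2 h3 => (m x).mp ⟨h2, h3⟩⟩
  · exact ⟨u, ((m u).mpr (Or.inl rfl)).1, ((m u).mpr (Or.inl rfl)).2, huw,
      fun x h2 h3 => ((m x).mp ⟨h2, h3⟩).symm⟩

end Pool.Agent.Lib.MP_12eaff_co
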