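import Mathlib
import Pool.Agent.Lib.MP_12eaff_co.Basic

set_option autoImplicit false

namespace Pool.Agent.Lib.MP_12eaff_co

open Finset
open scoped Classical

variable {V : Type} {G : SimpleGraph V}

/-- `c` is a proper colouring of `S`. -/
def PC (G : SimpleGraph V) (S : Finset V) (k : ℕ) (c : V → ℕ) : Prop :=
  (∀ u ∈ S, c u < k) ∧ ∀ u ∈ S, ∀ w ∈ S, G.Adj u w → c u ≠ c w

theorem PC.mono {S T : Finset V} {k : ℕ} {c : V → ℕ} (h : PC G T k c) (hs : S ⊆ T) : PC G S k c :=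
  ⟨fun u hu => h.1 u (hs hu), fun u hu w hw => h.2 u (hs hu) w (hs hw)⟩

theorem pc_update {S : Finset V} {k : ℕ} {c : V → ℕ} {v : V} {x : ℕ} (h : PC G (S.erase v) k c)
    (hx : x < k) (h3 : ∀ u ∈ S, G.Adj v u → c u ≠ x) : PC G S k (Function.update c v x) := by
  refine ⟨fun u hu => ?_, fun u hu w hw huw => ?_⟩
  · by_cases h' : u = v
    · subst h'; simpa using hx
    · simpa [h'] using h.1 u (mem_erase.mpr ⟨h', hu⟩)
  · by_cases h0 : u = v
    · subst h0
      rw [Function.update_self, Function.update_of_ne huw.ne']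
      exact (h3 w hw huw).symm
    · by_cases h' : w = v
      · subst h'
        rw [Function.update_self, Function.update_of_ne h0]
        exact h3 u hu huw.symm
      · rw [Function.update_of_ne h0, Function.update_of_ne h']
        exact h.2 u (mem_erase.mpr ⟨h0, hu⟩) w (mem_erase.mpr ⟨h', hw⟩) huw

theorem free_of_same {S : Finset V} {k : ℕ} (c : V → ℕ) {v a x : V} (hd : dg G S v ≤ k)
    (ha : a ∈ S) (hx : x ∈ S) (hax : a ≠ x) (h1 : G.Adj v a) (h2 : G.Adj v x) (h : c a = c x) :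
    ∃ t < k, ∀ u ∈ S, G.Adj v u → c u ≠ t := by
  have : ((S.filter (G.Adj v)).image c).card < k := by
    refine lt_of_lt_of_le (lt_of_le_of_ne card_image_le (fun h3 => ?_)) hd
    exact hax (card_image_iff.mp h3 (by simp [ha, h1]) (by simp [hx, h2]) h)
  obtain ⟨t, ht, ht'⟩ := free_colour _ c this
  exact ⟨t, ht, fun u hu h3 => ht' u (mem_filter.mpr ⟨hu, h3⟩)⟩

theorem no_square {K : Finset V} (hd : ∀ u ∈ K, dg G K u = 3) (hK : ¬ Col G K 3)
    (hc : ∀ z ∈ K, Col G (K.erase z) 3) {a x y y' : V} (ha : a ∈ K) (hx : x ∈ K) (hy : y ∈ K)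
    (hy' : y' ∈ K) (hax : a ≠ x) (hyy : y ≠ y') (h1 : G.Adj a y) (h2 : G.Adj a y') (h3 : G.Adj x y)
    (h4 : G.Adj x y') : G.Adj a x := by
  by_contra hn
  obtain ⟨c, hc⟩ : ∃ c, PC G (K.erase y) 3 c := hc y hy
  set T := (K.erase y).erase y' with hT
  have hy'' : y' ∈ K.erase y := mem_erase.mpr ⟨hyy.symm, hy'⟩
  have dT : ∀ u ∈ K, G.Adj u y → G.Adj u y' → dg G T u = 1 := by
    intro u hu b1 b2
    have := hd u hu
    rw [dg_erase hy, dg_erase hy'', if_pos b1, if_pos b2, ← hT] at this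
    omega
  obtain ⟨t, ht, ht'⟩ := free_colour (T.filter (G.Adj a) ∪ T.filter (G.Adj x)) c (k := 3) (by
    have b1 := dT a ha h1 h2
    have b2 := dT x hx h3 h4
    have b3 := card_union_le (T.filter (G.Adj a)) (T.filter (G.Adj x))
    have b4 := card_image_le (s := T.filter (G.Adj a) ∪ T.filter (G.Adj x)) (f := c)
    unfold dg at b1 b2
    omega)
  have p1 : PC G (T.erase x) 3 (Function.update c a t) :=
    pc_update (hc.mono ((erase_subset _ _).trans ((erase_subset _ _).trans (erase_subset _ _)))) ht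
      (fun u hu h => ht' u (mem_union_left _ (mem_filter.mpr ⟨mem_of_mem_erase hu, h⟩)))
  have p2 := pc_update p1 ht (fun u hu h => by
    rw [Function.update_of_ne (fun h5 => hn (h5 ▸ h).symm)]
    exact ht' u (mem_union_right _ (mem_filter.mpr ⟨hu, h⟩)))
  set c2 := Function.update (Function.update c a t) x t with hc2
  have e2 : c2 a = c2 x := by simp [hc2, hax]
  obtain ⟨t1, s1, s2⟩ := free_of_same (S := K.erase y) c2 (k := 3)
    ((dg_mono (erase_subset _ _) y').trans (hd y' hy').le) (mem_erase.mpr ⟨h1.ne, ha⟩)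
    (mem_erase.mpr ⟨h3.ne, hx⟩) hax h2.symm h4.symm e2
  have p3 := pc_update p2 s1 s2
  obtain ⟨t2, s3, s4⟩ := free_of_same (S := K) (Function.update c2 y' t1) (k := 3) (hd y hy).le ha hx
    hax h1.symm h3.symm (by rw [Function.update_of_ne h2.ne, Function.update_of_ne h4.ne, e2])
  exact hK ⟨_, pc_update p3 s3 s4⟩

theorem col_one {I : Finset V} : Col G I 1 ↔ ∀ u ∈ I, ∀ w ∈ I, ¬ G.Adj u w :=
  ⟨fun ⟨c, h1, h2⟩ u hu w hw h => h2 u hu w hw h (by have := h1 u hu; have := h1 w hw; omega),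
    fun h => ⟨fun _ => 0, fun _ _ => one_pos, fun u hu w hw h1 => absurd h1 (h u hu w hw)⟩⟩

theorem dg_split {K I : Finset V} (h : I ⊆ K) (v : V) : dg G K v = dg G (K \ I) v + dg G I v := by
  unfold dg
  rw [← card_union_of_disjoint (disjoint_filter_filter sdiff_disjoint), ← filter_union,
    sdiff_union_of_subset h]

theorem brooks3 [Fintype V] {K : Finset V} (hd : ∀ u ∈ K, dg G K u = 3) (hK : ¬ Col G K 3)
    (hc : ∀ z ∈ K, Col G (K.erase z) 3) (hne : K.Nonempty) :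
    ∃ Q ⊆ K, Q.card = 4 ∧ ∀ u ∈ Q, ∀ w ∈ Q, u ≠ w → G.Adj u w := by
  by_contra hQ
  have sq : ∀ a ∈ K, ∀ x ∈ K, ∀ y ∈ K, ∀ y' ∈ K, a ≠ x → y ≠ y' → G.Adj a y → G.Adj a y' →
      G.Adj x y → G.Adj x y' → False := by
    intro a ha x hx y hy y' hy' hax hyy h1 h2 h3 h4
    have b1 := no_square hd hK hc ha hx hy hy' hax hyy h1 h2 h3 h4
    have b2 := no_square hd hK hc hy hy' ha hx hyy hax h1.symm h3.symm h2.symm h4.symm
    refine hQ ⟨{a, x, y, y'}, by simp [insert_subset_iff, *], ?_, ?_⟩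
    · rw [card_eq_four]
      exact ⟨a, x, y, y', hax, h1.ne, h2.ne, h3.ne, h4.ne, hyy, rfl⟩
    · simp only [mem_insert, mem_singleton]
      rintro u (rfl | rfl | rfl | rfl) w (rfl | rfl | rfl | rfl) h <;>
        first | exact absurd rfl h | assumption | (symm; assumption)
  have nc : ∀ I ⊆ K, Col G I 1 → ¬ Col G (K \ I) 2 := fun I hI h1 h2 =>
    hK (by simpa [sdiff_union_of_subset hI] using h2.add h1)
  have deg : ∀ I ⊆ K, Col G I 1 → ∀ z ∈ crit G (K \ I) 2, dg G (K \ I) z = 2 ∧ dg G I z = 1 := by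
    intro I hI h1 z hz
    have b1 := crit_ge (nc I hI h1) hz
    obtain ⟨z1, z2⟩ := mem_crit.mp hz
    have b2 := hd z (mem_sdiff.mp z1).1
    rw [dg_split hI] at b2
    have b3 : 1 ≤ dg G I z := by
      by_contra h
      refine nc (insert z I) (insert_subset (mem_sdiff.mp z1).1 hI) (h1.insert (not_le.mp h)) ?_
      rwa [sdiff_insert]
    omega
  let P : Finset V × V → Finset V → Prop := fun s W => s.1 ⊆ K ∧ Col G s.1 1 ∧
    s.2 ∈ crit G (K \ s.1) 2 ∧ (∀ u ∈ W, u ∉ crit G (K \ s.1) 2) ∧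
    ∀ u ∈ W, ∃ R a, a ∈ R ∧ R ⊆ K ∧ u ∈ R.erase a ∧ (∀ x ∈ R, dg G R x = 2) ∧ R.erase a ⊆ W ∧
      Cl G (K \ s.1) (R.erase a) ∧ ∀ x ∈ K, G.Adj a x → x ∈ W ∨ x = s.2
  obtain ⟨v, hv⟩ := hne
  obtain ⟨c, c1, c2⟩ := hc v hv
  refine no_grow P ?_ ((K.erase v).filter (fun u => c u = 2), v) ∅
    ⟨(filter_subset _ _).trans (erase_subset _ _), col_one.mpr (fun u hu w hw h => ?_),
      mem_crit.mpr ⟨by simp [hv], c, fun u hu => ?_, fun u hu w hw => ?_⟩, by simp, by simp⟩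
  rotate_left
  · obtain ⟨u1, u2⟩ := mem_filter.mp hu
    obtain ⟨w1, w2⟩ := mem_filter.mp hw
    exact c2 u u1 w w1 h (u2.trans w2.symm)
  · simp only [mem_erase, mem_sdiff, mem_filter] at hu
    have := c1 u (mem_erase.mpr ⟨hu.1, hu.2.1⟩)
    have : c u ≠ 2 := fun h => hu.2.2 ⟨⟨hu.1, hu.2.1⟩, h⟩
    omega
  · simp only [mem_erase, mem_sdiff] at hu hw
    exact c2 u (mem_erase.mpr ⟨hu.1, hu.2.1⟩) w (mem_erase.mpr ⟨hw.1, hw.2.1⟩)
  rintro ⟨I, g⟩ W ⟨hI, hI1, hg, hW, hrec⟩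
  simp only at hI hI1 hg hW hrec
  set R := crit G (K \ I) 2 with hR
  have cl : Cl G (K \ I) R := crit_cl (nc I hI hI1) (fun z hz => (deg I hI hI1 z hz).1.le)
  have dR : ∀ x ∈ R, dg G R x = 2 := fun x hx => (dg_cl cl hx).trans (deg I hI hI1 x hx).1
  obtain ⟨a, ha⟩ : (R.filter (G.Adj g)).Nonempty := card_pos.mp (by
    have := dR g hg; unfold dg at this; omega)
  obtain ⟨ha, hga⟩ := mem_filter.mp ha
  obtain ⟨haK, haI⟩ := mem_sdiff.mp (cl.1 ha)
  obtain ⟨g', hg'⟩ := card_eq_one.mp (deg I hI hI1 a ha).2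
  have m : ∀ x, x ∈ I ∧ G.Adj a x ↔ x = g' := fun x => by rw [← mem_filter, hg', mem_singleton]
  obtain ⟨g1, g2⟩ := (m g').mpr rfl
  have hI' : insert a (I.erase g') ⊆ K := insert_subset haK ((erase_subset _ _).trans hI)
  have hI1' : Col G (insert a (I.erase g')) 1 := (hI1.mono (erase_subset _ _)).insert (by
    have := (deg I hI hI1 a ha).2
    rw [dg_erase g1, if_pos g2] at this
    omega)
  have eB : K \ insert a (I.erase g') = insert g' ((K \ I).erase a) := by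
    ext u
    simp only [mem_sdiff, mem_insert, mem_erase]
    constructor
    · tauto
    · rintro (rfl | h)
      · exact ⟨hI g1, fun h => h.elim g2.ne' (fun h => h.1 rfl)⟩
      · tauto
  have gB : g' ∉ (K \ I).erase a := by simp [g1]
  have cB := (mem_crit.mp ha).2
  have nB := nc _ hI' hI1'
  have dB := fun z hz => (deg _ hI' hI1' z hz).1
  rw [eB] at nB dB
  have gc : g' ∈ crit G (insert g' ((K \ I).erase a)) 2 :=
    mem_crit.mpr ⟨mem_insert_self _ _, by rwa [erase_insert gB]⟩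
  have recs : ∀ u ∈ W ∪ R.erase a, ∃ R' a', a' ∈ R' ∧ R' ⊆ K ∧ u ∈ R'.erase a' ∧
      (∀ x ∈ R', dg G R' x = 2) ∧ R'.erase a' ⊆ W ∪ R.erase a ∧
      Cl G ((K \ I).erase a) (R'.erase a') ∧ a' ≠ g' ∧
      ∀ x ∈ K, G.Adj a' x → x ∈ W ∪ R.erase a ∨ x = g' := by
    intro u hu
    rcases mem_union.mp hu with hu | hu
    · obtain ⟨R', a', r1, r2, r3, r4, r5, r6, r7⟩ := hrec u hu
      refine ⟨R', a', r1, r2, r3, r4, r5.trans subset_union_left,
        ⟨fun x hx => mem_erase.mpr ⟨fun h => hW x (r5 hx) (h ▸ ha), r6.1 hx⟩,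
          fun x hx w hw => r6.2 x hx w (mem_of_mem_erase hw)⟩, fun h => ?_, fun x hx h => Or.inl ?_⟩
      · rcases r7 a haK (h ▸ g2.symm) with h1 | h1
        · exact hW a h1 ha
        · exact hga.ne' h1
      · rcases r7 x hx h with h1 | rfl
        · exact mem_union_left _ h1
        · exact mem_union_right _ (mem_erase.mpr ⟨hga.ne, hg⟩)
    · refine ⟨R, a, ha, cl.1.trans sdiff_subset, hu, dR, subset_union_right,
        ⟨erase_subset_erase _ cl.1, fun x hx w hw h => mem_erase.mpr ⟨ne_of_mem_erase hw,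
          cl.2 x (mem_of_mem_erase hx) w (mem_of_mem_erase hw) h⟩⟩, g2.ne, fun x hx h => ?_⟩
      by_cases hx' : x ∈ I
      · exact Or.inr ((m x).mp ⟨hx', h⟩)
      · exact Or.inl (mem_union_right _ (mem_erase.mpr ⟨h.ne',
          cl.2 a ha x (mem_sdiff.mpr ⟨hx, hx'⟩) h⟩))
  have dis : ∀ u ∈ W ∪ R.erase a, u ∉ crit G (insert g' ((K \ I).erase a)) 2 := by
    intro u hu hu'
    obtain ⟨R', a', r1, r2, r3, r4, -, r6, r7, -⟩ := recs u hu
    have b1 := (parity gB cB nB dB r1 r4 r6 hu' r3).1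
    obtain ⟨y, y', hyy, h1⟩ := card_eq_two.mp (r4 a' r1)
    have m' : ∀ x, x ∈ R' ∧ G.Adj a' x ↔ x = y ∨ x = y' := fun x => by
      rw [← mem_filter, h1]; simp
    obtain ⟨y1, y2⟩ := (m' y).mpr (Or.inl rfl)
    obtain ⟨y3, y4⟩ := (m' y').mpr (Or.inr rfl)
    exact sq a' (r2 r1) g' (hI g1) y (r2 y1) y' (r2 y3) r7 hyy y2 y4 (b1 y y1 y2) (b1 y' y3 y4)
  refine ⟨(insert a (I.erase g'), g'), W ∪ R.erase a, ⟨hI', hI1', ?_⟩, ?_⟩
  · simp only [eB]
    refine ⟨gc, dis, fun u hu => ?_⟩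
    obtain ⟨R', a', r1, r2, r3, r4, r5, r6, -, r8⟩ := recs u hu
    refine ⟨R', a', r1, r2, r3, r4, r5, ⟨r6.1.trans (subset_insert _ _), fun x hx w hw h => ?_⟩, r8⟩
    rcases mem_insert.mp hw with rfl | hw
    · exact absurd (crit_nbr nB gc (dB _ gc).le (mem_insert_of_mem (r6.1 hx)) h.symm) (dis x (r5 hx))
    · exact r6.2 x hx w hw h
  · exact card_lt_card ⟨subset_union_left, fun h =>
      hW g (h (mem_union_right _ (mem_erase.mpr ⟨hga.ne, hg⟩))) hg⟩

/-- If all critical vertices have degree three they form a complete graph on four vertices. -/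
theorem crit_K4 [Fintype V] {S : Finset V} (hS : ¬ Col G S 3) (hd : ∀ z ∈ crit G S 3, dg G S z = 3)
    {v : V} (hv : v ∈ crit G S 3) :
    (crit G S 3).card = 4 ∧ ∀ u ∈ crit G S 3, ∀ w ∈ crit G S 3, u ≠ w → G.Adj u w := by
  have cl := crit_cl hS (fun z hz => (hd z hz).le)
  obtain ⟨Q, h1, h2, h3⟩ := brooks3 (fun u hu => (dg_cl cl hu).trans (hd u hu))
    (cl_not_col hS cl hv hv) (fun z hz => (mem_crit.mp hz).2.mono (erase_subset_erase _ cl.1)) ⟨v, hv⟩
  have : crit G S 3 = Q := by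
    refine Subset.antisymm (fun z hz => ?_) h1
    by_contra hn
    obtain ⟨c, c1, c2⟩ := (mem_crit.mp hz).2
    have hs : ∀ u ∈ Q, u ∈ S.erase z := fun u hu =>
      mem_erase.mpr ⟨fun h => hn (h ▸ hu), cl.1 (h1 hu)⟩
    have := card_le_card_of_injOn c (s := Q) (t := range 3)
      (fun u hu => by simpa using c1 u (hs u hu))
      (fun u hu w hw h => by
        by_contra hne
        exact c2 u (hs u hu) w (hs w hw) (h3 u hu w hw hne) h)
    simp [h2] at this
  rw [this]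
  exact ⟨h2, h3⟩

/-- A closed triangle. -/
def Tri (G : SimpleGraph V) (P S : Finset V) : Prop :=
  S.card = 3 ∧ Cl G P S ∧ ∀ u ∈ S, ∀ w ∈ S, u ≠ w → G.Adj u w

/-- Adding a closed triangle to which `z` is not complete keeps three-colourability. -/
theorem tri_ext {P S : Finset V} (h : Tri G P S) {z x : V} (hz : z ∉ P) (hx : x ∈ S)
    (hzx : ¬ G.Adj z x) (hc : Col G (insert z (P \ S)) 3) : Col G (insert z P) 3 := by
  obtain ⟨c, hc⟩ : ∃ c, PC G (insert z (P \ S)) 3 c := hc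
  have hzS : z ∉ S := fun h1 => hz (h.2.1.1 h1)
  obtain ⟨y, y', hyy, e⟩ := card_eq_two.mp (show (S.erase x).card = 2 by
    rw [card_erase_of_mem hx, h.1])
  have m : ∀ u, u ∈ S ↔ u = x ∨ u = y ∨ u = y' := fun u => by
    rw [← insert_erase hx, e]; simp
  have yx : y ≠ x := ne_of_mem_erase (e ▸ (by simp : y ∈ ({y, y'} : Finset V)))
  have yx' : y' ≠ x := ne_of_mem_erase (e ▸ (by simp : y' ∈ ({y, y'} : Finset V)))
  have cz := hc.1 z (mem_insert_self _ _)
  let d : V → ℕ := fun u => if u = x then c z else if u = y then (c z + 1) % 3 else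
    if u = y' then (c z + 2) % 3 else c u
  have d1 : ∀ u, u ∉ S → d u = c u := fun u hu => by
    rw [m] at hu
    push Not at hu
    simp [d, hu]
  have dx : d x = c z := by simp [d]
  have dy : d y = (c z + 1) % 3 := by simp [d, yx]
  have dy' : d y' = (c z + 2) % 3 := by simp [d, yx', hyy.symm]
  have ms : ∀ u ∈ insert z P, u ∉ S → u ∈ insert z (P \ S) := fun u hu h1 => by
    simp only [mem_insert, mem_sdiff] at hu ⊢; tauto
  have key : ∀ u ∈ S, ∀ w ∈ insert z P, G.Adj u w → d u ≠ d w := by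
    intro u hu w hw huw
    rcases mem_insert.mp hw with rfl | hw
    · rw [d1 w hzS]
      rcases (m u).mp hu with rfl | rfl | rfl
      · exact absurd huw.symm hzx
      · omega
      · omega
    · have := huw.ne
      rcases (m u).mp hu with rfl | rfl | rfl <;>
        rcases (m w).mp (h.2.1.2 _ hu w hw huw) with rfl | rfl | rfl <;>
        first | omega | exact absurd rfl this
  refine ⟨d, fun u hu => ?_, fun u hu w hw huw => ?_⟩
  · by_cases h1 : u ∈ S
    · rcases (m u).mp h1 with rfl | rfl | rfl <;> omega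
    · rw [d1 u h1]; exact hc.1 u (ms u hu h1)
  · by_cases h1 : u ∈ S
    · exact key u h1 w hw huw
    · by_cases h2 : w ∈ S
      · exact (key w h2 u hu huw.symm).symm
      · rw [d1 u h1, d1 w h2]; exact hc.2 u (ms u hu h1) w (ms w hw h2) huw

end Pool.Agent.Lib.MP_12eaff_co
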