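import Mathlib

set_option autoImplicit false

namespace Pool.Agent.Lib.MP_12eaff_co.Ker

open Finset
open scoped Classical

variable {V β γ : Type}

/-- Blocks of size at least `k`: one can choose one vertex in each block so that each group
with `n` vertices in blocks gets at most `⌈n / k⌉` chosen ones. -/
theorem cap_hall (W : Finset V) (bl : V → β) (g : V → γ) {k : ℕ} (hk : 0 < k)
    (h : ∀ v ∈ W, k ≤ (W.filter fun w => bl w = bl v).card) :
    ∃ C ⊆ W, (∀ v ∈ W, ∃ c ∈ C, bl c = bl v) ∧ (∀ c ∈ C, ∀ d ∈ C, bl c = bl d → c = d) ∧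
      ∀ x, k * (C.filter fun w => g w = x).card < (W.filter fun w => g w = x).card + k := by
  set n : γ → ℕ := fun x => (W.filter fun w => g w = x).card with hn
  set sl : γ → Finset (γ × ℕ) := fun x => {x} ×ˢ range ((n x + k - 1) / k) with hsl
  obtain ⟨f, f1, f2⟩ := (all_card_le_biUnion_card_iff_exists_injective
    fun b : W.image bl => ((W.filter fun w => bl w = b).image g).biUnion sl).1 fun s => by
    set Z := W.filter fun w => bl w ∈ s.image (↑) with hZ
    have a1 : k * s.card ≤ Z.card := by
      rw [card_eq_sum_card_fiberwise (f := bl) (s := Z) (t := s.image (↑))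
        fun w hw => (mem_filter.1 hw).2, ← card_image_of_injective s Subtype.val_injective,
        mul_comm, ← smul_eq_mul]
      refine card_nsmul_le_sum _ _ _ fun b hb => ?_
      obtain ⟨⟨b, b1⟩, b2, rfl⟩ := mem_image.1 hb
      obtain ⟨v, hv, rfl⟩ := mem_image.1 b1
      refine (h v hv).trans (card_le_card fun w hw => ?_)
      rw [mem_filter] at hw
      exact mem_filter.2 ⟨mem_filter.2 ⟨hw.1, hw.2 ▸ hb⟩, hw.2⟩
    have a2 : Z.card ≤ k * ((Z.image g).biUnion sl).card := by
      rw [card_biUnion fun x _ y _ e => by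
        simp only [hsl, Function.onFun, disjoint_product, disjoint_singleton]
        exact .inl e, card_eq_sum_card_fiberwise (f := g) (s := Z) (t := Z.image g)
        fun w hw => mem_image_of_mem _ hw, mul_sum]
      refine sum_le_sum fun x _ => ?_
      have : (Z.filter fun w => g w = x).card ≤ n x :=
        card_le_card (filter_subset_filter _ (filter_subset _ _))
      have := Nat.div_add_mod (n x + k - 1) k
      have := Nat.mod_lt (n x + k - 1) hk
      simp only [hsl, card_product, card_singleton, card_range, one_mul]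
      omega
    refine (Nat.le_of_mul_le_mul_left (a1.trans a2) hk).trans (card_le_card fun p hp => ?_)
    simp only [mem_biUnion, mem_image, hZ, mem_filter] at hp ⊢
    obtain ⟨x, ⟨w, ⟨w1, b, b1, b2⟩, rfl⟩, hp⟩ := hp
    exact ⟨b, b1, _, ⟨w, ⟨w1, b2.symm⟩, rfl⟩, hp⟩
  have : ∀ b : W.image bl, ∃ w ∈ W, bl w = b ∧ f b ∈ sl (g w) := fun b => by
    obtain ⟨x, x1, x2⟩ := mem_biUnion.1 (f2 b)
    obtain ⟨w, w1, rfl⟩ := mem_image.1 x1
    exact ⟨w, (mem_filter.1 w1).1, (mem_filter.1 w1).2, x2⟩
  choose c c1 c2 c3 using this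
  refine ⟨univ.image c, fun w hw => ?_, fun v hv => ?_, fun x hx y hy e => ?_, fun x => ?_⟩
  · obtain ⟨b, -, rfl⟩ := mem_image.1 hw
    exact c1 b
  · exact ⟨c ⟨_, mem_image_of_mem _ hv⟩, mem_image_of_mem _ (mem_univ _), c2 _⟩
  · obtain ⟨a, -, rfl⟩ := mem_image.1 hx
    obtain ⟨b, -, rfl⟩ := mem_image.1 hy
    rw [c2, c2] at e
    rw [Subtype.ext e]
  · have a : ((univ.image c).filter fun w => g w = x).card ≤ (sl x).card := by
      rw [filter_image]
      refine card_image_le.trans (card_le_card_of_injOn f (fun b hb => ?_) f1.injOn)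
      rw [← (mem_filter.1 hb).2]
      exact c3 b
    simp only [hsl, card_product, card_singleton, card_range, one_mul] at a
    have := Nat.mul_le_mul_left k a
    have := Nat.mul_div_le (n x + k - 1) k
    change _ < n x + k
    omega

end Pool.Agent.Lib.MP_12eaff_co.Ker
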