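import Mathlib
import Pool.Agent.Lib.MP_12eaff_co.Brooks3

set_option autoImplicit false

namespace Pool.Agent.Lib.MP_12eaff_co

open Finset
open scoped Classical

variable {V : Type} {G : SimpleGraph V}

/-- A partition into three parts; `X` is the part that needs one colour too many. -/
structure St (V : Type) where
  A : Finset V
  X : Finset V
  Y : Finset V
  r : ℕ
  s : ℕ

/-- Critical vertices of the active part. -/
noncomputable def St.K (G : SimpleGraph V) (t : St V) : Finset V := crit G t.X t.r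

/-- Valid states. -/
structure Val (G : SimpleGraph V) (U : Finset V) (t : St V) : Prop where
  dAX : ∀ u ∈ t.A, u ∉ t.X
  dAY : ∀ u ∈ t.A, u ∉ t.Y
  dXY : ∀ u ∈ t.X, u ∉ t.Y
  cov : ∀ u, u ∈ U ↔ u ∈ t.A ∨ u ∈ t.X ∨ u ∈ t.Y
  rs : (t.r = 3 ∧ t.s = 2) ∨ (t.r = 2 ∧ t.s = 3)
  cA : Col G t.A 3
  cY : Col G t.Y t.s
  ne : (t.K G).Nonempty

/-- Second potential. -/
noncomputable def potE (G : SimpleGraph V) (U : Finset V) (t : St V) : ℕ := ee G t.A + ee G (U \ t.A)

/-- Third potential. -/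
noncomputable def potF (G : SimpleGraph V) (t : St V) : ℕ :=
  ee G t.X + 2 * t.s * t.X.card + ee G t.Y + 2 * t.r * t.Y.card

/-- Standing assumptions. -/
structure Ctx (G : SimpleGraph V) (U : Finset V) (a0 e0 f0 : ℕ) : Prop where
  deg : ∀ v ∈ U, dg G U v ≤ 9
  nc : ¬ Col G U 8
  h1 : ∀ t, Val G U t → t.A.card ≤ a0
  h2 : ∀ t, Val G U t → t.A.card = a0 → e0 ≤ potE G U t
  h3 : ∀ t, Val G U t → t.A.card = a0 → potE G U t = e0 → f0 ≤ potF G t

/-- Optimal states. -/
structure Opt (G : SimpleGraph V) (U : Finset V) (a0 e0 f0 : ℕ) (t : St V) : Prop where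
  val : Val G U t
  ea : t.A.card = a0
  eE : potE G U t = e0
  eF : potF G t = f0

/-- Moving a vertex from the active part to the passive part. -/
noncomputable def St.mv (t : St V) (z : V) : St V := ⟨t.A, insert z t.Y, t.X.erase z, t.s, t.r⟩

/-- Exchange with the first part, staying active in the same part. -/
noncomputable def St.sw1 (t : St V) (z w : V) : St V :=
  ⟨(insert z t.A).erase w, insert w (t.X.erase z), t.Y, t.r, t.s⟩

/-- Exchange with the first part, the other part becoming active. -/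
noncomputable def St.sw2 (t : St V) (z w : V) : St V :=
  ⟨(insert z t.A).erase w, insert w t.Y, t.X.erase z, t.s, t.r⟩

variable {U : Finset V} {a0 e0 f0 : ℕ} {t : St V}

theorem Ctx.all (c : Ctx G U a0 e0 f0) {A X Y : Finset V} {r s : ℕ} (hrs : r + s = 5)
    (h : ∀ u ∈ U, u ∈ A ∨ u ∈ X ∨ u ∈ Y) (h1 : Col G A 3) (h2 : Col G X r) (h3 : Col G Y s) :
    False := by
  have := h1.add (h2.add h3)
  rw [hrs] at this
  exact c.nc (this.mono (fun u hu => by simpa using h u hu))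

theorem Val.sum (h : Val G U t) : t.r + t.s = 5 := by rcases h.rs with h | h <;> omega

theorem Val.nX (c : Ctx G U a0 e0 f0) (h : Val G U t) : ¬ Col G t.X t.r := fun h1 =>
  c.all h.sum (fun u hu => (h.cov u).mp hu) h.cA h1 h.cY

theorem K_sub {z : V} (hz : z ∈ t.K G) : z ∈ t.X := (mem_crit.mp hz).1

theorem K_col {z : V} (hz : z ∈ t.K G) : Col G (t.X.erase z) t.r := (mem_crit.mp hz).2

theorem dg_union {S T : Finset V} (h : ∀ u ∈ S, u ∉ T) (v : V) :
    dg G (S ∪ T) v = dg G S v + dg G T v := by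
  unfold dg
  rw [filter_union, card_union_of_disjoint (disjoint_filter_filter (disjoint_left.mpr h))]

theorem Val.compl (h : Val G U t) : U \ t.A = t.X ∪ t.Y := by
  ext u
  have := h.dAX u
  have := h.dAY u
  simp only [mem_sdiff, mem_union, h.cov]
  tauto

theorem Val.split (h : Val G U t) (v : V) : dg G U v = dg G t.A v + dg G t.X v + dg G t.Y v := by
  rw [dg_split (I := t.A) (fun u hu => (h.cov u).mpr (Or.inl hu)), h.compl, dg_union h.dXY]
  ring

theorem Val.nA (c : Ctx G U a0 e0 f0) (h : Val G U t) {z : V} (hz : z ∈ t.K G) :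
    ¬ Col G (insert z t.A) 3 := fun h1 =>
  c.all h.sum (fun u hu => by
    have := (h.cov u).mp hu
    simp only [mem_insert, mem_erase]
    tauto) h1 (K_col hz) h.cY

theorem Val.mv (h : Val G U t) {z : V} (hz : z ∈ t.K G) :
    Val G U (t.mv z) ∧ z ∈ (t.mv z).K G := by
  have z1 := K_sub hz
  have zK : z ∈ (t.mv z).K G := mem_crit.mpr ⟨mem_insert_self _ _, by
    simp only [St.mv]
    rw [erase_insert (h.dXY z z1)]; exact h.cY⟩
  refine ⟨⟨fun u hu => ?_, fun u hu => ?_, fun u hu => ?_, fun u => ?_, ?_, h.cA, K_col hz,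
    ⟨z, zK⟩⟩, zK⟩
  · simp only [St.mv, mem_insert, not_or]
    exact ⟨fun e => h.dAX u hu (e ▸ z1), h.dAY u hu⟩
  · exact fun h1 => h.dAX u hu (mem_of_mem_erase h1)
  · simp only [St.mv, mem_insert, mem_erase] at hu ⊢
    rintro ⟨h1, h2⟩
    exact h.dXY u h2 (hu.resolve_left h1)
  · simp only [St.mv, mem_insert, mem_erase, h.cov]
    by_cases e : u = z
    · subst e; tauto
    · tauto
  · simp only [St.mv]; rcases h.rs with h | h <;> omega

theorem Val.ge (c : Ctx G U a0 e0 f0) (h : Val G U t) {z : V} (hz : z ∈ t.K G) :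
    3 ≤ dg G t.A z ∧ t.r ≤ dg G t.X z ∧ t.s ≤ dg G t.Y z ∧
      dg G t.A z + dg G t.X z + dg G t.Y z ≤ 9 := by
  refine ⟨?_, crit_ge (h.nX c) hz, ?_, ?_⟩
  · by_contra h1
    exact h.nA c hz (h.cA.insert (not_le.mp h1))
  · have := crit_ge ((h.mv hz).1.nX c) (h.mv hz).2
    simpa only [St.mv, dg_insert_self] using this
  · rw [← h.split]; exact c.deg z ((h.cov z).mpr (Or.inr (Or.inl (K_sub hz))))

theorem Val.potF_mv (h : Val G U t) {z : V} (hz : z ∈ t.X) :
    potF G (t.mv z) + 2 * dg G t.X z + 2 * t.s = potF G t + 2 * dg G t.Y z + 2 * t.r := by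
  simp only [potF, St.mv]
  rw [ee_insert (h.dXY z hz), card_insert_of_notMem (h.dXY z hz), ee_erase hz,
    ← card_erase_add_one hz]
  ring

theorem Opt.deg (c : Ctx G U a0 e0 f0) (h : Opt G U a0 e0 f0 t) {z : V} (hz : z ∈ t.K G) :
    dg G t.X z = t.r := by
  have a1 := h.val.ge c hz
  have a2 := h.val.potF_mv (K_sub hz)
  have a3 := c.h3 _ (h.val.mv hz).1 h.ea h.eE
  have a4 := h.eF
  have a5 := h.val.sum
  omega

theorem Opt.mv (c : Ctx G U a0 e0 f0) (h : Opt G U a0 e0 f0 t) {z : V} (hz : z ∈ t.K G)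
    (hl : dg G t.Y z = t.s) : Opt G U a0 e0 f0 (t.mv z) := by
  have a2 := h.val.potF_mv (K_sub hz)
  have a1 := h.deg c hz
  have a4 := h.eF
  exact ⟨(h.val.mv hz).1, h.ea, h.eE, by omega⟩

theorem Opt.cl (c : Ctx G U a0 e0 f0) (h : Opt G U a0 e0 f0 t) : Cl G t.X (t.K G) :=
  crit_cl (h.val.nX c) (fun _ hz => (h.deg c hz).le)

theorem Opt.K4 [Fintype V] (c : Ctx G U a0 e0 f0) (h : Opt G U a0 e0 f0 t) (hr : t.r = 3) :
    (t.K G).card = 4 ∧ ∀ u ∈ t.K G, ∀ w ∈ t.K G, u ≠ w → G.Adj u w := by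
  obtain ⟨v, hv⟩ := h.val.ne
  have a1 := h.val.nX c
  have a2 := fun z hz => h.deg c (z := z) hz
  unfold St.K at *
  rw [hr] at *
  exact crit_K4 a1 a2 hv

theorem Opt.maxA (c : Ctx G U a0 e0 f0) (h : Opt G U a0 e0 f0 t) {w b : V} (hw : w ∈ t.K G)
    (hb : b ∈ t.X ∨ b ∈ t.Y) (hbw : b ≠ w) : ¬ Col G (insert b t.A) 3 := by
  intro hc
  have v := h.val
  have bA : b ∉ t.A := fun h1 => hb.elim (v.dAX b h1) (v.dAY b h1)
  have := c.h1 ⟨insert b t.A, t.X.erase b, t.Y.erase b, t.r, t.s⟩ ⟨fun u hu => ?_, fun u hu => ?_,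
    fun u hu h1 => v.dXY u (mem_of_mem_erase hu) (mem_of_mem_erase h1), fun u => ?_, v.rs, hc,
    v.cY.mono (erase_subset _ _), ⟨w, mem_crit.mpr ⟨mem_erase.mpr ⟨hbw.symm, K_sub hw⟩,
      (K_col hw).mono (erase_subset_erase _ (erase_subset _ _))⟩⟩⟩
  · simp only [card_insert_of_notMem bA, h.ea] at this
    omega
  · simp only [mem_insert, mem_erase] at hu ⊢
    exact fun h1 => v.dAX u (hu.resolve_left h1.1) h1.2
  · simp only [mem_insert, mem_erase] at hu ⊢
    exact fun h1 => v.dAY u (hu.resolve_left h1.1) h1.2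
  · simp only [mem_insert, mem_erase, v.cov]
    by_cases e : u = b
    · subst e; tauto
    · tauto

theorem Val.sw (h : Val G U t) {z w : V} (hz : z ∈ t.K G) (hw : w ∈ t.A)
    (hc : Col G ((insert z t.A).erase w) 3) :
    (Val G U (t.sw1 z w) ∧ w ∈ (t.sw1 z w).K G) ∧ Val G U (t.sw2 z w) ∧ w ∈ (t.sw2 z w).K G := by
  have z1 := K_sub hz
  have w1 : w ∉ t.X.erase z := fun h1 => h.dAX w hw (mem_of_mem_erase h1)
  have k1 : w ∈ (t.sw1 z w).K G := mem_crit.mpr ⟨mem_insert_self _ _, by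
    simp only [St.sw1]; rw [erase_insert w1]; exact K_col hz⟩
  have k2 : w ∈ (t.sw2 z w).K G := mem_crit.mpr ⟨mem_insert_self _ _, by
    simp only [St.sw2]; rw [erase_insert (h.dAY w hw)]; exact h.cY⟩
  have a1 := h.dAX
  have a2 := h.dAY
  have a3 := h.dXY
  refine ⟨⟨⟨?_, ?_, ?_, fun u => ?_, h.rs, hc, h.cY, ⟨w, k1⟩⟩, k1⟩,
    ⟨?_, ?_, ?_, fun u => ?_, ?_, hc, K_col hz, ⟨w, k2⟩⟩, k2⟩
  all_goals simp only [St.sw1, St.sw2, mem_insert, mem_erase, h.cov]
  all_goals first | (rcases h.rs with h | h <;> omega) | grind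

theorem Val.pot_sw (h : Val G U t) {z w : V} (hz : z ∈ t.X) (hw : w ∈ t.A) :
    ((insert z t.A).erase w).card = t.A.card ∧
    potE G U (t.sw1 z w) + 2 * dg G (insert z t.A) w + 2 * (dg G t.X z + dg G t.Y z) =
      potE G U t + 2 * dg G t.A z + 2 * (dg G (t.X.erase z) w + dg G t.Y w) ∧
    potE G U (t.sw2 z w) = potE G U (t.sw1 z w) ∧
    potF G (t.sw1 z w) + 2 * dg G t.X z = potF G t + 2 * dg G (t.X.erase z) w ∧
    potF G (t.sw2 z w) + 2 * dg G t.X z + 2 * t.s = potF G t + 2 * dg G t.Y w + 2 * t.r := by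
  have zA : z ∉ t.A := fun h1 => h.dAX z h1 hz
  have w1 : w ∉ t.X.erase z := fun h1 => h.dAX w hw (mem_of_mem_erase h1)
  have w2 := h.dAY w hw
  refine ⟨?_, ?_, rfl, ?_, ?_⟩
  · rw [card_erase_of_mem (mem_insert_of_mem hw), card_insert_of_notMem zA]; rfl
  · have e1 : U \ (insert z t.A).erase w = insert w (t.X.erase z ∪ t.Y) := by
      ext u
      have a1 := h.dAX u
      have a2 := h.dAY u
      have a3 := h.dXY z hz
      simp only [mem_sdiff, mem_insert, mem_erase, mem_union, h.cov]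
      grind
    have e2 : t.X ∪ t.Y = insert z (t.X.erase z ∪ t.Y) := by
      rw [← insert_union, insert_erase hz]
    have d : ∀ u ∈ t.X.erase z, u ∉ t.Y := fun u hu => h.dXY u (mem_of_mem_erase hu)
    have b1 := ee_erase (G := G) (mem_insert_of_mem (b := z) hw)
    rw [ee_insert zA] at b1
    simp only [potE, St.sw1]
    rw [e1, h.compl, e2, ee_insert (by simp [w2, h.dAX w hw]), ee_insert (by simp [h.dXY z hz]),
      dg_union d, dg_union d, dg_erase_self]
    omega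
  · simp only [potF, St.sw1]
    rw [ee_insert w1, card_insert_of_notMem w1, ee_erase hz, ← card_erase_add_one hz]
    ring
  · simp only [potF, St.sw2]
    rw [ee_insert w2, card_insert_of_notMem w2, ee_erase hz, ← card_erase_add_one hz]
    ring

theorem Opt.high [Fintype V] (c : Ctx G U a0 e0 f0) (h : Opt G U a0 e0 f0 t) {z : V}
    (hz : z ∈ t.K G) (hh : dg G t.Y z ≠ t.s) :
    Tri G t.A (t.A.filter (G.Adj z)) ∧ ∀ w ∈ t.A, G.Adj z w →
      (Opt G U a0 e0 f0 (t.sw1 z w) ∧ w ∈ (t.sw1 z w).K G) ∨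
        (Opt G U a0 e0 f0 (t.sw2 z w) ∧ w ∈ (t.sw2 z w).K G) := by
  have v := h.val
  have z1 := K_sub hz
  have zA : z ∉ t.A := fun h1 => v.dAX z h1 z1
  have g := v.ge c hz
  have d1 := h.deg c hz
  have sm := v.sum
  have nA := v.nA c hz
  have zc : z ∈ crit G (insert z t.A) 3 :=
    mem_crit.mpr ⟨mem_insert_self _ _, by rw [erase_insert zA]; exact v.cA⟩
  have key : ∀ w ∈ t.A, w ∈ crit G (insert z t.A) 3 → dg G (insert z t.A) w = 3 ∧
      ((Opt G U a0 e0 f0 (t.sw1 z w) ∧ w ∈ (t.sw1 z w).K G) ∨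
        (Opt G U a0 e0 f0 (t.sw2 z w) ∧ w ∈ (t.sw2 z w).K G)) := by
    intro w hw hw'
    obtain ⟨⟨v1, k1⟩, v2, k2⟩ := v.sw hz hw (mem_crit.mp hw').2
    obtain ⟨p1, p2, p3, p4, p5⟩ := v.pot_sw z1 hw
    have g1 := v1.ge c k1
    simp only [St.sw1, dg_erase_self, dg_insert_self] at g1
    have e1 := c.h2 _ v1 (p1.trans h.ea)
    have e2 := h.eE
    have e3 := h.eF
    refine ⟨by omega, ?_⟩
    by_cases hc : dg G (t.X.erase z) w = t.r
    · exact Or.inl ⟨⟨v1, p1.trans h.ea, by omega, by omega⟩, k1⟩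
    · exact Or.inr ⟨⟨v2, p1.trans h.ea, by omega, by omega⟩, k2⟩
  have dz : dg G (insert z t.A) z = 3 := by rw [dg_insert_self]; omega
  have dd : ∀ w ∈ crit G (insert z t.A) 3, dg G (insert z t.A) w = 3 := by
    intro w hw
    rcases mem_insert.mp (mem_crit.mp hw).1 with rfl | h1
    · exact dz
    · exact (key w h1 hw).1
  have nb : ∀ w ∈ t.A, G.Adj z w → w ∈ crit G (insert z t.A) 3 := fun w hw h1 =>
    crit_nbr nA zc dz.le (mem_insert_of_mem hw) h1
  obtain ⟨-, q⟩ := crit_K4 nA dd zc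
  have cl := crit_cl nA (fun w hw => (dd w hw).le)
  refine ⟨⟨by have : dg G t.A z = 3 := by omega
              exact this, ⟨filter_subset _ _, fun u hu w hw huw => ?_⟩, fun u hu w hw huw => ?_⟩,
    fun w hw h1 => (key w hw (nb w hw h1)).2⟩
  · obtain ⟨u1, u2⟩ := mem_filter.mp hu
    exact mem_filter.mpr ⟨hw, q z zc w (cl.2 u (nb u u1 u2) w (mem_insert_of_mem hw) huw)
      (fun e => zA (e ▸ hw))⟩
  · obtain ⟨u1, u2⟩ := mem_filter.mp hu
    obtain ⟨w1, w2⟩ := mem_filter.mp hw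
    exact q u (nb u u1 u2) w (nb w w1 w2) huw

/-- A vertex with few neighbours and two of them in a closed triangle is complete to it. -/
theorem two_in_tri {P S : Finset V} (h : Tri G P S) (hP : Col G P 3) {z y y' : V} (hz : z ∉ P)
    (hn : ¬ Col G (insert z P) 3) (hd : dg G P z ≤ 4) (hy : y ∈ S) (hy' : y' ∈ S) (hyy : y ≠ y')
    (h1 : G.Adj z y) (h2 : G.Adj z y') {x : V} (hx : x ∈ S) : G.Adj z x := by
  by_contra hzx
  refine hn (tri_ext h hz hx hzx ((hP.mono sdiff_subset).insert ?_))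
  have a1 := dg_split (G := G) h.2.1.1 z
  have a2 : ({y, y'} : Finset V).card ≤ dg G S z := le_dg (by simp [*])
  rw [card_pair hyy] at a2
  omega

end Pool.Agent.Lib.MP_12eaff_co
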