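import Mathlib
import Pool.Agent.Lib.MP_12eaff_co.State

set_option autoImplicit false

namespace Pool.Agent.Lib.MP_12eaff_co

open Finset
open scoped Classical

variable {V : Type} {G : SimpleGraph V}

/-- No six pairwise adjacent vertices. -/
def NoK6 (G : SimpleGraph V) : Prop :=
  ∀ a b c d e f, G.Adj a b → G.Adj a c → G.Adj a d → G.Adj a e → G.Adj a f → G.Adj b c →
    G.Adj b d → G.Adj b e → G.Adj b f → G.Adj c d → G.Adj c e → G.Adj c f → G.Adj d e →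
    G.Adj d f → G.Adj e f → False

/-- A family of optimal states closed under moving free critical vertices. -/
structure Fam (G : SimpleGraph V) (U : Finset V) (a0 e0 f0 : ℕ) (Good : St V → Prop)
    (F : V → Prop) : Prop where
  opt : ∀ t, Good t → Opt G U a0 e0 f0 t
  mv : ∀ t, Good t → ∀ z ∈ t.K G, F z → dg G t.Y z = t.s ∧ Good (t.mv z)
  ind : ∀ t, Good t → ∀ u ∈ t.K G, ∀ w ∈ t.K G, G.Adj u w → F u ∨ F w

/-- A leftover that cannot become active again while `D` stays. -/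
def Safe (G : SimpleGraph V) (Good : St V → Prop) (R : Finset V) (a : V) (k : ℕ) (D : Finset V) :
    Prop :=
  ∀ t, Good t → t.r = k → Cl G t.Y D → (∀ u ∈ R, G.Adj a u → u ∈ t.K G) → False

variable {U : Finset V} {a0 e0 f0 : ℕ} {t : St V} {Good : St V → Prop} {F : V → Prop}

theorem Val.mv_mv (h : Val G U t) {z : V} (hz : z ∈ t.X) : (t.mv z).mv z = t := by
  simp only [St.mv]
  rw [insert_erase hz, erase_insert (h.dXY z hz)]

theorem Cl.erase {S D : Finset V} (h : Cl G S D) (a : V) : Cl G (S.erase a) (D.erase a) :=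
  ⟨erase_subset_erase _ h.1, fun x hx w hw h1 => mem_erase.mpr ⟨ne_of_mem_erase hw,
    h.2 x (mem_of_mem_erase hx) w (mem_of_mem_erase hw) h1⟩⟩

theorem Cl.erase_left {S D : Finset V} (h : Cl G S D) {a : V} (ha : a ∉ D) : Cl G (S.erase a) D :=
  ⟨fun _ hx => mem_erase.mpr ⟨fun e => ha (e ▸ hx), h.1 hx⟩,
    fun x hx w hw => h.2 x hx w (mem_of_mem_erase hw)⟩

theorem Opt.nbr (c : Ctx G U a0 e0 f0) (h : Opt G U a0 e0 f0 t) {u w : V} (hu : u ∈ t.K G)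
    (hw : w ∈ t.X) (huw : G.Adj u w) : w ∈ t.K G := (h.cl c).2 u hu w hw huw

theorem Opt.cl_mv (c : Ctx G U a0 e0 f0) (v : Val G U t) {g : V} (hg : g ∈ t.X)
    (h : Opt G U a0 e0 f0 (t.mv g)) : Cl G t.Y (((t.mv g).K G).erase g) := by
  have := (h.cl c).erase g
  simp only [St.mv] at this ⊢
  rwa [erase_insert (v.dXY g hg)] at this

theorem Opt.par (c : Ctx G U a0 e0 f0) (v : Val G U t) {g : V} (hg : g ∈ t.X) (hs : t.s = 2)
    (h : Opt G U a0 e0 f0 (t.mv g)) {R : Finset V} {a z : V} (ha : a ∈ R)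
    (hR : ∀ u ∈ R, dg G R u = 2) (hC : Cl G t.Y (R.erase a)) (hz : z ∈ (t.mv g).K G)
    (hz' : z ∈ R.erase a) : (∀ u ∈ R, G.Adj a u → G.Adj g u) ∧
      ∀ u ∈ R.erase a, u ∈ (t.mv g).K G → G.Adj g u → G.Adj a u := by
  have a1 := h.val.nX c
  have a2 := fun z hz => h.deg c (z := z) hz
  have a3 := v.cY
  simp only [St.K, St.mv, hs] at a1 a2 a3 hz ⊢
  exact parity (v.dXY g hg) a3 a1 a2 ha hR hC hz hz'

theorem Opt.dK (c : Ctx G U a0 e0 f0) (h : Opt G U a0 e0 f0 t) {u : V} (hu : u ∈ t.K G) :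
    dg G (t.K G) u = t.r := (dg_cl (h.cl c) hu).trans (h.deg c hu)

theorem Fam.three [Fintype V] (f : Fam G U a0 e0 f0 Good F) (c : Ctx G U a0 e0 f0) (h : Good t)
    (hr : t.r = 3) {g : V} (hg : g ∈ t.K G) : ∃ y y' x, y ≠ y' ∧ y ≠ x ∧ y' ≠ x ∧ F y ∧ F y' ∧
      ∀ u, u ∈ (t.K G).erase g ↔ u = y ∨ u = y' ∨ u = x := by
  obtain ⟨k1, k2⟩ := (f.opt t h).K4 c hr
  obtain ⟨x, y, z, h1, h2, h3, e⟩ := card_eq_three.mp (show ((t.K G).erase g).card = 3 by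
    rw [card_erase_of_mem hg, k1])
  have m : ∀ u, u ∈ (t.K G).erase g ↔ u = x ∨ u = y ∨ u = z := fun u => by rw [e]; simp
  have mx := mem_of_mem_erase ((m x).mpr (by simp))
  have my := mem_of_mem_erase ((m y).mpr (by simp))
  have mz := mem_of_mem_erase ((m z).mpr (by simp))
  have b1 := f.ind t h x mx y my (k2 x mx y my h1)
  have b2 := f.ind t h x mx z mz (k2 x mx z mz h2)
  have b3 := f.ind t h y my z mz (k2 y my z mz h3)
  by_cases fx : F x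
  · rcases b3 with b | b
    · exact ⟨x, y, z, h1, h2, h3, fx, b, m⟩
    · exact ⟨x, z, y, h2, h1, h3.symm, fx, b, fun u => by rw [m]; tauto⟩
  · exact ⟨y, z, x, h3, h1.symm, h2.symm, b1.resolve_left fx, b2.resolve_left fx,
      fun u => by rw [m]; tauto⟩

theorem Fam.tri [Fintype V] (c : Ctx G U a0 e0 f0) (h : Opt G U a0 e0 f0 t) (hr : t.r = 3) {g : V}
    (hg : g ∈ t.K G) : Tri G (t.X.erase g) ((t.K G).erase g) := by
  obtain ⟨k1, k2⟩ := h.K4 c hr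
  exact ⟨by rw [card_erase_of_mem hg, k1], (h.cl c).erase g,
    fun u hu w hw => k2 u (mem_of_mem_erase hu) w (mem_of_mem_erase hw)⟩

theorem Opt.two (c : Ctx G U a0 e0 f0) (h : Opt G U a0 e0 f0 t) (hs : t.s = 3) {S : Finset V}
    (hS : Tri G t.Y S) {z y y' x : V} (hz : z ∈ t.K G) (hy : y ∈ S) (hy' : y' ∈ S) (hyy : y ≠ y')
    (h1 : G.Adj z y) (h2 : G.Adj z y') (hx : x ∈ S) : G.Adj z x := by
  have a1 := h.val.ge c hz
  have a2 := (h.val.mv hz).1.nX c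
  have a3 := h.val.cY
  have a4 := h.val.sum
  simp only [St.mv, hs] at a2 a3
  exact two_in_tri hS a3 (h.val.dXY z (K_sub hz)) a2 (by omega) hy hy' hyy h1 h2 hx

theorem Fam.safe3 [Fintype V] (f : Fam G U a0 e0 f0 Good F) (c : Ctx G U a0 e0 f0) (k6 : NoK6 G)
    (h : Good t) (hs : t.s = 3) {g a : V} (hg : g ∈ t.K G) (fg : F g) (ha : a ∈ t.K G)
    (hag : a ≠ g) : Safe G Good ((t.mv g).K G) g 3 ((t.K G).erase a) := by
  intro t2 g2 r2 cl2 hn
  have o := f.opt t h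
  have hr : t.r = 2 := by have := o.val.sum; omega
  have gq := (f.mv t h g hg fg).2
  have oq := f.opt _ gq
  have gK := (o.val.mv hg).2
  have o2 := f.opt t2 g2
  have s2 : t2.s = 2 := by have := o2.val.sum; omega
  obtain ⟨y, y', x, n1, n2, n3, fy, fy', m⟩ := f.three c gq hs gK
  obtain ⟨-, k2⟩ := oq.K4 c hs
  have dK : ∀ u ∈ t.K G, dg G (t.K G) u = 2 := fun u hu => (o.dK c hu).trans hr
  have gD : g ∈ (t.K G).erase a := mem_erase.mpr ⟨hag.symm, hg⟩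
  have st1 : ∀ y ∈ ((t.mv g).K G).erase g, F y →
      G.Adj a g ∧ ∀ u ∈ t.K G, G.Adj a u → G.Adj y u := by
    intro y hy fy
    have gy := k2 g gK y (mem_of_mem_erase hy) (ne_of_mem_erase hy).symm
    have y2 := hn y (mem_of_mem_erase hy) gy
    have oy := f.opt _ (f.mv t2 g2 y y2 fy).2
    have gc := oy.nbr c (o2.val.mv y2).2 (mem_insert_of_mem (cl2.1 gD)) gy.symm
    have := oy.par c o2.val (K_sub y2) s2 ha dK cl2 gc gD
    exact ⟨this.2 g gD gc gy.symm, this.1⟩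
  have my := (m y).mpr (Or.inl rfl)
  have my' := (m y').mpr (Or.inr (Or.inl rfl))
  have mx := (m x).mpr (Or.inr (Or.inr rfl))
  have ag := (st1 y my fy).1
  obtain ⟨e, eK, ae, eg, -⟩ := other_nbr (dK a ha) hg ag
  have st2 : ∀ y ∈ ((t.mv g).K G).erase g, F y → G.Adj y e ∧ G.Adj e g ∧ G.Adj a y := by
    intro y hy fy
    have ye := (st1 y hy fy).2 e eK ae
    have oy := f.opt _ (f.mv _ gq y (mem_of_mem_erase hy) fy).2
    have yK := (oq.val.mv (mem_of_mem_erase hy)).2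
    have yn : y ∉ t.X.erase g := oq.val.dXY y (K_sub (mem_of_mem_erase hy))
    have ec := oy.nbr c yK (mem_insert_of_mem (mem_erase.mpr ⟨eg, K_sub eK⟩)) ye
    have ac := oy.nbr c ec (mem_insert_of_mem (mem_erase.mpr ⟨hag, K_sub ha⟩)) ae.symm
    have b1 := oy.deg c ec
    have b2 := oy.deg c ac
    have b3 := o.deg c eK
    have b4 := o.deg c ha
    simp only [St.mv] at b1 b2
    rw [dg_insert yn] at b1 b2
    rw [dg_erase (K_sub hg)] at b3 b4
    rw [if_pos ye.symm] at b1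
    rw [if_pos ag] at b4
    refine ⟨ye, ?_, ?_⟩
    · by_contra hc; rw [if_neg hc] at b3; omega
    · by_contra hc; rw [if_neg hc] at b2; omega
  obtain ⟨p1, p2, p3⟩ := st2 y my fy
  obtain ⟨p4, -, p5⟩ := st2 y' my' fy'
  have tr : Tri G t.Y (((t.mv g).K G).erase g) := by
    have := Fam.tri c oq hs gK
    simp only [St.mv] at this ⊢
    rwa [erase_insert (o.val.dXY g (K_sub hg))] at this
  have ax := o.two c hs tr ha my my' n1 p3 p5 mx
  have ex := o.two c hs tr eK my my' n1 p1.symm p4.symm mx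
  have gk := fun u (hu : u ∈ ((t.mv g).K G).erase g) =>
    k2 g gK u (mem_of_mem_erase hu) (ne_of_mem_erase hu).symm
  exact k6 g y y' x a e (gk y my) (gk y' my') (gk x mx) ag.symm p2.symm (tr.2.2 y my y' my' n1)
    (tr.2.2 y my x mx n2) p3.symm p1 (tr.2.2 y' my' x mx n3) p5.symm p4 ax.symm ex.symm ae

theorem Fam.safe2 [Fintype V] (f : Fam G U a0 e0 f0 Good F) (c : Ctx G U a0 e0 f0) (k6 : NoK6 G)
    (h : Good t) (hs : t.s = 2) {g a y : V} (hg : g ∈ t.K G) (fg : F g) (ha : a ∈ t.K G)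
    (hag : a ≠ g) (fa : F a) (hy : y ∈ (t.mv g).K G) (fy : F y) (gy : G.Adj g y) :
    Safe G Good ((t.mv g).K G) g 2 ((t.K G).erase a) := by
  intro t2 g2 r2 cl2 hn
  have o := f.opt t h
  have hr : t.r = 3 := by have := o.val.sum; omega
  have gq := (f.mv t h g hg fg).2
  have oq := f.opt _ gq
  have gK := (o.val.mv hg).2
  have o2 := f.opt t2 g2
  have s2 : t2.s = 3 := by have := o2.val.sum; omega
  obtain ⟨k1, k2⟩ := o.K4 c hr
  have clq := oq.cl_mv c o.val (K_sub hg)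
  have inY : ∀ u ∈ (t.mv g).K G, u ≠ g → u ∈ t.Y := fun u hu h1 => clq.1 (mem_erase.mpr ⟨h1, hu⟩)
  have yY := inY y hy gy.ne'
  have neY : ∀ u ∈ t.Y, ∀ w ∈ t.K G, u ≠ w := fun u hu w hw e => o.val.dXY w (K_sub hw) (e ▸ hu)
  obtain ⟨d, d', hdd, fd, hd, hd'⟩ : ∃ d d', d ≠ d' ∧ F d ∧ d ∈ ((t.K G).erase a).erase g ∧
      d' ∈ ((t.K G).erase a).erase g := by
    obtain ⟨d, d', hdd, e⟩ := card_eq_two.mp (show (((t.K G).erase a).erase g).card = 2 by
      rw [card_erase_of_mem (mem_erase.mpr ⟨hag.symm, hg⟩), card_erase_of_mem ha, k1])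
    have hd : d ∈ ((t.K G).erase a).erase g := by rw [e]; simp
    have hd' : d' ∈ ((t.K G).erase a).erase g := by rw [e]; simp
    have b1 := mem_of_mem_erase (mem_of_mem_erase hd)
    have b2 := mem_of_mem_erase (mem_of_mem_erase hd')
    rcases f.ind t h d b1 d' b2 (k2 d b1 d' b2 hdd) with b | b
    · exact ⟨d, d', hdd, b, hd, hd'⟩
    · exact ⟨d', d, hdd.symm, b, hd', hd⟩
  simp only [mem_erase] at hd hd'
  have y2 := hn y hy gy
  have oy := f.opt _ (f.mv t2 g2 y y2 fy).2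
  have yK2 := (o2.val.mv y2).2
  have gc := oy.nbr c yK2 (mem_insert_of_mem (cl2.1 (mem_erase.mpr ⟨hag.symm, hg⟩))) gy.symm
  have yd : ∀ u ∈ t.K G, u ≠ g → u ≠ a → G.Adj y u := fun u hu h1 h2 =>
    (oy.K4 c s2).2 y yK2 u (oy.nbr c gc (mem_insert_of_mem (cl2.1 (mem_erase.mpr ⟨h2, hu⟩)))
      (k2 g hg u hu h1.symm)) (neY y yY u hu)
  have gqy := (f.mv _ gq y hy fy).2
  have oqy := f.opt _ gqy
  have yKq := (oq.val.mv hy).2
  have ac : a ∈ ((t.mv g).mv y).K G :=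
    oqy.nbr c (oqy.nbr c yKq (mem_insert_of_mem (mem_erase.mpr ⟨hd.1, K_sub hd.2.2⟩))
      (yd d hd.2.2 hd.1 hd.2.1)) (mem_insert_of_mem (mem_erase.mpr ⟨hag, K_sub ha⟩))
      (k2 d hd.2.2 a ha hd.2.1)
  have ya : G.Adj y a := (oqy.K4 c hr).2 y yKq a ac (neY y yY a ha)
  have dq : ∀ u ∈ (t.mv g).K G, dg G ((t.mv g).K G) u = 2 := fun u hu => (oq.dK c hu).trans hs
  obtain ⟨y', y'K, gy', yy', -⟩ := other_nbr (dq g gK) hy gy
  have st : ∀ u ∈ t.K G, F u → G.Adj y u → G.Adj u y' := by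
    intro u hu fu yu
    have ou := f.opt _ (f.mv t h u hu fu).2
    exact (ou.par c o.val (K_sub hu) hs gK dq clq
      (ou.nbr c (o.val.mv hu).2 (mem_insert_of_mem yY) yu.symm)
      (mem_erase.mpr ⟨gy.ne', hy⟩)).1 y' y'K gy'
  have ay' := st a ha fa ya
  have dy' := st d hd.2.2 fd (yd d hd.2.2 hd.1 hd.2.1)
  have y'd' : G.Adj y' d' := oq.two c hr (Fam.tri c o hr hg) y'K (mem_erase.mpr ⟨hag, ha⟩)
    (mem_erase.mpr ⟨hd.1, hd.2.2⟩) hd.2.1.symm ay'.symm dy'.symm (mem_erase.mpr ⟨hd'.1, hd'.2.2⟩)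
  by_cases hyy : G.Adj y y'
  · exact k6 g a d d' y y' (k2 g hg a ha hag.symm) (k2 g hg d hd.2.2 hd.1.symm)
      (k2 g hg d' hd'.2.2 hd'.1.symm) gy gy' (k2 a ha d hd.2.2 hd.2.1.symm)
      (k2 a ha d' hd'.2.2 hd'.2.1.symm) ya.symm ay' (k2 d hd.2.2 d' hd'.2.2 hdd)
      (yd d hd.2.2 hd.1 hd.2.1).symm dy' (yd d' hd'.2.2 hd'.1 hd'.2.1).symm y'd'.symm hyy
  · obtain ⟨z, zK, yz, zg, -⟩ := other_nbr (dq y hy) gK gy.symm
    have oa := f.opt _ (f.mv _ gqy a ac fa).2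
    have gD : g ∈ ((t.mv g).K G).erase y := mem_erase.mpr ⟨gy.ne, gK⟩
    have clz : Cl G ((t.mv g).mv y).Y (((t.mv g).K G).erase y) := (oq.cl c).erase y
    have az := (oa.par c oqy.val (K_sub ac) hs hy dq clz
      (oa.nbr c (oqy.val.mv ac).2 (mem_insert_of_mem (clz.1 gD)) (k2 a ha g hg hag)) gD).1 z zK yz
    have b1 := (f.mv t h a ha fa).1
    have b2 : ({y, y', z} : Finset V).card ≤ dg G t.Y a := le_dg (by
      simp [yY, inY y' y'K gy'.ne', inY z zK zg, ya.symm, ay', az])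
    rw [card_eq_three.mpr ⟨y, y', z, yy'.symm, yz.ne, fun e => hyy (e ▸ yz), rfl⟩] at b2
    omega

theorem Fam.choose [Fintype V] (f : Fam G U a0 e0 f0 Good F) (c : Ctx G U a0 e0 f0) (h : Good t)
    {g : V} (hg : g ∈ t.K G) :
    ∃ a ∈ t.K G, a ≠ g ∧ F a ∧ (t.r = 2 → ∃ y ∈ t.K G, F y ∧ G.Adj a y) := by
  have o := f.opt t h
  rcases o.val.rs with ⟨hr, -⟩ | ⟨hr, -⟩
  · obtain ⟨y, y', x, -, -, -, fy, -, m⟩ := f.three c h hr hg
    have := mem_erase.mp ((m y).mpr (Or.inl rfl))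
    exact ⟨y, this.2, this.1, fy, fun h2 => by omega⟩
  · obtain ⟨u, hu, w, hw, fu, fw, huw⟩ : ∃ u ∈ t.K G, ∃ w ∈ t.K G, F u ∧ F w ∧ G.Adj u w := by
      by_contra hc
      push Not at hc
      refine cl_not_col (o.val.nX c) (o.cl c) hg hg ⟨fun u => if F u then 0 else 1, fun u _ => ?_,
        fun u hu w hw huw => ?_⟩
      · dsimp only; split_ifs <;> omega
      · have b1 := f.ind t h u hu w hw huw
        have b2 := fun h1 h2 => hc u hu w hw h1 h2 huw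
        by_cases fu : F u <;> by_cases fw : F w <;> simp_all
    by_cases e : u = g
    · exact ⟨w, hw, e ▸ huw.ne', fw, fun _ => ⟨u, hu, fu, huw.symm⟩⟩
    · exact ⟨u, hu, e, fu, fun _ => ⟨w, hw, fw, huw⟩⟩

theorem Fam.false [Fintype V] (f : Fam G U a0 e0 f0 Good F) (c : Ctx G U a0 e0 f0) (k6 : NoK6 G)
    (h0 : Good t) : False := by
  let Reg : Finset V → ℕ → Prop := fun R k =>
    (k = 3 ∧ ∀ u ∈ R, ∀ w ∈ R, u ≠ w → G.Adj u w) ∨ (k = 2 ∧ ∀ u ∈ R, dg G R u = 2)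
  let Rec : Finset V → Finset V → ℕ → ℕ → Finset V → V → Prop := fun X Y r s W u =>
    ∃ R a k D, a ∈ R ∧ u ∈ R.erase a ∧ R.erase a ⊆ W ∧ D ⊆ W ∧ Reg R k ∧ Safe G Good R a k D ∧
      ((r = k ∧ Cl G X (R.erase a) ∧ Cl G Y D) ∨ (s = k ∧ Cl G Y (R.erase a) ∧ Cl G X D))
  let P : St V × V → Finset V → Prop := fun x W => Good x.1 ∧ x.2 ∈ x.1.K G ∧ F x.2 ∧
    (x.1.s = 2 → ∃ y ∈ (x.1.mv x.2).K G, F y ∧ G.Adj x.2 y) ∧
    ((x.1.mv x.2).K G).erase x.2 ⊆ W ∧ (∀ u ∈ W, u ∉ x.1.K G) ∧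
    ∀ u ∈ W, u ∈ ((x.1.mv x.2).K G).erase x.2 ∨ Rec x.1.X x.1.Y x.1.r x.1.s W u
  have step : ∀ (t : St V) (W : Finset V) (a : V), Good t → a ∈ t.K G → F a →
      (t.r = 2 → ∃ y ∈ t.K G, F y ∧ G.Adj a y) →
      (∀ u ∈ W, Rec (t.X.erase a) t.Y t.r t.s (W ∪ (t.K G).erase a) u) →
      P (t.mv a, a) (W ∪ (t.K G).erase a) := by
    intro t W a h ha fa hy recs
    have o := f.opt t h
    have g' := (f.mv t h a ha fa).2
    have o' := f.opt _ g'
    have aK := (o.val.mv ha).2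
    have nX : ∀ u ∈ t.X.erase a, u ∉ (t.mv a).K G := fun u hu h1 => o'.val.dXY u (K_sub h1) hu
    have dis : ∀ u ∈ W ∪ (t.K G).erase a, u ∉ (t.mv a).K G := by
      intro u hu hu'
      rcases mem_union.mp hu with hu | hu
      · obtain ⟨R, a', k, D, r1, r2, -, -, r5, r6, ⟨-, r7, -⟩ | ⟨r7, r8, r9⟩⟩ := recs u hu
        · exact nX u (r7.1 r2) hu'
        · refine r6 _ g' r7 r9 (fun x hx h1 => ?_)
          have xY := mem_insert_of_mem (b := a) (r8.1 (mem_erase.mpr ⟨h1.ne', hx⟩))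
          rcases r5 with ⟨-, r5⟩ | ⟨k2, r5⟩
          · by_cases e : u = x
            · exact e ▸ hu'
            · exact o'.nbr c hu' xY (r5 u (mem_of_mem_erase r2) x hx e)
          · exact o'.nbr c aK xY
              ((o'.par c o.val (K_sub ha) (r7.trans k2) r1 r5 r8 hu' r2).1 x hx h1)
      · exact nX u (erase_subset_erase _ (o.cl c).1 hu) hu'
    have up : ∀ D ⊆ W ∪ (t.K G).erase a, Cl G t.Y D → Cl G (insert a t.Y) D := by
      intro D hD h1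
      refine ⟨h1.1.trans (subset_insert _ _), fun x hx w hw h2 => ?_⟩
      rcases mem_insert.mp hw with rfl | hw
      · exact absurd (o'.nbr c aK (mem_insert_of_mem (h1.1 hx)) h2.symm) (dis x (hD hx))
      · exact h1.2 x hx w hw h2
    refine ⟨g', aK, fa, ?_⟩
    simp only [o.val.mv_mv (K_sub ha)]
    refine ⟨hy, subset_union_right, dis, fun u hu => ?_⟩
    rcases mem_union.mp hu with hu | hu
    · obtain ⟨R, a', k, D, r1, r2, r3, r4, r5, r6, ⟨r7, r8, r9⟩ | ⟨r7, r8, r9⟩⟩ := recs u hu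
      · exact Or.inr ⟨R, a', k, D, r1, r2, r3, r4, r5, r6, Or.inr ⟨r7, r8, up D r4 r9⟩⟩
      · exact Or.inr ⟨R, a', k, D, r1, r2, r3, r4, r5, r6, Or.inl ⟨r7, up _ r3 r8, r9⟩⟩
    · exact Or.inl hu
  obtain ⟨v, hv⟩ := (f.opt t h0).val.ne
  obtain ⟨a, ha, -, fa, hy⟩ := f.choose c h0 hv
  refine no_grow P ?_ _ _ (step t ∅ a h0 ha fa hy (by simp))
  rintro ⟨t, g⟩ W ⟨h, hg, fg, hy, hW, hd, hrec⟩
  simp only at h hg fg hy hW hd hrec
  have o := f.opt t h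
  obtain ⟨a, ha, hag, fa, hy'⟩ := f.choose c h hg
  have aW : a ∉ W := fun h1 => hd a h1 ha
  refine ⟨_, _, step t W a h ha fa hy' (fun u hu => ?_), card_lt_card ⟨subset_union_left,
    fun h1 => hd g (h1 (mem_union_right _ (mem_erase.mpr ⟨hag.symm, hg⟩))) hg⟩⟩
  rcases hrec u hu with h1 | ⟨R, a', k, D, r1, r2, r3, r4, r5, r6, r7⟩
  · have oq := f.opt _ (f.mv t h g hg fg).2
    refine ⟨_, g, t.s, (t.K G).erase a, (o.val.mv hg).2, h1, hW.trans subset_union_left,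
      subset_union_right, ?_, ?_, Or.inr ⟨rfl, oq.cl_mv c o.val (K_sub hg), (o.cl c).erase a⟩⟩
    · rcases o.val.rs with ⟨-, hs⟩ | ⟨-, hs⟩
      · exact Or.inr ⟨hs, fun u hu => (oq.dK c hu).trans hs⟩
      · exact Or.inl ⟨hs, (oq.K4 c hs).2⟩
    · rcases o.val.rs with ⟨-, hs⟩ | ⟨-, hs⟩
      · obtain ⟨y, y1, y2, y3⟩ := hy hs
        exact hs ▸ f.safe2 c k6 h hs hg fg ha hag fa y1 y2 y3
      · exact hs ▸ f.safe3 c k6 h hs hg fg ha hag
  · refine ⟨R, a', k, D, r1, r2, r3.trans subset_union_left, r4.trans subset_union_left, r5, r6, ?_⟩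
    rcases r7 with ⟨r7, r8, r9⟩ | ⟨r7, r8, r9⟩
    · exact Or.inl ⟨r7, r8.erase_left (fun h1 => aW (r3 h1)), r9⟩
    · exact Or.inr ⟨r7, r8, r9.erase_left (fun h1 => aW (r4 h1))⟩

end Pool.Agent.Lib.MP_12eaff_co
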