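import Mathlib
import Pool.Agent.Lib.MP_12eaff_co.Inner

set_option autoImplicit false

namespace Pool.Agent.Lib.MP_12eaff_co

open Finset
open scoped Classical

variable {V : Type} {G : SimpleGraph V}

theorem Tri.eq {P S S' : Finset V} (h : Tri G P S) (h' : Tri G P S') {u : V} (hu : u ∈ S)
    (hu' : u ∈ S') : S = S' := by
  refine eq_of_subset_of_card_le (fun x hx => ?_) (by rw [h.1, h'.1])
  by_cases e : u = x
  · exact e ▸ hu'
  · exact h'.2.1.2 u hu' x (h.2.1.1 hx) (h.2.2 u hu x hx e)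

theorem Tri.elts {P S : Finset V} (h : Tri G P S) : ∃ a b c, G.Adj a b ∧ G.Adj a c ∧ G.Adj b c ∧
    ∀ u, u ∈ S ↔ u = a ∨ u = b ∨ u = c := by
  obtain ⟨a, b, c, h1, h2, h3, e⟩ := card_eq_three.mp h.1
  have m : ∀ u, u ∈ S ↔ u = a ∨ u = b ∨ u = c := fun u => by rw [e]; simp
  exact ⟨a, b, c, h.2.2 a (by simp [m]) b (by simp [m]) h1, h.2.2 a (by simp [m]) c (by simp [m]) h2,
    h.2.2 b (by simp [m]) c (by simp [m]) h3, m⟩

/-- All neighbours lie in closed triangles to which the vertex is not complete. -/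
theorem col_of_tris (a : V) : ∀ (n : ℕ) (P : Finset V), P.card = n → a ∉ P → Col G P 3 →
    (∀ u ∈ P, G.Adj a u → ∃ S, Tri G P S ∧ u ∈ S ∧ ∃ x ∈ S, ¬ G.Adj a x) →
    Col G (insert a P) 3 := by
  intro n
  induction n using Nat.strong_induction_on with
  | _ n ih =>
    intro P hn ha hc h
    by_cases h0 : ∃ u ∈ P, G.Adj a u
    · obtain ⟨u, hu, hau⟩ := h0
      obtain ⟨S, hS, uS, x, xS, hx⟩ := h u hu hau
      refine tri_ext hS ha xS hx (ih (P \ S).card ?_ _ rfl (fun h1 => ha (mem_sdiff.mp h1).1)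
        (hc.mono sdiff_subset) (fun w hw haw => ?_))
      · rw [← hn]
        exact card_lt_card ⟨sdiff_subset, fun h1 => (mem_sdiff.mp (h1 hu)).2 uS⟩
      · obtain ⟨w1, w2⟩ := mem_sdiff.mp hw
        obtain ⟨S', hS', wS, h2⟩ := h w w1 haw
        exact ⟨S', ⟨hS'.1, ⟨fun y hy => mem_sdiff.mpr ⟨hS'.2.1.1 hy,
          fun h3 => w2 (hS.eq hS' h3 hy ▸ wS)⟩,
          fun y hy z hz => hS'.2.1.2 y hy z (mem_sdiff.mp hz).1⟩, hS'.2.2⟩, wS, h2⟩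
    · refine hc.insert ?_
      have : dg G P a = 0 := card_eq_zero.mpr (filter_eq_empty_iff.mpr
        (fun u hu h1 => h0 ⟨u, hu, h1⟩))
      omega

theorem tri_swap {A S : Finset V} {z w : V} (hS : Tri G A S) (hz : z ∉ A)
    (hm : ∀ u ∈ A, G.Adj z u ↔ u ∈ S) (hw : w ∈ S) :
    Tri G ((insert z A).erase w) (insert z (S.erase w)) := by
  have sA := hS.2.1.1
  refine ⟨?_, ⟨fun u hu => ?_, fun u hu x hx hux => ?_⟩, fun u hu x hx hux => ?_⟩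
  · rw [card_insert_of_notMem (fun h => hz (sA (mem_of_mem_erase h))), card_erase_of_mem hw, hS.1]
  · simp only [mem_insert, mem_erase] at hu ⊢
    rcases hu with rfl | hu
    · exact ⟨fun e => hz (e ▸ sA hw), Or.inl rfl⟩
    · exact ⟨hu.1, Or.inr (sA hu.2)⟩
  · simp only [mem_insert, mem_erase] at hu hx ⊢
    rcases hx with ⟨h1, rfl | h2⟩
    · exact Or.inl rfl
    · rcases hu with rfl | hu
      · exact Or.inr ⟨h1, (hm x h2).mp hux⟩
      · exact Or.inr ⟨h1, hS.2.1.2 u hu.2 x h2 hux⟩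
  · simp only [mem_insert, mem_erase] at hu hx
    rcases hu with rfl | hu <;> rcases hx with rfl | hx
    · exact absurd rfl hux
    · exact (hm x (sA hx.2)).mpr hx.2
    · exact ((hm u (sA hu.2)).mpr hu.2).symm
    · exact hS.2.2 u hu.2 x hx.2 hux

theorem tri_keep {A S S' : Finset V} {z w : V} (hS : Tri G A S) (hS' : Tri G A S') (hne : S ≠ S')
    (hm : ∀ u ∈ A, G.Adj z u ↔ u ∈ S) (hw : w ∈ S) : Tri G ((insert z A).erase w) S' := by
  refine ⟨hS'.1, ⟨fun u hu => mem_erase.mpr ⟨fun e => hne (hS.eq hS' hw (e ▸ hu)),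
    mem_insert_of_mem (hS'.2.1.1 hu)⟩, fun u hu x hx hux => ?_⟩, hS'.2.2⟩
  rcases mem_insert.mp (mem_of_mem_erase hx) with rfl | h
  · exact absurd (hS.eq hS' ((hm u (hS'.2.1.1 hu)).mp hux.symm) hu) hne
  · exact hS'.2.1.2 u hu x h hux

theorem dg_zero {S : Finset V} {v : V} (h : ∀ u ∈ S, ¬ G.Adj v u) : dg G S v = 0 :=
  card_eq_zero.mpr (filter_eq_empty_iff.mpr h)

theorem exists_min {α : Type} (P : α → Prop) (f : α → ℕ) (h : ∃ x, P x) :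
    ∃ x, P x ∧ ∀ y, P y → f x ≤ f y := by
  obtain ⟨x, hx, h1⟩ := (measure f).wf.has_min {x | P x} h
  exact ⟨x, hx, fun y hy => not_lt.mp (h1 y hy)⟩

theorem Tri.third {P S : Finset V} (h : Tri G P S) {a b c : V} (ha : a ∈ S) (hb : b ∈ S) (hc : c ∈ S)
    (h1 : a ≠ b) (h2 : a ≠ c) (h3 : b ≠ c) {u : V} (hu : u ∈ S) : u = a ∨ u = b ∨ u = c := by
  have : ({a, b, c} : Finset V) = S := eq_of_subset_of_card_le (by simp [insert_subset_iff, *])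
    (by rw [h.1, card_eq_three.mpr ⟨a, b, c, h1, h2, h3, rfl⟩])
  rw [← this] at hu
  simpa using hu

theorem exists_max {α : Type} (P : α → Prop) (f : α → ℕ) (N : ℕ) (hN : ∀ x, f x ≤ N)
    (h : ∃ x, P x) : ∃ x, P x ∧ ∀ y, P y → f y ≤ f x := by
  obtain ⟨x, hx, h1⟩ := exists_min P (fun x => N - f x) h
  refine ⟨x, hx, fun y hy => ?_⟩
  have a1 := h1 y hy
  have a2 := hN x
  have a3 := hN y
  omega

theorem six (k6 : NoK6 G) {P S : Finset V} (h : Tri G P S) {u g y : V} (h1 : G.Adj u g)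
    (h2 : G.Adj u y) (h3 : G.Adj g y) (hu : ∀ q ∈ S, G.Adj u q) (hg : ∀ q ∈ S, G.Adj g q)
    (hy : ∀ q ∈ S, G.Adj y q) : False := by
  obtain ⟨a, b, c, h4, h5, h6, m⟩ := h.elts
  have ma := (m a).mpr (by simp)
  have mb := (m b).mpr (by simp)
  have mc := (m c).mpr (by simp)
  exact k6 u g y a b c h1 h2 (hu a ma) (hu b mb) (hu c mc) h3 (hg a ma) (hg b mb) (hg c mc)
    (hy a ma) (hy b mb) (hy c mc) h4 h5 h6

/-- A system of cliques, each meeting `A` in a closed triangle. -/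
structure Sys (G : SimpleGraph V) (U A : Finset V) (C : Finset (Finset V)) : Prop where
  sub : ∀ Q ∈ C, Q ⊆ U
  clq : ∀ Q ∈ C, ∀ u ∈ Q, ∀ w ∈ Q, u ≠ w → G.Adj u w
  tri : ∀ Q ∈ C, Tri G A (Q ∩ A)
  nbr : ∀ Q ∈ C, ∀ m ∈ Q, ∀ a ∈ A, G.Adj m a → ∃ Q' ∈ C, a ∈ Q'
  few : ∀ Q ∈ C, ∀ Q' ∈ C, Q ≠ Q' → ∀ m ∈ Q, dg G Q' m + 3 ≤ Q'.card

/-- Size of a system. -/
def mu (C : Finset (Finset V)) : ℕ := ∑ Q ∈ C, (Q.card - 3)

variable {U A : Finset V} {C : Finset (Finset V)}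

theorem Sys.disj (h : Sys G U A C) {Q Q' : Finset V} (hQ : Q ∈ C) (hQ' : Q' ∈ C) {m : V}
    (h1 : m ∈ Q) (h2 : m ∈ Q') : Q = Q' := by
  by_contra hn
  have a1 := h.few Q hQ Q' hQ' hn m h1
  have a2 : (Q'.erase m).card ≤ dg G Q' m := le_dg (fun u hu =>
    ⟨mem_of_mem_erase hu, h.clq Q' hQ' m h2 u (mem_of_mem_erase hu) (ne_of_mem_erase hu).symm⟩)
  rw [card_erase_of_mem h2] at a2
  omega

theorem Sys.full (h : Sys G U A C) {Q : Finset V} (hQ : Q ∈ C) {m : V} (h1 : m ∈ Q) (h2 : m ∉ A) :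
    ∀ q ∈ Q ∩ A, G.Adj m q := fun q hq =>
  h.clq Q hQ m h1 q (mem_inter.mp hq).1 (fun e => h2 (e ▸ (mem_inter.mp hq).2))

theorem Sys.out2 (k6 : NoK6 G) (h : Sys G U A C) {Q : Finset V} (hQ : Q ∈ C) {u g y : V}
    (h1 : u ∈ Q) (h2 : g ∈ Q) (h3 : y ∈ Q) (h4 : u ∉ A) (h5 : g ∉ A) (h6 : y ∉ A) (h7 : u ≠ g)
    (h8 : u ≠ y) : g = y := by
  by_contra hn
  exact six k6 (h.tri Q hQ) (h.clq Q hQ u h1 g h2 h7) (h.clq Q hQ u h1 y h3 h8)
    (h.clq Q hQ g h2 y h3 hn) (h.full hQ h1 h4) (h.full hQ h2 h5) (h.full hQ h3 h6)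

theorem few_of {Q : Finset V} (h : Tri G A (Q ∩ A)) {m : V} (hm : ∀ a ∈ Q ∩ A, ¬ G.Adj m a) :
    dg G Q m + 3 ≤ Q.card := by
  have a1 := dg_split (G := G) (inter_subset_left (s₁ := Q) (s₂ := A)) m
  rw [dg_zero hm] at a1
  have a2 : dg G (Q \ (Q ∩ A)) m ≤ (Q \ (Q ∩ A)).card := card_filter_le _ _
  have a3 := card_sdiff_add_card_eq_card (inter_subset_left (s₁ := Q) (s₂ := A))
  have a4 := h.1
  omega

theorem Sys.miss (k6 : NoK6 G) (h : Sys G U A C) {Q Q' : Finset V} (hQ : Q ∈ C) (hQ' : Q' ∈ C)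
    (hn : Q ≠ Q') {m : V} (hm : m ∈ Q) : ∃ x ∈ Q' ∩ A, ¬ G.Adj m x := by
  by_contra hc
  push Not at hc
  have a1 := h.few Q hQ Q' hQ' hn m hm
  have a2 : (Q' ∩ A).card ≤ dg G Q' m := le_dg (fun u hu => ⟨(mem_inter.mp hu).1, hc u hu⟩)
  have a3 := card_sdiff_add_card_inter Q' A
  rw [(h.tri Q' hQ').1] at a2 a3
  obtain ⟨u, g, y, h1, h2, h3, h4, h5, h6⟩ := two_lt_card_iff.mp (show 2 < (Q' \ A).card by omega)
  simp only [mem_sdiff] at h1 h2 h3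
  exact h6 (h.out2 k6 hQ' h1.1 h2.1 h3.1 h1.2 h2.2 h3.2 h4 h5)

theorem Sys.col (k6 : NoK6 G) (h : Sys G U A C) (hA : Col G A 3) {Q : Finset V} (hQ : Q ∈ C) {m : V}
    (hm : m ∈ Q) (hmA : m ∉ A) : Col G (insert m (A \ (Q ∩ A))) 3 := by
  refine col_of_tris m _ _ rfl (fun h1 => hmA (mem_sdiff.mp h1).1) (hA.mono sdiff_subset)
    (fun x hx hax => ?_)
  obtain ⟨x1, x2⟩ := mem_sdiff.mp hx
  obtain ⟨Q', hQ', xQ⟩ := h.nbr Q hQ m hm x x1 hax
  have ne : Q ≠ Q' := fun e => x2 (mem_inter.mpr ⟨e ▸ xQ, x1⟩)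
  have tr := h.tri Q' hQ'
  exact ⟨Q' ∩ A, ⟨tr.1, ⟨fun y hy => mem_sdiff.mpr ⟨(mem_inter.mp hy).2, fun h1 =>
    ne (h.disj hQ hQ' (mem_inter.mp h1).1 (mem_inter.mp hy).1)⟩,
    fun y hy v hv => tr.2.1.2 y hy v (mem_sdiff.mp hv).1⟩, tr.2.2⟩, mem_inter.mpr ⟨xQ, x1⟩,
    h.miss k6 hQ hQ' ne hm⟩

theorem Sys.add (h : Sys G U A C) (hA : A ⊆ U) {S : Finset V} (hS : Tri G A S)
    (hn : ∀ Q ∈ C, ∀ a ∈ Q, a ∉ S) : Sys G U A (insert S C) := by
  have e : S ∩ A = S := inter_eq_left.mpr hS.2.1.1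
  refine ⟨forall_mem_insert _ _ _ |>.mpr ⟨hS.2.1.1.trans hA, h.sub⟩,
    forall_mem_insert _ _ _ |>.mpr ⟨hS.2.2, h.clq⟩, forall_mem_insert _ _ _ |>.mpr ⟨e.symm ▸ hS, h.tri⟩,
    forall_mem_insert _ _ _ |>.mpr ⟨fun m hm a ha h1 => ⟨S, mem_insert_self _ _, hS.2.1.2 m hm a ha h1⟩,
      fun Q hQ m hm a ha h1 => ?_⟩, fun Q hQ Q' hQ' ne m hm => ?_⟩
  · obtain ⟨Q', h2, h3⟩ := h.nbr Q hQ m hm a ha h1
    exact ⟨Q', mem_insert_of_mem h2, h3⟩
  rcases mem_insert.mp hQ with rfl | k <;> rcases mem_insert.mp hQ' with rfl | k'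
  · exact absurd rfl ne
  · exact few_of (h.tri Q' k') (fun a ha h1 =>
      hn Q' k' a (mem_inter.mp ha).1 (hS.2.1.2 m hm a (mem_inter.mp ha).2 h1))
  · refine few_of (A := A) (e.symm ▸ hS) (fun a ha h1 => ?_)
    obtain ⟨Q'', h2, h3⟩ := h.nbr Q k m hm a (mem_inter.mp ha).2 h1
    exact hn Q'' h2 a h3 (mem_inter.mp ha).1
  · exact h.few Q k Q' k' ne m hm

theorem Sys.grow (h : Sys G U A C) {Q : Finset V} (hQ : Q ∈ C) {z : V} (hz : z ∈ U) (hzA : z ∉ A)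
    (hn : ∀ Q ∈ C, z ∉ Q) (hm : ∀ a ∈ A, G.Adj z a → a ∈ Q) (ha : ∀ m ∈ Q, G.Adj z m) :
    Sys G U A (insert (insert z Q) (C.erase Q)) ∧ mu C < mu (insert (insert z Q) (C.erase Q)) := by
  have e : insert z Q ∩ A = Q ∩ A := insert_inter_of_notMem hzA
  have up : ∀ a, (∃ Q' ∈ C, a ∈ Q') → ∃ Q' ∈ insert (insert z Q) (C.erase Q), a ∈ Q' := by
    rintro a ⟨Q', h1, h2⟩
    by_cases e : Q' = Q
    · exact ⟨_, mem_insert_self _ _, mem_insert_of_mem (e ▸ h2)⟩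
    · exact ⟨Q', mem_insert_of_mem (mem_erase.mpr ⟨e, h1⟩), h2⟩
  refine ⟨⟨forall_mem_insert _ _ _ |>.mpr ⟨insert_subset hz (h.sub Q hQ),
      fun Q' h1 => h.sub Q' (mem_of_mem_erase h1)⟩,
    forall_mem_insert _ _ _ |>.mpr ⟨fun u hu w hw huw => ?_, fun Q' h1 => h.clq Q' (mem_of_mem_erase h1)⟩,
    forall_mem_insert _ _ _ |>.mpr ⟨e.symm ▸ h.tri Q hQ, fun Q' h1 => h.tri Q' (mem_of_mem_erase h1)⟩,
    forall_mem_insert _ _ _ |>.mpr ⟨fun m h1 a h2 h3 => up a ?_,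
      fun Q' h1 m h2 a h3 h4 => up a (h.nbr Q' (mem_of_mem_erase h1) m h2 a h3 h4)⟩,
    fun Q1 h1 Q2 h2 ne m h3 => ?_⟩, ?_⟩
  · rcases mem_insert.mp hu with rfl | k <;> rcases mem_insert.mp hw with rfl | k'
    · exact absurd rfl huw
    · exact ha w k'
    · exact (ha u k).symm
    · exact h.clq Q hQ u k w k' huw
  · rcases mem_insert.mp h1 with rfl | h1
    · exact ⟨Q, hQ, hm a h2 h3⟩
    · exact h.nbr Q hQ m h1 a h2 h3
  · rcases mem_insert.mp h1 with rfl | k <;> rcases mem_insert.mp h2 with rfl | k'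
    · exact absurd rfl ne
    · obtain ⟨b1, b2⟩ := mem_erase.mp k'
      rcases mem_insert.mp h3 with rfl | h3
      · exact few_of (h.tri Q2 b2) (fun a h4 h5 =>
          b1 (h.disj b2 hQ (mem_inter.mp h4).1 (hm a (mem_inter.mp h4).2 h5)))
      · exact h.few Q hQ Q2 b2 b1.symm m h3
    · obtain ⟨b1, b2⟩ := mem_erase.mp k
      have := h.few Q1 b2 Q hQ b1 m h3
      rw [dg_insert (hn Q hQ), card_insert_of_notMem (hn Q hQ)]
      split_ifs <;> omega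
    · exact h.few Q1 (mem_of_mem_erase k) Q2 (mem_of_mem_erase k') ne m h3
  · unfold mu
    rw [sum_insert (fun h1 => hn _ (mem_of_mem_erase h1) (mem_insert_self _ _)),
      ← add_sum_erase C _ hQ, card_insert_of_notMem (hn Q hQ)]
    have := card_le_card (inter_subset_left (s₁ := Q) (s₂ := A))
    rw [(h.tri Q hQ).1] at this
    omega

theorem Sys.swap (h : Sys G U A C) {Q : Finset V} (hQ : Q ∈ C) {u p : V} (hu : u ∈ Q) (huA : u ∉ A)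
    (hp : p ∈ Q ∩ A) (hm : ∀ a ∈ A, G.Adj u a ↔ a ∈ Q ∩ A) : Sys G U ((insert u A).erase p) C := by
  refine ⟨h.sub, h.clq, fun Q' hQ' => ?_, fun Q' hQ' m h1 a h2 h3 => ?_, h.few⟩
  · by_cases e : Q = Q'
    · subst e
      have : Q ∩ (insert u A).erase p = insert u ((Q ∩ A).erase p) := by
        ext x
        simp only [mem_inter, mem_erase, mem_insert] at hp ⊢
        grind
      rw [this]
      exact tri_swap (h.tri Q hQ) huA hm hp
    · have a1 : u ∉ Q' := fun h1 => e (h.disj hQ hQ' hu h1)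
      have a2 : p ∉ Q' := fun h1 => e (h.disj hQ hQ' (mem_inter.mp hp).1 h1)
      have : Q' ∩ (insert u A).erase p = Q' ∩ A := by
        ext x
        simp only [mem_inter, mem_erase, mem_insert]
        grind
      rw [this]
      exact tri_keep (h.tri Q hQ) (h.tri Q' hQ') (fun e1 => a2 (mem_inter.mp (e1 ▸ hp)).1) hm hp
  · rcases mem_insert.mp (mem_of_mem_erase h2) with rfl | h2
    · exact ⟨Q, hQ, hu⟩
    · exact h.nbr Q' hQ' m h1 a h2 h3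

end Pool.Agent.Lib.MP_12eaff_co
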