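import Pool.Agent.Lib.MP_12eaff_co.Core1
import Pool.Agent.Lib.MP_12eaff_co.Core2

set_option autoImplicit false

namespace Pool.Agent.Lib.MP_12eaff_co.BK

open Finset Pool.Agent.Lib.MP_12eaff_co.Acc2.ZG
open scoped Classical

variable {V : Type} [Fintype V] {G : SimpleGraph V} {D : ℕ}

/-- Core of the static argument. `U` is uncoloured, `F` is coloured last, the pairs `u`, `m u`
of `A` take the forced colours, `pt u` is the only side of `u` that is not free. -/
theorem core (h : MC G D) (hD : 8 ≤ D) {T : Finset (Finset V)}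
    (hT : ∀ K ∈ T, IsClq G K ∧ K.card = D) {F : Finset V}
    (ind : ∀ K ∈ T, ∀ L ∈ T, K ≠ L → ∀ a ∈ K ∩ F, ∀ b ∈ L ∩ F, ¬ G.Adj a b)
    (f4 : ∀ K ∈ T, 4 ≤ (K ∩ F).card) {c : V → ℕ} {U : Finset V} (c1 : PCol G D c)
    (c2 : ∀ v, c v < D ↔ v ∉ U) (hU : ∀ v ∈ U, ∃ K ∈ T, v ∈ K) (FU : ∀ K ∈ T, K ∩ F ⊆ U)
    {A : Finset V} (m pt : V → V) (β : V → ℕ) (AU : ∀ u ∈ A, u ∈ U ∧ u ∉ F)
    (ex : ∀ K ∈ T, ∃ u ∈ A, u ∈ K)
    (mA : ∀ K ∈ T, ∀ u ∈ A, u ∈ K → m u ∈ A ∧ m u ∈ K ∧ m (m u) = u ∧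
      ∀ v ∈ A, v ∈ K → v = u ∨ v = m u)
    (hβ : ∀ u ∈ A, β u ≠ β (m u))
    (side : ∀ K ∈ T, ∀ u ∈ A, u ∈ K → ∀ v, G.Adj u v → v ∉ K →
      v = pt u ∨ (v ∈ U ∧ v ∉ A) ∨ (v ∉ U ∧ c v ∈ K.image c))
    (lk : ∀ u ∈ A, pt u ∈ A → pt (pt u) = u ∧ β u = β (m (pt u)))
    (br : ∀ u ∈ A, pt u ∉ U → c (pt u) = β u) : False := by
  have ce : ∀ K ∈ T, ∀ v ∈ K, clOf T v = K := fun K k v l => clOf_eq h hD hT k l
  have cw : ∀ v ∈ A, clOf T v ∈ T ∧ v ∈ clOf T v := fun v l => by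
    obtain ⟨K, k1, k2⟩ := hU v (AU v l).1
    rw [ce K k1 v k2]
    exact ⟨k1, k2⟩
  have mc : ∀ u ∈ A, clOf T (m u) = clOf T u := fun u l =>
    ce _ (cw u l).1 _ (mA _ (cw u l).1 u l (cw u l).2).2.1
  have o2 : ∀ K ∈ T, ∀ v ∈ K, (nb G v \ K).card ≤ 2 := fun K k v l =>
    out2 h (hT K k).1 (hT K k).2 l
  obtain ⟨rk, r1, r2⟩ := peel h hD F T hT ind
  have cl : ∀ K ∈ T, ∃ p ∈ K ∩ F, ∃ q ∈ K ∩ F, p ≠ q ∧ ∀ w, w = p ∨ w = q →
      ¬ ∃ L ∈ T, rk K < rk L ∧ ∃ v ∈ L, G.Adj w v := by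
    intro K k
    have a := card_filter_add_card_filter_not (s := K ∩ F)
      fun w => ∃ L ∈ T, rk K < rk L ∧ ∃ v ∈ L, G.Adj w v
    have := r2 K k
    have := f4 K k
    obtain ⟨p, hp, q, hq, n⟩ := one_lt_card.mp (show 1 < ((K ∩ F).filter
      fun w => ¬ ∃ L ∈ T, rk K < rk L ∧ ∃ v ∈ L, G.Adj w v).card by omega)
    refine ⟨p, (mem_filter.mp hp).1, q, (mem_filter.mp hq).1, n, ?_⟩
    rintro w (rfl | rfl)
    exacts [(mem_filter.mp hp).2, (mem_filter.mp hq).2]
  have : Nonempty V := by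
    by_contra n
    exact h.ncol ⟨fun _ => 0, fun v => absurd ⟨v⟩ n, fun v => absurd ⟨v⟩ n⟩
  choose! p p1 q q1 pq cq using cl
  choose ms m1 m2 m3 m4 m5 using must
  obtain ⟨g, g1, g2⟩ := run D A m (fun u => rk (clOf T u)) β c
    (fun u => range D \ (clOf T u).image c)
    (fun u g => ms (sn G D g (clOf T u) (p (clOf T u)) ∩ (range D \ (clOf T u).image c))
      (sn G D g (clOf T u) (q (clOf T u)) ∩ (range D \ (clOf T u).image c)))
    (fun u l => (mA _ (cw u l).1 u l (cw u l).2).1)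
    (fun u l => (mA _ (cw u l).1 u l (cw u l).2).2.2.1) (fun u l => by rw [mc u l])
    (fun u l v k e => (mA _ (cw u l).1 u l (cw u l).2).2.2.2 v k
      (by rw [r1 _ (cw u l).1 _ (cw v k).1 e]; exact (cw v k).2))
    hβ (fun u l => by rw [mc u l]) (fun u l => by rw [mc u l])
    (fun u _ y hy => mem_range.mp (mem_sdiff.mp hy).1)
    (fun u l => by
      have k := (cw u l).1
      have a := le_card_sdiff ((clOf T u \ F).image c) (range D)
      have b : ((clOf T u \ F).image c).card ≤ (clOf T u \ F).card := card_image_le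
      have d := card_sdiff_add_card_inter (clOf T u) F
      have e : range D \ (clOf T u \ F).image c ⊆ range D \ (clOf T u).image c := by
        intro y hy
        obtain ⟨y1, y2⟩ := mem_sdiff.mp hy
        refine mem_sdiff.mpr ⟨y1, fun t => y2 ?_⟩
        obtain ⟨x, x1, x2⟩ := mem_image.mp t
        exact mem_image.mpr ⟨x, mem_sdiff.mpr ⟨x1, fun z => (c2 x).mp (x2 ▸ mem_range.mp y1)
          (FU _ k (mem_inter.mpr ⟨x1, z⟩))⟩, x2⟩
      have := card_le_card e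
      have := f4 _ k
      have := (hT _ k).2
      rw [card_range] at a
      omega)
    (fun u l g => ⟨(m1 _ _).trans (union_subset inter_subset_right inter_subset_right),
      m2 _ _ ((card_le_card inter_subset_left).trans ((sn_le g _ _).trans
        (o2 _ (cw u l).1 _ (mem_inter.mp (p1 _ (cw u l).1)).1)))⟩)
    (fun u l g g' e => by
      have k := (cw u l).1
      have s : ∀ w, w = p (clOf T u) ∨ w = q (clOf T u) →
          sn G D g (clOf T u) w = sn G D g' (clOf T u) w := by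
        intro w hw
        have t : ∀ v, G.Adj w v → v ∉ clOf T u → g v = g' v := fun v a b => e v (fun z =>
          cq _ k w hw ⟨_, (cw v z.1).1, lt_of_le_of_ne z.2 (fun y => b (by
            rw [r1 _ k _ (cw v z.1).1 y]; exact (cw v z.1).2)), v, (cw v z.1).2, a⟩)
        ext y
        simp only [mem_sn]
        constructor
        · rintro ⟨v, a, b, d, f⟩
          exact ⟨v, a, b, t v a b ▸ d, t v a b ▸ f⟩
        · rintro ⟨v, a, b, d, f⟩
          exact ⟨v, a, b, (t v a b).symm ▸ d, (t v a b).symm ▸ f⟩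
      simp only [s _ (Or.inl rfl), s _ (Or.inr rfl)])
    (A.sup (fun u => rk (clOf T u)) + 1) pt (fun u l _ a _ => lk u l a)
    (fun u l _ _ b => br u l ((c2 _).mp b))
  have lt : ∀ u ∈ A, rk (clOf T u) < A.sup (fun u => rk (clOf T u)) + 1 := fun u l =>
    Nat.lt_succ_of_le (le_sup (f := fun u => rk (clOf T u)) l)
  have go : ∀ v, v ∉ A → g v = c v := fun v l => g1 v (fun z => l z.1)
  have gD : ∀ u ∈ A, g u < D ∧ g u ∉ (clOf T u).image c := fun u l =>
    ⟨mem_range.mp (mem_sdiff.mp (g2 u l (lt u l)).1).1, (mem_sdiff.mp (g2 u l (lt u l)).1).2⟩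
  have pa : ∀ u ∈ A, ∀ v, G.Adj u v → g u ≠ g v := by
    intro u l v a
    obtain ⟨k1, k2⟩ := cw u l
    obtain ⟨-, s2, -, s4⟩ := g2 u l (lt u l)
    by_cases e : v ∈ clOf T u
    · by_cases f : v ∈ A
      · rw [((mA _ k1 u l k2).2.2.2 v f e).resolve_left a.ne']
        exact s2
      · rw [go v f]
        exact fun z => (gD u l).2 (z ▸ mem_image_of_mem c e)
    · rcases side _ k1 u l k2 v a e with f | f | f
      · exact f ▸ s4
      · rw [go v f.2]
        exact fun z => (c2 v).mp (z ▸ (gD u l).1) f.1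
      · rw [go v (fun t => f.1 (AU v t).1)]
        exact fun z => (gD u l).2 (z ▸ f.2)
  refine fin_good h hD hT ind f4 _ g (U \ A) (fun u v a b => ?_) (fun v => ?_)
    (fun v l => hU v (mem_sdiff.mp l).1) (fun K k v l => mem_sdiff.mpr
      ⟨FU K k l, fun t => (AU v t).2 (mem_inter.mp l).2⟩) rfl (fun K k => ?_)
  · by_cases e : u ∈ A
    · exact pa u e v a
    by_cases f : v ∈ A
    · exact (pa v f u a.symm).symm
    rw [go u e] at b ⊢
    rw [go v f]
    exact c1 u v a b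
  · by_cases e : v ∈ A
    · simp [e, (gD v e).1]
    · rw [go v e, c2 v]
      simp [e]
  obtain ⟨u, l, uK⟩ := ex K k
  obtain ⟨-, -, s3, -⟩ := g2 u l (lt u l)
  rw [ce K k u uK] at s3
  have us : ∀ y ∈ ({g u, g (m u)} : Finset ℕ), y ∈ K.image g := fun y hy => by
    rcases mem_insert.mp hy with e | e
    · exact e ▸ mem_image_of_mem g uK
    · exact mem_singleton.mp e ▸ mem_image_of_mem g (mA K k u l uK).2.1
  have sb : ∀ w, ∀ y ∈ sn G D g K w \ K.image g, y ∈ sn G D g K w ∩ (range D \ K.image c) := by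
    intro w y hy
    obtain ⟨y1, y2⟩ := mem_sdiff.mp hy
    obtain ⟨x, -, -, x3, x4⟩ := mem_sn.mp y1
    refine mem_inter.mpr ⟨y1, mem_sdiff.mpr ⟨mem_range.mpr (x4 ▸ x3), fun t => y2 ?_⟩⟩
    obtain ⟨z, z1, z2⟩ := mem_image.mp t
    exact mem_image.mpr ⟨z, z1, by
      rw [go z (fun s => (c2 z).mp (by rw [z2, ← x4]; exact x3) (AU z s).1), z2]⟩
  have two : ∀ w ∈ K ∩ F, ∀ y z, y ≠ z → y ∈ sn G D g K w \ K.image g →
      z ∈ sn G D g K w \ K.image g →
      (∃ t ∈ sn G D g K w ∩ (range D \ K.image c), t ∈ K.image g) → False := by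
    rintro w hw y z n a b ⟨t, t1, t2⟩
    have e : {y, z} = sn G D g K w := eq_of_subset_of_card_le
      (insert_subset (mem_sdiff.mp a).1 (singleton_subset_iff.2 (mem_sdiff.mp b).1))
      (by rw [card_pair n]; exact (sn_le g K w).trans (o2 K k w (mem_inter.mp hw).1))
    have := (mem_inter.mp t1).1
    rw [← e, mem_insert, mem_singleton] at this
    rcases this with s | s
    · exact (mem_sdiff.mp a).2 (s ▸ t2)
    · exact (mem_sdiff.mp b).2 (s ▸ t2)
  refine ⟨fun y => ?_, fun y z n => ?_⟩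
  · by_contra s
    push Not at s
    exact (mem_sdiff.mp (s _ (p1 K k))).2 (us y (s3 (m3 _ _
      (mem_inter.mpr ⟨sb _ y (s _ (p1 K k)), sb _ y (s _ (q1 K k))⟩))))
  · have s : ((K ∩ F).filter fun w => y ∈ sn G D g K w \ K.image g ∧
        z ∈ sn G D g K w \ K.image g) ⊆ (K ∩ F) \ {p K, q K} := by
      intro w hw
      obtain ⟨a, b, d⟩ := mem_filter.mp hw
      refine mem_sdiff.mpr ⟨a, fun t => two w a y z n b d ?_⟩
      rcases mem_insert.mp t with e | e
      · subst e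
        obtain ⟨t, t1, t2⟩ := m4 _ _ y (sb _ y b)
        exact ⟨t, t1, us t (s3 t2)⟩
      · rw [mem_singleton] at e
        subst e
        obtain ⟨t, t1, t2⟩ := m5 _ _ y (sb _ y b)
        exact ⟨t, t1, us t (s3 t2)⟩
    have s1 := card_le_card s
    have s2 := card_sdiff_add_card_eq_card (s := {p K, q K}) (t := K ∩ F)
      (insert_subset (p1 K k) (singleton_subset_iff.2 (q1 K k)))
    rw [card_pair (pq K k)] at s2
    exact le_trans (Nat.add_le_add_right s1 2) s2.le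

end Pool.Agent.Lib.MP_12eaff_co.BK
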