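import Pool.Agent.Lib.MP_12eaff_co.Core
import Pool.Agent.Lib.MP_12eaff_co.Slc

set_option autoImplicit false

namespace Pool.Agent.Lib.MP_12eaff_co.BK

open Finset
open scoped Classical

namespace Slc

variable {V ι : Type} {D : ℕ} {cl : V → ι} {g : V → ℕ} {H : Finset V} {pt : V → V}

def Closed (cl : V → ι) (H : Finset V) (pt : V → V) (S : Finset ι) : Prop :=
  ∀ u ∈ H, cl u ∈ S → pt u ∈ H → cl (pt u) ∈ S

/-- A component: a minimal nonempty closed set of nodes. -/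
def Comp (cl : V → ι) (H : Finset V) (pt : V → V) (S : Finset ι) : Prop :=
  S.Nonempty ∧ Closed cl H pt S ∧ ∀ R ⊆ S, R.Nonempty → Closed cl H pt R → R = S

theorem Comp.eq {S R : Finset ι} (a : Comp cl H pt S) (b : Comp cl H pt R) {k : ι} (p : k ∈ S)
    (q : k ∈ R) : S = R := by
  have c : Closed cl H pt (S ∩ R) := fun u l t e => mem_inter.mpr
    ⟨a.2.1 u l (mem_inter.mp t).1 e, b.2.1 u l (mem_inter.mp t).2 e⟩
  have n : (S ∩ R).Nonempty := ⟨k, mem_inter.mpr ⟨p, q⟩⟩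
  exact (a.2.2 _ inter_subset_left n c).symm.trans (b.2.2 _ inter_subset_right n c)

theorem Bad.comp (inv : ∀ u ∈ H, pt u ∈ H → pt (pt u) = u) {y : ℕ} :
    ∀ S : Finset ι, Bad D cl g H pt S y → ∃ R, Comp cl H pt R ∧ Bad D cl g H pt R y := by
  intro S
  induction S using Finset.strongInduction with
  | H S ih =>
  intro b
  obtain ⟨b1, b2, b3⟩ := b
  have cS : Closed cl H pt S := fun u l t e => ((b2 u l t).resolve_right fun f => f.1 e).2
  by_cases mn : ∀ R ⊆ S, R.Nonempty → Closed cl H pt R → R = S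
  · obtain ⟨u, hu⟩ := card_pos.mp (lt_of_le_of_lt (Nat.zero_le _) b3)
    exact ⟨S, ⟨⟨_, (mem_filter.mp hu).2.1⟩, cS, mn⟩, b1, b2, b3⟩
  push Not at mn
  obtain ⟨R, r1, r2, r3, r4⟩ := mn
  have sub : ∀ Q ⊆ S, Closed cl H pt Q → ∀ u ∈ H, cl u ∈ Q →
      (pt u ∈ H ∧ cl (pt u) ∈ Q) ∨ (pt u ∉ H ∧ g (pt u) = y) := fun Q q c u l t =>
    (b2 u l (q t)).imp (fun f => ⟨f.1, c u l t f.1⟩) id
  have cR : Closed cl H pt (S \ R) := fun u l t e => mem_sdiff.mpr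
    ⟨cS u l (mem_sdiff.mp t).1 e, fun f => (mem_sdiff.mp t).2 (by
      have := r3 _ e f (by rwa [inv u l e])
      rwa [inv u l e] at this)⟩
  have e1 : (R.filter fun k => (H.filter fun v => cl v = k).card = 3).card +
      ((S \ R).filter fun k => (H.filter fun v => cl v = k).card = 3).card ≤
      (S.filter fun k => (H.filter fun v => cl v = k).card = 3).card := by
    rw [← card_union_of_disjoint (disjoint_filter_filter disjoint_sdiff), ← filter_union,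
      union_sdiff_of_subset r1]
  have e2 : (H.filter fun u => cl u ∈ S ∧ pt u ∉ H).card ≤
      (H.filter fun u => cl u ∈ R ∧ pt u ∉ H).card +
        (H.filter fun u => cl u ∈ S \ R ∧ pt u ∉ H).card := by
    refine le_trans (card_le_card fun u t => ?_) (card_union_le _ _)
    obtain ⟨t1, t2, t3⟩ := mem_filter.mp t
    by_cases f : cl u ∈ R
    · exact mem_union_left _ (mem_filter.mpr ⟨t1, f, t3⟩)
    · exact mem_union_right _ (mem_filter.mpr ⟨t1, mem_sdiff.mpr ⟨t2, f⟩, t3⟩)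
  by_cases f : (R.filter fun k => (H.filter fun v => cl v = k).card = 3).card <
      (H.filter fun u => cl u ∈ R ∧ pt u ∉ H).card
  · exact ih R (ssubset_of_subset_of_ne r1 r4) ⟨b1, sub R r1 r3, f⟩
  · exact ih (S \ R) (sdiff_ssubset r1 r2) ⟨b1, sub _ sdiff_subset cR, by omega⟩

end Slc

variable {V : Type} [Fintype V] {G : SimpleGraph V} {D : ℕ}

/-- Two or three units per clique; no component of units is a tree with one outer colour. -/
theorem core3 (h : MC G D) (hD : 8 ≤ D) {T : Finset (Finset V)} (ne : T.Nonempty)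
    (hT : ∀ K ∈ T, IsClq G K ∧ K.card = D) {F : Finset V}
    (ind : ∀ K ∈ T, ∀ L ∈ T, K ≠ L → ∀ a ∈ K ∩ F, ∀ b ∈ L ∩ F, ¬ G.Adj a b)
    (f4 : ∀ K ∈ T, 4 ≤ (K ∩ F).card) {c : V → ℕ} {U : Finset V} (c1 : PCol G D c)
    (c2 : ∀ v, c v < D ↔ v ∉ U) (hU : ∀ v ∈ U, ∃ K ∈ T, v ∈ K) (FU : ∀ K ∈ T, K ∩ F ⊆ U)
    {H : Finset V} (pt : V → V) (HU : ∀ u ∈ H, u ∈ U ∧ u ∉ F)
    (cd : ∀ K ∈ T, (K ∩ H).card = 2 ∨ (K ∩ H).card = 3)
    (inv : ∀ u ∈ H, pt u ∈ H → pt (pt u) = u) (pn : ∀ u ∈ H, pt u ≠ u)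
    (side : ∀ K ∈ T, ∀ u ∈ H, u ∈ K → ∀ v, G.Adj u v → v ∉ K →
      v = pt u ∨ (v ∈ U ∧ v ∉ H) ∨ (v ∉ U ∧ c v ∈ K.image c))
    (nb : ∀ S y, Slc.Comp (clOf T) H pt S → ¬ Slc.Bad D (clOf T) c H pt S y) : False := by
  have ce : ∀ K ∈ T, ∀ v ∈ K, clOf T v = K := fun K k v l => clOf_eq h hD hT k l
  have cw : ∀ v ∈ H, clOf T v ∈ T ∧ v ∈ clOf T v := fun v l => by
    obtain ⟨K, k1, k2⟩ := hU v (HU v l).1
    rw [ce K k1 v k2]
    exact ⟨k1, k2⟩
  obtain ⟨K0, k0⟩ := ne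
  obtain ⟨w, hw⟩ := card_pos.mp (show 0 < (K0 ∩ F).card by have := f4 K0 k0; omega)
  obtain ⟨A, sA, m, β, o1, o2⟩ := Slc.select (D := D) (cl := clOf T) (g := c) (w := w)
    (not_lt.mp fun q => (c2 w).mp q (FU K0 k0 hw)) H pt
    ⟨inv, pn, fun u l => by
      have : (H.filter fun v => clOf T v = clOf T u) = clOf T u ∩ H := by
        ext v
        rw [mem_filter, mem_inter]
        exact ⟨fun q => ⟨q.2 ▸ (cw v q.1).2, q.1⟩, fun q => ⟨q.2, ce _ (cw u l).1 v q.1⟩⟩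
      have k := cd _ (cw u l).1
      rw [← this] at k
      convert k⟩
    (fun q => (HU w q).2 (mem_inter.mp hw).2)
    (fun S y b => by
      obtain ⟨R, r1, r2⟩ := b.comp inv
      exact nb R y r1 r2)
  refine core h hD hT ind f4 c1 c2 hU FU m pt β (fun u l => HU u (sA l)) (fun K k => ?_)
    (fun K k u l uK => ?_) (fun u l => (o2 u l).2.2.2.1)
    (fun K k u l uK v a b => (side K k u (sA l) uK v a b).imp id
      (Or.imp (fun q => ⟨q.1, fun t => q.2 (sA t)⟩) id))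
    (fun u l q => ⟨inv u (sA l) (sA q), (o2 u l).2.2.2.2.2.1 q⟩)
    (fun u l q => (o2 u l).2.2.2.2.2.2 (fun t => q (HU _ t).1) ((c2 _).mpr q))
  · obtain ⟨u, hu⟩ := card_pos.mp (show 0 < (K ∩ H).card by have := cd K k; omega)
    obtain ⟨a, a1, a2⟩ := o1 u (mem_inter.mp hu).2
    rw [ce K k u (mem_inter.mp hu).1] at a2
    exact ⟨a, a1, a2 ▸ (cw a (sA a1)).2⟩
  · obtain ⟨p1, p2, p3, -, p5, -⟩ := o2 u l
    have e := ce K k u uK
    exact ⟨p1, by rw [← e, ← p2]; exact (cw _ (sA p1)).2, p3,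
      fun v t vK => p5 v t ((ce K k v vK).trans e.symm)⟩

end Pool.Agent.Lib.MP_12eaff_co.BK
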