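import Mathlib

set_option autoImplicit false

namespace Pool.Agent.Lib.MP_12eaff_co.Dich

open Finset
open scoped Classical

variable {V ι : Type}

/-- The members of class `k` outside `I`. -/
noncomputable def zc (W : Finset V) (cl : V → ι) (I : Finset V) (k : ι) : Finset V :=
  W.filter (fun u => u ∉ I ∧ cl u = k)

theorem mem_zc {W : Finset V} {cl : V → ι} {I : Finset V} {k : ι} {u : V} :
    u ∈ zc W cl I k ↔ u ∈ W ∧ u ∉ I ∧ cl u = k := by
  simp [zc]

structure St (W : Finset V) (cl : V → ι) (X : V → V → Prop) (c : ι → ℕ) (P I : Finset V) :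
    Prop where
  sub : I ⊆ W
  ind : ∀ u ∈ I, ∀ v ∈ I, ¬ X u v
  cap : ∀ k, (zc W cl I k).card ≤ c k
  off : ∀ u ∈ P, u ∉ I

structure Pick (W : Finset V) (cl : V → ι) (X : V → V → Prop) (I : Finset V) (S U : Finset ι)
    (L P N A : Finset V) : Prop where
  reg : ∀ a ∈ A, a ∈ W ∧ a ∉ I ∧ (cl a ∈ U ∨ a ∈ L)
  one : ∀ k ∈ U, (zc W cl I k \ A).card ≤ 1
  top : (L \ A).card ≤ 1
  all : (∀ u ∈ N, cl u ∉ U ∧ u ∉ L) → L ⊆ A
  ok : ∀ a ∈ A, (a ∈ P ∧ a ∉ N) ∨ (∃ w ∈ I, X a w ∧ (cl w ∈ S ∨ cl w ∈ U)) ∨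
    (∃ w ∈ W, X a w ∧ w ∉ A ∧ (cl w ∈ U ∨ w ∈ L))
  out : ∀ z ∈ W, z ∉ I → (cl z ∈ U ∨ z ∈ L) → z ∉ A → z ∈ N ∨ (∃ w ∈ I, X z w ∧ cl w ∈ U) ∨
    (∃ y ∈ A, X y z ∧ ∃ w ∈ I, X y w ∧ cl w ∈ U)

def Sel (W : Finset V) (cl : V → ι) (X : V → V → Prop) (I : Finset V) (S U : Finset ι)
    (L P : Finset V) : Prop :=
  ∀ N : Finset V, N.card ≤ 1 → ∃ A, Pick W cl X I S U L P N A

def Rr (W : Finset V) (cl : V → ι) (X : V → V → Prop) (c : ι → ℕ) (S : Finset ι) (K : ι)
    (P I : Finset V) : Prop :=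
  ∃ J, St W cl X c P J ∧ (∀ u, cl u ∈ S → cl u ≠ K → (u ∈ J ↔ u ∈ I)) ∧
    (zc W cl J K).card < (zc W cl I K).card

def Cc (W : Finset V) (cl : V → ι) (X : V → V → Prop) (c : ι → ℕ) (r : ℕ) (S : Finset ι)
    (L P I : Finset V) : Prop :=
  ∃ J U, St W cl X c P J ∧ (∀ u, cl u ∈ S → (u ∈ J ↔ u ∈ I)) ∧ (∀ k ∈ U, k ∉ S) ∧
    (∀ k ∈ U, r + 1 ≤ (zc W cl J k).card) ∧ Sel W cl X J S U L P

def Dd (W : Finset V) (cl : V → ι) (X : V → V → Prop) (c : ι → ℕ) (r : ℕ) (S : Finset ι) :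
    Prop :=
  ∀ K ∈ S, ∀ P I, St W cl X c P I → Rr W cl X c S K P I ∨ Cc W cl X c r S (zc W cl I K) P I

variable {W : Finset V} {cl : V → ι} {X : V → V → Prop} {c : ι → ℕ} {r : ℕ}

theorem zc_eq {I J : Finset V} {k : ι} (h : ∀ u, cl u = k → (u ∈ J ↔ u ∈ I)) :
    zc W cl J k = zc W cl I k := by
  ext u
  simp only [mem_zc]
  constructor
  · rintro ⟨a, b, d⟩
    exact ⟨a, fun q => b ((h u d).mpr q), d⟩
  · rintro ⟨a, b, d⟩
    exact ⟨a, fun q => b ((h u d).mp q), d⟩

theorem St.drop {P I : Finset V} (h : St W cl X c P I) (w : V)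
    (hw : (zc W cl I (cl w)).card + 1 ≤ c (cl w)) : St W cl X c P (I.erase w) := by
  refine ⟨fun u hu => h.sub (mem_of_mem_erase hu),
    fun u hu v hv => h.ind u (mem_of_mem_erase hu) v (mem_of_mem_erase hv), fun k => ?_,
    fun u hu q => h.off u hu (mem_of_mem_erase q)⟩
  by_cases e : k = cl w
  · subst e
    refine le_trans (card_le_card (t := insert w (zc W cl I (cl w))) ?_)
      (le_trans (card_insert_le _ _) hw)
    intro u hu
    rw [mem_zc] at hu
    by_cases f : u = w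
    · simp [f]
    · exact mem_insert_of_mem (mem_zc.mpr ⟨hu.1, fun q => hu.2.1 (mem_erase.mpr ⟨f, q⟩), hu.2.2⟩)
  · rw [zc_eq (I := I)]
    · exact h.cap k
    · intro u hu
      have : u ≠ w := fun f => e (by rw [← hu, f])
      simp [this]

theorem Pick.move {I J : Finset V} {S U : Finset ι} {L P N A : Finset V}
    (h : Pick W cl X I S U L P N A) (hL : ∀ a ∈ L, cl a ∈ S)
    (ag : ∀ u, (cl u ∈ S ∨ cl u ∈ U) → (u ∈ J ↔ u ∈ I)) : Pick W cl X J S U L P N A := by
  have rg : ∀ a, (cl a ∈ U ∨ a ∈ L) → (a ∈ J ↔ a ∈ I) := fun a q =>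
    ag a (q.elim Or.inr (fun t => Or.inl (hL a t)))
  refine ⟨fun a ha => ?_, fun k hk => ?_, h.top, h.all, fun a ha => ?_, fun z a b d e => ?_⟩
  · obtain ⟨p1, p2, p3⟩ := h.reg a ha
    exact ⟨p1, fun q => p2 ((rg a p3).mp q), p3⟩
  · rw [zc_eq (I := I) (fun u hu => ag u (Or.inr (by rw [hu]; exact hk)))]
    exact h.one k hk
  · rcases h.ok a ha with q | ⟨w, q1, q2, q3⟩ | q
    · exact Or.inl q
    · exact Or.inr (Or.inl ⟨w, (ag w q3).mpr q1, q2, q3⟩)
    · exact Or.inr (Or.inr q)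
  · rcases h.out z a (fun q => b ((rg z d).mpr q)) d e with q | ⟨w, q1, q2, q3⟩ |
      ⟨y, p1, p2, w, q1, q2, q3⟩
    · exact Or.inl q
    · exact Or.inr (Or.inl ⟨w, (ag w (Or.inr q3)).mpr q1, q2, q3⟩)
    · exact Or.inr (Or.inr ⟨y, p1, p2, w, (ag w (Or.inr q3)).mpr q1, q2, q3⟩)

/-- Freeing one vertex `x` from its neighbours in `I`. -/
theorem free (hd : ∀ v ∈ W, (W.filter (X v)).card ≤ 2) (hc : ∀ k, r + 1 ≤ c k) (S : Finset ι)
    (H : ∀ k ∈ W.image cl, k ∉ S → Dd W cl X c r (insert k S)) (P : Finset V) {x : V}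
    (hx : x ∈ W) : ∀ n : ℕ, ∀ I, St W cl X c P I → (I.filter (X x)).card ≤ n →
      (∀ w ∈ I, X x w → cl w ∉ S) →
      (∃ J, St W cl X c P J ∧ (∀ u, cl u ∈ S → (u ∈ J ↔ u ∈ I)) ∧ ∀ w ∈ J, ¬ X x w) ∨
      (∃ J w U Q, St W cl X c P J ∧ (∀ u, cl u ∈ S → (u ∈ J ↔ u ∈ I)) ∧ w ∈ J ∧ X x w ∧
        cl w ∉ S ∧ (∀ k ∈ U, k ∉ insert (cl w) S) ∧
        (∀ k ∈ insert (cl w) U, r + 1 ≤ (zc W cl J k).card) ∧ Q.card ≤ 1 ∧ (∀ q ∈ Q, X x q) ∧
        Sel W cl X J (insert (cl w) S) U (zc W cl J (cl w)) (P ∪ Q)) := by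
  intro n
  induction n with
  | zero =>
    intro I h hn _
    refine Or.inl ⟨I, h, fun _ _ => Iff.rfl, fun w hw q => ?_⟩
    have := card_pos.mpr ⟨w, mem_filter.mpr ⟨hw, q⟩⟩
    omega
  | succ n ih =>
    intro I h hn hS
    by_cases ex : ∃ w ∈ I, X x w
    swap
    · exact Or.inl ⟨I, h, fun _ _ => Iff.rfl, fun w hw q => ex ⟨w, hw, q⟩⟩
    obtain ⟨w, hw, xw⟩ := ex
    have wS := hS w hw xw
    have next : ∀ J, St W cl X c P J → (∀ u, cl u ∈ S → (u ∈ J ↔ u ∈ I)) →
        (∀ u ∈ J, X x u → u ∈ I ∧ u ≠ w) →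
        (∃ J, St W cl X c P J ∧ (∀ u, cl u ∈ S → (u ∈ J ↔ u ∈ I)) ∧ ∀ w ∈ J, ¬ X x w) ∨
        (∃ J w U Q, St W cl X c P J ∧ (∀ u, cl u ∈ S → (u ∈ J ↔ u ∈ I)) ∧ w ∈ J ∧ X x w ∧
          cl w ∉ S ∧ (∀ k ∈ U, k ∉ insert (cl w) S) ∧
          (∀ k ∈ insert (cl w) U, r + 1 ≤ (zc W cl J k).card) ∧ Q.card ≤ 1 ∧
          (∀ q ∈ Q, X x q) ∧
          Sel W cl X J (insert (cl w) S) U (zc W cl J (cl w)) (P ∪ Q)) := by
      intro J hJ ag sm
      have cn : (J.filter (X x)).card ≤ n := by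
        have s1 : J.filter (X x) ⊆ (I.filter (X x)).erase w := by
          intro u hu
          obtain ⟨a, b⟩ := mem_filter.mp hu
          exact mem_erase.mpr ⟨(sm u a b).2, mem_filter.mpr ⟨(sm u a b).1, b⟩⟩
        have s2 := card_le_card s1
        rw [card_erase_of_mem (mem_filter.mpr ⟨hw, xw⟩)] at s2
        omega
      rcases ih J hJ cn (fun u a b => hS u (sm u a b).1 b) with ⟨M, m1, m2, m3⟩ |
        ⟨M, v, U, Q, m1, m2, m3⟩
      · exact Or.inl ⟨M, m1, fun u hu => (m2 u hu).trans (ag u hu), m3⟩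
      · exact Or.inr ⟨M, v, U, Q, m1, fun u hu => (m2 u hu).trans (ag u hu), m3⟩
    have ne : ∀ u, cl u ∈ S → u ≠ w := fun u hu e => wS (e ▸ hu)
    by_cases ld : (zc W cl I (cl w)).card ≤ r
    · refine next (I.erase w) (h.drop w (by have := hc (cl w); omega)) (fun u hu => ?_)
        (fun u hu _ => ⟨mem_of_mem_erase hu, (mem_erase.mp hu).1⟩)
      simp [ne u hu]
    have hQ : (W.filter (X x) \ I).card ≤ 1 := by
      have s1 : W.filter (X x) \ I ⊆ (W.filter (X x)).erase w := by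
        intro u hu
        obtain ⟨a, b⟩ := mem_sdiff.mp hu
        exact mem_erase.mpr ⟨fun e => b (e ▸ hw), a⟩
      have s2 := card_le_card s1
      rw [card_erase_of_mem (mem_filter.mpr ⟨h.sub hw, xw⟩)] at s2
      have := hd x hx
      omega
    have h2 : St W cl X c (P ∪ (W.filter (X x) \ I)) I := by
      refine ⟨h.sub, h.ind, h.cap, fun u hu => ?_⟩
      rcases mem_union.mp hu with q | q
      · exact h.off u q
      · exact (mem_sdiff.mp q).2
    have wk : ∀ J, St W cl X c (P ∪ (W.filter (X x) \ I)) J → St W cl X c P J := fun J q =>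
      ⟨q.sub, q.ind, q.cap, fun u hu => q.off u (mem_union_left _ hu)⟩
    rcases H (cl w) (mem_image_of_mem _ (h.sub hw)) wS (cl w) (mem_insert_self _ _) _ I h2 with
      ⟨J, j1, j2, j3⟩ | ⟨J, U, j1, j2, j3, j4, j5⟩
    · refine next (J.erase w) ((wk J j1).drop w (by have := h.cap (cl w); omega))
        (fun u hu => ?_) (fun u hu b => ⟨?_, (mem_erase.mp hu).1⟩)
      · rw [← j2 u (mem_insert_of_mem hu) (fun e => wS (e ▸ hu))]
        simp [ne u hu]
      · by_contra q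
        have a := mem_of_mem_erase hu
        exact j1.off u (mem_union_right _ (mem_sdiff.mpr ⟨mem_filter.mpr ⟨j1.sub a, b⟩, q⟩)) a
    · have ez : zc W cl J (cl w) = zc W cl I (cl w) :=
        zc_eq (fun u hu => j2 u (hu ▸ mem_insert_self _ _))
      refine Or.inr ⟨J, w, U, W.filter (X x) \ I, wk J j1,
        fun u hu => j2 u (mem_insert_of_mem hu), (j2 w (mem_insert_self _ _)).mpr hw, xw, wS, j3,
        fun k hk => ?_, hQ, fun q hq => (mem_filter.mp (mem_sdiff.mp hq).1).2, ez ▸ j5⟩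
      rcases mem_insert.mp hk with e | e
      · rw [e, ez]
        omega
      · exact j4 k e

theorem one_eq {N : Finset V} (h : N.card ≤ 1) {u v : V} (a : u ∈ N) (b : v ∈ N) : u = v :=
  card_le_one.mp h u a v b

theorem Sel.add0 {I : Finset V} {S U : Finset ι} {L P : Finset V} (h : Sel W cl X I S U L P)
    (hU : ∀ k ∈ U, k ∉ S) {x : V} (xW : x ∈ W) (xI : x ∉ I) (xS : cl x ∈ S) (xL : x ∉ L)
    (hx : x ∈ P ∨ ∃ w ∈ I, X x w ∧ (cl w ∈ S ∨ cl w ∈ U)) :
    Sel W cl X I S U (insert x L) P := by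
  intro N hN
  obtain ⟨A, p⟩ := h N hN
  have xU : cl x ∉ U := fun q => hU _ q xS
  by_cases e : x ∈ N
  · have hl : L ⊆ A := p.all (fun u hu => by rw [one_eq hN hu e]; exact ⟨xU, xL⟩)
    refine ⟨A, fun a ha => ?_, p.one, ?_, fun q => absurd (mem_insert_self _ _) (q x e).2,
      fun a ha => ?_, fun z a b d f => ?_⟩
    · obtain ⟨p1, p2, p3⟩ := p.reg a ha
      exact ⟨p1, p2, p3.imp id mem_insert_of_mem⟩
    · refine card_le_one.mpr (fun a ha b hb => ?_)
      have k : ∀ a ∈ insert x L \ A, a = x := fun a ha =>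
        (mem_insert.mp (mem_sdiff.mp ha).1).resolve_right (fun q => (mem_sdiff.mp ha).2 (hl q))
      rw [k a ha, k b hb]
    · rcases p.ok a ha with q | q | ⟨w, q1, q2, q3, q4⟩
      · exact Or.inl q
      · exact Or.inr (Or.inl q)
      · exact Or.inr (Or.inr ⟨w, q1, q2, q3, q4.imp id mem_insert_of_mem⟩)
    · by_cases g : z = x
      · exact Or.inl (g ▸ e)
      · exact p.out z a b (d.imp id (fun q => (mem_insert.mp q).resolve_left g)) f
  · refine ⟨insert x A, fun a ha => ?_, fun k hk => ?_, ?_, fun q => ?_,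
      fun a ha => ?_, fun z a b d f => ?_⟩
    · rcases mem_insert.mp ha with g | g
      · rw [g]
        exact ⟨xW, xI, Or.inr (mem_insert_self _ _)⟩
      · obtain ⟨p1, p2, p3⟩ := p.reg a g
        exact ⟨p1, p2, p3.imp id mem_insert_of_mem⟩
    · exact le_trans (card_le_card (sdiff_subset_sdiff_right _ (subset_insert _ _))) (p.one k hk)
    · refine le_trans (card_le_card (fun a ha => ?_)) p.top
      obtain ⟨a1, a2⟩ := mem_sdiff.mp ha
      rw [mem_insert, not_or] at a2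
      exact mem_sdiff.mpr ⟨(mem_insert.mp a1).resolve_left a2.1, a2.2⟩
    · exact insert_subset_insert _
        (p.all (fun u hu => ⟨(q u hu).1, fun t => (q u hu).2 (mem_insert_of_mem t)⟩))
    · rcases mem_insert.mp ha with g | g
      · rw [g]
        rcases hx with q | q
        · exact Or.inl ⟨q, e⟩
        · exact Or.inr (Or.inl q)
      · rcases p.ok a g with q | q | ⟨w, q1, q2, q3, q4⟩
        · exact Or.inl q
        · exact Or.inr (Or.inl q)
        · refine Or.inr (Or.inr ⟨w, q1, q2, fun t => ?_, q4.imp id mem_insert_of_mem⟩)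
          rcases mem_insert.mp t with t | t
          · rw [t] at q4
            exact q4.elim xU xL
          · exact q3 t
    · rw [mem_insert, not_or] at f
      rcases p.out z a b (d.imp id (fun q => (mem_insert.mp q).resolve_left f.1)) f.2 with
        q | q | ⟨y, q1, q2⟩
      · exact Or.inl q
      · exact Or.inr (Or.inl q)
      · exact Or.inr (Or.inr ⟨y, mem_insert_of_mem q1, q2⟩)

theorem Sel.add1 (hs : ∀ u v, X u v → X v u) {I : Finset V} {S U U' : Finset ι}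
    {L P Q : Finset V} (h : Sel W cl X I S U L P) (hU : ∀ k ∈ U, k ∉ S)
    (hL : ∀ a ∈ L, cl a ∈ S) {x w : V} (xW : x ∈ W) (xI : x ∉ I) (xS : cl x ∈ S) (xL : x ∉ L)
    (wI : w ∈ I) (xw : X x w) (hT : ∀ k ∈ insert (cl w) U', k ∉ S ∧ k ∉ U) (hQ : Q.card ≤ 1)
    (xQ : ∀ q ∈ Q, X x q)
    (g : Sel W cl X I (insert (cl w) (S ∪ U)) U' (zc W cl I (cl w)) (P ∪ Q)) :
    Sel W cl X I S (U ∪ insert (cl w) U') (insert x L) P := by
  intro N hN
  obtain ⟨A, p⟩ := h N hN
  have xU : cl x ∉ U := fun q => hU _ q xS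
  have rT : ∀ a, (cl a ∈ U' ∨ a ∈ zc W cl I (cl w)) → cl a ∈ insert (cl w) U' := fun a q =>
    q.elim mem_insert_of_mem (fun t => by rw [(mem_zc.mp t).2.2]; exact mem_insert_self _ _)
  have dj : ∀ a, (cl a ∈ U ∨ a ∈ L) → cl a ∉ insert (cl w) U' := fun a q t =>
    q.elim (hT _ t).2 (fun s => (hT _ t).1 (hL a s))
  have xT : cl x ∉ insert (cl w) U' := fun t => (hT _ t).1 xS
  have xA : x ∉ A := fun t => (p.reg x t).2.2.elim xU xL
  have wT : cl w ∈ U ∪ insert (cl w) U' := mem_union_right _ (mem_insert_self _ _)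
  -- the parts common to both choices
  have core : ∀ M B E, Pick W cl X I (insert (cl w) (S ∪ U)) U' (zc W cl I (cl w)) (P ∪ Q) M B →
      (∀ a, a ∈ E ↔ a ∈ A ∨ a ∈ B ∨ (a = x ∧ x ∈ E)) →
      (∀ a ∈ B, a ∈ P ∪ Q → a ∉ M → (a ∈ P ∧ a ∉ N) ∨ (x ∉ E ∧ a ∈ Q)) →
      (∀ z ∈ M, z ∈ N ∨ (x ∈ E ∧ z ∈ Q)) → (x ∉ E → L ⊆ A) →
      ((∀ u ∈ N, cl u ∉ U ∪ insert (cl w) U' ∧ u ∉ insert x L) → x ∈ E) →
      Pick W cl X I S (U ∪ insert (cl w) U') (insert x L) P N E := by
    intro M B E b hE k1 k2 k3 k4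
    have AE : A ⊆ E := fun a t => (hE a).mpr (Or.inl t)
    have BE : B ⊆ E := fun a t => (hE a).mpr (Or.inr (Or.inl t))
    have bT : ∀ a ∈ B, cl a ∈ insert (cl w) U' := fun a t => rT a (b.reg a t).2.2
    refine ⟨fun a ha => ?_, fun k hk => ?_, ?_, fun q => ?_, fun a ha => ?_,
      fun z a1 a2 d f => ?_⟩
    · rcases (hE a).mp ha with t | t | t
      · obtain ⟨p1, p2, p3⟩ := p.reg a t
        exact ⟨p1, p2, p3.imp (mem_union_left _) mem_insert_of_mem⟩
      · exact ⟨(b.reg a t).1, (b.reg a t).2.1, Or.inl (mem_union_right _ (bT a t))⟩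
      · rw [t.1]
        exact ⟨xW, xI, Or.inr (mem_insert_self _ _)⟩
    · rcases mem_union.mp hk with t | t
      · exact le_trans (card_le_card (sdiff_subset_sdiff_right _ AE)) (p.one k t)
      · rcases mem_insert.mp t with t | t
        · rw [t]
          exact le_trans (card_le_card (sdiff_subset_sdiff_right _ BE)) b.top
        · exact le_trans (card_le_card (sdiff_subset_sdiff_right _ BE)) (b.one k t)
    · by_cases e : x ∈ E
      · refine le_trans (card_le_card (fun a ha => ?_)) p.top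
        obtain ⟨a1, a2⟩ := mem_sdiff.mp ha
        exact mem_sdiff.mpr ⟨(mem_insert.mp a1).resolve_left (fun t => a2 (t ▸ e)),
          fun t => a2 (AE t)⟩
      · refine card_le_one.mpr (fun a ha b hb => ?_)
        have k : ∀ a ∈ insert x L \ E, a = x := fun a ha =>
          (mem_insert.mp (mem_sdiff.mp ha).1).resolve_right
            (fun q => (mem_sdiff.mp ha).2 (AE (k3 e q)))
        rw [k a ha, k b hb]
    · refine insert_subset (k4 q) (subset_trans (p.all (fun u hu => ⟨fun t => ?_, fun t => ?_⟩)) AE)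
      · exact (q u hu).1 (mem_union_left _ t)
      · exact (q u hu).2 (mem_insert_of_mem t)
    · rcases (hE a).mp ha with t | t | t
      · rcases p.ok a t with q | ⟨v, q1, q2, q3⟩ | ⟨v, q1, q2, q3, q4⟩
        · exact Or.inl q
        · exact Or.inr (Or.inl ⟨v, q1, q2, q3.imp id (mem_union_left _)⟩)
        · refine Or.inr (Or.inr ⟨v, q1, q2, fun s => ?_,
            q4.imp (mem_union_left _) mem_insert_of_mem⟩)
          rcases (hE v).mp s with s | s | s
          · exact q3 s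
          · exact dj v q4 (bT v s)
          · rw [s.1] at q4
            exact q4.elim xU xL
      · rcases b.ok a t with q | ⟨v, q1, q2, q3⟩ | ⟨v, q1, q2, q3, q4⟩
        · rcases k1 a t q.1 q.2 with s | s
          · exact Or.inl s
          · exact Or.inr (Or.inr ⟨x, xW, hs _ _ (xQ a s.2), s.1, Or.inr (mem_insert_self _ _)⟩)
        · refine Or.inr (Or.inl ⟨v, q1, q2, ?_⟩)
          rcases q3 with s | s
          · rcases mem_insert.mp s with s | s
            · exact Or.inr (s ▸ wT)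
            · exact (mem_union.mp s).imp id (mem_union_left _)
          · exact Or.inr (mem_union_right _ (mem_insert_of_mem s))
        · refine Or.inr (Or.inr ⟨v, q1, q2, fun s => ?_, Or.inl (mem_union_right _ (rT v q4))⟩)
          rcases (hE v).mp s with s | s | s
          · exact dj v (p.reg v s).2.2 (rT v q4)
          · exact q3 s
          · exact xT (s.1 ▸ rT v q4)
      · rw [t.1]
        exact Or.inr (Or.inl ⟨w, wI, xw, Or.inr wT⟩)
    · by_cases e : z = x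
      · rw [e]
        exact Or.inr (Or.inl ⟨w, wI, xw, wT⟩)
      by_cases o : cl z ∈ insert (cl w) U'
      · have o2 : cl z ∈ U' ∨ z ∈ zc W cl I (cl w) :=
          (mem_insert.mp o).symm.imp id (fun t => mem_zc.mpr ⟨a1, a2, t⟩)
        rcases b.out z a1 a2 o2 (fun t => f (BE t)) with q | ⟨v, q1, q2, q3⟩ |
          ⟨y, p1, p2, v, q1, q2, q3⟩
        · rcases k2 z q with s | s
          · exact Or.inl s
          · exact Or.inr (Or.inr ⟨x, s.1, xQ z s.2, w, wI, xw, wT⟩)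
        · exact Or.inr (Or.inl ⟨v, q1, q2, mem_union_right _ (mem_insert_of_mem q3)⟩)
        · exact Or.inr (Or.inr ⟨y, BE p1, p2, v, q1, q2,
            mem_union_right _ (mem_insert_of_mem q3)⟩)
      · have o2 : cl z ∈ U ∨ z ∈ L :=
          d.imp (fun t => (mem_union.mp t).resolve_right o)
            (fun t => (mem_insert.mp t).resolve_left e)
        rcases p.out z a1 a2 o2 (fun t => f (AE t)) with q | ⟨v, q1, q2, q3⟩ |
          ⟨y, p1, p2, v, q1, q2, q3⟩
        · exact Or.inl q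
        · exact Or.inr (Or.inl ⟨v, q1, q2, mem_union_left _ q3⟩)
        · exact Or.inr (Or.inr ⟨y, AE p1, p2, v, q1, q2, mem_union_left _ q3⟩)
  by_cases e : ∃ u ∈ N, cl u ∈ insert (cl w) U' ∨ u = x
  · obtain ⟨u, hu, e⟩ := e
    obtain ⟨B, b⟩ := g N hN
    have xE : x ∉ A ∪ B := fun t =>
      (mem_union.mp t).elim xA (fun s => xT (rT x (b.reg x s).2.2))
    refine ⟨A ∪ B, core N B _ b (fun a => ?_) (fun a _ q1 q2 => ?_) (fun z q => Or.inl q)
      (fun _ => p.all (fun v hv => ?_)) (fun q => ?_)⟩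
    · simp [xE]
    · exact (mem_union.mp q1).imp (fun t => ⟨t, q2⟩) (fun t => ⟨xE, t⟩)
    · rw [one_eq hN hv hu]
      rcases e with e | e
      · exact ⟨(hT _ e).2, fun t => (hT _ e).1 (hL u t)⟩
      · rw [e]
        exact ⟨xU, xL⟩
    · rcases e with e | e
      · exact absurd (mem_union_right _ e) (q u hu).1
      · exact absurd (e ▸ mem_insert_self _ _) (q u hu).2
  · obtain ⟨B, b⟩ := g Q hQ
    refine ⟨insert x (A ∪ B), core Q B _ b (fun a => ?_) (fun a t q1 q2 => Or.inl ?_)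
      (fun z q => Or.inr ⟨mem_insert_self _ _, q⟩)
      (fun q => absurd (mem_insert_self _ _) q) (fun _ => mem_insert_self _ _)⟩
    · simp only [mem_insert, mem_union, true_or, and_true]
      tauto
    · exact ⟨(mem_union.mp q1).resolve_right q2,
        fun s => e ⟨a, s, Or.inl (rT a (b.reg a t).2.2)⟩⟩

theorem members (hs : ∀ u v, X u v → X v u) (hi : ∀ v, ¬ X v v)
    (hd : ∀ v ∈ W, (W.filter (X v)).card ≤ 2) (hc : ∀ k, r + 1 ≤ c k) {S : Finset ι} {K : ι}
    (hK : K ∈ S) {P I : Finset V} (h : St W cl X c P I)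
    (H : ∀ S1, S ⊆ S1 → ∀ k ∈ W.image cl, k ∉ S1 → Dd W cl X c r (insert k S1)) :
    ∀ L : Finset V, L ⊆ zc W cl I K → Rr W cl X c S K P I ∨ Cc W cl X c r S L P I := by
  intro L
  induction L using Finset.induction_on with
  | empty =>
    intro _
    refine Or.inr ⟨I, ∅, h, fun _ _ => Iff.rfl, by simp, by simp, fun N _ => ⟨∅, ?_⟩⟩
    constructor <;> simp
  | insert x L xL ih =>
    intro hl
    rcases ih (subset_trans (subset_insert _ _) hl) with q | ⟨J, U, j1, j2, j3, j4, j5⟩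
    · exact Or.inl q
    obtain ⟨xW, xI, xK⟩ := mem_zc.mp (hl (mem_insert_self _ _))
    have xS : cl x ∈ S := xK ▸ hK
    have xJ : x ∉ J := fun q => xI ((j2 x xS).mp q)
    have hL : ∀ a ∈ L, cl a ∈ S := fun a ha => by
      rw [(mem_zc.mp (hl (mem_insert_of_mem ha))).2.2]
      exact hK
    by_cases hx : x ∈ P ∨ ∃ w ∈ J, X x w ∧ (cl w ∈ S ∨ cl w ∈ U)
    · exact Or.inr ⟨J, U, j1, j2, j3, j4, j5.add0 j3 xW xJ xS xL hx⟩
    rw [not_or] at hx
    rcases free hd hc (S ∪ U) (H _ subset_union_left) P xW _ J j1 le_rfl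
      (fun w a b q => hx.2 ⟨w, a, b, mem_union.mp q⟩) with ⟨M, m1, m2, m3⟩ |
      ⟨M, w, U', Q, m1, m2, m3, m4, m5, m6, m7, m8, m9, m10⟩
    · have sb : ∀ k, zc W cl (insert x M) k ⊆ zc W cl M k := fun k u hu => by
        rw [mem_zc] at hu ⊢
        exact ⟨hu.1, fun q => hu.2.1 (mem_insert_of_mem q), hu.2.2⟩
      refine Or.inl ⟨insert x M, ⟨insert_subset xW m1.sub, fun u hu v hv => ?_,
        fun k => le_trans (card_le_card (sb k)) (m1.cap k), fun u hu q => ?_⟩,
        fun u a b => ?_, ?_⟩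
      · rcases mem_insert.mp hu with a | a <;> rcases mem_insert.mp hv with b | b
        · rw [a, b]
          exact hi x
        · rw [a]
          exact m3 v b
        · rw [b]
          exact fun q => m3 u a (hs _ _ q)
        · exact m1.ind u a v b
      · rcases mem_insert.mp q with a | a
        · exact hx.1 (a ▸ hu)
        · exact m1.off u hu a
      · have : u ≠ x := fun e => b (e ▸ xK)
        rw [← j2 u a, ← m2 u (mem_union_left _ a)]
        simp [this]
      · refine card_lt_card ⟨fun u hu => ?_, fun q => ?_⟩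
        · have := mem_zc.mp (sb K hu)
          have uS : cl u ∈ S := this.2.2 ▸ hK
          exact mem_zc.mpr ⟨this.1, fun q => this.2.1
            ((m2 u (mem_union_left _ uS)).mpr ((j2 u uS).mpr q)), this.2.2⟩
        · exact (mem_zc.mp (q (hl (mem_insert_self _ _)))).2.1 (mem_insert_self _ _)
    · have hT : ∀ k ∈ insert (cl w) U', k ∉ S ∧ k ∉ U := by
        intro k hk
        rw [← not_or, ← mem_union]
        rcases mem_insert.mp hk with e | e
        · exact e ▸ m5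
        · exact fun q => m6 k e (mem_insert_of_mem q)
      have mv : Sel W cl X M S U L P := fun N hN => by
        obtain ⟨A, p⟩ := j5 N hN
        exact ⟨A, p.move hL (fun u q => m2 u (mem_union.mpr q))⟩
      refine Or.inr ⟨M, U ∪ insert (cl w) U', m1,
        fun u a => (m2 u (mem_union_left _ a)).trans (j2 u a), fun k hk => ?_, fun k hk => ?_,
        mv.add1 hs j3 hL xW (fun q => xJ ((m2 x (mem_union_left _ xS)).mp q)) xS xL m3 m4 hT
          m8 m9 m10⟩
      · rcases mem_union.mp hk with e | e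
        · exact j3 k e
        · exact (hT k e).1
      · rcases mem_union.mp hk with e | e
        · rw [zc_eq (I := J) (fun u hu => m2 u (mem_union_right _ (by rw [hu]; exact e)))]
          exact j4 k e
        · exact m7 k e

theorem dfs (hs : ∀ u v, X u v → X v u) (hi : ∀ v, ¬ X v v)
    (hd : ∀ v ∈ W, (W.filter (X v)).card ≤ 2) (hc : ∀ k, r + 1 ≤ c k) :
    ∀ n : ℕ, ∀ S : Finset ι, (W.image cl \ S).card ≤ n → Dd W cl X c r S := by
  intro n
  induction n with
  | zero =>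
    intro S hn K hK P I h
    refine members hs hi hd hc hK h (fun S1 a k b d => ?_) _ subset_rfl
    have := card_pos.mpr ⟨k, mem_sdiff.mpr ⟨b, fun q => d (a q)⟩⟩
    omega
  | succ n ih =>
    intro S hn K hK P I h
    refine members hs hi hd hc hK h (fun S1 a k b d => ih _ ?_) _ subset_rfl
    have s1 : W.image cl \ insert k S1 ⊆ (W.image cl \ S).erase k := by
      intro j hj
      obtain ⟨p, q⟩ := mem_sdiff.mp hj
      rw [mem_insert, not_or] at q
      exact mem_erase.mpr ⟨q.1, mem_sdiff.mpr ⟨p, fun t => q.2 (a t)⟩⟩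
    have s2 := card_le_card s1
    rw [card_erase_of_mem (mem_sdiff.mpr ⟨b, fun q => d (a q)⟩)] at s2
    omega

/-- The blocked outcome: an independent set `I`, a root class `K`, further classes `U` and a
selection `A` of vertices outside `I`. -/
structure Blk (W : Finset V) (cl : V → ι) (X : V → V → Prop) (r : ℕ) (I A : Finset V) (K : ι)
    (U : Finset ι) : Prop where
  sub : I ⊆ W
  ind : ∀ u ∈ I, ∀ v ∈ I, ¬ X u v
  root : K ∉ U
  big : r + 2 ≤ (zc W cl I K).card
  all : zc W cl I K ⊆ A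
  load : ∀ k ∈ U, (zc W cl I k).card = r + 1
  one : ∀ k ∈ U, (zc W cl I k \ A).card ≤ 1
  reg : ∀ a ∈ A, a ∈ W ∧ a ∉ I ∧ cl a ∈ insert K U
  ok : ∀ a ∈ A, ∃ w ∈ W, X a w ∧ w ∉ A ∧ cl w ∈ insert K U
  out : ∀ z ∈ W, z ∉ I → cl z ∈ U → z ∉ A → (∃ w ∈ I, X z w ∧ cl w ∈ U) ∨
    (∃ y ∈ A, X y z ∧ ∃ w ∈ I, X y w ∧ cl w ∈ U)

def Cov (W : Finset V) (cl : V → ι) (X : V → V → Prop) (r : ℕ) : Prop :=
  ∃ I ⊆ W, (∀ u ∈ I, ∀ v ∈ I, ¬ X u v) ∧ ∀ k, (zc W cl I k).card ≤ r + 1

theorem root (hs : ∀ u v, X u v → X v u) (hi : ∀ v, ¬ X v v)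
    (hd : ∀ v ∈ W, (W.filter (X v)).card ≤ 2) (K : ι) : ∀ n : ℕ, ∀ I,
      St W cl X (fun k => if k = K then W.card + r + 1 else r + 1) ∅ I →
      (zc W cl I K).card ≤ n → Cov W cl X r ∨ ∃ I A K U, Blk W cl X r I A K U := by
  intro n
  induction n using Nat.strong_induction_on with
  | _ n ih =>
    intro I h hn
    by_cases ld : (zc W cl I K).card ≤ r + 1
    · refine Or.inl ⟨I, h.sub, h.ind, fun k => ?_⟩
      by_cases e : k = K
      · exact e ▸ ld
      · simpa [e] using h.cap k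
    rcases dfs (r := r) hs hi hd (fun k => by split_ifs <;> omega) _ {K} le_rfl K
      (mem_singleton_self _) _ I h with ⟨J, j1, _, j3⟩ | ⟨J, U, j1, j2, j3, j4, j5⟩
    · exact ih _ (by omega) J j1 le_rfl
    obtain ⟨A, p⟩ := j5 ∅ (by simp)
    have ez : zc W cl J K = zc W cl I K := zc_eq (fun u hu => j2 u (by simp [hu]))
    have hl : zc W cl I K ⊆ A := p.all (by simp)
    have rg : ∀ a, (cl a ∈ U ∨ a ∈ zc W cl I K) → cl a ∈ insert K U := fun a q =>
      q.elim mem_insert_of_mem (fun t => by rw [(mem_zc.mp t).2.2]; exact mem_insert_self _ _)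
    refine Or.inr ⟨J, A, K, U, j1.sub, j1.ind, fun q => j3 K q (mem_singleton_self _),
      by rw [ez]; omega, ez ▸ hl, fun k hk => le_antisymm ?_ (j4 k hk), p.one,
      fun a ha => ⟨(p.reg a ha).1, (p.reg a ha).2.1, rg a (p.reg a ha).2.2⟩, fun a ha => ?_,
      fun z a b d e => ?_⟩
    · have e : k ≠ K := fun e => j3 k hk (by simp [e])
      simpa [e] using j1.cap k
    · rcases p.ok a ha with q | ⟨w, q1, q2, q3⟩ | ⟨w, q1, q2, q3, q4⟩
      · simp at q
      · refine ⟨w, j1.sub q1, q2, fun t => (p.reg w t).2.1 q1, ?_⟩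
        rcases q3 with s | s
        · rw [mem_singleton.mp s]
          exact mem_insert_self _ _
        · exact mem_insert_of_mem s
      · exact ⟨w, q1, q2, q3, rg w q4⟩
    · rcases p.out z a b (Or.inl d) e with q | q
      · simp at q
      · exact q

/-- Dichotomy, full form. -/
theorem dich (r : ℕ) (cl : V → ι) (X : V → V → Prop) (hs : ∀ u v, X u v → X v u)
    (hi : ∀ v, ¬ X v v) : ∀ W : Finset V, (∀ v ∈ W, (W.filter (X v)).card ≤ 2) →
      Cov W cl X r ∨ ∃ I A K U, Blk W cl X r I A K U := by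
  intro W
  induction W using Finset.strongInduction with
  | H W ih =>
    intro hd
    rcases W.eq_empty_or_nonempty with e | ⟨x, hx⟩
    · exact Or.inl ⟨∅, empty_subset _, by simp, fun k => by simp [e, zc]⟩
    have sb : W.filter (fun u => cl u ≠ cl x) ⊆ W := filter_subset _ _
    have ez : ∀ I k, k ≠ cl x → zc (W.filter (fun u => cl u ≠ cl x)) cl I k = zc W cl I k := by
      intro I k hk
      ext u
      simp only [mem_zc, mem_filter]
      exact ⟨fun q => ⟨q.1.1, q.2⟩, fun q => ⟨⟨q.1, fun t => hk (q.2.2 ▸ t)⟩, q.2⟩⟩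
    have nz : ∀ I k, 0 < (zc (W.filter (fun u => cl u ≠ cl x)) cl I k).card → k ≠ cl x := by
      intro I k hk
      obtain ⟨u, hu⟩ := card_pos.mp hk
      rw [mem_zc, mem_filter] at hu
      exact hu.2.2 ▸ hu.1.2
    rcases ih (W.filter (fun u => cl u ≠ cl x)) ⟨sb, fun q => by simpa using q hx⟩
      (fun v hv => le_trans (card_le_card (filter_subset_filter _ sb)) (hd v (sb hv))) with
      ⟨I, i1, i2, i3⟩ | ⟨I, A, K, U, b⟩
    · refine root hs hi hd (cl x) _ I ⟨subset_trans i1 sb, i2, fun k => ?_, by simp⟩ le_rfl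
      by_cases e : k = cl x
      · have : (zc W cl I k).card ≤ W.card := card_le_card (filter_subset _ _)
        simp only [e, if_true] at this ⊢
        omega
      · simp only [e, if_false]
        rw [← ez I k e]
        exact i3 k
    · have eK : K ≠ cl x := nz I K (by have := b.big; omega)
      have eU : ∀ k ∈ U, k ≠ cl x := fun k hk => nz I k (by have := b.load k hk; omega)
      refine Or.inr ⟨I, A, K, U, subset_trans b.sub sb, b.ind, b.root, ez I K eK ▸ b.big,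
        ez I K eK ▸ b.all, fun k hk => ez I k (eU k hk) ▸ b.load k hk,
        fun k hk => ez I k (eU k hk) ▸ b.one k hk,
        fun a ha => ⟨sb (b.reg a ha).1, (b.reg a ha).2⟩, fun a ha => ?_,
        fun z a d e f => b.out z (mem_filter.mpr ⟨a, eU _ e⟩) d e f⟩
      obtain ⟨w, q1, q2⟩ := b.ok a ha
      exact ⟨w, sb q1, q2⟩

theorem Blk.sel {I A : Finset V} {K : ι} {U : Finset ι} (b : Blk W cl X r I A K U) :
    ∀ k ∈ insert K U, r ≤ (A.filter (fun u => cl u = k)).card := by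
  intro k hk
  have s : zc W cl I k ∩ A ⊆ A.filter (fun u => cl u = k) := fun u hu =>
    mem_filter.mpr ⟨(mem_inter.mp hu).2, (mem_zc.mp (mem_inter.mp hu).1).2.2⟩
  have s1 := card_le_card s
  have s2 := card_sdiff_add_card_inter (zc W cl I k) A
  rcases mem_insert.mp hk with e | e
  · have := b.big
    have t : zc W cl I K \ A = ∅ := sdiff_eq_empty_iff_subset.mpr b.all
    rw [e] at s1 s2 ⊢
    rw [t] at s2
    simp at s2
    omega
  · have := b.load k e
    have := b.one k e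
    omega

/-- Dichotomy, short form. -/
theorem dich_short (r : ℕ) (W : Finset V) (cl : V → ι) (X : V → V → Prop)
    (hs : ∀ u v, X u v → X v u) (hi : ∀ v, ¬ X v v)
    (hd : ∀ v ∈ W, (W.filter (X v)).card ≤ 2) :
    (∃ Z ⊆ W, (∀ u ∈ W, ∀ v ∈ W, X u v → u ∈ Z ∨ v ∈ Z) ∧
      ∀ k, (Z.filter (fun u => cl u = k)).card ≤ r + 1) ∨
    (∃ (T : Finset ι) (A : Finset V), T.Nonempty ∧ (∀ a ∈ A, a ∈ W ∧ cl a ∈ T) ∧
      (∀ k ∈ T, r ≤ (A.filter (fun u => cl u = k)).card) ∧
      ∀ a ∈ A, ∃ w ∈ W, X a w ∧ w ∉ A ∧ cl w ∈ T) := by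
  rcases dich r cl X hs hi W hd with ⟨I, _, i2, i3⟩ | ⟨I, A, K, U, b⟩
  · refine Or.inl ⟨W \ I, sdiff_subset, fun u hu v hv q => ?_, fun k => ?_⟩
    · by_contra n
      rw [not_or, mem_sdiff, mem_sdiff] at n
      exact i2 u (by tauto) v (by tauto) q
    · refine le_trans (card_le_card (fun u hu => ?_)) (i3 k)
      obtain ⟨a, b⟩ := mem_filter.mp hu
      exact mem_zc.mpr ⟨(mem_sdiff.mp a).1, (mem_sdiff.mp a).2, b⟩
  · exact Or.inr ⟨insert K U, A, insert_nonempty _ _,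
      fun a ha => ⟨(b.reg a ha).1, (b.reg a ha).2.2⟩, b.sel, b.ok⟩

end Pool.Agent.Lib.MP_12eaff_co.Dich
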