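import Pool.Agent.Lib.MP_12eaff_co.Sel4a
import Pool.Agent.Lib.MP_12eaff_co.Slc

set_option autoImplicit false

namespace Pool.Agent.Lib.MP_12eaff_co.BK

open Finset
open scoped Classical

variable {V : Type} [Fintype V] {G : SimpleGraph V} {D : ℕ}

theorem select (h : MC G D) (hD : 8 ≤ D) {T : Finset (Finset V)} {H : Finset V} {pt : V → V}
    (e : HE G D T H pt) {c : V → ℕ} (c2 : ∀ v, c v < D ↔ v ∉ T.biUnion id)
    (nb : ∀ S γ, ¬ BAD T H pt c S γ) : Cert T H pt c := by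
  have ce : ∀ K ∈ T, ∀ v ∈ K, clOf T v = K := fun K k v l => clOf_eq h hD e.hT k l
  have cw : ∀ v ∈ H, clOf T v ∈ T ∧ v ∈ clOf T v := fun v l => by
    obtain ⟨K, k1, k2⟩ := mem_biUnion.1 (e.hH l)
    rw [ce K k1 v k2]
    exact ⟨k1, k2⟩
  have c3 : ∀ K ∈ T, (H.filter fun v => clOf T v = K).card = 3 := fun K k => by
    rw [← e.h3 K k]
    congr 1
    ext v
    rw [mem_filter, mem_inter]
    exact ⟨fun q => ⟨q.2 ▸ (cw v q.1).2, q.1⟩, fun q => ⟨q.2, ce _ k v q.1⟩⟩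
  obtain ⟨K0, k0⟩ := e.ne
  obtain ⟨w, w1, w2⟩ := exists_mem_notMem_of_card_lt_card
    (show (K0 ∩ H).card < K0.card by rw [e.h3 K0 k0, (e.hT K0 k0).2]; omega)
  obtain ⟨A, sA, m, β, o1, o2⟩ := Slc.select (D := D) (cl := clOf T) (g := c) (w := w)
    (not_lt.mp fun q => (c2 w).mp q (mem_biUnion.2 ⟨K0, k0, w1⟩)) H pt
    ⟨e.inv, fun u l q => by
      have := (e.adj u l (Or.inr (q.symm ▸ l))).1
      rw [q] at this
      exact this.ne rfl, fun u l => Or.inr (by convert c3 _ (cw u l).1)⟩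
    (fun q => w2 (mem_inter.mpr ⟨w1, q⟩))
    (fun S y ⟨b1, b2, b4⟩ => by
      have b3 : (S.filter fun k => (H.filter fun v => clOf T v = k).card = 3).card <
          (H.filter fun u => clOf T u ∈ S ∧ pt u ∉ H).card := by convert b4
      have out : ∀ u ∈ H, clOf T u ∈ S → pt u ∉ H → pt u ∉ T.biUnion id ∧ c (pt u) = y :=
        fun u l p q => by
          have := ((b2 u l p).resolve_left fun f => q f.1).2
          exact ⟨(c2 _).mp (this ▸ b1), this⟩
      obtain ⟨u, hu⟩ := card_pos.mp (lt_of_le_of_lt (Nat.zero_le _) b3)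
      refine nb (S ∩ T) y ⟨inter_subset_right, ⟨_, mem_inter.mpr ⟨(mem_filter.mp hu).2.1,
        (cw u (mem_filter.mp hu).1).1⟩⟩, fun K k v l => ?_,
        lt_of_le_of_lt (card_le_card fun K k => ?_) (lt_of_lt_of_le b3 (card_le_card fun v l => ?_))⟩
      · obtain ⟨l1, l2⟩ := mem_inter.mp l
        have p : clOf T v ∈ S := by
          rw [ce K (mem_inter.mp k).2 v l1]
          exact (mem_inter.mp k).1
        rcases b2 v l2 p with f | f
        · exact Or.inl ⟨f.1, mem_inter.mpr ⟨f.2, (cw _ f.1).1⟩⟩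
        · exact Or.inr (out v l2 p f.1)
      · exact mem_filter.mpr ⟨(mem_inter.mp k).1, c3 K (mem_inter.mp k).2⟩
      · obtain ⟨l1, l2, l3⟩ := mem_filter.mp l
        exact mem_filter.mpr ⟨l1, mem_inter.mpr ⟨l2, (cw v l1).1⟩, (out v l1 l2 l3).1⟩)
  refine ⟨A, sA, m, β, fun K k => ?_, fun K k u l uK => ?_, fun u l => (o2 u l).2.2.2.1,
    fun u l q => (o2 u l).2.2.2.2.2.1 q,
    fun u l q => (o2 u l).2.2.2.2.2.2 (fun t => q (e.hH t)) ((c2 _).mpr q)⟩
  · obtain ⟨u, hu⟩ := card_pos.mp (show 0 < (K ∩ H).card by rw [e.h3 K k]; omega)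
    obtain ⟨a, a1, a2⟩ := o1 u (mem_inter.mp hu).2
    rw [ce K k u (mem_inter.mp hu).1] at a2
    exact ⟨a, a1, a2 ▸ (cw a (sA a1)).2⟩
  · obtain ⟨p1, p2, p3, -, p5, -⟩ := o2 u l
    have f := ce K k u uK
    exact ⟨p1, by rw [← f, ← p2]; exact (cw _ (sA p1)).2, p3,
      fun v t vK => p5 v t ((ce K k v vK).trans f.symm)⟩

end Pool.Agent.Lib.MP_12eaff_co.BK
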