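import Mathlib

set_option autoImplicit false

namespace Pool.Agent.Lib.MP_12eaff_co.Ker

open Finset
open scoped Classical

variable {V : Type} {r s : V → V → Prop}

/-- below every vertex there is a sink of a transitive irreflexive relation -/
theorem sink (tr : ∀ a b c, r a b → r b c → r a c) (ir : ∀ a, ¬ r a a) (U : Finset V) {v : V}
    (hv : v ∈ U) : ∃ a ∈ U, (a = v ∨ r v a) ∧ ∀ b ∈ U, ¬ r a b := by
  obtain ⟨a, ha, hm⟩ := exists_min_image (U.filter fun a => a = v ∨ r v a)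
    (fun a => (U.filter (r a)).card) ⟨v, by simp [hv]⟩
  obtain ⟨h1, h2⟩ := mem_filter.1 ha
  refine ⟨a, h1, h2, fun b hb hab => ?_⟩
  refine (hm b (mem_filter.2 ⟨hb, .inr (h2.elim (fun e => e ▸ hab) fun e => tr _ _ _ e hab)⟩)).not_gt
    (card_lt_card ⟨fun x hx => ?_, fun h => ?_⟩)
  · exact mem_filter.2 ⟨(mem_filter.1 hx).1, tr _ _ _ hab (mem_filter.1 hx).2⟩
  · exact ir b (mem_filter.1 (h (mem_filter.2 ⟨hb, hab⟩))).2

/-- a union of two transitive irreflexive relations has a kernel -/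
theorem kernel (tr : ∀ a b c, r a b → r b c → r a c) (ir : ∀ a, ¬ r a a)
    (ts : ∀ a b c, s a b → s b c → s a c) (is : ∀ a, ¬ s a a) (U : Finset V) :
    ∃ K ⊆ U, (∀ a ∈ K, ∀ b ∈ K, ¬ (r a b ∨ s a b)) ∧
      ∀ v ∈ U, v ∉ K → ∃ k ∈ K, r v k ∨ s v k := by
  induction U using Finset.strongInduction with
  | H U ih =>
  by_cases h : ∃ a ∈ U, ∃ b ∈ U, (∀ x ∈ U, ¬ r b x) ∧ (∀ x ∈ U, ¬ r a x) ∧ s a b
  · obtain ⟨a, ha, b, hb, h1, -, h3⟩ := h
    obtain ⟨K, k1, k2, k3⟩ := ih (U.erase a) (erase_ssubset ha)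
    refine ⟨K, k1.trans (erase_subset _ _), k2, fun v hv hk => ?_⟩
    by_cases e : v = a
    · subst e
      by_cases hbK : b ∈ K
      · exact ⟨b, hbK, .inr h3⟩
      · obtain ⟨k, x, y⟩ := k3 b (mem_erase.2 ⟨fun e => is _ (e ▸ h3), hb⟩) hbK
        exact ⟨k, x, .inr (ts _ _ _ h3 (y.resolve_left (h1 k (mem_of_mem_erase (k1 x)))))⟩
    · exact k3 v (mem_erase.2 ⟨e, hv⟩) hk
  · refine ⟨U.filter fun a => ∀ x ∈ U, ¬ r a x, filter_subset _ _, fun a ha b hb k => ?_,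
      fun v hv hk => ?_⟩
    · rw [mem_filter] at ha hb
      exact k.elim (ha.2 b hb.1) fun k => h ⟨a, ha.1, b, hb.1, hb.2, ha.2, k⟩
    · obtain ⟨a, a1, a2, a3⟩ := sink tr ir U hv
      have : a ∈ U.filter fun a => ∀ x ∈ U, ¬ r a x := mem_filter.2 ⟨a1, a3⟩
      exact ⟨a, this, .inl (a2.resolve_left fun e => hk (e ▸ this))⟩

/-- list colouring of a kernel perfect orientation -/
theorem col_of_kernel {R : V → V → Prop}
    (ker : ∀ U : Finset V, ∃ K ⊆ U, (∀ a ∈ K, ∀ b ∈ K, ¬ R a b) ∧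
      ∀ v ∈ U, v ∉ K → ∃ k ∈ K, R v k) (U : Finset V) :
    ∀ L : V → Finset ℕ, (∀ v ∈ U, (U.filter (R v)).card < (L v).card) →
      ∃ c : V → ℕ, (∀ v ∈ U, c v ∈ L v) ∧ ∀ u ∈ U, ∀ v ∈ U, R u v → c u ≠ c v := by
  induction U using Finset.strongInduction with
  | H U ih =>
  intro L hL
  rcases U.eq_empty_or_nonempty with rfl | ⟨v, hv⟩
  · exact ⟨fun _ => 0, by simp, by simp⟩
  obtain ⟨γ, hγ⟩ := card_pos.1 ((Nat.zero_le _).trans_lt (hL v hv))
  obtain ⟨K, k1, k2, k3⟩ := ker (U.filter fun a => γ ∈ L a)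
  have kU : K ⊆ U := k1.trans (filter_subset _ _)
  have ne : K.Nonempty := by
    by_contra h
    obtain ⟨k, hk, -⟩ := k3 v (mem_filter.2 ⟨hv, hγ⟩) fun x => h ⟨v, x⟩
    exact h ⟨k, hk⟩
  obtain ⟨c, c1, c2⟩ := ih (U \ K) (sdiff_ssubset kU ne) (fun a => (L a).erase γ) fun a ha => by
    obtain ⟨a1, a2⟩ := mem_sdiff.1 ha
    have := hL a a1
    by_cases h : γ ∈ L a
    · obtain ⟨k, x, y⟩ := k3 a (mem_filter.2 ⟨a1, h⟩) a2
      have := card_lt_card (s := (U \ K).filter (R a)) (t := U.filter (R a))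
        ⟨filter_subset_filter _ sdiff_subset, fun z =>
          (mem_sdiff.1 (mem_filter.1 (z (mem_filter.2 ⟨kU x, y⟩))).1).2 x⟩
      rw [card_erase_of_mem h]
      omega
    · rw [erase_eq_of_notMem h]
      exact (card_le_card (filter_subset_filter _ sdiff_subset)).trans_lt this
  refine ⟨fun a => if a ∈ K then γ else c a, fun a ha => ?_, fun a ha b hb k => ?_⟩
  · dsimp only
    split_ifs with h
    · exact (mem_filter.1 (k1 h)).2
    · exact mem_of_mem_erase (c1 a (mem_sdiff.2 ⟨ha, h⟩))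
  · dsimp only
    split_ifs with x y y
    · exact absurd k (k2 a x b y)
    · exact (ne_of_mem_erase (c1 b (mem_sdiff.2 ⟨hb, y⟩))).symm
    · exact ne_of_mem_erase (c1 a (mem_sdiff.2 ⟨ha, x⟩))
    · exact c2 a (mem_sdiff.2 ⟨ha, x⟩) b (mem_sdiff.2 ⟨hb, y⟩) k

/-- lists longer than the out-degrees in a union of two transitive orientations suffice -/
theorem col_two (tr : ∀ a b c, r a b → r b c → r a c) (ir : ∀ a, ¬ r a a)
    (ts : ∀ a b c, s a b → s b c → s a c) (is : ∀ a, ¬ s a a) (U : Finset V) (L : V → Finset ℕ)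
    (hL : ∀ v ∈ U, (U.filter fun w => r v w ∨ s v w).card < (L v).card) :
    ∃ c : V → ℕ, (∀ v ∈ U, c v ∈ L v) ∧ ∀ u ∈ U, ∀ v ∈ U, r u v ∨ s u v → c u ≠ c v :=
  col_of_kernel (R := fun a b => r a b ∨ s a b) (kernel tr ir ts is) U L
    fun v hv => by convert hL v hv

end Pool.Agent.Lib.MP_12eaff_co.Ker
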