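import Mathlib
import Pool.Agent.Lib.MP_12eaff_co.Ker

set_option autoImplicit false

namespace Pool.Agent.Lib.MP_12eaff_co.Ker

open Finset
open scoped Classical

variable {V ι : Type} (cl : V → ι) (pos : V → ℕ) (A : V → V → Prop)

/-- Arcs: downwards inside a class, or a cross arc. -/
def Arr (u v : V) : Prop := (cl u = cl v ∧ pos v < pos u) ∨ A u v

/-- Systems of pointers. -/
def Pt (S K : Finset V) : Prop := (∀ a ∈ K, ∀ b ∈ K, ¬ A a b ∧ (cl a = cl b → a = b)) ∧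
  ∀ a ∈ K, ∀ y ∈ S, A a y → ¬ A y a → ∃ k ∈ K, cl y = cl k ∧ pos k < pos y

variable {cl pos A}

theorem kernel_gen (rk : V → ℕ) (ir : ∀ u, ¬ A u u) (hr : ∀ u v, A u v → ¬ A v u → rk v < rk u)
    (tr : ∀ v y k, A v y → ¬ A y v → A y k → Arr cl pos A v k) (S : Finset V)
    (inj : ∀ u ∈ S, ∀ v ∈ S, cl u = cl v → pos u = pos v → u = v) :
    ∃ K ⊆ S, (∀ a ∈ K, ∀ b ∈ K, ¬ Arr cl pos A a b) ∧
      ∀ v ∈ S, v ∉ K → ∃ k ∈ K, Arr cl pos A v k := by
  obtain ⟨K, hK, hm⟩ := exists_max_image (S.powerset.filter (Pt cl pos A S))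
    (fun K => ∑ k ∈ K, (S.sup pos + 1 - pos k)) ⟨∅, by simp [Pt]⟩
  obtain ⟨k0, k1, k2⟩ := mem_filter.1 hK
  rw [mem_powerset] at k0
  refine ⟨K, k0, fun a ha b hb h => h.elim (fun h => ?_) (k1 a ha b hb).1, fun w hw hw' => ?_⟩
  · exact h.2.ne (by rw [(k1 a ha b hb).2 h.1])
  by_contra nw
  obtain ⟨v, hv, mn⟩ := exists_min_image
    (S.filter fun v => v ∉ K ∧ ¬ ∃ k ∈ K, Arr cl pos A v k) rk ⟨w, mem_filter.2 ⟨hw, hw', nw⟩⟩
  obtain ⟨hv, hn, no⟩ := mem_filter.1 hv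
  push Not at no
  have up : ∀ k ∈ K, cl v = cl k → pos v < pos k := fun k hk e =>
    lt_of_le_of_ne (not_lt.1 fun l => no k hk (.inl ⟨e, l⟩))
      fun p => hn (inj v hv k (k0 hk) e p ▸ hk)
  have nx : ∀ k ∈ K, ¬ A v k := fun k hk h => no k hk (.inr h)
  have mv : ∀ y, (∃ k ∈ K, cl y = cl k ∧ pos k < pos y) →
      ∃ k ∈ insert v (K.filter fun k => cl v ≠ cl k), cl y = cl k ∧ pos k < pos y := by
    rintro y ⟨k, a, b, c⟩
    by_cases e : cl v = cl k
    · exact ⟨v, mem_insert_self _ _, b.trans e.symm, (up k a e).trans c⟩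
    · exact ⟨k, mem_insert_of_mem (mem_filter.2 ⟨a, e⟩), b, c⟩
  refine (hm (insert v (K.filter fun k => cl v ≠ cl k)) (mem_filter.2 ⟨mem_powerset.2
    (insert_subset hv ((filter_subset _ _).trans k0)), fun a ha b hb => ?_,
    fun a ha y hy h h' => mv y ?_⟩)).not_gt ?_
  · rcases mem_insert.1 ha with rfl | ha <;> rcases mem_insert.1 hb with rfl | hb
    · exact ⟨ir _, fun _ => rfl⟩
    · exact ⟨nx b (mem_filter.1 hb).1, fun e => absurd e (mem_filter.1 hb).2⟩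
    · refine ⟨fun h => ?_, fun e => absurd e.symm (mem_filter.1 ha).2⟩
      obtain ⟨k, x, y⟩ := k2 a (mem_filter.1 ha).1 b hv h (nx a (mem_filter.1 ha).1)
      exact no k x (.inl y)
    · exact k1 a (mem_filter.1 ha).1 b (mem_filter.1 hb).1
  · rcases mem_insert.1 ha with rfl | ha
    · by_contra z
      refine (mn y (mem_filter.2 ⟨hy, fun x => nx y x h, ?_⟩)).not_gt (hr _ _ h h')
      rintro ⟨k, x, e | e⟩
      · exact z ⟨k, x, e⟩
      · exact no k x (tr _ _ _ h h' e)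
    · exact k2 a (mem_filter.1 ha).1 y hy h h'
  · rw [sum_insert fun h => hn (mem_filter.1 h).1, ← sum_filter_add_sum_filter_not K
      fun k => cl v ≠ cl k, add_comm]
    refine Nat.add_lt_add_right ?_ _
    have := le_sup (f := pos) hv
    rcases (K.filter fun k => ¬ cl v ≠ cl k).eq_empty_or_nonempty with e | ⟨k, hk⟩
    · rw [e, sum_empty]
      omega
    · have e : (K.filter fun k => ¬ cl v ≠ cl k) = {k} := eq_singleton_iff_unique_mem.2
        ⟨hk, fun x hx => by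
          rw [mem_filter, not_not] at hk hx
          exact (k1 x hx.1 k hk.1).2 (hx.2.symm.trans hk.2)⟩
      rw [e, sum_singleton]
      rw [mem_filter, not_not] at hk
      have := up k hk.1 hk.2
      omega

/-- Ordered cliques and cross arcs `A`; one way arcs lower a rank, and a one way arc followed
by a cross arc is an arc. Lists longer than the out-degrees suffice. -/
theorem col_gen (rk : V → ℕ) (ir : ∀ u, ¬ A u u) (hr : ∀ u v, A u v → ¬ A v u → rk v < rk u)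
    (tr : ∀ v y k, A v y → ¬ A y v → A y k → Arr cl pos A v k) (U : Finset V)
    (inj : ∀ u ∈ U, ∀ v ∈ U, cl u = cl v → pos u = pos v → u = v) (L : V → Finset ℕ)
    (hL : ∀ v ∈ U, (U.filter (Arr cl pos A v)).card < (L v).card) :
    ∃ c : V → ℕ, (∀ v ∈ U, c v ∈ L v) ∧
      ∀ u ∈ U, ∀ v ∈ U, u ≠ v → cl u = cl v ∨ A u v → c u ≠ c v := by
  obtain ⟨c, c1, c2⟩ := col_of_kernel (V := U) (R := fun a b => Arr cl pos A a b)
    (fun S => kernel_gen (cl := fun a : U => cl a) (pos := fun a => pos a)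
      (A := fun a b => A a b) (fun a => rk a) (fun _ => ir _) (fun _ _ => hr _ _)
      (fun _ _ _ => tr _ _ _) S
      fun u _ v _ a b => Subtype.ext (inj u u.2 v v.2 a b)) U.attach (fun a => L a) fun v _ =>
    lt_of_le_of_lt (card_le_card_of_injOn (↑) (fun x hx => by
      simpa using (mem_filter.1 hx).2) Subtype.val_injective.injOn) (hL v v.2)
  refine ⟨fun v => if h : v ∈ U then c ⟨v, h⟩ else 0, fun v hv => ?_, fun u hu v hv e h => ?_⟩
  · simpa [hv] using c1 ⟨v, hv⟩ (mem_attach _ _)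
  · simp only [hu, hv, dif_pos]
    have a := c2 ⟨u, hu⟩ (mem_attach _ _) ⟨v, hv⟩ (mem_attach _ _)
    have b := c2 ⟨v, hv⟩ (mem_attach _ _) ⟨u, hu⟩ (mem_attach _ _)
    rcases h with h | h
    · rcases lt_trichotomy (pos u) (pos v) with l | l | l
      · exact (b (.inl ⟨h.symm, l⟩)).symm
      · exact absurd (inj u hu v hv h l) e
      · exact a (.inl ⟨h, l⟩)
    · exact a (.inr h)

/-- cross arcs of three layers: fronts `0`, middle `1`, cuts `2` -/
def A3 (rk : V → ℕ) (X : V → V → Prop) (u v : V) : Prop :=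
  X u v ∧ (rk u = 2 ∨ rk u = 1 ∧ rk v = 0)

theorem col_three {rk : V → ℕ} {X : V → V → Prop} (sy : ∀ u v, X u v → X v u) (ir : ∀ u, ¬ X u u)
    (r2 : ∀ u, rk u ≤ 2) (ff : ∀ u v, X u v → rk u = rk v → rk u = 2)
    (tr : ∀ c y f, rk c = 2 → rk y = 1 → rk f = 0 → X c y → X y f → X c f) (U : Finset V)
    (inj : ∀ u ∈ U, ∀ v ∈ U, cl u = cl v → pos u = pos v → u = v) (L : V → Finset ℕ)
    (hL : ∀ v ∈ U, (U.filter (Arr cl pos (A3 rk X) v)).card < (L v).card) :
    ∃ c : V → ℕ, (∀ v ∈ U, c v ∈ L v) ∧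
      ∀ u ∈ U, ∀ v ∈ U, u ≠ v → cl u = cl v ∨ X u v → c u ≠ c v := by
  obtain ⟨c, c1, c2⟩ := col_gen (A := A3 rk X) rk (fun u h => ir u h.1) (fun u v h h' => by
      have := h.2
      have := r2 v
      have : ¬ (rk v = 2 ∨ rk v = 1 ∧ rk u = 0) := fun z => h' ⟨sy _ _ h.1, z⟩
      omega) (fun v y k h h' e => by
      have := h.2
      have := e.2
      have : ¬ (rk y = 2 ∨ rk y = 1 ∧ rk v = 0) := fun z => h' ⟨sy _ _ h.1, z⟩
      exact .inr ⟨tr v y k (by omega) (by omega) (by omega) h.1 e.1, by omega⟩) U inj L hL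
  refine ⟨c, c1, fun u hu v hv e h => h.elim (fun h => c2 u hu v hv e (.inl h)) fun h => ?_⟩
  have := r2 u
  have := r2 v
  have := ff u v h
  by_cases z : rk u = 2 ∨ rk u = 1 ∧ rk v = 0
  · exact c2 u hu v hv e (.inr ⟨h, z⟩)
  · exact (c2 v hv u hu e.symm (.inr ⟨sy _ _ h, by omega⟩)).symm

end Pool.Agent.Lib.MP_12eaff_co.Ker
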