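import Mathlib
import Pool.Agent.Lib.MP_12eaff_co.Clubs

set_option autoImplicit false

namespace Pool.Agent.Lib.MP_12eaff_co

open Finset
open scoped Classical

variable {V : Type} {G : SimpleGraph V} {U : Finset V} {a0 e0 f0 : ℕ} {t : St V}

/-- Six neighbours outside the first part. -/
def Hi (G : SimpleGraph V) (U A : Finset V) (v : V) : Prop := 6 ≤ dg G (U \ A) v

theorem Val.subA (h : Val G U t) : t.A ⊆ U := fun u hu => (h.cov u).mpr (Or.inl hu)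

theorem Val.hi (h : Val G U t) {v : V} : Hi G U t.A v ↔ 6 ≤ dg G t.X v + dg G t.Y v := by
  rw [Hi, h.compl, dg_union h.dXY]

theorem Opt.hi (c : Ctx G U a0 e0 f0) (h : Opt G U a0 e0 f0 t) {v : V} (hv : v ∈ t.K G) :
    Hi G U t.A v ↔ dg G t.Y v ≠ t.s := by
  have a1 := h.val.ge c hv
  have a2 := h.deg c hv
  have a3 := h.val.sum
  rw [h.val.hi]
  omega

theorem hi_nbr (c : Ctx G U a0 e0 f0) {A S : Finset V} (hA : A ⊆ U) (hS : Tri G A S) {v : V}
    (hv : v ∈ U) (h : Hi G U A v) (hf : ∀ q ∈ S, G.Adj v q) : ∀ a ∈ A, G.Adj v a ↔ a ∈ S := by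
  have a1 := c.deg v hv
  rw [dg_split hA] at a1
  have : S = A.filter (G.Adj v) := eq_of_subset_of_card_le
    (fun q hq => mem_filter.mpr ⟨hS.2.1.1 hq, hf q hq⟩) (by
      rw [hS.1]; unfold Hi at h; unfold dg at a1 h; omega)
  intro a ha
  rw [this]
  simp [ha]

theorem hi_swap {A : Finset V} (hA : A ⊆ U) {u p g : V} (hu : u ∈ U) (huA : u ∉ A) (hp : p ∈ A)
    (h : Hi G U ((insert u A).erase p) g) (h1 : G.Adj g p → G.Adj g u) : Hi G U A g := by
  have e : U \ (insert u A).erase p = insert p ((U \ A).erase u) := by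
    ext x
    have := @hA x
    simp only [mem_sdiff, mem_erase, mem_insert]
    grind
  unfold Hi at *
  rw [e, dg_insert (by simp [hp])] at h
  rw [dg_erase (w := u) (mem_sdiff.mpr ⟨hu, huA⟩)]
  split_ifs at h ⊢ <;> first | omega | tauto

theorem Val.maxA (c : Ctx G U a0 e0 f0) (v : Val G U t) (ea : t.A.card = a0) {w b : V}
    (hw : w ∈ t.K G) (hb : b ∈ t.X ∨ b ∈ t.Y) (hbw : b ≠ w) : ¬ Col G (insert b t.A) 3 := by
  intro hc
  have bA : b ∉ t.A := fun h1 => hb.elim (v.dAX b h1) (v.dAY b h1)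
  have := c.h1 ⟨insert b t.A, t.X.erase b, t.Y.erase b, t.r, t.s⟩ ⟨fun u hu => ?_, fun u hu => ?_,
    fun u hu h1 => v.dXY u (mem_of_mem_erase hu) (mem_of_mem_erase h1), fun u => ?_, v.rs, hc,
    v.cY.mono (erase_subset _ _), ⟨w, mem_crit.mpr ⟨mem_erase.mpr ⟨hbw.symm, K_sub hw⟩,
      (K_col hw).mono (erase_subset_erase _ (erase_subset _ _))⟩⟩⟩
  · simp only [card_insert_of_notMem bA, ea] at this
    omega
  · simp only [mem_insert, mem_erase] at hu ⊢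
    exact fun h1 => v.dAX u (hu.resolve_left h1.1) h1.2
  · simp only [mem_insert, mem_erase] at hu ⊢
    exact fun h1 => v.dAY u (hu.resolve_left h1.1) h1.2
  · simp only [mem_insert, mem_erase, v.cov]
    by_cases e : u = b
    · subst e; tauto
    · tauto

theorem Opt.maxA2 (c : Ctx G U a0 e0 f0) (h : Opt G U a0 e0 f0 t) {e q b : V} (he : e ∈ t.K G)
    (hq : q ∈ t.A) (hb : b ∈ t.X ∨ b ∈ t.Y) (hbe : b ≠ e) :
    ¬ Col G (insert b ((insert e t.A).erase q)) 3 := by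
  intro hc
  have v := h.val
  obtain ⟨⟨v1, k1⟩, -⟩ := v.sw he hq (hc.mono (subset_insert _ _))
  refine v1.maxA c ((v.pot_sw (K_sub he) hq).1.trans h.ea) k1 (b := b) ?_
    (fun e => hb.elim (v.dAX q hq ∘ (e ▸ ·)) (v.dAY q hq ∘ (e ▸ ·))) hc
  exact hb.imp_left (fun h1 => mem_insert_of_mem (mem_erase.mpr ⟨hbe, h1⟩))

theorem col2 {A S : Finset V} (hS : Tri G A S) {q α β : V} (hq : q ∈ S) (h1 : α ∉ A) (h2 : β ∉ A)
    (h3 : β ≠ α) (h4 : ¬ G.Adj β α) (hm : ∀ u ∈ A, G.Adj α u ↔ u ∈ S)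
    (hc : Col G (insert β (A \ S)) 3) : Col G (insert β ((insert α A).erase q)) 3 := by
  refine tri_ext (tri_swap hS h1 hm hq) (by simp [h2, h3]) (mem_insert_self _ _) h4 ?_
  have e1 : (insert α A).erase q \ insert α (S.erase q) = A \ S := by
    ext x
    simp only [mem_sdiff, mem_erase, mem_insert]
    grind
  rwa [e1]

theorem Opt.twoA (c : Ctx G U a0 e0 f0) (h : Opt G U a0 e0 f0 t) {S : Finset V} (hS : Tri G t.A S)
    {y a b : V} (hy : y ∈ t.K G) (ha : a ∈ S) (hb : b ∈ S) (hab : a ≠ b) (h1 : G.Adj y a)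
    (h2 : G.Adj y b) : ∀ q ∈ S, G.Adj y q := by
  have g := h.val.ge c hy
  have sm := h.val.sum
  exact fun q hq => two_in_tri hS h.val.cA (fun h3 => h.val.dAX y h3 (K_sub hy)) (h.val.nA c hy)
    (by omega) ha hb hab h1 h2 hq

theorem Opt.par1 (c : Ctx G U a0 e0 f0) (o : Opt G U a0 e0 f0 t) (hr : t.r = 2) {z z' x : V}
    (hz : z ∈ t.K G) (hz' : z' ∈ t.K G) (h1 : G.Adj z z') (xA : x ∈ t.A) (h2 : G.Adj x z')
    (o' : Opt G U a0 e0 f0 (t.sw1 z x)) (k' : x ∈ (t.sw1 z x).K G) :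
    ∀ a ∈ t.K G, G.Adj z a → G.Adj x a := by
  have dK : ∀ a ∈ t.K G, dg G (t.K G) a = 2 := fun a ha => (o.dK c ha).trans hr
  have a1 := o'.val.nX c
  have a2 := fun z hz => o'.deg c (z := z) hz
  have a3 := K_col hz
  have a4 := o'.nbr c k' (mem_insert_of_mem (mem_erase.mpr ⟨h1.ne', K_sub hz'⟩)) h2
  simp only [St.K, St.sw1, hr] at a1 a2 a3 a4
  exact (parity (fun h3 => o.val.dAX x xA (mem_of_mem_erase h3)) a3 a1 a2 hz dK ((o.cl c).erase z)
    a4 (mem_erase.mpr ⟨h1.ne', hz'⟩)).1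

theorem Opt.third [Fintype V] (c : Ctx G U a0 e0 f0) (o : Opt G U a0 e0 f0 t) (hr : t.r = 3) {u g : V}
    (hu : u ∈ t.K G) (hg : g ∈ t.K G) (h : u ≠ g) :
    ∃ y ∈ t.K G, G.Adj y u ∧ G.Adj y g := by
  obtain ⟨k1, k2⟩ := o.K4 c hr
  obtain ⟨y, hy⟩ : (((t.K G).erase u).erase g).Nonempty := card_pos.mp (by
    rw [card_erase_of_mem (mem_erase.mpr ⟨h.symm, hg⟩), card_erase_of_mem hu, k1]; norm_num)
  simp only [mem_erase] at hy
  exact ⟨y, hy.2.2, k2 y hy.2.2 u hu hy.2.1, k2 y hy.2.2 g hg hy.1⟩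

theorem Opt.pairX [Fintype V] (c : Ctx G U a0 e0 f0) (k6 : NoK6 G) (o : Opt G U a0 e0 f0 t)
    {S : Finset V} (hS : Tri G t.A S) {u g a b : V} (hu : u ∈ t.K G) (hg : g ∈ t.K G)
    (ug : G.Adj u g) (mu : ∀ q ∈ S, G.Adj u q) (mg : ∀ q ∈ t.A, G.Adj g q ↔ q ∈ S) (ha : a ∈ S)
    (hb : b ∈ S) (hab : a ≠ b) (oa : Opt G U a0 e0 f0 (t.sw1 u a)) (ka : a ∈ (t.sw1 u a).K G)
    (ob : Opt G U a0 e0 f0 (t.sw1 u b)) (kb : b ∈ (t.sw1 u b).K G) : False := by
  have v := o.val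
  have sA := hS.2.1.1
  have mg' : ∀ q ∈ S, G.Adj g q := fun q hq => (mg q (sA hq)).mpr hq
  have nA : ∀ z ∈ t.K G, z ∉ t.A := fun z hz h1 => v.dAX z h1 (K_sub hz)
  rcases v.rs with ⟨hr, -⟩ | ⟨hr, -⟩
  · obtain ⟨y, yK, yu, yg⟩ := o.third c hr hu hg ug.ne
    have key : ∀ p ∈ S, Opt G U a0 e0 f0 (t.sw1 u p) → p ∈ (t.sw1 u p).K G → G.Adj y p := by
      intro p hp op kp
      have g1 := op.nbr c kp (mem_insert_of_mem (mem_erase.mpr ⟨ug.ne', K_sub hg⟩)) (mg' p hp).symm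
      exact (op.K4 c hr).2 y (op.nbr c g1 (mem_insert_of_mem (mem_erase.mpr ⟨yu.ne, K_sub yK⟩))
        yg.symm) p kp (fun e => nA y yK (e ▸ sA hp))
    exact six k6 hS ug yu.symm yg.symm mu mg'
      (o.twoA c hS yK ha hb hab (key a ha oa ka) (key b hb ob kb))
  · obtain ⟨y, yK, uy, yg, -⟩ := other_nbr ((o.dK c hu).trans hr) hg ug
    have fy := o.twoA c hS yK ha hb hab
      (o.par1 c hr hu hg ug (sA ha) (mg' a ha).symm oa ka y yK uy).symm
      (o.par1 c hr hu hg ug (sA hb) (mg' b hb).symm ob kb y yK uy).symm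
    by_cases h1 : G.Adj y g
    · exact six k6 hS ug uy h1.symm mu mg' fy
    refine o.maxA2 c yK (sA ha) (Or.inl (K_sub hg)) yg.symm ((col2 hS ha (nA g hg) (nA y yK) yg h1 mg
      ((v.cA.mono sdiff_subset).insert ?_)).mono (fun x hx => ?_))
    · have a1 := dg_split (G := G) sA y
      have a2 : S.card ≤ dg G S y := le_dg (fun q hq => ⟨hq, fy q hq⟩)
      have a3 := v.ge c yK
      have a4 := v.sum
      have a5 := hS.1
      omega
    · have a1 : g ≠ a := (mg' a ha).ne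
      simp only [mem_insert, mem_erase] at hx ⊢
      grind

theorem Opt.pairY [Fintype V] (c : Ctx G U a0 e0 f0) (k6 : NoK6 G) (o : Opt G U a0 e0 f0 t)
    {S : Finset V} (hS : Tri G t.A S) {u g a b : V} (hu : u ∈ t.K G) (hiu : Hi G U t.A u)
    (hg : g ∈ t.Y) (hig : Hi G U t.A g)
    (ug : G.Adj u g) (mu : ∀ q ∈ t.A, G.Adj u q ↔ q ∈ S) (mg : ∀ q ∈ S, G.Adj g q) (ha : a ∈ S)
    (hb : b ∈ S) (hab : a ≠ b) (oa : Opt G U a0 e0 f0 (t.sw2 u a)) (ka : a ∈ (t.sw2 u a).K G)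
    (ob : Opt G U a0 e0 f0 (t.sw2 u b)) (kb : b ∈ (t.sw2 u b).K G) :
    ∃ y ∈ t.Y, G.Adj y g ∧ G.Adj y a ∧ G.Adj y b ∧ ¬ G.Adj y u ∧
      ∀ q ∈ S, G.Adj y q → q = a ∨ q = b := by
  have v := o.val
  have sA := hS.2.1.1
  have uA : u ∉ t.A := fun h1 => v.dAX u h1 (K_sub hu)
  have mu' : ∀ q ∈ S, G.Adj u q := fun q hq => (mu q (sA hq)).mpr hq
  have ga : g ∈ (t.sw2 u a).K G := oa.nbr c ka (mem_insert_of_mem hg) (mg a ha).symm
  have gb : g ∈ (t.sw2 u b).K G := ob.nbr c kb (mem_insert_of_mem hg) (mg b hb).symm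
  have inY : ∀ y ∈ (t.sw2 u a).K G, y ≠ a → y ∈ t.Y := fun y hy h1 =>
    (mem_insert.mp (K_sub hy)).resolve_left h1
  have bA : b ∈ (t.sw2 u a).A := mem_erase.mpr ⟨hab.symm, mem_insert_of_mem (sA hb)⟩
  have sm := v.sum
  obtain ⟨y, yK, yg, ya, yb⟩ : ∃ y ∈ (t.sw2 u a).K G, G.Adj y g ∧ G.Adj y a ∧ G.Adj y b := by
    rcases v.rs with ⟨hr, hs⟩ | ⟨hr, hs⟩
    swap
    · obtain ⟨y, yK, ya, yg⟩ := oa.third c hs ka ga (mg a ha).ne'
      have yY := inY y yK ya.ne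
      exact ⟨y, yK, yg, ya, (ob.K4 c hs).2 y (ob.nbr c gb (mem_insert_of_mem yY) yg.symm) b kb
        (fun e => v.dAY b (sA hb) (e ▸ yY))⟩
    have dK : ∀ w ∈ (t.sw2 u a).K G, dg G ((t.sw2 u a).K G) w = 2 := fun w hw =>
      (oa.dK c hw).trans hs
    obtain ⟨e, eK, ae, eg, -⟩ := other_nbr (dK a ka) ga (mg a ha).symm
    obtain ⟨g', gK, gg, ga', -⟩ := other_nbr (dK g ga) ka (mg a ha)
    have db := ob.deg c kb
    simp only [St.sw2, dg_insert_self] at db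
    have be : G.Adj b e := by
      have a1 := ob.val.nX c
      have a2 := fun z hz => ob.deg c (z := z) hz
      have a3 := v.cY
      have a4 := (oa.cl c).erase a
      have a5 := gb
      simp only [St.K, St.sw2, hs] at a1 a2 a3 a5
      rw [show (t.sw2 u a).X.erase a = t.Y from erase_insert (v.dAY a (sA ha))] at a4
      exact (parity (v.dAY b (sA hb)) a3 a1 a2 ka dK a4 a5 (mem_erase.mpr ⟨(mg a ha).ne, ga⟩)).1 e eK ae
    have hh : dg G (t.sw2 u a).Y g ≠ (t.sw2 u a).s := by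
      have a1 := oa.deg c ga
      have a2 := v.hi.mp hig
      rw [dg_erase (K_sub hu), if_pos ug.symm] at a2
      simp only [St.sw2] at a1 ⊢
      rw [dg_insert (v.dAY a (sA ha)), if_pos (mg a ha)] at a1
      omega
    rcases (oa.high c ga hh).2 b bA (mg b hb) with ⟨o1, k1⟩ | ⟨o1, k1⟩
    · have bg := oa.par1 c hs ga ka (mg a ha) bA (hS.2.2 b hb a ha hab.symm) o1 k1 g' gK gg
      by_cases e1 : e = g'
      · exact ⟨e, eK, (e1 ▸ gg).symm, ae.symm, be.symm⟩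
      · have b4 : ({g, e, g'} : Finset V).card ≤ dg G t.Y b := le_dg (by
          simp [hg, inY e eK ae.ne', inY g' gK ga', (mg b hb).symm, be, bg])
        rw [card_eq_three.mpr ⟨g, e, g', eg.symm, gg.ne, e1, rfl⟩] at b4
        omega
    · exfalso
      have a1 := o1.deg c k1
      obtain ⟨-, p2, p3, -, -⟩ := v.pot_sw (K_sub hu) (sA hb)
      have a2 := (ob.val.ge c kb).1
      have a3 := v.ge c hu
      have a4 := v.hi.mp hiu
      have a5 := ob.eE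
      have a6 := o.eE
      simp only [St.sw2, dg_insert_self, dg_erase_self] at a1 a2
      omega
  have tr : Tri G (t.sw2 u a).A (insert u (S.erase a)) := tri_swap hS uA mu ha
  have key : ∀ q ∈ insert u (S.erase a), q ≠ b → ¬ G.Adj y q := by
    intro q hq h1 h2
    have f := oa.twoA c tr yK hq (mem_insert_of_mem (mem_erase.mpr ⟨hab.symm, hb⟩)) h1 h2 yb
    refine six k6 hS ug (f u (mem_insert_self _ _)).symm yg.symm mu' mg (fun x hx => ?_)
    by_cases e : x = a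
    · exact e ▸ ya
    · exact f x (mem_insert_of_mem (mem_erase.mpr ⟨e, hx⟩))
  refine ⟨y, inY y yK ya.ne, yg, ya, yb, key u (mem_insert_self _ _) (mu' b hb).ne, fun q hq h1 => ?_⟩
  by_contra hc
  rw [not_or] at hc
  exact key q (mem_insert_of_mem (mem_erase.mpr ⟨hc.1, hq⟩)) hc.2 h1

end Pool.Agent.Lib.MP_12eaff_co
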