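import Pool.Agent.Lib.MP_12eaff_co.Pot

set_option autoImplicit false
set_option linter.unusedSectionVars false

namespace Pool.Agent.Lib.MP_12eaff_co.BK

open Finset
open scoped Classical

variable {V : Type} [Fintype V] {G : SimpleGraph V} {D : ℕ}

theorem meet_of {A B P : Finset ℕ} (a : A ⊆ P) (b : B ⊆ P) (h : P.card < A.card + B.card) :
    ∃ x, x ∈ A ∧ x ∈ B := by
  by_contra! k
  have := card_le_card (union_subset a b)
  rw [card_union_of_disjoint (disjoint_left.2 k)] at this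
  omega

theorem other {A : Finset ℕ} (h : 2 ≤ A.card) (x : ℕ) : ∃ y ∈ A, y ≠ x := exists_mem_ne h x

/-- Three colours of which at most two lie in `U`. -/
def Chp (U : Finset ℕ) (α γ δ : ℕ) : Prop :=
  α = γ ∨ α = δ ∨ γ = δ ∨ α ∉ U ∨ γ ∉ U ∨ δ ∉ U

theorem Chp.card {U : Finset ℕ} {α γ δ : ℕ} (h : Chp U α γ δ) :
    U.card ≤ (U \ {α, γ, δ}).card + 2 := by
  have key : ∀ x y, U ∩ {α, γ, δ} ⊆ {x, y} → U.card ≤ (U \ {α, γ, δ}).card + 2 := fun x y k => by
    have := card_sdiff_add_card_inter U {α, γ, δ}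
    have := (card_le_card k).trans card_le_two
    omega
  rcases h with h | h | h | h | h | h
  exacts [key γ δ (by intro; simp; grind), key γ δ (by intro; simp; grind),
    key α δ (by intro; simp; grind), key γ δ (by intro; simp; grind),
    key α δ (by intro; simp; grind), key α γ (by intro; simp; grind)]

/-- The setting: a clique `K` joined to four further vertices. -/
structure J4 (G : SimpleGraph V) (K : Finset V) (a b c d : V) : Prop where
  clq : IsClq G K
  adj : ∀ k ∈ K, G.Adj k a ∧ G.Adj k b ∧ G.Adj k c ∧ G.Adj k d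
  ab : a ≠ b
  ac : a ≠ c
  ad : a ≠ d
  bc : b ≠ c
  bd : b ≠ d
  cd : c ≠ d

/-- Reduction to a choice of four colours for the outer vertices. -/
theorem J4.red (h : CR G D) {K : Finset V} {a b c d : V} (j : J4 G K a b c d) (ne : K.Nonempty)
    (sel : ∀ A B C E P U : Finset ℕ, A ⊆ P → B ⊆ P → C ⊆ P → E ⊆ P → U ⊆ P →
      P.card ≤ K.card + 3 → P.card ≤ U.card + 1 →
      K.card + (nb G a ∩ {b, c, d}).card ≤ A.card + 1 →
      K.card + (nb G b ∩ {a, c, d}).card ≤ B.card + 1 →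
      K.card + (nb G c ∩ {a, b, d}).card ≤ C.card + 1 →
      K.card + (nb G d ∩ {a, b, c}).card ≤ E.card + 1 →
      ∃ α ∈ A, ∃ β ∈ B, ∃ γ ∈ C, ∃ δ ∈ E, (G.Adj a b → α ≠ β) ∧ (G.Adj a c → α ≠ γ) ∧
        (G.Adj a d → α ≠ δ) ∧ (G.Adj b c → β ≠ γ) ∧ (G.Adj b d → β ≠ δ) ∧ (G.Adj c d → γ ≠ δ) ∧
        ∃ x y z, ({α, β, γ, δ} : Finset ℕ) ⊆ {x, y, z} ∧
          (K.card + 3 ≤ U.card ∨ Chp U x y z)) : False := by
  obtain ⟨k0, hk0⟩ := ne
  have n : ∀ v ∈ ({a, b, c, d} : Finset V), ∀ k ∈ K, G.Adj k v := fun v hv k hk => by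
    have := j.adj k hk
    simp only [mem_insert, mem_singleton] at hv
    rcases hv with rfl | rfl | rfl | rfl <;> tauto
  have dj : Disjoint K {a, b, c, d} := disjoint_left.2 fun v x y => (n v y v x).ne rfl
  have c4 : ({a, b, c, d} : Finset V).card = 4 := by
    rw [card_insert_of_notMem (by simp [j.ab, j.ac, j.ad]),
      card_eq_three.2 ⟨b, c, d, j.bc, j.bd, j.cd, rfl⟩]
  obtain ⟨L, l1, l2, l3⟩ := h.pot (K ∪ {a, b, c, d}) (mem_union_left _ hk0) (j.adj k0 hk0).1.symm
  rw [card_union_of_disjoint dj, c4] at l1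
  have sb : ∀ v ∈ K ∪ {a, b, c, d}, L v ⊆ (K ∪ {a, b, c, d}).biUnion L :=
    fun v hv => subset_biUnion_of_mem L hv
  have lk : ∀ k ∈ K, K.card + 3 ≤ (L k).card + 1 := fun k hk => by
    have := l2 k (mem_union_left _ hk)
    have e := card_le_card (s := K.erase k ∪ {a, b, c, d}) (t := nb G k ∩ (K ∪ {a, b, c, d}))
      fun x hx => mem_inter.2 ⟨mem_nb.2 ((mem_union.1 hx).elim (fun y => j.clq k hk x
        (mem_of_mem_erase y) (ne_of_mem_erase y).symm) fun y => n x y k hk),
        union_subset_union (erase_subset _ _) Subset.rfl hx⟩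
    rw [card_union_of_disjoint (dj.mono_left (erase_subset _ _)), c4] at e
    have := card_erase_add_one hk
    omega
  have lb : ∀ v ∈ ({a, b, c, d} : Finset V), ∀ T ⊆ ({a, b, c, d} : Finset V),
      K.card + (nb G v ∩ T).card ≤ (L v).card + 1 := fun v hv T hT => by
    have := l2 v (mem_union_right _ hv)
    have e := card_le_card (s := K ∪ nb G v ∩ T) (t := nb G v ∩ (K ∪ {a, b, c, d}))
      fun x hx => (mem_union.1 hx).elim (fun y => mem_inter.2 ⟨mem_nb.2 (n v hv x y).symm,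
        mem_union_left _ y⟩) fun y => mem_inter.2 ⟨(mem_inter.1 y).1,
        mem_union_right _ (hT (mem_inter.1 y).2)⟩
    rw [card_union_of_disjoint (dj.mono_right (inter_subset_right.trans hT))] at e
    omega
  have := card_le_card (subset_biUnion_of_mem L hk0)
  have := lk k0 hk0
  obtain ⟨α, a1, β, b1, γ, c1, δ, d1, e1, e2, e3, e4, e5, e6, x, y, z, s, t⟩ :=
    sel (L a) (L b) (L c) (L d) _ (K.biUnion L) (sb a (by simp)) (sb b (by simp)) (sb c (by simp))
      (sb d (by simp)) (biUnion_subset_biUnion_of_subset_left L subset_union_left) (by omega)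
      (by omega) (lb a (by simp) _ (by intro; simp; tauto)) (lb b (by simp) _ (by intro; simp; tauto))
      (lb c (by simp) _ (by intro; simp; tauto)) (lb d (by simp) _ (by intro; simp; tauto))
  have c3 : ({x, y, z} : Finset ℕ).card ≤ 3 := card_le_three
  refine l3 (LC.core {x, y, z}
    (fun v => if v = a then α else if v = b then β else if v = c then γ else δ) dj
    (fun v hv => ?_) (fun u hu v hv e => ?_) (fun k hk => by have := lk k hk; omega) ?_)
  · have := j.ab; have := j.ac; have := j.ad; have := j.bc; have := j.bd; have := j.cd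
    simp only [mem_insert, mem_singleton] at hv
    have s1 := s (show α ∈ _ by simp)
    have s2 := s (show β ∈ _ by simp)
    have s3 := s (show γ ∈ _ by simp)
    have s4 := s (show δ ∈ _ by simp)
    rcases hv with rfl | rfl | rfl | rfl <;> grind
  · have := j.ab; have := j.ac; have := j.ad; have := j.bc; have := j.bd; have := j.cd
    have := e.ne
    have := e.symm
    simp only [mem_insert, mem_singleton] at hu hv
    rcases hu with rfl | rfl | rfl | rfl <;> rcases hv with rfl | rfl | rfl | rfl <;> grind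
  · rcases t with t | t
    · have := le_card_sdiff {x, y, z} (K.biUnion L)
      omega
    · have := t.card
      omega

/-- Choice of colours when both non-edges have meeting lists. -/
theorem sel_two {A B C E P U : Finset ℕ} {t : ℕ} (a : A ⊆ P) (b : B ⊆ P) (c : C ⊆ P) (e : E ⊆ P)
    (p : P.card ≤ t + 3) (h1 : t + 4 ≤ A.card + B.card) (h2 : t + 4 ≤ C.card + E.card)
    (h3 : 2 ≤ C.card) (h4 : 2 ≤ E.card) : ∃ α, α ∈ A ∧ α ∈ B ∧ ∃ γ ∈ C, ∃ δ ∈ E, γ ≠ α ∧ δ ≠ α ∧
      (t + 3 ≤ U.card ∨ Chp U α γ δ) := by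
  obtain ⟨α, a1, a2⟩ := meet_of a b (by omega)
  obtain ⟨γ, g1, g2⟩ := other h3 α
  obtain ⟨δ, d1, d2⟩ := other h4 α
  refine ⟨α, a1, a2, ?_⟩
  by_cases k : ∃ x, x ∈ C ∧ x ∈ E ∧ x ≠ α
  · obtain ⟨x, x1, x2, x3⟩ := k
    exact ⟨x, x1, x, x2, x3, x3, .inr (by simp [Chp])⟩
  push Not at k
  by_cases u : C ∪ E ⊆ U
  · refine ⟨γ, g1, δ, d1, g2, d2, .inl ?_⟩
    have := card_le_card u
    have := card_union_add_card_inter C E
    have := card_le_card (s := C ∩ E) (t := {α}) fun x hx =>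
      mem_singleton.2 (k x (mem_inter.1 hx).1 (mem_inter.1 hx).2)
    rw [card_singleton] at this
    omega
  obtain ⟨μ, m1, m2⟩ := not_subset.1 u
  by_cases z : μ = α
  · exact ⟨γ, g1, δ, d1, g2, d2, .inr (by simp [Chp, ← z, m2])⟩
  rcases mem_union.1 m1 with m | m
  · exact ⟨μ, m, δ, d1, z, d2, .inr (by simp [Chp, m2])⟩
  · exact ⟨γ, g1, μ, m, g2, z, .inr (by simp [Chp, m2])⟩

theorem card_nb3 {v x y z : V} (xy : x ≠ y) (xz : x ≠ z) (yz : y ≠ z) :
    (nb G v ∩ {x, y, z}).card = (if G.Adj v x then 1 else 0) + (if G.Adj v y then 1 else 0) +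
      (if G.Adj v z then 1 else 0) := by
  rw [inter_comm, ← filter_mem_eq_inter, card_filter, sum_insert (by simp [xy, xz]), sum_pair yz]
  simp only [mem_nb, add_assoc]

/-- A clique of size `t` joined to two disjoint non-edges with `m` cross edges, `6 ≤ t + m`. -/
theorem J4.two (h : CR G D) {K : Finset V} {a b c d : V} (j : J4 G K a b c d) (k2 : 2 ≤ K.card)
    (n1 : ¬ G.Adj a b) (n2 : ¬ G.Adj c d)
    (m : 6 ≤ K.card + ((if G.Adj a c then 1 else 0) + (if G.Adj a d then 1 else 0) +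
      (if G.Adj b c then 1 else 0) + (if G.Adj b d then 1 else 0))) : False := by
  refine j.red h (card_pos.1 (by omega)) fun A B C E P U a1 b1 c1 e1 _ p _ la lb lc ld => ?_
  rw [card_nb3 j.bc j.bd j.cd] at la
  rw [card_nb3 j.ac j.ad j.cd] at lb
  rw [card_nb3 j.ab j.ad j.bd] at lc
  rw [card_nb3 j.ab j.ac j.bc] at ld
  simp only [G.adj_comm c, G.adj_comm d a, G.adj_comm d b] at lc ld
  obtain ⟨α, x1, x2, γ, y1, δ, z1, y2, z2, w⟩ := sel_two (U := U) a1 b1 c1 e1 p (by omega)
    (by omega) (by split_ifs at m lc <;> omega) (by split_ifs at m ld <;> omega)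
  exact ⟨α, x1, α, x2, γ, y1, δ, z1, fun e => absurd e n1, fun _ => y2.symm, fun _ => z2.symm,
    fun _ => y2.symm, fun _ => z2.symm, fun e => absurd e n2, α, γ, δ, by intro; simp, w⟩

end Pool.Agent.Lib.MP_12eaff_co.BK
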