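import Mathlib
import Pool.Agent.Lib.MP_12eaff_co.Req

set_option autoImplicit false

namespace Pool.Agent.Lib.MP_12eaff_co.BK

open Finset
open scoped Classical

variable {V : Type} [Fintype V] {G : SimpleGraph V} {D : ℕ}
variable {ι : Type} {I : Finset ι} {x y : ι → V} {B : ι → Finset V}

/-- Requirements off `E` are met by the edge, those in `E` by the fallback set. -/
def Mt3 (I : Finset ι) (x y : ι → V) (B : ι → Finset V) (E : Finset ι) (W : Finset V)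
    (c : V → ℕ) : Prop :=
  (∀ i ∈ I, x i ∉ W → y i ∉ W → i ∉ E → c (x i) ≠ c (y i)) ∧
    ∀ i ∈ E, ∀ b ∈ B i, b ∉ W → c b ≠ c (x i)

/-- One step of `req3`: a clique of real and virtual edges is coloured last. -/
theorem req_step3 (h : MC G D) (hD : 8 ≤ D) {X W Q : Finset V} (XW : X ⊆ W)
    (hne : ∀ i ∈ I, x i ≠ y i) (hB : ∀ i ∈ I, x i ∉ B i ∧ y i ∉ B i ∧ (B i).card ≤ 3)
    (tie : ∀ v, v ∉ X → (Occ I x y B v).card ≤ (nb G v ∩ X).card)
    (cQ : Q.card = D + 1) (hW : ∀ a ∈ Q, a ∉ W)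
    (hQ : ∀ a ∈ Q, ∀ b ∈ Q, a ≠ b → G.Adj a b ∨ (∃ i ∈ I, x i = a ∧ y i = b) ∨
      ∃ i ∈ I, x i = b ∧ y i = a)
    {a b a' b' : V} (ha : a ∈ Q) (hb : b ∈ Q) (ha' : a' ∈ Q) (hb' : b' ∈ Q) (ab : a ≠ b)
    (ab' : a' ≠ b') (e1 : a ≠ a') (e2 : a ≠ b') (e3 : b ≠ a') (e4 : b ≠ b') (n1 : ¬ G.Adj a b)
    (n2 : ¬ G.Adj a' b') {E : Finset ι} (hE : ∀ i ∈ E, i ∈ I ∧ x i ∉ Q)
    {c : V → ℕ} (c1 : PCol G D c) (c2 : ∀ v, c v < D ↔ v ∉ W ∪ Q)
    (c3 : Mt3 I x y B E (W ∪ Q) c) :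
    ∃ c, PCol G D c ∧ (∀ v, c v < D ↔ v ∉ W) ∧
      Mt3 I x y B (E ∪ (Prs I x y a b ∪ Prs I x y a' b')) W c := by
  have hX : ∀ a ∈ Q, a ∉ X := fun a ha k => hW a ha (XW k)
  have bc := fun v (hv : v ∈ Q) => bar_card (B := B) h c cQ hX hne hQ hv (tie v (hX v hv))
  have ps : ∀ u v, Prs I x y u v = Prs I x y v u := fun u v => by
    simp only [Prs, or_comm]
  have hP : ∀ u v, ∀ i ∈ Prs I x y u v, (B i).card ≤ 3 := fun u v i hi =>
    (hB i (mem_filter.1 hi).1).2.2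
  obtain ⟨φ, p0, -, p1, p2, p3⟩ := pair_col (B := B) hD c _ _ (Prs I x y a b) (bc a ha).1
    (bc b hb).1 ((bc a ha).2 b hb) (ps a b ▸ (bc b hb).2 a ha) (hP a b) 0
  obtain ⟨φ', q0, q4, q1, q2, q3⟩ := pair_col (B := B) hD c _ _ (Prs I x y a' b') (bc a' ha').1
    (bc b' hb').1 ((bc a' ha').2 b' hb') (ps a' b' ▸ (bc b' hb').2 a' ha') (hP a' b') φ
  have c4 : ({a, b, a', b'} : Finset V).card = 4 := by
    rw [card_insert_of_notMem (by simp [ab, e1, e2]), card_insert_of_notMem (by simp [e3, e4]),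
      card_pair ab']
  have cR : (Q \ {a, b, a', b'}).card + 4 = D + 1 := by
    rw [← c4, card_sdiff_add_card_eq_card (by simp [insert_subset_iff, ha, hb, ha', hb']), cQ]
  obtain ⟨ψ, s1, s2⟩ := sdr (Q \ {a, b, a', b'})
    (fun v => range D \ insert φ (insert φ' (Bar I x y B G X Q c v))) fun S hS => by
      rcases S.eq_empty_or_nonempty with rfl | ⟨v, hv⟩
      · simp
      have := card_le_card hS
      have := card_le_card (subset_biUnion_of_mem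
        (fun v => range D \ insert φ (insert φ' (Bar I x y B G X Q c v))) hv)
      have := le_card_sdiff (insert φ (insert φ' (Bar I x y B G X Q c v))) (range D)
      have := card_insert_le φ (insert φ' (Bar I x y B G X Q c v))
      have := card_insert_le φ' (Bar I x y B G X Q c v)
      have := (bc v (mem_sdiff.1 (hS hv)).1).1
      rw [card_range] at *
      omega
  obtain ⟨χ, k1, k2, k3, k4, k5⟩ : ∃ χ : V → ℕ, χ a = φ ∧ χ b = φ ∧ χ a' = φ' ∧ χ b' = φ' ∧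
      ∀ v, v ≠ a → v ≠ b → v ≠ a' → v ≠ b' → χ v = ψ v :=
    ⟨fun v => if v = a ∨ v = b then φ else if v = a' ∨ v = b' then φ' else ψ v, by simp, by simp,
      by simp [e1.symm, e3.symm], by simp [e2.symm, e4.symm],
      fun v v1 v2 v3 v4 => by simp [v1, v2, v3, v4]⟩
  have sp : ∀ v ∈ Q, v ≠ a → v ≠ b → v ≠ a' → v ≠ b' → v ∈ Q \ {a, b, a', b'} ∧ χ v = ψ v ∧
      χ v < D ∧ χ v ≠ φ ∧ χ v ≠ φ' ∧ χ v ∉ Bar I x y B G X Q c v := by
    intro v hv v1 v2 v3 v4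
    have m : v ∈ Q \ {a, b, a', b'} := by simp [hv, v1, v2, v3, v4]
    have := s1 v m
    simp only [mem_sdiff, mem_range, mem_insert, not_or] at this
    rw [k5 v v1 v2 v3 v4]
    exact ⟨m, rfl, this⟩
  have t1 : ∀ v ∈ Q, χ v < D ∧ χ v ∉ Bar I x y B G X Q c v := by
    intro v hv
    by_cases v1 : v = a
    · rw [v1, k1]; exact ⟨p0, p1⟩
    by_cases v2 : v = b
    · rw [v2, k2]; exact ⟨p0, p2⟩
    by_cases v3 : v = a'
    · rw [v3, k3]; exact ⟨q0, q1⟩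
    by_cases v4 : v = b'
    · rw [v4, k4]; exact ⟨q0, q2⟩
    have := sp v hv v1 v2 v3 v4
    exact ⟨this.2.2.1, this.2.2.2.2.2⟩
  have t2 : ∀ u ∈ Q, ∀ v ∈ Q, u ≠ v → χ u = χ v →
      (χ u = φ ∧ ((u = a ∧ v = b) ∨ (u = b ∧ v = a))) ∨
      (χ u = φ' ∧ ((u = a' ∧ v = b') ∨ (u = b' ∧ v = a'))) := by
    have t0 : ∀ v ∈ Q, (χ v = φ ∧ (v = a ∨ v = b)) ∨ (χ v = φ' ∧ (v = a' ∨ v = b')) ∨
        ((v ∈ Q \ {a, b, a', b'} ∧ χ v = ψ v) ∧ χ v ≠ φ ∧ χ v ≠ φ') := by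
      intro v hv
      by_cases v1 : v = a
      · exact .inl ⟨v1 ▸ k1, .inl v1⟩
      by_cases v2 : v = b
      · exact .inl ⟨v2 ▸ k2, .inr v2⟩
      by_cases v3 : v = a'
      · exact .inr (.inl ⟨v3 ▸ k3, .inl v3⟩)
      by_cases v4 : v = b'
      · exact .inr (.inl ⟨v4 ▸ k4, .inr v4⟩)
      have := sp v hv v1 v2 v3 v4
      exact .inr (.inr ⟨⟨this.1, this.2.1⟩, this.2.2.2.1, this.2.2.2.2.1⟩)
    exact fun u hu v hv e k => two_cls q4 e k (t0 u hu) (t0 v hv) fun p q =>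
      e (s2 (mem_coe.2 p.1) (mem_coe.2 q.1) (p.2.symm.trans (k.trans q.2)))
  have t3 : ∀ u ∈ Q, ∀ v, v ∉ Q → v ∉ X → G.Adj u v → χ u ≠ c v := fun u hu v v1 v2 k e =>
    (t1 u hu).2 (mem_union_left _ (mem_image.2 ⟨v, by simp [k, v1, v2], e.symm⟩))
  have t4 : ∀ u ∈ Q, ∀ i ∈ I, (x i = u ∨ y i = u ∨ u ∈ B i) → oth x y u i ∉ Q →
      χ u ≠ c (oth x y u i) := fun u hu i i1 i2 i3 e =>
    (t1 u hu).2 (mem_union_right _ (mem_image.2
      ⟨i, mem_filter.2 ⟨mem_filter.2 ⟨i1, i2⟩, i3⟩, e.symm⟩))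
  have cX : ∀ v ∈ X, ¬ c v < D := fun v hv k => (c2 v).1 k (mem_union_left _ (XW hv))
  refine ⟨fun v => if v ∈ Q then χ v else c v, fun u v k l => ?_, fun v => ?_,
    fun i hi w1 w2 w3 => ?_, fun i hi z z1 z2 => ?_⟩
  · dsimp only at l ⊢
    by_cases hu : u ∈ Q <;> by_cases hv : v ∈ Q <;> simp only [hu, hv, if_true, if_false] at l ⊢
    · intro e
      rcases t2 u hu v hv k.ne e with ⟨-, z | z⟩ | ⟨-, z | z⟩ <;> rw [z.1, z.2] at k
      exacts [n1 k, n1 k.symm, n2 k, n2 k.symm]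
    · exact fun e => t3 u hu v hv (fun z => cX v z (e ▸ l)) k e
    · exact fun e => t3 v hv u hu (fun z => cX u z l) k.symm e.symm
    · exact c1 u v k l
  · dsimp only
    split_ifs with k
    · exact iff_of_true (t1 v k).1 (hW v k)
    · rw [c2 v, mem_union]; tauto
  · have ne := hne i hi
    dsimp only
    by_cases hu : x i ∈ Q <;> by_cases hv : y i ∈ Q <;> simp only [hu, hv, if_true, if_false]
    · intro e
      rcases t2 _ hu _ hv ne e with ⟨-, g⟩ | ⟨-, g⟩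
      · exact w3 (mem_union_right _ (mem_union_left _ (mem_filter.2 ⟨hi, g⟩)))
      · exact w3 (mem_union_right _ (mem_union_right _ (mem_filter.2 ⟨hi, g⟩)))
    · have o : oth x y (x i) i = y i := by rw [oth, if_pos rfl]
      exact o ▸ t4 _ hu i hi (.inl rfl) (o ▸ hv)
    · have o : oth x y (y i) i = x i := by rw [oth, if_neg ne]
      exact (o ▸ t4 _ hv i hi (.inr (.inl rfl)) (o ▸ hu)).symm
    · exact c3.1 i hi (by simp [w1, hu]) (by simp [w2, hv]) fun z => w3 (mem_union_left _ z)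
  · dsimp only
    have pr : ∀ {u v : V} {κ : ℕ}, u ∈ Q → v ∈ Q → u ≠ v → χ u = κ → χ v = κ →
        (∀ w ∈ Q, w ≠ u → w ≠ v → χ w ≠ κ) → (∀ i ∈ Prs I x y u v, ∀ b ∈ B i, c b ≠ κ) →
        i ∈ Prs I x y u v → (if z ∈ Q then χ z else c z) ≠ if x i ∈ Q then χ (x i) else c (x i) := by
      intro u v κ hu hv _ ku kv kw kp m
      obtain ⟨m1, m2⟩ := mem_filter.1 m
      obtain ⟨b1, b2, -⟩ := hB i m1
      have q1 : z ≠ x i := fun q => b1 (q ▸ z1)
      have q2 : z ≠ y i := fun q => b2 (q ▸ z1)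
      have r : x i ∈ Q ∧ χ (x i) = κ ∧ z ≠ u ∧ z ≠ v := by
        rcases m2 with ⟨f, g⟩ | ⟨f, g⟩
        · exact ⟨f ▸ hu, f ▸ ku, f ▸ q1, g ▸ q2⟩
        · exact ⟨f ▸ hv, f ▸ kv, g ▸ q2, f ▸ q1⟩
      rw [if_pos r.1, r.2.1]
      split_ifs with l
      · exact kw z l r.2.2.1 r.2.2.2
      · exact kp i m z z1
    rcases mem_union.1 hi with m | m
    · obtain ⟨m1, hu⟩ := hE i m
      obtain ⟨b1, -, -⟩ := hB i m1
      rw [if_neg hu]
      split_ifs with l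
      · have o : oth x y z i = x i := by
          rw [oth, if_neg fun q : x i = z => b1 (q ▸ z1)]
        exact o ▸ t4 z l i m1 (.inr (.inr z1)) (o ▸ hu)
      · exact c3.2 i m z z1 (by simp [z2, l])
    rcases mem_union.1 m with m | m
    · refine pr ha hb ab k1 k2 (fun w hw w1 w2 f => ?_) p3 m
      rcases t2 w hw a ha w1 (f.trans k1.symm) with ⟨-, g | g⟩ | ⟨g, -⟩
      exacts [w1 g.1, w2 g.1, q4 (g.symm.trans f)]
    · refine pr ha' hb' ab' k3 k4 (fun w hw w1 w2 f => ?_) q3 m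
      rcases t2 w hw a' ha' w1 (f.trans k3.symm) with ⟨g, -⟩ | ⟨-, g | g⟩
      exacts [q4 (f.symm.trans g), w1 g.1, w2 g.1]

/-- Virtual edges: a set `E` of them, fixed before the fallback sets are chosen, is given up. -/
theorem req3 (h : MC G D) (hD : 8 ≤ D) (X : Finset V) {x0 y0 : V} (hx : x0 ∈ X)
    (a0 : G.Adj y0 x0) (hne : ∀ i ∈ I, x i ≠ y i)
    (big : ∀ K, IsClq G K → K.card = D → (∀ a ∈ K, a ∉ X) → ∀ s, s ∉ K →
      (K.filter fun v => ∃ i ∈ I, (x i = s ∧ y i = v) ∨ (x i = v ∧ y i = s)).card + 2 ≤ D) :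
    ∃ E ⊆ I, (∀ i ∈ E, (nb G (x i) ∩ X).card ≤ (Occ I x y (fun _ => ∅) (x i)).card + 1) ∧
      ∀ B : ι → Finset V, (∀ i ∈ I, x i ∉ B i ∧ y i ∉ B i ∧ (B i).card ≤ 3) →
        (∀ v, v ∉ X → (Occ I x y B v).card ≤ (nb G v ∩ X).card) →
        ∃ c, PCol G D c ∧ (∀ v, c v < D ↔ v ∉ X) ∧ Mt3 I x y B E X c := by
  suffices H : ∀ n, ∀ W : Finset V, X ⊆ W → (univ \ W).card = n →
      ∃ E ⊆ I, (∀ i ∈ E, x i ∉ W ∧
        (nb G (x i) ∩ X).card ≤ (Occ I x y (fun _ => ∅) (x i)).card + 1) ∧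
      ∀ B : ι → Finset V, (∀ i ∈ I, x i ∉ B i ∧ y i ∉ B i ∧ (B i).card ≤ 3) →
        (∀ v, v ∉ X → (Occ I x y B v).card ≤ (nb G v ∩ X).card) →
        ∃ c, PCol G D c ∧ (∀ v, c v < D ↔ v ∉ W) ∧ Mt3 I x y B E W c by
    obtain ⟨E, a, b, c⟩ := H _ X Subset.rfl rfl
    exact ⟨E, a, fun i k => (b i k).2, c⟩
  intro n
  induction n using Nat.strong_induction_on with
  | _ n ih =>
  intro W XW hn
  by_cases k : ∃ Q : Finset V, Q.card = D + 1 ∧ (∀ a ∈ Q, a ∉ W) ∧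
      ∀ a ∈ Q, ∀ b ∈ Q, a ≠ b → G.Adj a b ∨ (∃ i ∈ I, x i = a ∧ y i = b) ∨
        ∃ i ∈ I, x i = b ∧ y i = a
  · obtain ⟨Q, cQ, q2, hQ⟩ := k
    have hX : ∀ a ∈ Q, a ∉ X := fun a ha k => q2 a ha (XW k)
    obtain ⟨s, hs⟩ := (card_pos (s := Q)).1 (by omega)
    obtain ⟨E, E1, E2, E3⟩ := ih _ (hn ▸ card_lt_card (s := univ \ (W ∪ Q)) (t := univ \ W)
      ⟨sdiff_subset_sdiff Subset.rfl subset_union_left, fun z => by
        have := z (show s ∈ univ \ W by simp [q2 s hs])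
        simp [hs] at this⟩) (W ∪ Q) (XW.trans subset_union_left) rfl
    obtain ⟨a, ha, b, hb, a', ha', b', hb', ab, ab', e1, e2, e3, e4, n1, n2⟩ :=
      two_non h hD Q cQ fun s hs cl k => by
        have := big _ cl (by rw [card_erase_of_mem hs]; omega)
          (fun u hu => hX u (mem_of_mem_erase hu)) s (notMem_erase s Q)
        have : ((Q.erase s).filter fun v => ¬ G.Adj s v).card ≤ ((Q.erase s).filter fun v =>
            ∃ i ∈ I, (x i = s ∧ y i = v) ∨ (x i = v ∧ y i = s)).card := card_le_card fun v hv => by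
          obtain ⟨v1, v2⟩ := mem_filter.1 hv
          have v3 := mem_of_mem_erase v1
          rcases (hQ s hs v v3 (ne_of_mem_erase v1).symm).resolve_left v2 with
            ⟨i, i1, i2⟩ | ⟨i, i1, i2⟩
          · exact mem_filter.2 ⟨v1, i, i1, .inl i2⟩
          · exact mem_filter.2 ⟨v1, i, i1, .inr i2⟩
        omega
    have tg : ∀ v ∈ Q, (nb G v ∩ X).card ≤ (Occ I x y (fun _ => ∅) v).card + 1 := fun v hv => by
      have s : Q.erase v ⊆ (nb G v ∩ Q) ∪ (Occ I x y (fun _ => ∅) v).image (oth x y v) := by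
        intro u hu
        have e := ne_of_mem_erase hu
        rcases hQ v hv u (mem_of_mem_erase hu) e.symm with k | ⟨i, i1, i2, i3⟩ | ⟨i, i1, i2, i3⟩
        · exact mem_union_left _ (mem_inter.2 ⟨mem_nb.2 k, mem_of_mem_erase hu⟩)
        · exact mem_union_right _ (mem_image.2
            ⟨i, mem_filter.2 ⟨i1, .inl i2⟩, by rw [oth, if_pos i2, i3]⟩)
        · exact mem_union_right _ (mem_image.2
            ⟨i, mem_filter.2 ⟨i1, .inr (.inl i3)⟩, by rw [oth, if_neg (i2 ▸ e), i2]⟩)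
      have := card_le_card s
      have := card_union_le (nb G v ∩ Q) ((Occ I x y (fun _ => ∅) v).image (oth x y v))
      have := card_image_le (s := Occ I x y (fun _ => ∅) v) (f := oth x y v)
      have := card_erase_of_mem hv
      have := h.deg v
      have := card_le_card (union_subset (inter_subset_left (s₁ := nb G v) (s₂ := X))
        (inter_subset_left (s₁ := nb G v) (s₂ := Q)))
      rw [card_union_of_disjoint (disjoint_left.2 fun u a b =>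
        hX u (mem_inter.1 b).2 (mem_inter.1 a).2)] at this
      omega
    have pq : ∀ u ∈ Q, ∀ v ∈ Q, ∀ i ∈ Prs I x y u v, i ∈ I ∧ x i ∈ Q := fun u hu v hv i m => by
      obtain ⟨m1, m2 | m2⟩ := mem_filter.1 m
      exacts [⟨m1, m2.1 ▸ hu⟩, ⟨m1, m2.1 ▸ hv⟩]
    have pq2 : ∀ i ∈ Prs I x y a b ∪ Prs I x y a' b', i ∈ I ∧ x i ∈ Q := fun i m =>
      (mem_union.1 m).elim (pq a ha b hb i) (pq a' ha' b' hb' i)
    refine ⟨E ∪ (Prs I x y a b ∪ Prs I x y a' b'), union_subset E1 fun i m => (pq2 i m).1,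
      fun i m => ?_, fun B hB tie => ?_⟩
    · rcases mem_union.1 m with m | m
      · exact ⟨fun z => (E2 i m).1 (mem_union_left _ z), (E2 i m).2⟩
      · exact ⟨q2 _ (pq2 i m).2, tg _ (pq2 i m).2⟩
    · obtain ⟨c, c1, c2, c3⟩ := E3 B hB tie
      exact req_step3 h hD XW hne hB tie cQ q2 hQ ha hb ha' hb' ab ab' e1 e2 e3 e4 n1 n2
        (fun i m => ⟨E1 m, fun z => (E2 i m).1 (mem_union_right _ z)⟩) c1 c2 c3
  · refine ⟨∅, empty_subset _, by simp, fun B _ tie => ?_⟩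
    obtain ⟨c, c1, c2, c3⟩ := col_off h W (fun u v => ∃ i ∈ I, x i = u ∧ y i = v) (XW hx) a0
      (fun u hu => ⟨(Occ I x y B u).image (oth x y u),
        card_image_le.trans ((tie u fun z => hu (XW z)).trans
          (card_le_card (inter_subset_inter Subset.rfl XW))), by
        rintro v (⟨i, i1, i2, i3⟩ | ⟨i, i1, i2, i3⟩)
        · exact mem_image.2 ⟨i, mem_filter.2 ⟨i1, .inl i2⟩, by rw [oth, if_pos i2, i3]⟩
        · exact mem_image.2 ⟨i, mem_filter.2 ⟨i1, .inr (.inl i3)⟩,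
            by rw [oth, if_neg (i3 ▸ hne i i1), i2]⟩⟩)
      fun Q q1 q2 q3 => k ⟨Q, q1, q2, q3⟩
    exact ⟨c, c1, c2, fun i hi w1 w2 _ => c3 _ _ (hne i hi) w1 w2 ⟨i, hi, rfl, rfl⟩, by simp⟩

end Pool.Agent.Lib.MP_12eaff_co.BK
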