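import Mathlib
import Pool.Agent.Lib.MP_12eaff_co.Req
import Pool.Agent.Lib.MP_12eaff_co.Ker2

set_option autoImplicit false

namespace Pool.Agent.Lib.MP_12eaff_co.BK

open Finset Ker
open scoped Classical

variable {V : Type} [Fintype V] {G : SimpleGraph V} {D : ℕ}

/-- No set of `D+1` vertices is a clique up to a matching. -/
theorem no_match (h : MC G D) (hD : 8 ≤ D) {Q : Finset V} (cQ : Q.card = D + 1)
    (m : ∀ v ∈ Q, ∀ u ∈ Q, ∀ w ∈ Q, u ≠ v → w ≠ v → ¬ G.Adj v u → ¬ G.Adj v w → u = w) :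
    False := by
  obtain ⟨a, ha, b, hb, a', ha', b', hb', ab, ab', e1, e2, e3, e4, n1, n2⟩ :=
    two_non h hD Q cQ fun s hs _ k => by
      have : ((Q.erase s).filter fun v => ¬ G.Adj s v).card ≤ 1 := card_le_one.2 fun u p w q =>
        m s hs u (mem_of_mem_erase (mem_filter.1 p).1) w (mem_of_mem_erase (mem_filter.1 q).1)
          (ne_of_mem_erase (mem_filter.1 p).1) (ne_of_mem_erase (mem_filter.1 q).1)
          (mem_filter.1 p).2 (mem_filter.1 q).2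
      omega
  have ad : ∀ u ∈ Q, ∀ w ∈ Q, u ≠ w → ¬ G.Adj u w → ∀ v ∈ Q, v ≠ u → v ≠ w → G.Adj u v :=
    fun u p w q e n v r k l => by_contra fun z => l (m u p v r w q k e.symm z n)
  have A1 := ad a ha b hb ab n1
  have A2 := ad b hb a ha ab.symm fun z => n1 z.symm
  have A3 := ad a' ha' b' hb' ab' n2
  have A4 := ad b' hb' a' ha' ab'.symm fun z => n2 z.symm
  obtain ⟨c, c1, c2, -⟩ := col_off h Q (fun _ _ => False) ha' (A1 a' ha' e1.symm e3.symm)
    (fun u _ => ⟨∅, by simp, by simp⟩) fun R r1 _ r3 => by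
      have := h.cf R fun u p v q e => by simpa using r3 u p v q e
      omega
  let Br : V → Finset ℕ := fun v => (nb G v \ Q).image c
  have b0 : ∀ v, (Br v).card + (nb G v ∩ Q).card ≤ D + 1 := fun v => by
    have := card_image_le (s := nb G v \ Q) (f := c)
    have := card_sdiff_add_card_inter (nb G v) Q
    have := h.deg v
    simp only [Br]; omega
  have b2 : ∀ u ∈ Q, ∀ w, (∀ v ∈ Q, v ≠ u → v ≠ w → G.Adj u v) → (Br u).card ≤ 2 :=
    fun u p w k => by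
      have := card_le_card (s := (Q.erase u).erase w) (t := nb G u ∩ Q) fun v q =>
        mem_inter.2 ⟨mem_nb.2 (k v (mem_of_mem_erase (mem_of_mem_erase q))
          (ne_of_mem_erase (mem_of_mem_erase q)) (ne_of_mem_erase q)),
          mem_of_mem_erase (mem_of_mem_erase q)⟩
      have := pred_card_le_card_erase (s := Q.erase u) (a := w)
      have := card_erase_of_mem p
      have := b0 u
      omega
  have fr : ∀ u w z, (Br u).card ≤ 2 → (Br w).card ≤ 2 →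
      ∃ φ < D, φ ≠ z ∧ φ ∉ Br u ∧ φ ∉ Br w := fun u w z p q => by
    have := card_union_le (Br u) (Br w)
    have := card_insert_le z (Br u ∪ Br w)
    obtain ⟨φ, p1, p2⟩ := exists_mem_notMem_of_card_lt_card (t := range D)
      (s := insert z (Br u ∪ Br w)) (by rw [card_range]; omega)
    simp only [mem_insert, mem_union, not_or] at p2
    exact ⟨φ, mem_range.1 p1, p2⟩
  obtain ⟨φ, p0, -, p1, p2⟩ := fr a b 0 (b2 a ha b A1) (b2 b hb a fun v p q r => A2 v p q r)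
  obtain ⟨φ', q0, q3, q1, q2⟩ := fr a' b' φ (b2 a' ha' b' A3)
    (b2 b' hb' a' fun v p q r => A4 v p q r)
  have c4 : ({a, b, a', b'} : Finset V).card = 4 := by
    rw [card_insert_of_notMem (by simp [ab, e1, e2]), card_insert_of_notMem (by simp [e3, e4]),
      card_pair ab']
  have mR : ∀ v, v ∈ Q \ {a, b, a', b'} ↔ v ∈ Q ∧ v ≠ a ∧ v ≠ b ∧ v ≠ a' ∧ v ≠ b' := by simp
  obtain ⟨d, d1, d2⟩ := col_front (cl := fun v : V => v) (pos := fun _ => 0)
    (fr := fun _ => False) (X := G.Adj) (fun _ _ k => k.symm) (fun _ k => k.ne rfl)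
    (fun _ _ k => k.elim) (Q \ {a, b, a', b'}) (fun _ _ _ _ k _ => k)
    (fun v => range D \ insert φ (insert φ' (Br v))) fun v hv => by
      obtain ⟨v0, v1, v2, v3, v4⟩ := (mR v).1 hv
      have s : ({a, b, a', b'} : Finset V) ⊆ nb G v ∩ Q := by
        simp [insert_subset_iff, ha, hb, ha', hb', (A1 v v0 v1 v2).symm, (A2 v v0 v2 v1).symm,
          (A3 v v0 v3 v4).symm, (A4 v v0 v4 v3).symm]
      have := card_sdiff_add_card_eq_card s
      have := le_card_sdiff (insert φ (insert φ' (Br v))) (range D)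
      have := card_insert_le φ (insert φ' (Br v))
      have := card_insert_le φ' (Br v)
      have := b0 v
      rw [card_range] at *
      refine lt_of_le_of_lt (card_le_card (t := (nb G v ∩ Q) \ {a, b, a', b'}) fun u hu => ?_)
        (by omega)
      obtain ⟨u1, u2 | u2⟩ := mem_filter.1 hu
      · exact absurd u2.2 (lt_irrefl _)
      · exact mem_sdiff.2 ⟨mem_inter.2 ⟨mem_nb.2 u2.1, (mem_sdiff.1 u1).1⟩, (mem_sdiff.1 u1).2⟩
  obtain ⟨χ, t⟩ : ∃ χ : V → ℕ, ∀ v ∈ Q, (χ v = φ ∧ (v = a ∨ v = b)) ∨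
      (χ v = φ' ∧ (v = a' ∨ v = b')) ∨ (v ∈ Q \ {a, b, a', b'} ∧ χ v = d v) :=
    ⟨fun v => if v = a ∨ v = b then φ else if v = a' ∨ v = b' then φ' else d v, fun v p => by
      dsimp only
      split_ifs with k l
      · exact .inl ⟨rfl, k⟩
      · exact .inr (.inl ⟨rfl, l⟩)
      · exact .inr (.inr ⟨(mR v).2 (by tauto), rfl⟩)⟩
  have dd : ∀ v ∈ Q \ {a, b, a', b'}, d v < D ∧ d v ≠ φ ∧ d v ≠ φ' ∧ d v ∉ Br v := fun v p => by
    simpa only [mem_sdiff, mem_range, mem_insert, not_or] using d1 v p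
  have t1 : ∀ v ∈ Q, χ v < D ∧ χ v ∉ Br v := fun v p => by
    rcases t v p with ⟨k, rfl | rfl⟩ | ⟨k, rfl | rfl⟩ | ⟨l, k⟩ <;> rw [k]
    exacts [⟨p0, p1⟩, ⟨p0, p2⟩, ⟨q0, q1⟩, ⟨q0, q2⟩, ⟨(dd v l).1, (dd v l).2.2.2⟩]
  have t3 : ∀ u ∈ Q, ∀ v, v ∉ Q → G.Adj u v → χ u ≠ c v := fun u hu v v1 k e =>
    (t1 u hu).2 (mem_image.2 ⟨v, by simp [k, v1], e.symm⟩)
  refine h.ncol ⟨fun v => if v ∈ Q then χ v else c v, fun v => ?_, fun u v k => ?_⟩
  · dsimp only
    split_ifs with p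
    exacts [(t1 v p).1, (c2 v).2 p]
  · by_cases hu : u ∈ Q <;> by_cases hv : v ∈ Q <;> simp only [hu, hv, if_true, if_false]
    · intro e
      rcases two_cls (P := u ∈ Q \ {a, b, a', b'} ∧ χ u = d u)
        (Q := v ∈ Q \ {a, b, a', b'} ∧ χ v = d v) q3 k.ne e
        ((t u hu).imp id (Or.imp id fun z => ⟨z, z.2 ▸ (dd u z.1).2.1, z.2 ▸ (dd u z.1).2.2.1⟩))
        ((t v hv).imp id (Or.imp id fun z => ⟨z, z.2 ▸ (dd v z.1).2.1, z.2 ▸ (dd v z.1).2.2.1⟩))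
        (fun p q => d2 u p.1 v q.1 k.ne (.inr k) (p.2.symm.trans (e.trans q.2)))
        with ⟨-, z | z⟩ | ⟨-, z | z⟩ <;> rw [z.1, z.2] at k
      exacts [n1 k, n1 k.symm, n2 k, n2 k.symm]
    · exact t3 u hu v hv k
    · exact (t3 v hv u hu k.symm).symm
    · exact c1 u v k ((c2 u).2 hu)

/-- Colouring of `D+1` vertices with two repeated colours. -/
theorem two_pair {Q : Finset V} (cQ : Q.card = D + 1) (Br : V → Finset ℕ)
    (hb : ∀ v ∈ Q, (Br v).card ≤ 1) {a b a' b' : V} (ha : a ∈ Q) (hb0 : b ∈ Q) (ha' : a' ∈ Q)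
    (hb' : b' ∈ Q) (ab : a ≠ b) (ab' : a' ≠ b') (e1 : a ≠ a') (e2 : a ≠ b') (e3 : b ≠ a')
    (e4 : b ≠ b') {φ φ' : ℕ} (p0 : φ < D) (p1 : φ ∉ Br a) (p2 : φ ∉ Br b) (q0 : φ' < D)
    (q1 : φ' ∉ Br a') (q2 : φ' ∉ Br b') (q4 : φ' ≠ φ) :
    ∃ χ : V → ℕ, (∀ v ∈ Q, χ v < D ∧ χ v ∉ Br v) ∧ ∀ u ∈ Q, ∀ v ∈ Q, u ≠ v → χ u = χ v →
      (χ u = φ ∧ ((u = a ∧ v = b) ∨ (u = b ∧ v = a))) ∨
      (χ u = φ' ∧ ((u = a' ∧ v = b') ∨ (u = b' ∧ v = a'))) := by
  have c4 : ({a, b, a', b'} : Finset V).card = 4 := by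
    rw [card_insert_of_notMem (by simp [ab, e1, e2]), card_insert_of_notMem (by simp [e3, e4]),
      card_pair ab']
  have cR : (Q \ {a, b, a', b'}).card + 4 = D + 1 := by
    rw [← c4, card_sdiff_add_card_eq_card (by simp [insert_subset_iff, ha, hb0, ha', hb']), cQ]
  obtain ⟨ψ, s1, s2⟩ := sdr (Q \ {a, b, a', b'})
    (fun v => range D \ insert φ (insert φ' (Br v))) fun S hS => by
      rcases S.eq_empty_or_nonempty with rfl | ⟨v, hv⟩
      · simp
      have := card_le_card hS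
      have := card_le_card (subset_biUnion_of_mem
        (fun v => range D \ insert φ (insert φ' (Br v))) hv)
      have := le_card_sdiff (insert φ (insert φ' (Br v))) (range D)
      have := card_insert_le φ (insert φ' (Br v))
      have := card_insert_le φ' (Br v)
      have := hb v (mem_sdiff.1 (hS hv)).1
      rw [card_range] at *
      omega
  obtain ⟨χ, t⟩ : ∃ χ : V → ℕ, ∀ v ∈ Q, (χ v = φ ∧ (v = a ∨ v = b)) ∨
      (χ v = φ' ∧ (v = a' ∨ v = b')) ∨ (v ∈ Q \ {a, b, a', b'} ∧ χ v = ψ v) :=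
    ⟨fun v => if v = a ∨ v = b then φ else if v = a' ∨ v = b' then φ' else ψ v, fun v p => by
      dsimp only
      split_ifs with k l
      · exact .inl ⟨rfl, k⟩
      · exact .inr (.inl ⟨rfl, l⟩)
      · exact .inr (.inr ⟨by simp only [mem_sdiff, mem_insert, mem_singleton]; tauto, rfl⟩)⟩
  have dd : ∀ v ∈ Q \ {a, b, a', b'}, ψ v < D ∧ ψ v ≠ φ ∧ ψ v ≠ φ' ∧ ψ v ∉ Br v := fun v p => by
    simpa only [mem_sdiff, mem_range, mem_insert, not_or] using s1 v p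
  refine ⟨χ, fun v p => ?_, fun u hu v hv k e => two_cls
    (P := u ∈ Q \ {a, b, a', b'} ∧ χ u = ψ u) (Q := v ∈ Q \ {a, b, a', b'} ∧ χ v = ψ v) q4 k e
    ((t u hu).imp id (Or.imp id fun z => ⟨z, z.2 ▸ (dd u z.1).2.1, z.2 ▸ (dd u z.1).2.2.1⟩))
    ((t v hv).imp id (Or.imp id fun z => ⟨z, z.2 ▸ (dd v z.1).2.1, z.2 ▸ (dd v z.1).2.2.1⟩))
    fun p q => k (s2 (mem_coe.2 p.1) (mem_coe.2 q.1) (p.2.symm.trans (e.trans q.2)))⟩
  rcases t v p with ⟨k, rfl | rfl⟩ | ⟨k, rfl | rfl⟩ | ⟨l, k⟩ <;> rw [k]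
  exacts [⟨p0, p1⟩, ⟨p0, p2⟩, ⟨q0, q1⟩, ⟨q0, q2⟩, ⟨(dd v l).1, (dd v l).2.2.2⟩]

/-- Colouring of `D+1` vertices with one repeated colour. -/
theorem one_pair {Q : Finset V} (cQ : Q.card = D + 1) (Br : V → Finset ℕ)
    (hb : ∀ v ∈ Q, (Br v).card ≤ 1) {a b p : V} (ha : a ∈ Q) (hb0 : b ∈ Q) (ab : a ≠ b)
    (hp : p ∈ Q) (pa : p ≠ a) (pb : p ≠ b) (e : Br p = ∅) {φ : ℕ} (p0 : φ < D) (p1 : φ ∉ Br a)
    (p2 : φ ∉ Br b) :
    ∃ χ : V → ℕ, (∀ v ∈ Q, χ v < D ∧ χ v ∉ Br v) ∧ ∀ u ∈ Q, ∀ v ∈ Q, u ≠ v → χ u = χ v →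
      χ u = φ ∧ ((u = a ∧ v = b) ∨ (u = b ∧ v = a)) := by
  have cR : (Q \ {a, b}).card + 2 = D + 1 := by
    rw [← card_pair ab, card_sdiff_add_card_eq_card (by simp [insert_subset_iff, ha, hb0]), cQ]
  obtain ⟨ψ, s1, s2⟩ := sdr (Q \ {a, b}) (fun v => range D \ insert φ (Br v)) fun S hS => by
    have k : ∀ v ∈ S, D ≤ (S.biUnion fun v => range D \ insert φ (Br v)).card + (Br v).card + 1 :=
      fun v hv => by
        have := card_le_card (subset_biUnion_of_mem (fun v => range D \ insert φ (Br v)) hv)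
        have := le_card_sdiff (insert φ (Br v)) (range D)
        have := card_insert_le φ (Br v)
        rw [card_range] at *
        omega
    have := card_le_card hS
    by_cases m : p ∈ S
    · have := k p m
      rw [e, card_empty] at this
      omega
    rcases S.eq_empty_or_nonempty with rfl | ⟨v, hv⟩
    · simp
    have := card_lt_card (s := S) (t := Q \ {a, b}) ⟨hS, fun z => m (z (by simp [hp, pa, pb]))⟩
    have := k v hv
    have := hb v (mem_sdiff.1 (hS hv)).1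
    omega
  have dd : ∀ v ∈ Q, ¬ (v = a ∨ v = b) →
      v ∈ Q \ {a, b} ∧ ψ v < D ∧ ψ v ≠ φ ∧ ψ v ∉ Br v := fun v q k => by
    have m : v ∈ Q \ {a, b} := by simpa [q] using k
    exact ⟨m, by simpa only [mem_sdiff, mem_range, mem_insert, not_or] using s1 v m⟩
  refine ⟨fun v => if v = a ∨ v = b then φ else ψ v, fun v q => ?_, fun u hu v hv k => ?_⟩
  · dsimp only
    split_ifs with k
    · rcases k with rfl | rfl
      exacts [⟨p0, p1⟩, ⟨p0, p2⟩]
    · exact ⟨(dd v q k).2.1, (dd v q k).2.2.2⟩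
  · dsimp only
    split_ifs with l m m <;> intro z
    · exact ⟨rfl, by grind⟩
    · exact absurd z.symm (dd v hv m).2.2.1
    · exact absurd z (dd u hu l).2.2.1
    · exact absurd (s2 (mem_coe.2 (dd u hu l).1) (mem_coe.2 (dd v hv m).1) z) k

section Req

variable {ι : Type} (I : Finset ι) (x y : ι → V) (B : ι → Finset V)

/-- Requirements with `v` as an end. -/
noncomputable def Ed (v : V) : Finset ι := I.filter fun i => x i = v ∨ y i = v

/-- First ends of the requirements with `v` in the fallback set. -/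
noncomputable def Cen (v : V) : Finset V := (I.filter fun i => v ∈ B i).image x

/-- Colours barred at `v` when the set `Q` is coloured last. -/
noncomputable def Bar3 (G : SimpleGraph V) (X Q : Finset V) (c : V → ℕ) (v : V) : Finset ℕ :=
  (nb G v \ (X ∪ Q)).image c ∪ ((((Ed I x y v).filter fun i => oth x y v i ∉ Q).image
    fun i => c (oth x y v i)) ∪ (Cen I x B v \ Q).image c)

variable {I x y B}

theorem bar3_card (h : MC G D) {X Q : Finset V} (c : V → ℕ) (cQ : Q.card = D + 1)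
    (hX : ∀ a ∈ Q, a ∉ X) (hne : ∀ i ∈ I, x i ≠ y i)
    (hQ : ∀ a ∈ Q, ∀ b ∈ Q, a ≠ b → G.Adj a b ∨ (∃ i ∈ I, x i = a ∧ y i = b) ∨
      ∃ i ∈ I, x i = b ∧ y i = a) {v : V} (hv : v ∈ Q) {n : ℕ}
    (tie : (Ed I x y v).card + (Cen I x B v).card + n ≤ (nb G v ∩ X).card) :
    (Bar3 I x y B G X Q c v).card + n ≤ 1 ∧
      ∀ w ∈ Q, (Bar3 I x y B G X Q c v).card + n + (Prs I x y v w).card ≤ 2 := by
  set J := Ed I x y v
  have h1 : (Bar3 I x y B G X Q c v).card ≤ (nb G v \ (X ∪ Q)).card +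
      ((J.filter fun i => oth x y v i ∉ Q).card + (Cen I x B v).card) :=
    (card_union_le _ _).trans (add_le_add card_image_le ((card_union_le _ _).trans
      (add_le_add card_image_le (card_image_le.trans (card_le_card sdiff_subset)))))
  have h2 := card_filter_add_card_filter_not (s := J) (fun i => oth x y v i ∈ Q)
  have h3 := card_sdiff_add_card_inter (nb G v) (X ∪ Q)
  have h4 : (nb G v ∩ (X ∪ Q)).card = (nb G v ∩ X).card + (nb G v ∩ Q).card := by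
    rw [inter_union_distrib_left, card_union_of_disjoint]
    exact disjoint_left.2 fun u a b => hX u (mem_inter.1 b).2 (mem_inter.1 a).2
  have h5 := h.deg v
  have key : ∀ u ∈ Q, u ≠ v → u ∈ nb G v ∩ Q ∨
      ∃ i ∈ J.filter fun i => oth x y v i ∈ Q, oth x y v i = u := by
    intro u hu e
    rcases hQ v hv u hu e.symm with k | ⟨i, i1, i2, i3⟩ | ⟨i, i1, i2, i3⟩
    · exact .inl (mem_inter.2 ⟨mem_nb.2 k, hu⟩)
    · have o : oth x y v i = u := by rw [oth, if_pos i2, i3]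
      exact .inr ⟨i, mem_filter.2 ⟨mem_filter.2 ⟨i1, .inl i2⟩, o ▸ hu⟩, o⟩
    · have o : oth x y v i = u := by rw [oth, if_neg (i2 ▸ e), i2]
      exact .inr ⟨i, mem_filter.2 ⟨mem_filter.2 ⟨i1, .inr i3⟩, o ▸ hu⟩, o⟩
  have ce := card_erase_of_mem hv
  constructor
  · have s : Q.erase v ⊆ (nb G v ∩ Q) ∪ (J.filter fun i => oth x y v i ∈ Q).image (oth x y v) :=
      fun u hu => mem_union.2 ((key u (mem_of_mem_erase hu) (ne_of_mem_erase hu)).imp id
        fun k => mem_image.2 k)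
    have := card_le_card s
    have := card_union_le (nb G v ∩ Q) ((J.filter fun i => oth x y v i ∈ Q).image (oth x y v))
    have := card_image_le (s := J.filter fun i => oth x y v i ∈ Q) (f := oth x y v)
    omega
  · intro w hw
    have po : ∀ i ∈ Prs I x y v w, i ∈ J ∧ oth x y v i = w := by
      intro i hi
      obtain ⟨i1, k | k⟩ := mem_filter.1 hi
      · exact ⟨mem_filter.2 ⟨i1, .inl k.1⟩, by rw [oth, if_pos k.1, k.2]⟩
      · exact ⟨mem_filter.2 ⟨i1, .inr k.2⟩, by rw [oth, if_neg (k.2 ▸ hne i i1), k.1]⟩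
    have sub : Prs I x y v w ⊆ J.filter fun i => oth x y v i ∈ Q := fun i hi =>
      mem_filter.2 ⟨(po i hi).1, (po i hi).2 ▸ hw⟩
    have s : (Q.erase v).erase w ⊆ (nb G v ∩ Q) ∪
        ((J.filter fun i => oth x y v i ∈ Q) \ Prs I x y v w).image (oth x y v) := by
      intro u hu
      have u1 := mem_of_mem_erase hu
      rcases key u (mem_of_mem_erase u1) (ne_of_mem_erase u1) with k | ⟨i, i1, i2⟩
      · exact mem_union_left _ k
      · exact mem_union_right _ (mem_image.2 ⟨i, mem_sdiff.2 ⟨i1, fun k =>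
          ne_of_mem_erase hu (i2.symm.trans (po i k).2)⟩, i2⟩)
    have := card_le_card s
    have := card_union_le (nb G v ∩ Q)
      (((J.filter fun i => oth x y v i ∈ Q) \ Prs I x y v w).image (oth x y v))
    have := card_image_le (s := (J.filter fun i => oth x y v i ∈ Q) \ Prs I x y v w)
      (f := oth x y v)
    have := card_sdiff_add_card_eq_card sub
    have := pred_card_le_card_erase (s := Q.erase v) (a := w)
    omega

/-- The requirements of `H` hold without their fallback. -/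
def Hard (H : Finset ι) (x y : ι → V) (W : Finset V) (c : V → ℕ) : Prop :=
  ∀ i ∈ H, x i ∉ W → y i ∉ W → c (x i) ≠ c (y i)

theorem put3 {H : Finset ι} (sub : H ⊆ I) {X W Q : Finset V} (XW : X ⊆ W)
    (hne : ∀ i ∈ I, x i ≠ y i) (hB : ∀ i ∈ I, x i ∉ B i ∧ y i ∉ B i ∧ (B i).card ≤ 3)
    (hW : ∀ a ∈ Q, a ∉ W) {c : V → ℕ} (c1 : PCol G D c) (c2 : ∀ v, c v < D ↔ v ∉ W ∪ Q)
    (c3 : Meets I x y B (W ∪ Q) c) (c4 : Hard H x y (W ∪ Q) c) {χ : V → ℕ}
    (t1 : ∀ v ∈ Q, χ v < D ∧ χ v ∉ Bar3 I x y B G X Q c v)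
    (t2 : ∀ u ∈ Q, ∀ v ∈ Q, u ≠ v → χ u = χ v → ¬ G.Adj u v ∧ Prs H x y u v = ∅ ∧
      (∀ w ∈ Q, χ w = χ u → w = u ∨ w = v) ∧ ∀ i ∈ Prs I x y u v, ∀ b ∈ B i, c b ≠ χ u) :
    ∃ c, PCol G D c ∧ (∀ v, c v < D ↔ v ∉ W) ∧ Meets I x y B W c ∧ Hard H x y W c := by
  have t3 : ∀ u ∈ Q, ∀ v, v ∉ Q → v ∉ X → G.Adj u v → χ u ≠ c v := fun u hu v v1 v2 k e =>
    (t1 u hu).2 (mem_union_left _ (mem_image.2 ⟨v, by simp [k, v1, v2], e.symm⟩))
  have t4 : ∀ u ∈ Q, ∀ i ∈ I, (x i = u ∨ y i = u) → oth x y u i ∉ Q →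
      χ u ≠ c (oth x y u i) := fun u hu i i1 i2 i3 e =>
    (t1 u hu).2 (mem_union_right _ (mem_union_left _ (mem_image.2
      ⟨i, mem_filter.2 ⟨mem_filter.2 ⟨i1, i2⟩, i3⟩, e.symm⟩)))
  have t5 : ∀ i ∈ I, x i ∈ Q → y i ∉ Q → χ (x i) ≠ c (y i) := fun i hi hu hv => by
    have o : oth x y (x i) i = y i := by rw [oth, if_pos rfl]
    exact o ▸ t4 _ hu i hi (.inl rfl) (o ▸ hv)
  have t6 : ∀ i ∈ I, x i ∉ Q → y i ∈ Q → c (x i) ≠ χ (y i) := fun i hi hu hv => by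
    have o : oth x y (y i) i = x i := by rw [oth, if_neg (hne i hi)]
    exact o ▸ (t4 _ hv i hi (.inr rfl) (o ▸ hu)).symm
  have cX : ∀ v ∈ X, ¬ c v < D := fun v hv k => (c2 v).1 k (mem_union_left _ (XW hv))
  refine ⟨fun v => if v ∈ Q then χ v else c v, fun u v k l => ?_, fun v => ?_,
    fun i hi w1 w2 => ?_, fun i hi w1 w2 => ?_⟩
  · dsimp only at l ⊢
    by_cases hu : u ∈ Q <;> by_cases hv : v ∈ Q <;> simp only [hu, hv, if_true, if_false] at l ⊢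
    · exact fun e => (t2 u hu v hv k.ne e).1 k
    · exact fun e => t3 u hu v hv (fun z => cX v z (e ▸ l)) k e
    · exact fun e => t3 v hv u hu (fun z => cX u z l) k.symm e.symm
    · exact c1 u v k l
  · dsimp only
    split_ifs with k
    · exact iff_of_true (t1 v k).1 (hW v k)
    · rw [c2 v, mem_union]; tauto
  · obtain ⟨b1, b2, -⟩ := hB i hi
    dsimp only
    by_cases hu : x i ∈ Q <;> by_cases hv : y i ∈ Q <;> simp only [hu, hv, if_true, if_false]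
    · by_cases e : χ (x i) = χ (y i)
      swap
      · exact .inl e
      refine .inr fun z z1 z2 => ?_
      obtain ⟨-, -, k1, k2⟩ := t2 _ hu _ hv (hne i hi) e
      split_ifs with k
      · exact fun f => (k1 z k f).elim (fun q => b1 (q ▸ z1)) fun q => b2 (q ▸ z1)
      · exact k2 i (mem_filter.2 ⟨hi, .inl ⟨rfl, rfl⟩⟩) z z1
    · exact .inl (t5 i hi hu hv)
    · exact .inl (t6 i hi hu hv)
    · refine (c3 i hi (by simp [w1, hu]) (by simp [w2, hv])).imp id fun k z z1 z2 => ?_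
      split_ifs with l
      · exact fun e => (t1 z l).2 (mem_union_right _ (mem_union_right _ (mem_image.2
          ⟨x i, mem_sdiff.2 ⟨mem_image.2 ⟨i, mem_filter.2 ⟨hi, z1⟩, rfl⟩, hu⟩, e.symm⟩)))
      · exact k z z1 (by simp [z2, l])
  · dsimp only
    by_cases hu : x i ∈ Q <;> by_cases hv : y i ∈ Q <;> simp only [hu, hv, if_true, if_false]
    · exact fun e => notMem_empty i ((t2 _ hu _ hv (hne i (sub hi)) e).2.1 ▸
        mem_filter.2 ⟨hi, .inl ⟨rfl, rfl⟩⟩)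
    · exact t5 i (sub hi) hu hv
    · exact t6 i (sub hi) hu hv
    · exact c4 i hi (by simp [w1, hu]) (by simp [w2, hv])

theorem req_step4 (h : MC G D) (hD : 8 ≤ D) {H : Finset ι} (sub : H ⊆ I) {X W Q : Finset V}
    (XW : X ⊆ W) (hne : ∀ i ∈ I, x i ≠ y i)
    (hB : ∀ i ∈ I, x i ∉ B i ∧ y i ∉ B i ∧ (B i).card ≤ 3)
    (tie : ∀ v, v ∉ X → (Ed I x y v).card + (Cen I x B v).card + (Ed H x y v).card ≤
      (nb G v ∩ X).card)
    (big : ∀ K, IsClq G K → K.card = D → (∀ a ∈ K, a ∉ X) → ∀ s, s ∉ K →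
      (K.filter fun v => ∃ i ∈ I, i ∉ H ∧ ((x i = s ∧ y i = v) ∨ (x i = v ∧ y i = s))).card + 2
        ≤ D)
    (cQ : Q.card = D + 1) (hW : ∀ a ∈ Q, a ∉ W)
    (hQ : ∀ a ∈ Q, ∀ b ∈ Q, a ≠ b → G.Adj a b ∨ (∃ i ∈ I, x i = a ∧ y i = b) ∨
      ∃ i ∈ I, x i = b ∧ y i = a)
    {c : V → ℕ} (c1 : PCol G D c) (c2 : ∀ v, c v < D ↔ v ∉ W ∪ Q)
    (c3 : Meets I x y B (W ∪ Q) c) (c4 : Hard H x y (W ∪ Q) c) :
    ∃ c, PCol G D c ∧ (∀ v, c v < D ↔ v ∉ W) ∧ Meets I x y B W c ∧ Hard H x y W c := by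
  have hX : ∀ a ∈ Q, a ∉ X := fun a ha k => hW a ha (XW k)
  have bc := fun v (hv : v ∈ Q) => bar3_card (B := B) h c cQ hX hne hQ hv (tie v (hX v hv))
  have b1 : ∀ v ∈ Q, (Bar3 I x y B G X Q c v).card ≤ 1 := fun v p => by
    have := (bc v p).1; omega
  have ps : ∀ (J : Finset ι) u v, Prs J x y u v = Prs J x y v u := fun J u v => by
    simp only [Prs, or_comm]
  have pc : ∀ a ∈ Q, ∀ b ∈ Q, ∀ z, ∃ φ < D, φ ≠ z ∧ φ ∉ Bar3 I x y B G X Q c a ∧
      φ ∉ Bar3 I x y B G X Q c b ∧ ∀ i ∈ Prs I x y a b, ∀ u ∈ B i, c u ≠ φ := fun a p b q z =>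
    pair_col (B := B) hD c _ _ (Prs I x y a b) (b1 a p) (b1 b q)
      (by have := (bc a p).2 b q; omega) (by have := (bc b q).2 a p; rw [ps] at this; omega)
      (fun i hi => (hB i (mem_filter.1 hi).1).2.2) z
  have pe : ∀ u v, ∀ i ∈ Prs H x y u v, i ∈ Ed H x y u := fun u v i hi =>
    mem_filter.2 ⟨(mem_filter.1 hi).1, (mem_filter.1 hi).2.imp And.left And.right⟩
  by_cases k : ∃ p ∈ Q, ∃ q ∈ Q, (Prs H x y p q).Nonempty
  · obtain ⟨p, hp, q, hq, j, hj⟩ := k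
    have pq : p ≠ q := fun e => by
      obtain ⟨j1, j2⟩ := mem_filter.1 hj
      exact hne j (sub j1) (by grind)
    have em : ∀ u ∈ Q, ∀ i ∈ Ed H x y u, Bar3 I x y B G X Q c u = ∅ := fun u hu i hi => by
      have := (bc u hu).1
      have := card_pos.2 ⟨i, hi⟩
      exact card_eq_zero.1 (by omega)
    by_cases l : ∃ a ∈ Q, ∃ b ∈ Q, a ≠ b ∧ ¬ G.Adj a b ∧ Prs H x y a b = ∅
    · obtain ⟨a, ha, b, hb, ab, n, e⟩ := l
      obtain ⟨φ, p0, -, p1, p2, p3⟩ := pc a ha b hb 0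
      obtain ⟨r, r1, r2, r3, r4⟩ : ∃ r ∈ Q, r ≠ a ∧ r ≠ b ∧ Bar3 I x y B G X Q c r = ∅ := by
        by_cases z : p ≠ a ∧ p ≠ b
        · exact ⟨p, hp, z.1, z.2, em p hp j (pe p q j hj)⟩
        refine ⟨q, hq, fun f => ?_, fun f => ?_, em q hq j (pe q p j (ps H p q ▸ hj))⟩
        · have : p = b := by grind
          rw [this, f, ps, e] at hj
          exact notMem_empty j hj
        · have : p = a := by grind
          rw [this, f, e] at hj
          exact notMem_empty j hj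
      obtain ⟨χ, t1, t2⟩ := one_pair cQ _ b1 ha hb ab r1 r2 r3 r4 p0 p1 p2
      refine put3 sub XW hne hB hW c1 c2 c3 c4 t1 fun u hu v hv z f => ?_
      have w : ∀ w ∈ Q, χ w = χ u → w = u ∨ w = v := fun w hw g => by
        by_contra! o
        have := (t2 w hw u hu o.1 g).2
        have := (t2 u hu v hv z f).2
        grind
      obtain ⟨g, ⟨rfl, rfl⟩ | ⟨rfl, rfl⟩⟩ := t2 u hu v hv z f
      · exact ⟨n, e, w, g ▸ p3⟩
      · exact ⟨fun o => n o.symm, ps H _ _ ▸ e, w, g ▸ ps I _ _ ▸ p3⟩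
    · refine (no_match h hD cQ fun v hv u hu w hw e1 e2 n1 n2 => ?_).elim
      have f : ∀ u ∈ Q, u ≠ v → ¬ G.Adj v u → ∃ i, i ∈ Prs H x y v u := fun u hu e n =>
        nonempty_iff_ne_empty.2 fun z => l ⟨v, hv, u, hu, e.symm, n, z⟩
      obtain ⟨i, i1⟩ := f u hu e1 n1
      obtain ⟨i', i2⟩ := f w hw e2 n2
      have := (bc v hv).1
      obtain rfl := card_le_one.1 (show (Ed H x y v).card ≤ 1 by omega) i (pe v u i i1) i'
        (pe v w i' i2)
      have := (mem_filter.1 i1).2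
      have := (mem_filter.1 i2).2
      grind
  have e0 : ∀ p ∈ Q, ∀ q ∈ Q, Prs H x y p q = ∅ := fun p hp q hq =>
    not_nonempty_iff_eq_empty.1 fun z => k ⟨p, hp, q, hq, z⟩
  obtain ⟨a, ha, b, hb, a', ha', b', hb', ab, ab', e1, e2, e3, e4, n1, n2⟩ :=
    two_non h hD Q cQ fun s hs cl k => by
      have := big _ cl (by rw [card_erase_of_mem hs]; omega)
        (fun u hu => hX u (mem_of_mem_erase hu)) s (notMem_erase s Q)
      have : ((Q.erase s).filter fun v => ¬ G.Adj s v).card ≤ ((Q.erase s).filter fun v =>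
          ∃ i ∈ I, i ∉ H ∧ ((x i = s ∧ y i = v) ∨ (x i = v ∧ y i = s))).card :=
        card_le_card fun v hv => by
          obtain ⟨v1, v2⟩ := mem_filter.1 hv
          have v3 := mem_of_mem_erase v1
          have o : ∀ i, (x i = s ∧ y i = v) ∨ (x i = v ∧ y i = s) → i ∉ H := fun i z o =>
            notMem_empty i (e0 s hs v v3 ▸ mem_filter.2 ⟨o, z⟩)
          rcases (hQ s hs v v3 (ne_of_mem_erase v1).symm).resolve_left v2 with
            ⟨i, i1, i2⟩ | ⟨i, i1, i2⟩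
          · exact mem_filter.2 ⟨v1, i, i1, o i (.inl i2), .inl i2⟩
          · exact mem_filter.2 ⟨v1, i, i1, o i (.inr i2), .inr i2⟩
      omega
  obtain ⟨φ, p0, -, p1, p2, p3⟩ := pc a ha b hb 0
  obtain ⟨φ', q0, q4, q1, q2, q3⟩ := pc a' ha' b' hb' φ
  obtain ⟨χ, t1, t2⟩ := two_pair cQ _ b1 ha hb ha' hb' ab ab' e1 e2 e3 e4 p0 p1 p2 q0 q1 q2 q4
  refine put3 sub XW hne hB hW c1 c2 c3 c4 t1 fun u hu v hv z f => ?_
  have w : ∀ w ∈ Q, χ w = χ u → w = u ∨ w = v := fun w hw g => by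
    by_contra! o
    have r1 := t2 w hw u hu o.1 g
    have r2 := t2 u hu v hv z f
    clear * - r1 r2 o g q4 ab ab' e1 e2 e3 e4
    grind
  rcases t2 u hu v hv z f with ⟨g, ⟨rfl, rfl⟩ | ⟨rfl, rfl⟩⟩ | ⟨g, ⟨rfl, rfl⟩ | ⟨rfl, rfl⟩⟩
  · exact ⟨n1, e0 _ hu _ hv, w, g ▸ p3⟩
  · exact ⟨fun o => n1 o.symm, e0 _ hu _ hv, w, g ▸ ps I _ _ ▸ p3⟩
  · exact ⟨n2, e0 _ hu _ hv, w, g ▸ q3⟩
  · exact ⟨fun o => n2 o.symm, e0 _ hu _ hv, w, g ▸ ps I _ _ ▸ q3⟩

/-- Virtual edges with fallback sets that may be shared; the edges of `H` are counted twice and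
hold without fallback. -/
theorem req4 (h : MC G D) (hD : 8 ≤ D) {H : Finset ι} (sub : H ⊆ I) (X : Finset V) {x0 y0 : V}
    (hx : x0 ∈ X) (a0 : G.Adj y0 x0) (hne : ∀ i ∈ I, x i ≠ y i)
    (hB : ∀ i ∈ I, x i ∉ B i ∧ y i ∉ B i ∧ (B i).card ≤ 3)
    (tie : ∀ v, v ∉ X → (Ed I x y v).card + (Cen I x B v).card + (Ed H x y v).card ≤
      (nb G v ∩ X).card)
    (big : ∀ K, IsClq G K → K.card = D → (∀ a ∈ K, a ∉ X) → ∀ s, s ∉ K →
      (K.filter fun v => ∃ i ∈ I, i ∉ H ∧ ((x i = s ∧ y i = v) ∨ (x i = v ∧ y i = s))).card + 2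
        ≤ D) :
    ∃ c, PCol G D c ∧ (∀ v, c v < D ↔ v ∉ X) ∧ Meets I x y B X c ∧ Hard H x y X c := by
  suffices R : ∀ n, ∀ W : Finset V, X ⊆ W → (univ \ W).card = n →
      ∃ c, PCol G D c ∧ (∀ v, c v < D ↔ v ∉ W) ∧ Meets I x y B W c ∧ Hard H x y W c from
    R _ X Subset.rfl rfl
  intro n
  induction n using Nat.strong_induction_on with
  | _ n ih =>
  intro W XW hn
  by_cases k : ∃ Q : Finset V, Q.card = D + 1 ∧ (∀ a ∈ Q, a ∉ W) ∧
      ∀ a ∈ Q, ∀ b ∈ Q, a ≠ b → G.Adj a b ∨ (∃ i ∈ I, x i = a ∧ y i = b) ∨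
        ∃ i ∈ I, x i = b ∧ y i = a
  · obtain ⟨Q, q1, q2, q3⟩ := k
    obtain ⟨s, hs⟩ := (card_pos (s := Q)).1 (by omega)
    obtain ⟨c, c1, c2, c3, c4⟩ := ih _ (hn ▸ card_lt_card (s := univ \ (W ∪ Q)) (t := univ \ W)
      ⟨sdiff_subset_sdiff Subset.rfl subset_union_left, fun z => by
        have := z (show s ∈ univ \ W by simp [q2 s hs])
        simp [hs] at this⟩) (W ∪ Q) (XW.trans subset_union_left) rfl
    exact req_step4 h hD sub XW hne hB tie big q1 q2 q3 c1 c2 c3 c4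
  · obtain ⟨c, c1, c2, c3⟩ := col_off h W (fun u v => ∃ i ∈ I, x i = u ∧ y i = v) (XW hx) a0
      (fun u hu => ⟨(Ed I x y u).image (oth x y u), card_image_le.trans (by
          have := tie u fun z => hu (XW z)
          have := card_le_card (inter_subset_inter (Subset.refl (nb G u)) XW)
          omega), by
        rintro v (⟨i, i1, i2, i3⟩ | ⟨i, i1, i2, i3⟩)
        · exact mem_image.2 ⟨i, mem_filter.2 ⟨i1, .inl i2⟩, by rw [oth, if_pos i2, i3]⟩
        · exact mem_image.2 ⟨i, mem_filter.2 ⟨i1, .inr i3⟩,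
            by rw [oth, if_neg (i3 ▸ hne i i1), i2]⟩⟩)
      fun Q q1 q2 q3 => k ⟨Q, q1, q2, q3⟩
    exact ⟨c, c1, c2, fun i hi w1 w2 => .inl (c3 _ _ (hne i hi) w1 w2 ⟨i, hi, rfl, rfl⟩),
      fun i hi w1 w2 => c3 _ _ (hne i (sub hi)) w1 w2 ⟨i, sub hi, rfl, rfl⟩⟩

end Req

end Pool.Agent.Lib.MP_12eaff_co.BK
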