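import Mathlib
import Pool.Agent.Lib.MP_12eaff_co.Req2
import Pool.Agent.Lib.MP_12eaff_co.Ker2

set_option autoImplicit false

namespace Pool.Agent.Lib.MP_12eaff_co.BK

open Finset Pool.Agent.Lib.MP_12eaff_co.Ker
open scoped Classical

variable {V : Type} [Fintype V] {G : SimpleGraph V} {D : ℕ}

/-- A partial colouring extends when each class has a last and a second last vertex with large
lists, and these vertices have no cross edges among themselves. -/
theorem fin_front {ι : Type} [DecidableEq ι] (h : MC G D) {c : V → ℕ} (c1 : PCol G D c)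
    (U : Finset V) (c2 : ∀ v, c v < D ↔ v ∉ U) (cl : V → ι) (t s : ι → V)
    (ht : ∀ v ∈ U, t (cl v) ∈ U ∧ cl (t (cl v)) = cl v)
    (hs : ∀ v ∈ U, s (cl v) ∈ U ∧ cl (s (cl v)) = cl v) (ts : ∀ v ∈ U, t (cl v) ≠ s (cl v))
    (ff : ∀ u ∈ U, ∀ v ∈ U, (u = t (cl u) ∨ u = s (cl u)) → (v = t (cl v) ∨ v = s (cl v)) →
      G.Adj u v → cl u = cl v)
    (bt : ∀ v ∈ U, v = t (cl v) →
      (U.filter fun u => cl u = cl v).card + ((nb G v \ U).image c).card ≤ D)
    (bs : ∀ v ∈ U, v = s (cl v) →
      (U.filter fun u => cl u = cl v).card + ((nb G v \ U).image c).card ≤ D + 1)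
    (bo : ∀ v ∈ U, v ≠ t (cl v) → v ≠ s (cl v) → (U.filter fun u => cl u = cl v).card +
      (U.filter fun u => G.Adj v u ∧ cl u ≠ cl v).card + ((nb G v \ U).image c).card ≤ D + 2) :
    False := by
  set N := Fintype.card V
  let e := Fintype.equivFin V
  let pos : V → ℕ := fun v => if v = t (cl v) then N + 1 else if v = s (cl v) then N else e v
  have lt : ∀ v, (e v : ℕ) < N := fun v => (e v).2
  have pt : ∀ v, v = t (cl v) → pos v = N + 1 := fun v k => if_pos k
  have ps : ∀ v, v ≠ t (cl v) → v = s (cl v) → pos v = N := fun v k l => by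
    simp only [pos]; rw [if_neg k, if_pos l]
  have po : ∀ v, v ≠ t (cl v) → v ≠ s (cl v) → pos v = e v := fun v k l => by
    simp only [pos]; rw [if_neg k, if_neg l]
  obtain ⟨d, d1, d2⟩ := col_front (cl := cl) (pos := pos)
    (fr := fun v => v ∈ U ∧ (v = t (cl v) ∨ v = s (cl v)))
    (X := fun u v => G.Adj u v ∧ cl v ≠ cl u) (fun u v k => ⟨k.1.symm, k.2.symm⟩)
    (fun u k => k.2 rfl) (fun u v a b k => k.2 (ff u a.1 v b.1 a.2 b.2 k.1).symm) U
    (fun u _ v _ k l => by
      have := lt u
      have := lt v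
      by_cases a1 : u = t (cl u) <;> by_cases b1 : v = t (cl v)
      · rw [a1, b1, k]
      · by_cases b2 : v = s (cl v)
        · rw [pt u a1, ps v b1 b2] at l; omega
        · rw [pt u a1, po v b1 b2] at l; omega
      · by_cases a2 : u = s (cl u)
        · rw [pt v b1, ps u a1 a2] at l; omega
        · rw [pt v b1, po u a1 a2] at l; omega
      · by_cases a2 : u = s (cl u) <;> by_cases b2 : v = s (cl v)
        · rw [a2, b2, k]
        · rw [ps u a1 a2, po v b1 b2] at l; omega
        · rw [ps v b1 b2, po u a1 a2] at l; omega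
        · rw [po u a1 a2, po v b1 b2] at l
          exact e.injective (Fin.ext l))
    (fun v => range D \ (nb G v \ U).image c) (fun v hv => by
      have l1 := le_card_sdiff ((nb G v \ U).image c) (range D)
      rw [card_range] at l1
      obtain ⟨t1, t2⟩ := ht v hv
      obtain ⟨s1, s2⟩ := hs v hv
      have p1 : pos (t (cl v)) = N + 1 := pt _ (by rw [t2])
      have p2 : pos (s (cl v)) = N := ps _ (by rw [s2]; exact (ts v hv).symm) (by rw [s2])
      have m1 : t (cl v) ∈ U.filter fun u => cl u = cl v := mem_filter.2 ⟨t1, t2⟩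
      have m2 : s (cl v) ∈ (U.filter fun u => cl u = cl v).erase (t (cl v)) :=
        mem_erase.2 ⟨(ts v hv).symm, mem_filter.2 ⟨s1, s2⟩⟩
      have k1 := card_erase_add_one m1
      have k2 := card_erase_add_one m2
      by_cases a1 : v = t (cl v)
      · have := bt v hv a1
        have q := pt v a1
        refine lt_of_le_of_lt (card_le_card
          (t := (U.filter fun u => cl u = cl v).erase (t (cl v))) fun u hu => ?_) (by omega)
        obtain ⟨u1, u2 | u2⟩ := mem_filter.1 hu
        · exact mem_erase.2 ⟨fun z => by have := u2.2; rw [z] at this; omega,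
            mem_filter.2 ⟨u1, u2.1.symm⟩⟩
        · exact absurd ⟨hv, .inl a1⟩ u2.2
      by_cases a2 : v = s (cl v)
      · have := bs v hv a2
        have q := ps v a1 a2
        refine lt_of_le_of_lt (card_le_card
          (t := ((U.filter fun u => cl u = cl v).erase (t (cl v))).erase (s (cl v)))
          fun u hu => ?_) (by omega)
        obtain ⟨u1, u2 | u2⟩ := mem_filter.1 hu
        · exact mem_erase.2 ⟨fun z => by have := u2.2; rw [z] at this; omega,
            mem_erase.2 ⟨fun z => by have := u2.2; rw [z] at this; omega,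
            mem_filter.2 ⟨u1, u2.1.symm⟩⟩⟩
        · exact absurd ⟨hv, .inr a2⟩ u2.2
      have := bo v hv a1 a2
      have q := po v a1 a2
      have := lt v
      have m3 : v ∈ ((U.filter fun u => cl u = cl v).erase (t (cl v))).erase (s (cl v)) :=
        mem_erase.2 ⟨a2, mem_erase.2 ⟨a1, mem_filter.2 ⟨hv, rfl⟩⟩⟩
      have k3 := card_erase_add_one m3
      have k4 := card_union_le
        ((((U.filter fun u => cl u = cl v).erase (t (cl v))).erase (s (cl v))).erase v)
        (U.filter fun u => G.Adj v u ∧ cl u ≠ cl v)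
      refine lt_of_le_of_lt (card_le_card (t :=
        ((((U.filter fun u => cl u = cl v).erase (t (cl v))).erase (s (cl v))).erase v) ∪
        (U.filter fun u => G.Adj v u ∧ cl u ≠ cl v)) fun u hu => ?_) (by omega)
      obtain ⟨u1, u2 | u2⟩ := mem_filter.1 hu
      · exact mem_union_left _ (mem_erase.2 ⟨fun z => by have := u2.2; rw [z] at this; omega,
          mem_erase.2 ⟨fun z => by have := u2.2; rw [z] at this; omega,
          mem_erase.2 ⟨fun z => by have := u2.2; rw [z] at this; omega,
          mem_filter.2 ⟨u1, u2.1.symm⟩⟩⟩⟩)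
      · exact mem_union_right _ (mem_filter.2 ⟨u1, u2.1⟩))
  have x : ∀ u ∈ U, ∀ v, v ∉ U → G.Adj u v → d u ≠ c v := fun u hu v hv a z =>
    (mem_sdiff.1 (d1 u hu)).2 (mem_image.2 ⟨v, mem_sdiff.2 ⟨mem_nb.2 a, hv⟩, z.symm⟩)
  refine h.ncol ⟨fun v => if v ∈ U then d v else c v, fun v => ?_, fun u v a => ?_⟩
  · by_cases k : v ∈ U
    · simpa [k] using mem_range.1 (mem_sdiff.1 (d1 v k)).1
    · simpa [k] using (c2 v).2 k
  · by_cases k : u ∈ U <;> by_cases l : v ∈ U <;> simp only [k, l, if_true, if_false]
    · exact d2 u k v l a.ne (by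
        by_cases z : cl u = cl v
        · exact .inl z
        · exact .inr ⟨a, fun y => z y.symm⟩)
    · exact x u k v l a
    · exact (x v l u k a.symm).symm
    · exact c1 u v a ((c2 u).2 k)

end Pool.Agent.Lib.MP_12eaff_co.BK
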