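import Mathlib
import Pool.Agent.Lib.MP_12eaff_co.Sel5c
import Pool.Agent.Lib.MP_12eaff_co.Dich

set_option autoImplicit false

namespace Pool.Agent.Lib.MP_12eaff_co.BK

open Finset
open scoped Classical

variable {V : Type} [Fintype V] {G : SimpleGraph V} {D : ℕ}

/-- All but five members of every `D`-clique can be chosen without cross edges. -/
theorem sel5 (h : MC G D) (hD : 8 ≤ D) : ∃ F : Finset V,
    (∀ K, IsClq G K → K.card = D → D - 5 ≤ (K ∩ F).card) ∧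
    ∀ K K', IsClq G K → K.card = D → IsClq G K' → K'.card = D → K ≠ K' →
      ∀ a ∈ K ∩ F, ∀ b ∈ K' ∩ F, ¬ G.Adj a b := by
  set S := (univ : Finset (Finset V)).filter fun K => IsClq G K ∧ K.card = D with hS
  have hT : ∀ K ∈ S, IsClq G K ∧ K.card = D := fun K k => (mem_filter.1 k).2
  have mS : ∀ K, IsClq G K → K.card = D → K ∈ S := fun K a b => mem_filter.2 ⟨mem_univ _, a, b⟩
  set W := S.biUnion id with hW
  have mW : ∀ K ∈ S, ∀ v ∈ K, v ∈ W := fun K k v l => mem_biUnion.2 ⟨K, k, l⟩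
  have ce : ∀ K ∈ S, ∀ v ∈ K, clOf S v = K := fun K k v l => clOf_eq h hD hT k l
  have cw : ∀ v ∈ W, clOf S v ∈ S ∧ v ∈ clOf S v := fun v l => by
    obtain ⟨K, k1, k2⟩ := mem_biUnion.1 l
    rw [ce K k1 v k2]; exact ⟨k1, k2⟩
  rcases Dich.dich_short 4 W (clOf S) (fun u v => G.Adj u v ∧ clOf S u ≠ clOf S v)
    (fun u v k => ⟨k.1.symm, k.2.symm⟩) (fun v k => k.2 rfl) (fun v hv => by
      obtain ⟨k1, k2⟩ := cw v hv
      refine le_trans (card_le_card fun u hu => ?_) (out2 h (hT _ k1).1 (hT _ k1).2 k2)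
      have := (by simpa using hu : u ∈ W ∧ G.Adj v u ∧ clOf S v ≠ clOf S u)
      exact mem_sdiff.2 ⟨mem_nb.2 this.2.1, fun z => this.2.2 (ce _ k1 u z).symm⟩) with
    ⟨Z, -, z2, z3⟩ | ⟨T, A, t1, t2, t3, t4⟩
  · refine ⟨univ \ Z, fun K a b => ?_, fun K L a b a' b' e u hu v hv ad => ?_⟩
    · have k1 : (K ∩ Z).card ≤ 4 + 1 := le_trans (card_le_card fun u hu => by
        simpa using ⟨(mem_inter.1 hu).2, ce K (mS K a b) u (mem_inter.1 hu).1⟩) (z3 K)
      have k2 := card_sdiff_add_card_inter K Z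
      have k3 : K ∩ (univ \ Z) = K \ Z := by ext; simp
      rw [k3]; omega
    · obtain ⟨u1, u2⟩ := mem_inter.1 hu
      obtain ⟨v1, v2⟩ := mem_inter.1 hv
      rcases z2 u (mW K (mS K a b) u u1) v (mW L (mS L a' b') v v1)
        ⟨ad, by rwa [ce K (mS K a b) u u1, ce L (mS L a' b') v v1]⟩ with z | z
      exacts [(mem_sdiff.1 u2).2 z, (mem_sdiff.1 v2).2 z]
  · have f : ∀ K ∈ T, K ∈ S ∧ 4 ≤ (K ∩ A).card := fun K k => by
      have b := t3 K k
      obtain ⟨a, ha⟩ := card_pos.1 (lt_of_lt_of_le (by norm_num) b)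
      have a1 := (by simpa using ha : a ∈ A ∧ clOf S a = K)
      refine ⟨a1.2 ▸ (cw a (t2 a a1.1).1).1, b.trans (card_le_card fun u hu => ?_)⟩
      have u1 := (by simpa using hu : u ∈ A ∧ clOf S u = K)
      exact mem_inter.2 ⟨u1.2 ▸ (cw u (t2 u u1.1).1).2, u1.1⟩
    refine (stat4 h hD t1 (fun K k => hT K (f K k).1) A (fun K k => (f K k).2)
      fun K k a ha => ?_).elim
    obtain ⟨a1, a2⟩ := mem_inter.1 ha
    obtain ⟨w, w1, w2, w3, w4⟩ := t4 a a2
    exact ⟨w, mem_biUnion.2 ⟨_, w4, (cw w w1).2⟩,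
      fun z => w2.2 ((ce K (f K k).1 a a1).trans (ce K (f K k).1 w z).symm), w3, w2.1⟩

/-- Thirteen members of every `D`-clique without cross edges, for `18 ≤ D`. -/
theorem sel13 (h : MC G D) (hD : 18 ≤ D) : ∃ F : Finset V,
    (∀ K, IsClq G K → K.card = D → 13 ≤ (K ∩ F).card) ∧
    ∀ K K', IsClq G K → K.card = D → IsClq G K' → K'.card = D → K ≠ K' →
      ∀ a ∈ K ∩ F, ∀ b ∈ K' ∩ F, ¬ G.Adj a b := by
  obtain ⟨F, a, b⟩ := sel5 h (by omega)
  exact ⟨F, fun K k l => le_trans (by omega) (a K k l), b⟩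

end Pool.Agent.Lib.MP_12eaff_co.BK
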