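import Mathlib
import Pool.Agent.Lib.MP_12eaff_co.S8b

set_option autoImplicit false

namespace Pool.Agent.Lib.MP_12eaff_co.BK

open Finset
open scoped Classical

variable {V : Type} [Fintype V] {G : SimpleGraph V} {D : ℕ}

/-- Two cliques of size at least `D - 1` with two common vertices have no two disjoint
non-edges between them. -/
theorem ts7 (h : MC G D) (hD : 8 ≤ D) {A B A' B' : Finset V} (hA : IsClq G A) (hB : IsClq G B)
    (hA' : IsClq G A') (hB' : IsClq G B') (cA : D ≤ A.card + 1) (cB : D ≤ B.card + 1)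
    (cA' : D ≤ A'.card + 1) (cB' : D ≤ B'.card + 1) {x y a b c d : V} (e : x ≠ y)
    (hx : x ∈ A ∧ x ∈ B ∧ x ∈ A' ∧ x ∈ B') (hy : y ∈ A ∧ y ∈ B ∧ y ∈ A' ∧ y ∈ B') (ha : a ∈ A)
    (hb : b ∈ B) (hc : c ∈ A') (hd : d ∈ B') (ab : a ≠ b) (cd : c ≠ d) (ac : a ≠ c) (ad : a ≠ d)
    (bc : b ≠ c) (bd : b ≠ d) (n : ¬ G.Adj a b) (n' : ¬ G.Adj c d) : False := by
  have dx : ∀ {Q v}, IsClq G Q → D ≤ Q.card + 1 → x ∈ Q → y ∈ Q → v ∈ Q → D ≤ dX G x y v + 2 :=
    fun {Q v} q c a b hv => by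
      have := RA.dX_ge q a b (erase_subset v Q) (v := v) fun w hw =>
        q v hv w (mem_of_mem_erase hw) (ne_of_mem_erase hw).symm
      have := card_erase_of_mem hv
      omega
  have aj : ∀ {P Q x u v}, IsClq G P → IsClq G Q → x ∈ P → x ∈ Q → u ∈ P → v ∈ Q → u ≠ v →
      ¬ G.Adj u v → G.Adj x u ∧ G.Adj x v := fun p q x1 x2 u1 v1 e n =>
    ⟨p _ x1 _ u1 fun k => n (q _ (k ▸ x2) _ v1 e), q _ x2 _ v1 fun k => n (p _ u1 _ (k ▸ x1) e)⟩
  have := dx hA cA hx.1 hy.1 ha
  have := dx hB cB hx.2.1 hy.2.1 hb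
  have := dx hA' cA' hx.2.2.1 hy.2.2.1 hc
  have := dx hB' cB' hx.2.2.2 hy.2.2.2 hd
  have x1 := aj hA hB hx.1 hx.2.1 ha hb ab n
  have x2 := aj hA' hB' hx.2.2.1 hx.2.2.2 hc hd cd n'
  have y1 := aj hA hB hy.1 hy.2.1 ha hb ab n
  have y2 := aj hA' hB' hy.2.2.1 hy.2.2.2 hc hd cd n'
  exact ts h x y a b c d (hA x hx.1 y hy.1 e) x1.1 x1.2 x2.1 x2.2 y1.1 y1.2 y2.1 y2.2 ab cd ac ad
    bc bd n n' (by omega) (by omega)

/-- Cliques of size `D - 1` that meet share all but one vertex. -/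
theorem meet7 (h : MC G D) (hD : 8 ≤ D) {A B : Finset V} (hA : IsClq G A) (hB : IsClq G B)
    (cA : A.card + 1 = D) (cB : B.card + 1 = D) {v : V} (h1 : v ∈ A) (h2 : v ∈ B) :
    D ≤ (A ∩ B).card + 2 := by
  by_contra n
  have u := card_union_add_card_inter A B
  have : (A ∪ B).card ≤ D + 2 := by
    have := card_le_card (s := A ∪ B) (t := insert v (nb G v)) fun x hx => by
      by_cases e : v = x
      · simp [e]
      · exact mem_insert_of_mem (mem_nb.2
          ((mem_union.1 hx).elim (fun k => hA v h1 x k e) fun k => hB v h2 x k e))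
    have := card_insert_le v (nb G v)
    have := h.deg v
    omega
  obtain ⟨x, hx, y, hy, e⟩ := (one_lt_card (s := A ∩ B)).1 (by omega)
  rw [mem_inter] at hx hy
  have ne : ∀ u ∈ A ∪ B, u ∉ A ∩ B → ∃ c ∈ A, ∃ d ∈ B, c ≠ u ∧ d ≠ u ∧ c ≠ d ∧ ¬ G.Adj c d := by
    intro w w1 w2
    by_contra! k
    have cl : IsClq G ((A ∪ B).erase w) := fun a ha b hb ab => by
      simp only [mem_erase, mem_union] at ha hb
      rcases ha.2 with p | p <;> rcases hb.2 with q | q
      exacts [hA a p b q ab, k a p b q ha.1 hb.1 ab, (k b q a p hb.1 ha.1 ab.symm).symm,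
        hB a p b q ab]
    have := h.cf _ cl
    have := card_erase_of_mem w1
    have ad : ∀ x, x ∈ A ∧ x ∈ B → x ∈ (A ∪ B).erase w ∧ G.Adj w x := fun x hx => by
      have : x ≠ w := fun z => w2 (z ▸ mem_inter.2 hx)
      exact ⟨mem_erase.2 ⟨this, mem_union_left _ hx.1⟩, (mem_union.1 w1).elim
        (fun k => hA w k x hx.1 this.symm) fun k => hB w k x hx.2 this.symm⟩
    exact e (rs8 h hD cl (by omega) (notMem_erase _ _) (ad x hx).1 (ad y hy).1 (ad x hx).2
      (ad y hy).2)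
  have key : ∀ a ∈ A, ∀ b ∈ B, ∀ c ∈ A, ∀ d ∈ B, a ≠ b → c ≠ d → ¬ G.Adj a b → ¬ G.Adj c d →
      a = c ∨ b = d := fun a ha b hb c hc d hd ab cd n n' => by
    by_contra! k
    exact ts7 h hD hA hB hA hB cA.ge cB.ge cA.ge cB.ge e ⟨hx.1, hx.2, hx⟩ ⟨hy.1, hy.2, hy⟩ ha hb
      hc hd ab cd k.1 (fun z => n (hB a (z ▸ hd) b hb ab)) (fun z => n (hA a ha b (z ▸ hc) ab))
      k.2 n n'
  obtain ⟨w, w1, w2⟩ := exists_mem_notMem_of_card_lt_card (s := A ∩ B) (t := A ∪ B) (by omega)
  obtain ⟨a, ha, b, hb, -, -, ab, k⟩ := ne w w1 w2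
  obtain ⟨c, hc, d, hd, c1, -, cd, k1⟩ := ne a (mem_union_left _ ha)
    fun z => k (hB a (mem_inter.1 z).2 b hb ab)
  obtain ⟨c', hc', d', hd', -, d1, cd', k2⟩ := ne b (mem_union_right _ hb)
    fun z => k (hA a ha b (mem_inter.1 z).1 ab)
  have := key a ha b hb c hc d hd ab cd k k1
  have := key a ha b hb c' hc' d' hd' ab cd' k k2
  have := key c hc d hd c' hc' d' hd' cd cd' k1 k2
  grind

/-- At most one vertex outside a clique of size `D - 1` misses at most one member. -/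
theorem twin7 (h : MC G D) (hD : 8 ≤ D) {K : Finset V} (hK : IsClq G K) (cK : K.card + 1 = D)
    {a b p q : V} (ha : a ∉ K) (hb : b ∉ K) (na : ∀ x ∈ K, x ≠ p → G.Adj a x)
    (nb : ∀ x ∈ K, x ≠ q → G.Adj b x) : a = b := by
  by_contra e
  have := near h hD (insert a (insert b K)) {a, b, p, q} (card_le_four.trans (by omega))
    (fun x hx y hy k n => by
      have := hK x
      have := na x
      have := nb x
      have := G.adj_comm x y
      simp only [mem_insert, mem_singleton] at hx hy ⊢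
      grind [IsClq]) fun x hx => by
      by_cases x1 : x = a
      · exact ⟨{b, p}, card_le_two, fun y hy k n => by
          have := na y
          simp only [mem_insert, mem_singleton] at hy ⊢
          grind⟩
      by_cases x2 : x = b
      · exact ⟨{a, q}, card_le_two, fun y hy k n => by
          have := nb y
          simp only [mem_insert, mem_singleton] at hy ⊢
          grind⟩
      · exact ⟨{a, b}, card_le_two, fun y hy k n => by
          have := hK x
          simp only [mem_insert, mem_singleton] at hx hy ⊢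
          grind⟩
  rw [card_insert_of_notMem (by simp [e, ha]), card_insert_of_notMem hb] at this
  omega

end Pool.Agent.Lib.MP_12eaff_co.BK
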