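import Mathlib
import Pool.Agent.Lib.MP_12eaff_co.S7
import Pool.Agent.Lib.MP_12eaff_co.BK.Tight

set_option autoImplicit false

namespace Pool.Agent.Lib.MP_12eaff_co.BK

open Finset
open scoped Classical

namespace K4

/-- A colouring of four vertices with at most two colours outside `Y`. -/
def Res (Y : Finset ℕ) (ac ad bc bd : Prop) (A B C E : Finset ℕ) : Prop :=
  ∃ α ∈ A, ∃ β ∈ B, ∃ γ ∈ C, ∃ ζ ∈ E, (ac → α ≠ γ) ∧ (ad → α ≠ ζ) ∧ (bc → β ≠ γ) ∧ (bd → β ≠ ζ) ∧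
    ∃ σ τ, ∀ x, x = α ∨ x = β ∨ x = γ ∨ x = ζ → x = σ ∨ x = τ ∨ x ∈ Y

/-- A list with room for the neighbours `p`, `q`. -/
def Big (p q : Prop) (A : Finset ℕ) : Prop :=
  A ⊆ range 8 ∧ 3 + (if p then 1 else 0) + (if q then 1 else 0) ≤ A.card

variable {Y A B C E : Finset ℕ} {ac ad bc bd p q : Prop}

theorem Big.symm (h : Big p q A) : Big q p A := ⟨h.1, by have := h.2; omega⟩

theorem Big.three (h : Big p q A) : 3 ≤ A.card := by have := h.2; omega

theorem Big.del (h : Big p q A) (δ : ℕ) :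
    ∃ A' ⊆ A, Big False q A' ∧ (p → ∀ x ∈ A', δ ≠ x) := by
  by_cases k : p
  · refine ⟨A.erase δ, erase_subset _ _, ⟨(erase_subset _ _).trans h.1, ?_⟩,
      fun _ x hx => (ne_of_mem_erase hx).symm⟩
    have := pred_card_le_card_erase (s := A) (a := δ)
    have := h.2
    simp only [k, if_true, if_false] at *
    omega
  · exact ⟨A, Subset.rfl, ⟨h.1, by simpa [k] using h.2⟩, fun x => absurd x k⟩

theorem av (h : 3 ≤ A.card) (x y : ℕ) : ∃ z ∈ A, z ≠ x ∧ z ≠ y := by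
  simpa using exists_mem_notMem_of_card_lt_card (s := {x, y}) (t := A)
    (card_le_two.trans_lt (by omega))

theorem split {Z : Finset ℕ} (hZ : Z ⊆ range 8) (hA : A ⊆ range 8) (hB : B ⊆ range 8)
    (a : ∀ x ∈ A, x ∉ Z) (b : ∀ x ∈ B, x ∉ Z) (d : ∀ x ∈ A, x ∉ B) :
    A.card + B.card + Z.card ≤ 8 ∧
      (8 ≤ A.card + B.card + Z.card → ∀ x ∈ range 8, x ∉ Z → x ∈ A ∨ x ∈ B) := by
  have s : A ∪ B ⊆ range 8 \ Z := fun x hx => mem_sdiff.2
    ((mem_union.1 hx).elim (fun k => ⟨hA k, a x k⟩) fun k => ⟨hB k, b x k⟩)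
  have := card_le_card s
  have := card_union_of_disjoint (disjoint_left.2 d)
  have := card_sdiff_add_card_eq_card hZ
  rw [card_range] at this
  refine ⟨by omega, fun k x x1 x2 => mem_union.1 ?_⟩
  rw [eq_of_subset_of_card_le s (by omega)]
  exact mem_sdiff.2 ⟨x1, x2⟩

theorem Res.s1 (h : Res Y bc bd ac ad B A C E) : Res Y ac ad bc bd A B C E := by
  obtain ⟨α, a, β, b, γ, c, ζ, d, h1, h2, h3, h4, σ, τ, k⟩ := h
  exact ⟨β, b, α, a, γ, c, ζ, d, h3, h4, h1, h2, σ, τ, fun x hx => k x (by tauto)⟩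

theorem Res.s2 (h : Res Y ac bc ad bd C E A B) : Res Y ac ad bc bd A B C E := by
  obtain ⟨α, a, β, b, γ, c, ζ, d, h1, h2, h3, h4, σ, τ, k⟩ := h
  exact ⟨γ, c, ζ, d, α, a, β, b, fun x => (h1 x).symm, fun x => (h3 x).symm, fun x => (h2 x).symm,
    fun x => (h4 x).symm, σ, τ, fun x hx => k x (by tauto)⟩

theorem same (hY : Y ⊆ range 8) (cY : Y.card = 2) {α : ℕ} (a : α ∈ A) (b : α ∈ B) (l : α ∈ range 8)
    (hC : Big ac bc C) (hE : Big ad bd E) : Res Y ac ad bc bd A B C E := by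
  have del : ∀ {p q C}, Big p q C → ∃ C' ⊆ C, C' ⊆ range 8 ∧ 3 ≤ C'.card ∧
      (p ∨ q → ∀ x ∈ C', α ≠ x) := fun {p q C} h => by
    obtain ⟨C', c1, c2, c3⟩ := (show Big (p ∨ q) False C from ⟨h.1, by
      have := h.2
      by_cases x : p <;> by_cases y : q <;> simp [x, y] at * <;> omega⟩).del α
    exact ⟨C', c1, c2.1, c2.three, c3⟩
  obtain ⟨C', c1, c2, c3, c4⟩ := del hC
  obtain ⟨E', e1, e2, e3, e4⟩ := del hE
  suffices ∃ γ ∈ C', ∃ ζ ∈ E', ∃ σ τ, ∀ x, x = α ∨ x = α ∨ x = γ ∨ x = ζ →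
      x = σ ∨ x = τ ∨ x ∈ Y by
    obtain ⟨γ, c, ζ, d, k⟩ := this
    exact ⟨α, a, α, b, γ, c1 c, ζ, e1 d, fun x => c4 (.inl x) _ c, fun x => e4 (.inl x) _ d,
      fun x => c4 (.inr x) _ c, fun x => e4 (.inr x) _ d, k⟩
  obtain ⟨γ, c, -⟩ := av c3 0 0
  obtain ⟨ζ, d, -⟩ := av e3 0 0
  by_cases k : α ∈ Y
  · exact ⟨γ, c, ζ, d, γ, ζ, by grind⟩
  by_contra n
  have := (split (Z := insert α Y) (insert_subset l hY) c2 e2
    (fun x hx z => n ⟨x, hx, ζ, d, α, ζ, by grind⟩) (fun x hx z => n ⟨γ, c, x, hx, α, γ, by grind⟩)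
    fun x hx z => n ⟨x, hx, x, z, α, x, by grind⟩).1
  rw [card_insert_of_notMem k] at this
  omega

theorem out (hY : Y ⊆ range 8) (cY : Y.card = 2) {α : ℕ} (a : α ∈ A) (l : α ∈ Y) (hB : Big bc bd B)
    (hC : Big ac bc C) (hE : Big ad bd E) : Res Y ac ad bc bd A B C E := by
  obtain ⟨C', c1, c2, c4⟩ := hC.del α
  obtain ⟨E', e1, e2, e4⟩ := hE.del α
  suffices ∃ β ∈ B, ∃ γ ∈ C', ∃ ζ ∈ E', (bc → β ≠ γ) ∧ (bd → β ≠ ζ) ∧
      ∃ σ τ, ∀ x, x = β ∨ x = γ ∨ x = ζ → x = σ ∨ x = τ ∨ x ∈ Y by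
    obtain ⟨β, b, γ, c, ζ, d, k1, k2, σ, τ, k⟩ := this
    exact ⟨α, a, β, b, γ, c1 c, ζ, e1 d, fun x => c4 x _ c, fun x => e4 x _ d, k1, k2, σ, τ,
      by grind⟩
  by_contra n
  have n1 : ∀ x ∈ B, x ∉ Y := fun x hx z => by
    obtain ⟨γ, c, c'⟩ := av c2.three x x
    obtain ⟨ζ, d, d'⟩ := av e2.three x x
    exact n ⟨x, hx, γ, c, ζ, d, fun _ => c'.1.symm, fun _ => d'.1.symm, γ, ζ, by grind⟩
  have n2 : ∀ γ ∈ C', ∀ ζ ∈ E', γ ∉ Y ∧ ζ ∉ Y ∧ γ ≠ ζ := fun γ c ζ d => by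
    obtain ⟨β, b, b'⟩ := av hB.three γ ζ
    exact ⟨fun z => n ⟨β, b, γ, c, ζ, d, fun _ => b'.1, fun _ => b'.2, β, ζ, by grind⟩,
      fun z => n ⟨β, b, γ, c, ζ, d, fun _ => b'.1, fun _ => b'.2, β, γ, by grind⟩,
      fun z => n ⟨β, b, γ, c, ζ, d, fun _ => b'.1, fun _ => b'.2, β, γ, by grind⟩⟩
  obtain ⟨β, b, -⟩ := av hB.three 0 0
  obtain ⟨γ, c, -⟩ := av c2.three 0 0
  obtain ⟨ζ, d, -⟩ := av e2.three 0 0
  obtain ⟨s1, s2⟩ := split hY c2.1 e2.1 (fun x hx => (n2 x hx ζ d).1)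
    (fun x hx => (n2 γ c x hx).2.1) fun x hx z => (n2 x hx x z).2.2 rfl
  have := c2.2
  have := e2.2
  have p1 : ¬ bc := fun z => by simp only [z, if_true] at *; omega
  have p2 : ¬ bd := fun z => by simp only [z, if_true] at *; omega
  rcases s2 (by omega) β (hB.1 b) (n1 β b) with z | z
  · exact n ⟨β, b, β, z, ζ, d, fun x => absurd x p1, fun x => absurd x p2, β, ζ, by grind⟩
  · exact n ⟨β, b, γ, c, β, z, fun x => absurd x p1, fun x => absurd x p2, β, γ, by grind⟩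

theorem res (hY : Y ⊆ range 8) (cY : Y.card = 2) (hA : Big ac ad A) (hB : Big bc bd B)
    (hC : Big ac bc C) (hE : Big ad bd E) : Res Y ac ad bc bd A B C E := by
  by_contra n
  obtain ⟨s1, s2⟩ := split hY hA.1 hB.1 (fun x a z => n (out hY cY a z hB hC hE))
    (fun x a z => n (out hY cY a z hA hC.symm hE.symm).s1)
    fun x a z => n (same hY cY a z (hA.1 a) hC hE)
  have := hA.2
  have := hB.2
  have p1 : ¬ ac := fun z => by simp only [z, if_true] at *; omega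
  have p2 : ¬ ad := fun z => by simp only [z, if_true] at *; omega
  have p3 : ¬ bc := fun z => by simp only [z, if_true] at *; omega
  have p4 : ¬ bd := fun z => by simp only [z, if_true] at *; omega
  have f : ∀ {p q A}, Big p q A → Big False False A := fun h => ⟨h.1, by simpa using h.three⟩
  obtain ⟨γ, c, -⟩ := av hC.three 0 0
  rcases s2 (by omega) γ (hC.1 c) fun z => n (out hY cY c z hE hA hB).s2 with z | z
  · obtain ⟨α, a, β, b, γ, c, ζ, d, -, -, -, -, σ, τ, k⟩ := same hY cY z c (hC.1 c) (f hB) (f hE)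
    exact n ⟨α, a, γ, c, β, b, ζ, d, by tauto, by tauto, by tauto, by tauto, σ, τ, by grind⟩
  · obtain ⟨α, a, β, b, γ, c, ζ, d, -, -, -, -, σ, τ, k⟩ := same hY cY z c (hC.1 c) (f hA) (f hE)
    exact n ⟨γ, c, α, a, β, b, ζ, d, by tauto, by tauto, by tauto, by tauto, σ, τ, by grind⟩

end K4

variable {V : Type} [Fintype V] {G : SimpleGraph V} {D : ℕ}

/-- Forbidden colours left by a colouring of the rest of the graph. -/
theorem lists (h : MC G D) (X : Finset V) {x y : V} (hx : x ∈ X) (a : G.Adj y x) :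
    ∃ s : V → Finset ℕ, (∀ v (Y : Finset V), (∀ y ∈ Y, G.Adj v y ∧ y ∈ X) →
      (s v).card + Y.card ≤ D + 1) ∧ ∀ f : V → ℕ, (∀ v ∈ X, f v < D ∧ f v ∉ s v) →
      ¬ ∀ u ∈ X, ∀ v ∈ X, G.Adj u v → f u ≠ f v := by
  obtain ⟨c, p0, h0⟩ := col_del h X hx a
  refine ⟨TSE.seen G X c, fun v Y hY => ?_, fun f f1 f2 =>
    h.ncol ⟨fun v => if v ∈ X then f v else c v, fun v => ?_, fun u v k => ?_⟩⟩
  · have h1 : (TSE.seen G X c v).card ≤ (nb G v \ X).card := card_image_le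
    have h2 : Y.card ≤ (nb G v ∩ X).card :=
      card_le_card fun y hy => mem_inter.2 ⟨mem_nb.2 (hY y hy).1, (hY y hy).2⟩
    have h3 := card_sdiff_add_card_inter (nb G v) X
    have h4 := h.deg v
    omega
  · dsimp only
    split_ifs with x
    exacts [(f1 v x).1, (h0 v).2 x]
  · dsimp only
    split_ifs with x y y
    · exact f2 u x v y k
    · exact (TSE.ne_of_notMem h0 (f1 u x).1 (f1 u x).2 k).symm
    · exact TSE.ne_of_notMem h0 (f1 v y).1 (f1 v y).2 k.symm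
    · exact p0 u v k ((h0 u).2 x)

/-- The common neighbourhood of a `K4` has no two disjoint non-edges. -/
theorem k4two (h : MC G 8) {W : Finset V} (hW : IsClq G W) (h4 : 4 ≤ W.card) {a b c d : V}
    (hx : ∀ w ∈ W, G.Adj w a ∧ G.Adj w b ∧ G.Adj w c ∧ G.Adj w d) (ab : a ≠ b) (cd : c ≠ d)
    (ac : a ≠ c) (ad : a ≠ d) (bc : b ≠ c) (bd : b ≠ d) (n : ¬ G.Adj a b) (n' : ¬ G.Adj c d) :
    False := by
  obtain ⟨W, w1, cW⟩ := exists_subset_card_eq h4
  replace hW : IsClq G W := fun a ha b hb => hW a (w1 ha) b (w1 hb)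
  replace hx := fun w k => hx w (w1 k)
  have aW : a ∉ W := fun q => (hx a q).1.ne rfl
  have bW : b ∉ W := fun q => (hx b q).2.1.ne rfl
  have cW' : c ∉ W := fun q => (hx c q).2.2.1.ne rfl
  have dW : d ∉ W := fun q => (hx d q).2.2.2.ne rfl
  obtain ⟨t, ht⟩ := card_pos.1 (by omega : 0 < W.card)
  obtain ⟨X, hX, kX⟩ : ∃ X : Finset V, (∀ v, v ∈ X ↔ v = a ∨ v = b ∨ v = c ∨ v = d ∨ v ∈ W) ∧
      X.card = 8 := ⟨insert a (insert b (insert c (insert d W))), by simp, by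
    rw [card_insert_of_notMem (by simp [ab, ac, ad, aW]), card_insert_of_notMem (by simp [bc, bd, bW]),
      card_insert_of_notMem (by simp [cd, cW']), card_insert_of_notMem dW, cW]⟩
  obtain ⟨s, s1, s2⟩ := lists h X ((hX a).2 (.inl rfl)) (hx t ht).1
  have sw : ∀ w ∈ W, (s w).card ≤ 2 := fun w k => by
    have := s1 w (X.erase w) fun y hy => ⟨by
      rcases (hX y).1 (mem_of_mem_erase hy) with rfl | rfl | rfl | rfl | q
      exacts [(hx w k).1, (hx w k).2.1, (hx w k).2.2.1, (hx w k).2.2.2,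
        hW w k y q (ne_of_mem_erase hy).symm], mem_of_mem_erase hy⟩
    rw [card_erase_of_mem ((hX w).2 (by simp [k]))] at this
    omega
  have big : ∀ v p q, (∀ w ∈ W, G.Adj w v) → p ∈ X → q ∈ X → p ∉ W → q ∉ W → p ≠ q →
      K4.Big (G.Adj v p) (G.Adj v q) (range 8 \ s v) := fun v p q k p1 q1 p2 q2 e => by
    refine ⟨sdiff_subset, ?_⟩
    have := le_card_sdiff (s v) (range 8)
    have := s1 v (W ∪ ({p, q} : Finset V).filter (G.Adj v)) fun y hy => by
      simp only [mem_union, mem_filter, mem_insert, mem_singleton] at hy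
      rcases hy with z | ⟨rfl | rfl, z⟩
      exacts [⟨(k y z).symm, (hX y).2 (by simp [z])⟩, ⟨z, p1⟩, ⟨z, q1⟩]
    rw [card_union_of_disjoint (disjoint_left.2 fun y z hy => by
      simp only [mem_filter, mem_insert, mem_singleton] at hy
      grind), card_filter, sum_pair e] at this
    rw [card_range] at *
    omega
  obtain ⟨Y, y1, y2, y3, y4⟩ : ∃ Y ⊆ range 8, Y.card = 2 ∧
      (∀ γ < 8, γ ∉ Y → ∃ w ∈ W, γ ∉ s w) ∧ ∀ γ < 8, ∀ ζ < 8, γ ≠ ζ → γ ∉ Y →
        (W.filter fun w => γ ∈ s w ∧ ζ ∈ s w).card ≤ 2 := by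
    by_cases k : ∃ γ < 8, ∃ ζ < 8, γ ≠ ζ ∧ 2 < (W.filter fun w => γ ∈ s w ∧ ζ ∈ s w).card
    · obtain ⟨γ, g, ζ, z, e, k⟩ := k
      have m : ∀ w ∈ W.filter fun w => γ ∈ s w ∧ ζ ∈ s w, ∀ x ∈ s w, x ∈ ({γ, ζ} : Finset ℕ) :=
        fun w hw x hx => by
          rwa [eq_of_subset_of_card_le (s := {γ, ζ}) (t := s w) (by
            simpa [insert_subset_iff] using (mem_filter.1 hw).2)
            (by rw [card_pair e]; exact sw w (mem_filter.1 hw).1)]
      refine ⟨{γ, ζ}, by simp [insert_subset_iff, g, z], card_pair e, fun x _ p => ?_,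
        fun x _ y _ _ p => ?_⟩
      · obtain ⟨w, hw⟩ := card_pos.1 (Nat.zero_lt_of_lt k)
        exact ⟨w, (mem_filter.1 hw).1, fun q => p (m w hw x q)⟩
      · have := card_union_of_disjoint (disjoint_left.2 fun w hw
          (q : w ∈ W.filter fun w => x ∈ s w ∧ y ∈ s w) => p (m w hw x (mem_filter.1 q).2.1))
        have := card_le_card (union_subset (filter_subset (fun w => γ ∈ s w ∧ ζ ∈ s w) W)
          (filter_subset (fun w => x ∈ s w ∧ y ∈ s w) W))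
        omega
    · obtain ⟨Y, y1, y2, y3⟩ := exists_subsuperset_card_eq (n := 2)
        (inter_subset_left (s₁ := range 8) (s₂ := s t))
        ((card_le_card inter_subset_right).trans (sw t ht)) (by simp)
      refine ⟨Y, y2, y3, fun x p q => ⟨t, ht, fun z => q (y1 (by simp [p, z]))⟩,
        fun x p y q e _ => not_lt.1 fun z => k ⟨x, p, y, q, e, z⟩⟩
  have mX : a ∈ X ∧ b ∈ X ∧ c ∈ X ∧ d ∈ X := by simp [hX]
  obtain ⟨α, a1, β, b1, γ, c1, ζ, d1, h1, h2, h3, h4, σ, τ, k⟩ := K4.res y1 y2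
    (big a c d (fun w k => (hx w k).1) mX.2.2.1 mX.2.2.2 cW' dW cd)
    (big b c d (fun w k => (hx w k).2.1) mX.2.2.1 mX.2.2.2 cW' dW cd)
    (by simpa only [G.adj_comm c] using big c a b (fun w k => (hx w k).2.2.1) mX.1 mX.2.1 aW bW ab)
    (by simpa only [G.adj_comm d] using big d a b (fun w k => (hx w k).2.2.2) mX.1 mX.2.1 aW bW ab)
  obtain ⟨g, g1, g2⟩ := ext_hall W (range 8 \ insert σ (insert τ Y)) s (by
      have := le_card_sdiff (insert σ (insert τ Y)) (range 8)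
      have := card_insert_le σ (insert τ Y)
      have := card_insert_le τ Y
      rw [card_range] at *
      omega) sw (fun x hx => by
      simp only [mem_sdiff, mem_range, mem_insert, not_or] at hx
      obtain ⟨w, p, q⟩ := y3 x hx.1 hx.2.2.2
      exact card_lt_card ⟨filter_subset _ _, fun z => q (mem_filter.1 (z p)).2⟩)
    fun x hx y hy e => by
      simp only [mem_sdiff, mem_range, mem_insert, not_or] at hx hy
      have := y4 x hx.1 y hy.1 e hx.2.2.2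
      omega
  simp only [mem_sdiff, mem_range, mem_insert, not_or] at a1 b1 c1 d1 g2
  obtain ⟨f, fa, fb, fc, fd, fw⟩ : ∃ f : V → ℕ, f a = α ∧ f b = β ∧ f c = γ ∧ f d = ζ ∧
      ∀ w ∈ W, f w = g w := ⟨fun v => if v ∈ W then g v else if v = a then α else if v = b then β
    else if v = c then γ else ζ, by simp [aW], by simp [bW, ab.symm], by simp [cW', ac.symm, bc.symm],
      by simp [dW, ad.symm, bd.symm, cd.symm], fun w k => by simp [k]⟩
  have fB : ∀ w ∈ W, ∀ v, v = a ∨ v = b ∨ v = c ∨ v = d → f w ≠ f v := fun w p v q e => by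
    have x := (g2 w p).1.2
    exact (k (g w) (by rw [← fw w p, e]; rcases q with q | q | q | q <;> simp [q, fa, fb, fc, fd])).elim
      x.1 fun y => y.elim x.2.1 x.2.2
  refine s2 f (fun v hv => ?_) fun u hu v hv e => ?_
  · rcases (hX v).1 hv with q | q | q | q | q
    · rwa [q, fa]
    · rwa [q, fb]
    · rwa [q, fc]
    · rwa [q, fd]
    · rw [fw v q]
      exact ⟨(g2 v q).1.1, (g2 v q).2⟩
  · simp only [hX, ← or_assoc] at hu hv
    rcases hu with p | p <;> rcases hv with q | q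
    · have := e.ne
      have := e.symm
      clear s1 s2 sw big y1 y2 y3 y4 k g1 g2 fw fB hx hX a1 b1 c1 d1 mX hW w1
      grind
    · exact (fB v q u (by simpa only [← or_assoc] using p)).symm
    · exact fB u p v (by simpa only [← or_assoc] using q)
    · rw [fw u p, fw v q]
      exact g1 u p v q e.ne

/-- The common neighbourhood of a `K4` is almost complete, or an independent triple with at most
one more vertex. -/
theorem k4nb (h : MC G 8) {W B : Finset V} (hW : IsClq G W) (h4 : 4 ≤ W.card)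
    (hB : ∀ b ∈ B, ∀ w ∈ W, G.Adj w b) : (∃ u, IsClq G (B.erase u)) ∨
      ∃ a ∈ B, ∃ b ∈ B, ∃ c ∈ B, a ≠ b ∧ a ≠ c ∧ b ≠ c ∧ ¬ G.Adj a b ∧ ¬ G.Adj a c ∧ ¬ G.Adj b c ∧
        (∀ x ∈ B, x ≠ a → x ≠ b → x ≠ c → ∀ y ∈ B, y ≠ x → G.Adj x y) ∧ W.card + B.card ≤ 8 := by
  rw [or_iff_not_imp_left]
  intro n
  have ne : ∀ u, ∃ c ∈ B, ∃ d ∈ B, c ≠ u ∧ d ≠ u ∧ c ≠ d ∧ ¬ G.Adj c d := fun u => by
    by_contra! k
    exact n ⟨u, fun c hc d hd => k c (mem_of_mem_erase hc) d (mem_of_mem_erase hd)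
      (ne_of_mem_erase hc) (ne_of_mem_erase hd)⟩
  have T : ∀ a ∈ B, ∀ b ∈ B, ∀ c ∈ B, ∀ d ∈ B, a ≠ b → c ≠ d → ¬ G.Adj a b → ¬ G.Adj c d →
      a = c ∨ a = d ∨ b = c ∨ b = d := fun a ha b hb c hc d hd e1 e2 k1 k2 => by
    by_contra! k
    exact k4two h hW h4 (fun w z => ⟨hB a ha w z, hB b hb w z, hB c hc w z, hB d hd w z⟩) e1 e2
      k.1 k.2.1 k.2.2.1 k.2.2.2 k1 k2
  obtain ⟨t, -⟩ := card_pos.1 (by omega : 0 < W.card)
  obtain ⟨a, ha, b, hb, -, -, ab, k⟩ := ne t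
  obtain ⟨c, hc, c1, c2, c3⟩ : ∃ c ∈ B, c ≠ a ∧ c ≠ b ∧ ¬ G.Adj b c := by
    obtain ⟨c, hc, d, hd, x1, x2, x3, x4⟩ := ne a
    have := T a ha b hb c hc d hd ab x3 k x4
    have := G.adj_comm c d
    grind
  have d3 : ¬ G.Adj a c := by
    obtain ⟨x, hx, y, hy, x1, x2, x3, x4⟩ := ne b
    have := T a ha b hb x hx y hy ab x3 k x4
    have := T b hb c hc x hx y hy c2.symm x3 c3 x4
    have := G.adj_comm x y
    grind
  have un : ∀ x ∈ B, x ≠ a → x ≠ b → x ≠ c → ∀ y ∈ B, y ≠ x → G.Adj x y :=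
    fun x hx x1 x2 x3 y hy e => by
      by_contra z
      have := T x hx y hy a ha b hb e.symm ab z k
      have := T x hx y hy a ha c hc e.symm c1.symm z d3
      have := T x hx y hy b hb c hc e.symm c2.symm z c3
      grind
  refine ⟨a, ha, b, hb, c, hc, ab, c1.symm, c2.symm, k, d3, c3, un, not_lt.1 fun l => ?_⟩
  have m : ∀ x, x ∈ ((B.erase a).erase b).erase c ↔ x ∈ B ∧ x ≠ a ∧ x ≠ b ∧ x ≠ c := fun x => by
    simp only [mem_erase]; tauto
  have := card_erase_add_one ha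
  have := card_erase_add_one (mem_erase.2 ⟨ab.symm, hb⟩)
  have := card_erase_add_one (mem_erase.2 ⟨c2, mem_erase.2 ⟨c1, hc⟩⟩)
  have := card_union_of_disjoint (s := W) (t := ((B.erase a).erase b).erase c)
    (disjoint_left.2 fun x p q => (hB x ((m x).1 q).1 x p).ne rfl)
  refine e3b h (W ∪ ((B.erase a).erase b).erase c) a b c (fun x hx y hy e => ?_) (by omega)
    (by omega) ab c1.symm c2.symm k d3 c3 fun x hx => ?_
  · simp only [mem_union, m] at hx hy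
    rcases hx with p | p <;> rcases hy with q | q
    exacts [hW x p y q e, hB y q.1 x p, (hB x p.1 y q).symm,
      un x p.1 p.2.1 p.2.2.1 p.2.2.2 y q.1 e.symm]
  · simp only [mem_union, m] at hx
    rcases hx with p | p
    · exact ⟨hB a ha x p, hB b hb x p, hB c hc x p⟩
    · exact ⟨un x p.1 p.2.1 p.2.2.1 p.2.2.2 a ha p.2.1.symm,
        un x p.1 p.2.1 p.2.2.1 p.2.2.2 b hb p.2.2.1.symm,
        un x p.1 p.2.1 p.2.2.1 p.2.2.2 c hc p.2.2.2.symm⟩

/-- Two cliques with four common vertices form an almost complete graph. -/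
theorem two4 (h : MC G 8) {A B : Finset V} (hA : IsClq G A) (hB : IsClq G B)
    (h4 : 4 ≤ (A ∩ B).card) : ∃ u, IsClq G ((A ∪ B).erase u) := by
  have ad : ∀ b ∈ A ∪ B, ∀ w ∈ A ∩ B, w ≠ b → G.Adj w b := fun b p w q e =>
    (mem_union.1 p).elim (fun p => hA w (mem_inter.1 q).1 b p e) fun p => hB w (mem_inter.1 q).2 b p e
  rcases k4nb h (B := (A ∪ B) \ (A ∩ B)) (fun a p b q => hA a (mem_inter.1 p).1 b (mem_inter.1 q).1)
    h4 (fun b p w q => ad b (mem_sdiff.1 p).1 w q fun e => (mem_sdiff.1 p).2 (e ▸ q)) with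
    ⟨u, k⟩ | ⟨a, ha, b, hb, c, hc, e1, e2, e3, n1, n2, n3, -⟩
  · refine ⟨u, fun x p y q e => ?_⟩
    rw [mem_erase] at p q
    by_cases p' : x ∈ A ∩ B
    · exact ad y q.2 x p' e
    by_cases q' : y ∈ A ∩ B
    · exact (ad x p.2 y q' e.symm).symm
    exact k x (mem_erase.2 ⟨p.1, mem_sdiff.2 ⟨p.2, p'⟩⟩) y (mem_erase.2 ⟨q.1, mem_sdiff.2 ⟨q.2, q'⟩⟩) e
  · have := mem_union.1 (mem_sdiff.1 ha).1
    have := mem_union.1 (mem_sdiff.1 hb).1
    have := mem_union.1 (mem_sdiff.1 hc).1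
    grind [IsClq]

/-- Two `K5` with a common edge, both complete to a non-edge, are complete to each other. -/
theorem e2k2 (h : MC G 8) {A B : Finset V} (hA : IsClq G A) (hB : IsClq G B) (cA : 5 ≤ A.card)
    (cB : 5 ≤ B.card) {x y p q a b : V} (e : x ≠ y) (hx : x ∈ A ∧ x ∈ B) (hy : y ∈ A ∧ y ∈ B)
    (pq : p ≠ q) (n : ¬ G.Adj p q) (hp : ∀ z ∈ A ∪ B, G.Adj p z ∧ G.Adj q z) (ha : a ∈ A)
    (hb : b ∈ B) (ab : a ≠ b) : G.Adj a b := by
  by_contra k
  have bA : b ∉ A := fun z => k (hA a ha b z ab)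
  have aB : a ∉ B := fun z => k (hB a z b hb ab)
  have px := hp x (mem_union_left _ hx.1)
  have py := hp y (mem_union_left _ hy.1)
  have pa := hp a (mem_union_left _ ha)
  have pb := hp b (mem_union_right _ hb)
  have m : ∀ x, x ∈ A ∧ x ∈ B → ∀ z ∈ A ∪ B, z = x ∨ G.Adj x z := fun x hx z hz =>
    (mem_union.1 hz).elim (Tight.eq_or_adj hA hx.1) (Tight.eq_or_adj hB hx.2)
  have sub : insert b A ⊆ A ∪ B := insert_subset (mem_union_right _ hb) subset_union_left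
  have d1 := Tight.le_dX (x1 := x) (x2 := y) (v := p) (insert b A) fun z hz =>
    ⟨(hp z (sub hz)).1, m x hx z (sub hz), m y hy z (sub hz)⟩
  have d2 := Tight.le_dX (x1 := x) (x2 := y) (v := q) (insert b A) fun z hz =>
    ⟨(hp z (sub hz)).2, m x hx z (sub hz), m y hy z (sub hz)⟩
  have d3 : ∀ C ⊆ A ∪ B, IsClq G C → 5 ≤ C.card → ∀ c ∈ C, 6 ≤ dX G x y c := fun C s t u c hc => by
    have := Tight.le_dX (G := G) (x1 := x) (x2 := y) (v := c) (insert p (insert q (C.erase c)))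
      fun z hz => by
        simp only [mem_insert, mem_erase] at hz
        rcases hz with rfl | rfl | hz
        exacts [⟨(hp c (s hc)).1.symm, .inr px.1.symm, .inr py.1.symm⟩,
          ⟨(hp c (s hc)).2.symm, .inr px.2.symm, .inr py.2.symm⟩,
          ⟨t c hc z hz.2 hz.1.symm, m x hx z (s hz.2), m y hy z (s hz.2)⟩]
    have pC : p ∉ C := fun z => (hp p (s z)).1.ne rfl
    have qC : q ∉ C := fun z => (hp q (s z)).2.ne rfl
    rw [card_insert_of_notMem (by simp [pq, pC]), card_insert_of_notMem (by simp [qC]),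
      card_erase_of_mem hc] at this
    omega
  have := d3 A subset_union_left hA cA a ha
  have := d3 B subset_union_right hB cB b hb
  rw [card_insert_of_notMem bA] at d1 d2
  exact ts h x y p q a b (hA x hx.1 y hy.1 e) px.1.symm px.2.symm
    (hA x hx.1 a ha fun z => aB (z ▸ hx.2)) (hB x hx.2 b hb fun z => bA (z ▸ hx.1)) py.1.symm
    py.2.symm (hA y hy.1 a ha fun z => aB (z ▸ hy.2)) (hB y hy.2 b hb fun z => bA (z ▸ hy.1)) pq ab
    pa.1.ne pb.1.ne pa.2.ne pb.2.ne n k (by omega) (by omega)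

end Pool.Agent.Lib.MP_12eaff_co.BK
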