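import Mathlib
import Pool.Agent.Lib.MP_12eaff_co.Pairs

set_option autoImplicit false

namespace Pool.Agent.Lib.MP_12eaff_co

open Finset
open scoped Classical

variable {V : Type} {G : SimpleGraph V} {U : Finset V} {a0 e0 f0 : ℕ} {t : St V}

/-- Two vertices in the same one of the last two parts. -/
def Same (t : St V) (a b : V) : Prop := (a ∈ t.X ∧ b ∈ t.X) ∨ (a ∈ t.Y ∧ b ∈ t.Y)

/-- `z` leaves the active part and `p` enters one of the last two parts. -/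
def Step (t t' : St V) (z p : V) : Prop :=
  (t'.X = insert p (t.X.erase z) ∧ t'.Y = t.Y) ∨ (t'.X = insert p t.Y ∧ t'.Y = t.X.erase z)

/-- Witnesses for an outer vertex `g` of a clique that can never become active. -/
def YW (G : SimpleGraph V) (t : St V) (Q : Finset V) (g a b y : V) : Prop :=
  g ∈ Q ∧ a ∈ Q ∩ t.A ∧ b ∈ Q ∩ t.A ∧ a ≠ b ∧ Same t g y ∧ G.Adj y g ∧ G.Adj y a ∧ G.Adj y b ∧
    ∀ q ∈ Q, G.Adj y q → q = g ∨ q = a ∨ q = b

theorem Step.same {t' : St V} {z p a b : V} (h : Step t t' z p) (h1 : a ≠ z) (h2 : b ≠ z)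
    (h3 : a ≠ p) (h4 : b ≠ p) : Same t' a b ↔ Same t a b := by
  unfold Same
  rcases h with ⟨e1, e2⟩ | ⟨e1, e2⟩ <;> rw [e1, e2] <;> simp only [mem_insert, mem_erase] <;> tauto

theorem Same.out (v : Val G U t) {a b : V} (h : Same t a b) : a ∉ t.A ∧ b ∉ t.A := by
  have := v.dAX
  have := v.dAY
  unfold Same at h
  grind

theorem Same.symm {a b : V} (h : Same t a b) : Same t b a := h.imp And.symm And.symm

theorem Tri.other {P S : Finset V} (h : Tri G P S) (a b : V) : ∃ o ∈ S, o ≠ a ∧ o ≠ b := by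
  obtain ⟨o, h1, h2⟩ := exists_mem_notMem_of_card_lt_card (s := {a, b}) (t := S)
    (card_le_two.trans_lt (by rw [h.1]; norm_num))
  exact ⟨o, h1, by simpa using h2⟩

theorem YW.inert (c : Ctx G U a0 e0 f0) (o : Opt G U a0 e0 f0 t) {Q : Finset V}
    (hQ : Tri G t.A (Q ∩ t.A)) {g a b y : V} (h : YW G t Q g a b y) : y ∉ t.K G ∧ g ∉ t.K G := by
  obtain ⟨-, ha, hb, hab, hs, yg, ya, yb, h⟩ := h
  have k : y ∉ t.K G := by
    intro hy
    obtain ⟨q, hq, q1, q2⟩ := hQ.other a b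
    rcases h q (mem_inter.mp hq).1 (o.twoA c hQ hy ha hb hab ya yb q hq) with e | e | e
    · exact (hs.out o.val).1 (e ▸ (mem_inter.mp hq).2)
    · exact q1 e
    · exact q2 e
  refine ⟨k, fun hg => k (o.nbr c hg ?_ yg.symm)⟩
  rcases hs with h1 | h1
  · exact h1.2
  · exact absurd h1.1 (o.val.dXY g (K_sub hg))

theorem YW.step (c : Ctx G U a0 e0 f0) (o : Opt G U a0 e0 f0 t) {Q : Finset V}
    (hQ : Tri G t.A (Q ∩ t.A)) {g a b y : V} (h : YW G t Q g a b y) {t' : St V} {z p : V}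
    (hs : Step t t' z p) (hz : z ∈ t.K G) (hp : p = z ∨ p ∈ t.A) (ha : a ∈ t'.A) (hb : b ∈ t'.A) :
    YW G t' Q g a b y := by
  obtain ⟨i1, i2⟩ := h.inert c o hQ
  obtain ⟨h1, h2, h3, h4, h5, h6⟩ := h
  obtain ⟨o1, o2⟩ := h5.out o.val
  refine ⟨h1, mem_inter.mpr ⟨(mem_inter.mp h2).1, ha⟩, mem_inter.mpr ⟨(mem_inter.mp h3).1, hb⟩, h4,
    (hs.same ?_ ?_ ?_ ?_).mpr h5, h6⟩ <;> grind

theorem Opt.own [Fintype V] (c : Ctx G U a0 e0 f0) (k6 : NoK6 G) (o : Opt G U a0 e0 f0 t)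
    {C : Finset (Finset V)} (h : Sys G U t.A C) (hm : ∀ C', Sys G U t.A C' → mu C' ≤ mu C) {z : V}
    (hz : z ∈ t.K G) (hi : Hi G U t.A z) : ∃ Q ∈ C, z ∈ Q := by
  by_contra hn
  push Not at hn
  have v := o.val
  have zA : z ∉ t.A := fun h1 => v.dAX z h1 (K_sub hz)
  have zU := (v.cov z).mpr (Or.inr (Or.inl (K_sub hz)))
  have tr := (o.high c hz ((o.hi c hz).mp hi)).1
  have key : ∀ C', Sys G U t.A C' → (∀ Q ∈ C', z ∉ Q) → mu C ≤ mu C' → ∀ Q ∈ C',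
      Q ∩ t.A = t.A.filter (G.Adj z) → False := by
    intro C' h' hn' hl Q hQ e
    have m : ∀ a ∈ t.A, G.Adj z a ↔ a ∈ Q ∩ t.A := fun a ha => by rw [e]; simp [ha]
    suffices ha : ∀ x ∈ Q, G.Adj z x by
      obtain ⟨s1, s2⟩ := h'.grow hQ zU zA hn' (fun a ha h1 => (mem_inter.mp ((m a ha).mp h1)).1) ha
      have := hm _ s1
      omega
    intro x hx
    by_cases xA : x ∈ t.A
    · exact (m x xA).mpr (mem_inter.mpr ⟨hx, xA⟩)
    by_contra h1
    obtain ⟨q, hq, -⟩ := (h'.tri Q hQ).other z z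
    have xz : x ≠ z := fun e => hn' Q hQ (e ▸ hx)
    exact o.maxA2 c hz (mem_inter.mp hq).2 (((v.cov x).mp (h'.sub Q hQ hx)).resolve_left xA) xz
      (col2 (h'.tri Q hQ) hq zA xA xz (fun h2 => h1 h2.symm) m (h'.col k6 v.cA hQ hx xA))
  by_cases h1 : ∃ Q ∈ C, ∃ a ∈ Q, a ∈ t.A.filter (G.Adj z)
  · obtain ⟨Q, hQ, a, a1, a2⟩ := h1
    exact key C h hn le_rfl Q hQ ((h.tri Q hQ).eq tr (mem_inter.mpr ⟨a1, (mem_filter.mp a2).1⟩) a2)
  · push Not at h1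
    refine key _ (h.add v.subA tr h1) (forall_mem_insert _ _ _ |>.mpr ⟨by simp, hn⟩)
      (sum_le_sum_of_subset (subset_insert _ _)) _ (mem_insert_self _ _)
      (inter_eq_left.mpr (filter_subset _ _))

theorem no_opt [Fintype V] (c : Ctx G U a0 e0 f0) (k6 : NoK6 G) (h0 : Opt G U a0 e0 f0 t) :
    False := by
  obtain ⟨x1, p1, m1⟩ := exists_max (fun x : St V × Finset (Finset V) =>
    Opt G U a0 e0 f0 x.1 ∧ Sys G U x.1.A x.2) (fun x => mu x.2) (mu univ)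
    (fun x => sum_le_sum_of_subset (subset_univ _))
    ⟨(t, ∅), h0, by simp, by simp, by simp, by simp, by simp⟩
  obtain ⟨⟨t0, C⟩, ⟨⟨o0, s0⟩, e1⟩, m0⟩ := exists_max (fun x : St V × Finset (Finset V) =>
    (Opt G U a0 e0 f0 x.1 ∧ Sys G U x.1.A x.2) ∧ mu x.2 = mu x1.2)
    (fun x => (x.2.filter (fun Q => ∃ g a b y, YW G x.1 Q g a b y)).card) _
    (fun x => card_le_univ _) ⟨x1, p1, rfl⟩
  simp only at o0 s0 e1 m0
  let P : St V → Prop := fun s => Opt G U a0 e0 f0 s ∧ Sys G U s.A C ∧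
    (∀ Q ∈ C, (∃ g a b y, YW G t0 Q g a b y) → ∃ g ∉ t0.A, ∃ a b y, YW G s Q g a b y) ∧
    ∀ Q ∈ C, ∀ g ∈ Q ∩ t0.A, ∀ g' ∈ Q ∩ t0.A, g ≠ g' → Same s g g' → Hi G U s.A g →
      Hi G U s.A g' → False
  have own : ∀ s, P s → ∀ z ∈ s.K G, Hi G U s.A z → ∃ Q ∈ C, z ∈ Q := fun s h z hz hi =>
    h.1.own c k6 h.2.1 (fun C' h' => e1 ▸ m1 (s, C') ⟨h.1, h'⟩) hz hi
  have newY : ∀ s, P s → ∀ Q ∈ C, (∃ g a b y, YW G s Q g a b y) →
      ∃ g ∉ t0.A, ∃ a b y, YW G s Q g a b y := by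
    intro s h Q hQ hY
    have := eq_of_subset_of_card_le (s := C.filter (fun Q => ∃ g a b y, YW G t0 Q g a b y))
      (t := C.filter (fun Q => ∃ g a b y, YW G s Q g a b y)) (fun Q' h1 => by
        obtain ⟨b1, b2⟩ := mem_filter.mp h1
        obtain ⟨g, -, h2⟩ := h.2.2.1 Q' b1 b2
        exact mem_filter.mpr ⟨b1, g, h2⟩) (m0 (s, C) ⟨⟨h.1, h.2.1⟩, e1⟩)
    have b3 : Q ∈ C.filter (fun Q => ∃ g a b y, YW G s Q g a b y) := mem_filter.mpr ⟨hQ, hY⟩
    rw [← this] at b3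
    exact h.2.2.1 Q hQ (mem_filter.mp b3).2
  obtain ⟨t2, p2, m2⟩ := exists_min P (fun s => (s.A ∩ t0.A).card) ⟨t0, o0, s0,
    fun Q _ ⟨g, a, b, y, h⟩ => ⟨g, (h.2.2.2.2.1.out o0.val).1, a, b, y, h⟩,
    fun Q _ g hg g' _ _ h _ _ => (h.out o0.val).1 (mem_inter.mp hg).2⟩
  have fwd : ∀ s, P s → s.A = t2.A → ∀ u ∈ s.K G, Hi G U s.A u → u ∈ t0.A := by
    intro s hP eA u hu hi
    by_contra u0
    obtain ⟨Q, hQ, uQ⟩ := own s hP u hu hi
    have nY := newY s hP Q hQ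
    obtain ⟨o, sy, hY, hJ⟩ := hP
    have v := o.val
    have uA : u ∉ s.A := fun h1 => v.dAX u h1 (K_sub hu)
    have uU := sy.sub Q hQ uQ
    have tr := sy.tri Q hQ
    have fu := sy.full hQ uQ uA
    have mu := hi_nbr c v.subA tr uU hi fu
    have key : ∀ p ∈ Q ∩ s.A, p ∈ t0.A →
        ((∃ g a b y, YW G s Q g a b y) → ∃ g ∉ t0.A, ∃ a b y, YW G s Q g a b y ∧ p ≠ a ∧ p ≠ b) →
        ∃ g ∈ Q, g ∈ t0.A ∧ g ∉ s.A ∧ Hi G U s.A g ∧
          ((g ∈ s.X ∧ Opt G U a0 e0 f0 (s.sw1 u p) ∧ p ∈ (s.sw1 u p).K G) ∨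
            (g ∈ s.Y ∧ Opt G U a0 e0 f0 (s.sw2 u p) ∧ p ∈ (s.sw2 u p).K G)) := by
      intro p hp p0 hy
      obtain ⟨pQ, pA⟩ := mem_inter.mp hp
      have k2 : ∀ s' : St V, Opt G U a0 e0 f0 s' → s'.A = (insert u s.A).erase p → Step s s' u p →
          ∃ g ∈ Q, g ∈ t0.A ∧ g ∉ s.A ∧ Hi G U s.A g ∧ Same s' g p := by
        intro s' o' eA' st
        by_contra hc
        push Not at hc
        have inA : ∀ a ∈ s.A, a ≠ p → a ∈ s'.A := fun a h1 h2 =>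
          eA' ▸ mem_erase.mpr ⟨h2, mem_insert_of_mem h1⟩
        have := m2 s' ⟨o', eA' ▸ sy.swap hQ uQ uA hp mu, fun Q' hQ' h1 => ?_,
          fun Q' hQ' g hg g' hg' ne sm h1 h2 => ?_⟩
        · rw [eA', erase_inter, insert_inter_of_notMem u0, card_erase_of_mem (mem_inter.mpr ⟨pA, p0⟩),
            ← eA] at this
          have : 0 < (s.A ∩ t0.A).card := card_pos.mpr ⟨p, mem_inter.mpr ⟨pA, p0⟩⟩
          omega
        · obtain ⟨g, g0, a, b, y, w, pa, pb⟩ : ∃ g ∉ t0.A, ∃ a b y, YW G s Q' g a b y ∧ p ≠ a ∧ p ≠ b := by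
            obtain ⟨g, g0, a, b, y, w⟩ := hY Q' hQ' h1
            by_cases e : Q = Q'
            · exact e ▸ hy ⟨g, a, b, y, e ▸ w⟩
            · exact ⟨g, g0, a, b, y, w, fun e' => e (sy.disj hQ hQ' pQ (e' ▸ (mem_inter.mp w.2.1).1)),
                fun e' => e (sy.disj hQ hQ' pQ (e' ▸ (mem_inter.mp w.2.2.1).1))⟩
          exact ⟨g, g0, a, b, y, w.step c o (sy.tri Q' hQ') st hu (Or.inr pA)
            (inA a (mem_inter.mp w.2.1).2 pa.symm) (inA b (mem_inter.mp w.2.2.1).2 pb.symm)⟩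
        obtain ⟨g1, g2⟩ := mem_inter.mp hg
        obtain ⟨g1', g2'⟩ := mem_inter.mp hg'
        obtain ⟨n1, n2⟩ := sm.out o'.val
        rw [eA'] at h1 h2
        have gu : g ≠ u := fun e => u0 (e ▸ g2)
        have gu' : g' ≠ u := fun e => u0 (e ▸ g2')
        by_cases e : Q = Q'
        · subst e
          have one : ∀ g ∈ Q, g ∈ t0.A → g ≠ p → g ≠ u → g ∉ s'.A → Same s' g p →
              Hi G U ((insert u s.A).erase p) g → False := fun g b1 b2 b3 b4 b5 b6 b7 =>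
            hc g b1 b2 (fun h => b5 (inA g h b3))
              (hi_swap v.subA uU uA pA b7 (fun _ => sy.clq Q hQ g b1 u uQ b4)) b6
          by_cases e2 : g' = p
          · exact one g g1 g2 (e2 ▸ ne) gu n1 (e2 ▸ sm) h1
          by_cases e3 : g = p
          · exact one g' g1' g2' e2 gu' n2 (e3 ▸ sm.symm) h2
          exact ne (sy.out2 k6 hQ uQ g1 g1' uA (fun h => n1 (inA g h e3)) (fun h => n2 (inA g' h e2))
            gu.symm gu'.symm)
        · have na : ∀ g ∈ Q' ∩ t0.A, ¬ G.Adj g p := fun g hg h =>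
            e (sy.disj hQ hQ' pQ (mem_inter.mp ((s0.tri Q' hQ').2.1.2 g hg p p0 h)).1)
          exact hJ Q' hQ' g hg g' hg' ne ((st.same gu gu' (fun e' => e (sy.disj hQ hQ' pQ (e' ▸ g1)))
            (fun e' => e (sy.disj hQ hQ' pQ (e' ▸ g1')))).mp sm)
            (hi_swap v.subA uU uA pA h1 (fun h => absurd h (na g hg)))
            (hi_swap v.subA uU uA pA h2 (fun h => absurd h (na g' hg')))
      rcases (o.high c hu ((o.hi c hu).mp hi)).2 p pA (fu p hp) with h | h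
      · obtain ⟨g, b1, b2, b3, b4, b5⟩ := k2 _ h.1 rfl (Or.inl ⟨rfl, rfl⟩)
        refine ⟨g, b1, b2, b3, b4, Or.inl ⟨?_, h⟩⟩
        rcases b5 with b5 | b5
        · exact mem_of_mem_erase ((mem_insert.mp b5.1).resolve_left (fun e => b3 (e ▸ pA)))
        · exact absurd b5.2 (v.dAY p pA)
      · obtain ⟨g, b1, b2, b3, b4, b5⟩ := k2 _ h.1 rfl (Or.inr ⟨rfl, rfl⟩)
        refine ⟨g, b1, b2, b3, b4, Or.inr ⟨?_, h⟩⟩
        rcases b5 with b5 | b5
        · exact (mem_insert.mp b5.1).resolve_left (fun e => b3 (e ▸ pA))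
        · exact absurd (mem_of_mem_erase b5.2) (v.dAX p pA)
    have c3 := (s0.tri Q hQ).1
    have outg : ∀ g a b y, YW G s Q g a b y → g ∈ Q ∧ g ∉ s.A ∧ u ≠ g := fun g a b y w =>
      ⟨w.1, (w.2.2.2.2.1.out v).1, fun e => (w.inert c o tr).2 (e ▸ hu)⟩
    by_cases hy : ∃ g a b y, YW G s Q g a b y
    · obtain ⟨g, g0, a, b, y, w⟩ := nY hy
      obtain ⟨g1, g2, g3⟩ := outg g a b y w
      have sub : ∀ q ∈ Q, q ∈ t0.A → q ∈ s.A := fun q h1 h2 => by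
        by_contra h3
        exact g0 (sy.out2 k6 hQ uQ g1 h1 uA g2 h3 g3 (fun e => u0 (e ▸ h2)) ▸ h2)
      have eq : Q ∩ t0.A = Q ∩ s.A := eq_of_subset_of_card_le (fun q hq => mem_inter.mpr
        ⟨(mem_inter.mp hq).1, sub q (mem_inter.mp hq).1 (mem_inter.mp hq).2⟩) (by rw [c3, tr.1])
      obtain ⟨p, hp, pa, pb⟩ := tr.other a b
      obtain ⟨g', b1, b2, b3, -⟩ := key p hp (mem_inter.mp (eq ▸ hp)).2
        (fun _ => ⟨g, g0, a, b, y, w, pa, pb⟩)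
      exact b3 (sub g' b1 b2)
    · obtain ⟨a, ha, b, hb, hab⟩ := one_lt_card.mp (show 1 < ((Q ∩ t0.A).filter (· ∈ s.A)).card by
        have a1 := card_filter_add_card_filter_not (s := Q ∩ t0.A) (· ∈ s.A)
        have a2 : ((Q ∩ t0.A).filter (fun x => ¬ x ∈ s.A)).card ≤ 1 := card_le_one.mpr (fun x hx y hy => by
          simp only [mem_filter, mem_inter] at hx hy
          exact sy.out2 k6 hQ uQ hx.1.1 hy.1.1 uA hx.2 hy.2 (fun e => u0 (e ▸ hx.1.2))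
            (fun e => u0 (e ▸ hy.1.2)))
        omega)
      simp only [mem_filter, mem_inter] at ha hb
      have ha' := mem_inter.mpr ⟨ha.1.1, ha.2⟩
      have hb' := mem_inter.mpr ⟨hb.1.1, hb.2⟩
      obtain ⟨g, b1, b2, b3, b4, b5⟩ := key a ha' ha.1.2 (fun h => absurd h hy)
      obtain ⟨g', d1, d2, d3, -, d5⟩ := key b hb' hb.1.2 (fun h => absurd h hy)
      have ug : u ≠ g := fun e => u0 (e ▸ b2)
      have e := sy.out2 k6 hQ uQ b1 d1 uA b3 d3 ug (fun e => u0 (e ▸ d2))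
      subst e
      have aug := sy.clq Q hQ u uQ g b1 ug
      have fg := sy.full hQ b1 b3
      rcases b5 with ⟨x1, x2, x3⟩ | ⟨x1, x2, x3⟩ <;> rcases d5 with ⟨y1, y2, y3⟩ | ⟨y1, y2, y3⟩
      · exact o.pairX c k6 tr hu (o.nbr c hu x1 aug) aug fu
          (hi_nbr c v.subA tr (sy.sub Q hQ b1) b4 fg) ha' hb' hab x2 x3 y2 y3
      · exact v.dXY g x1 y1
      · exact v.dXY g y1 x1
      · obtain ⟨y, z1, z2, z3, z4, z5, z6⟩ := o.pairY c k6 tr hu hi x1 b4 aug mu fg ha' hb' hab x2 x3 y2 y3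
        refine hy ⟨g, a, b, y, b1, ha', hb', hab, Or.inr ⟨x1, z1⟩, z2, z3, z4, fun q hq h1 => ?_⟩
        by_cases qA : q ∈ s.A
        · exact Or.inr (z6 q (mem_inter.mpr ⟨hq, qA⟩) h1)
        · exact Or.inl (sy.out2 k6 hQ uQ hq b1 uA qA b3 (fun e => z5 (e ▸ h1)) ug)
  refine Fam.false (Good := fun s => P s ∧ s.A = t2.A) (F := fun u => ¬ Hi G U t2.A u)
    ⟨fun s h => h.1.1, ?_, ?_⟩ c k6 ⟨p2, rfl⟩
  · rintro s ⟨⟨o, sy, hY, hJ⟩, eA⟩ z hz fz
    rw [← eA] at fz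
    have low : dg G s.Y z = s.s := by
      by_contra hh
      exact fz ((o.hi c hz).mpr hh)
    have st : Step s (s.mv z) z z := Or.inr ⟨rfl, rfl⟩
    refine ⟨low, ⟨o.mv c hz low, sy, fun Q hQ h1 => ?_, fun Q hQ g hg g' hg' ne sm h1 h2 => ?_⟩, eA⟩
    · obtain ⟨g, g0, a, b, y, w⟩ := hY Q hQ h1
      exact ⟨g, g0, a, b, y, w.step c o (sy.tri Q hQ) st hz (Or.inl rfl) (mem_inter.mp w.2.1).2
        (mem_inter.mp w.2.2.1).2⟩
    · have b1 : g ≠ z := fun e => fz (e ▸ h1)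
      have b2 : g' ≠ z := fun e => fz (e ▸ h2)
      exact hJ Q hQ g hg g' hg' ne ((st.same b1 b2 b1 b2).mp sm) h1 h2
  · rintro s ⟨hP, eA⟩ u hu w hw huw
    by_contra hc
    simp only [not_or, not_not, ← eA] at hc
    obtain ⟨Q, hQ, uQ⟩ := own s hP u hu hc.1
    have b1 := mem_inter.mpr ⟨uQ, fwd s hP eA u hu hc.1⟩
    exact hP.2.2.2 Q hQ u b1 w ((s0.tri Q hQ).2.1.2 u b1 w (fwd s hP eA w hw hc.2) huw) huw.ne
      (Or.inl ⟨K_sub hu, K_sub hw⟩) hc.1 hc.2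

theorem col_eight [Fintype V] (k6 : NoK6 G) (S : Finset V)
    (hd : ∀ v ∈ S, dg G S v ≤ 9) : Col G S 8 := by
  by_contra hS
  obtain ⟨U, ⟨hU, nc⟩, mU⟩ := exists_min (fun U : Finset V => U ⊆ S ∧ ¬ Col G U 8) card
    ⟨S, Subset.rfl, hS⟩
  obtain ⟨v, hv⟩ : U.Nonempty := by
    rw [nonempty_iff_ne_empty]
    rintro rfl
    exact nc ⟨fun _ => 0, by simp, by simp⟩
  obtain ⟨c, c1, c2⟩ : Col G (U.erase v) 8 := by
    by_contra h
    have := mU _ ⟨(erase_subset _ _).trans hU, h⟩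
    have := card_erase_lt_of_mem hv
    omega
  have sub : ∀ (lo k : ℕ) (T : Finset V), (∀ u ∈ T, u ∈ U.erase v ∧ lo ≤ c u ∧ c u < lo + k) →
      Col G T k := fun lo k T h => ⟨fun u => c u - lo, fun u hu => by have := h u hu; dsimp only; omega,
        fun u hu w hw huw => by
          have := c2 u (h u hu).1 w (h w hw).1 huw
          have := h u hu
          have := h w hw
          dsimp only
          omega⟩
  have ex : ∃ t, Val G U t := by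
    refine ⟨⟨(U.erase v).filter (fun u => c u < 3),
      insert v ((U.erase v).filter (fun u => 3 ≤ c u ∧ c u < 6)),
      (U.erase v).filter (fun u => 6 ≤ c u), 3, 2⟩, ?_, ?_, ?_, ?_, Or.inl ⟨rfl, rfl⟩,
      sub 0 3 _ (by simp +contextual), sub 6 2 _ (fun u hu => ?_),
      ⟨v, mem_crit.mpr ⟨mem_insert_self _ _, sub 3 3 _ (by simp +contextual)⟩⟩⟩
    any_goals simp only [mem_filter, mem_erase, mem_insert]
    any_goals grind
  obtain ⟨t1, p1, m1⟩ := exists_min (Val G U) (fun t => U.card - t.A.card) ex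
  obtain ⟨t2, p2, m2⟩ := exists_min (fun t => Val G U t ∧ t.A.card = t1.A.card) (potE G U)
    ⟨t1, p1, rfl⟩
  obtain ⟨t3, p3, m3⟩ := exists_min (fun t => (Val G U t ∧ t.A.card = t1.A.card) ∧
    potE G U t = potE G U t2) (potF G) ⟨t2, p2, rfl⟩
  refine no_opt (a0 := t1.A.card) (e0 := potE G U t2) (f0 := potF G t3)
    ⟨fun u hu => (dg_mono hU u).trans (hd u (hU hu)), nc, fun t h => ?_,
      fun t h h1 => m2 t ⟨h, h1⟩, fun t h h1 h2 => m3 t ⟨⟨h, h1⟩, h2⟩⟩ k6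
    ⟨p3.1.1, p3.1.2, p3.2, rfl⟩
  have a1 := m1 t h
  have a2 : t.A.card ≤ U.card := card_le_card (fun u hu => (h.cov u).mpr (Or.inl hu))
  have a3 : t1.A.card ≤ U.card := card_le_card (fun u hu => (p1.cov u).mpr (Or.inl hu))
  omega

theorem col_all [Fintype V] (k6 : NoK6 G) (k : ℕ) : ∀ S : Finset V,
    (∀ v ∈ S, dg G S v ≤ 9 + k) → Col G S (8 + k) := by
  induction k with
  | zero => exact col_eight k6
  | succ k ih =>
    intro S hd
    obtain ⟨I, ⟨hI, cI⟩, mI⟩ := exists_min (fun I : Finset V => I ⊆ S ∧ Col G I 1)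
      (fun I => S.card - I.card) ⟨∅, empty_subset _, col_one.mpr (by simp)⟩
    have := (ih (S \ I) (fun v hv => ?_)).add cI
    · rwa [sdiff_union_of_subset hI] at this
    obtain ⟨v1, v2⟩ := mem_sdiff.mp hv
    have a1 := hd v v1
    rw [dg_split hI] at a1
    have a2 : 1 ≤ dg G I v := by
      by_contra h
      have b1 := mI _ ⟨insert_subset v1 hI, cI.insert (not_le.mp h)⟩
      have b2 := card_le_card (insert_subset v1 hI)
      rw [card_insert_of_notMem v2] at b1 b2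
      omega
    omega

end Pool.Agent.Lib.MP_12eaff_co
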