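import Pool.Agent.Lib.MP_12eaff_co.Acc2.ZG
import Pool.Agent.Lib.MP_12eaff_co.S8b

set_option autoImplicit false

namespace Pool.Agent.Lib.MP_12eaff_co.BK

open Finset Pool.Agent.Lib.MP_12eaff_co.Acc2 Pool.Agent.Lib.MP_12eaff_co.Acc2.ZG
open scoped Classical

variable {V : Type} [Fintype V] {G : SimpleGraph V} {D : ℕ}

omit [Fintype V] in
/-- One more colour at one member: at most one colour is banned. -/
theorem ban1 {F : Finset V} {A : V → Finset ℕ} (h : Good F A) (h3 : 3 ≤ F.card)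
    (h2 : ∀ w ∈ F, (A w).card ≤ 2) {u : V} (hu : u ∈ F) (h1 : (A u).card ≤ 1) :
    ∃ b, ∀ y, y ≠ b → ∀ A' : V → Finset ℕ, (∀ w ∈ F, w ≠ u → A' w ⊆ A w) →
      A' u ⊆ insert y (A u) → Good F A' := by
  set O := F.erase u with hO
  have cO : O.card + 1 = F.card := card_erase_add_one hu
  let bad : ℕ → Prop := fun y => (∀ w ∈ O, y ∈ A w) ∨
    ∃ g ∈ A u, y ≠ g ∧ O.card ≤ (O.filter fun w => y ∈ A w ∧ g ∈ A w).card + 1
  have all : ∀ g ∈ A u, ¬ ∀ w ∈ O, g ∈ A w := fun g m k => by
    obtain ⟨w, w1, w2⟩ := h.1 g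
    by_cases e : w = u
    exacts [w2 (e ▸ m), w2 (k w (mem_erase.2 ⟨e, w1⟩))]
  have tri : ∀ w ∈ O, ∀ a b d, a ∈ A w → b ∈ A w → d ∈ A w → a ≠ b → d = a ∨ d = b :=
    fun w hw a b d ha hb hd n => by
      have : {a, b} = A w := eq_of_subset_of_card_le (insert_subset ha (singleton_subset_iff.2 hb))
        (by rw [card_pair n]; exact h2 w (mem_of_mem_erase hw))
      simpa [← this] using hd
  have ab : ∀ y z g, y ≠ z → (∀ w ∈ O, y ∈ A w) → g ∈ A u → z ≠ g →
      ¬ O.card ≤ (O.filter fun w => z ∈ A w ∧ g ∈ A w).card + 1 := fun y z g n p m q r => by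
    obtain ⟨w, hw⟩ := card_pos.1 (show 0 < (O.filter fun w => z ∈ A w ∧ g ∈ A w).card by omega)
    obtain ⟨w1, w2, w3⟩ := mem_filter.1 hw
    exact all g m ((tri w w1 z g y w2 w3 (p w w1) q).resolve_left n ▸ p)
  have one : ∀ y z, bad y → bad z → y = z := fun y z p q => by_contra fun n => by
    rcases p with p | ⟨g, m, p1, p2⟩ <;> rcases q with q | ⟨g', m', q1, q2⟩
    · have := h.2 y z n
      have : O.card ≤ (F.filter fun w => y ∈ A w ∧ z ∈ A w).card := card_le_card fun w r =>
        mem_filter.2 ⟨mem_of_mem_erase r, p w r, q w r⟩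
      omega
    · exact ab y z g' n p m' q1 q2
    · exact ab z y g (Ne.symm n) q m p1 p2
    · have e : g' = g := card_le_one.1 h1 _ m' _ m
      subst e
      have d : Disjoint (O.filter fun w => y ∈ A w ∧ g' ∈ A w)
          (O.filter fun w => z ∈ A w ∧ g' ∈ A w) := disjoint_left.2 fun w a b => by
        obtain ⟨a1, a2, a3⟩ := mem_filter.1 a
        exact (tri w a1 y g' z a2 a3 (mem_filter.1 b).2.1 p1).elim (fun e => n e.symm) q1
      have s := union_subset (filter_subset (fun w => y ∈ A w ∧ g' ∈ A w) O)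
        (filter_subset (fun w => z ∈ A w ∧ g' ∈ A w) O)
      have c1 := card_union_of_disjoint d
      have := eq_of_subset_of_card_le s (by omega)
      exact all g' m fun w r => by
        rw [← this] at r
        exact (mem_union.1 r).elim (fun t => (mem_filter.1 t).2.2) fun t => (mem_filter.1 t).2.2
  have good : ∀ y, ¬ bad y → ∀ A' : V → Finset ℕ, (∀ w ∈ F, w ≠ u → A' w ⊆ A w) →
      A' u ⊆ insert y (A u) → Good F A' := fun y nb A' s1 s2 => by
    simp only [bad, not_or, not_forall, not_exists, not_and, not_le] at nb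
    obtain ⟨⟨w0, c1, c2⟩, c3⟩ := nb
    have old : ∀ z, z ≠ y → ∀ w ∈ F, z ∈ A' w → z ∈ A w := fun z n w hw m => by
      by_cases e : w = u
      · exact e ▸ (mem_insert.1 (s2 (e ▸ m))).resolve_left n
      · exact s1 w hw e m
    have key : ∀ g, y ≠ g → (F.filter fun w => y ∈ A' w ∧ g ∈ A' w).card + 2 ≤ F.card :=
      fun g n => by
        by_cases m : g ∈ A u
        · have := c3 g m n
          have := card_insert_le u (O.filter fun w => y ∈ A w ∧ g ∈ A w)
          have : (F.filter fun w => y ∈ A' w ∧ g ∈ A' w).card ≤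
              (insert u (O.filter fun w => y ∈ A w ∧ g ∈ A w)).card := card_le_card fun w r => by
            obtain ⟨r1, r2, r3⟩ := mem_filter.1 r
            by_cases e : w = u
            · exact e ▸ mem_insert_self _ _
            · exact mem_insert_of_mem
                (mem_filter.2 ⟨mem_erase.2 ⟨e, r1⟩, s1 w r1 e r2, s1 w r1 e r3⟩)
          omega
        · refine le_trans (Nat.add_le_add_right (card_le_card fun w r => ?_) 2) (h.2 y g n)
          obtain ⟨r1, r2, r3⟩ := mem_filter.1 r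
          have e : w ≠ u := fun e => m (e ▸ old g n.symm w r1 r3)
          exact mem_filter.2 ⟨r1, s1 w r1 e r2, s1 w r1 e r3⟩
    refine ⟨fun z => ?_, fun z g n => ?_⟩
    · by_cases e : z = y
      · exact ⟨w0, mem_of_mem_erase c1, fun r =>
          c2 (e ▸ s1 w0 (mem_of_mem_erase c1) (ne_of_mem_erase c1) r)⟩
      · exact (h.1 z).imp fun w p => ⟨p.1, fun r => p.2 (old z e w p.1 r)⟩
    · by_cases e : z = y
      · exact e ▸ key g (e ▸ n)
      by_cases e' : g = y
      · have := key z (Ne.symm e)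
        rw [filter_congr fun w _ => and_comm] at this
        exact e' ▸ this
      refine le_trans (Nat.add_le_add_right (card_le_card fun w r => ?_) 2) (h.2 z g n)
      obtain ⟨r1, r2, r3⟩ := mem_filter.1 r
      exact mem_filter.2 ⟨r1, old z e w r1 r2, old g e' w r1 r3⟩
  by_cases k : ∃ b, bad b
  · obtain ⟨b, hb⟩ := k
    exact ⟨b, fun y n => good y fun z => n (one y b z hb)⟩
  · exact ⟨0, fun y _ => good y fun z => k ⟨y, z⟩⟩

/-- Colours seen by `w` outside `K` and not yet used on `K`. -/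
noncomputable def liv (G : SimpleGraph V) (D : ℕ) (c : V → ℕ) (K : Finset V) (w : V) : Finset ℕ :=
  sn G D c K w \ K.image c

/-- A partial colouring without patterns on the independent parts of the cliques extends. -/
theorem zg1 (h : MC G D) (hD : 8 ≤ D) {T : Finset (Finset V)}
    (hT : ∀ K ∈ T, IsClq G K ∧ K.card = D) {I : Finset V}
    (ind : ∀ K ∈ T, ∀ L ∈ T, K ≠ L → ∀ a ∈ K ∩ I, ∀ b ∈ L ∩ I, ¬ G.Adj a b)
    (h3 : ∀ K ∈ T, 3 ≤ (K ∩ I).card) (R : Finset V) : ∀ c : V → ℕ, PCol G D c →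
      (∀ v ∈ R, v ∈ T.biUnion id ∧ v ∉ I) → (∀ v, c v < D ↔ v ∉ R ∪ T.biUnion id ∩ I) →
      (∀ K ∈ T, Good (K ∩ I) (liv G D c K)) → False := by
  have o2 : ∀ K ∈ T, ∀ w ∈ K, (nb G w \ K).card ≤ 2 := fun K k w m =>
    out2 h (hT K k).1 (hT K k).2 m
  have l2 : ∀ c, ∀ K ∈ T, ∀ w ∈ K ∩ I, (liv G D c K w).card ≤ 2 := fun c K k w m =>
    (card_le_card sdiff_subset).trans ((sn_le c K w).trans (o2 K k w (mem_inter.1 m).1))
  have dj : ∀ K ∈ T, ∀ L ∈ T, ∀ v ∈ K, v ∈ L → K = L := fun K k L l v a b =>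
    dj8 h hD (hT K k).1 (hT K k).2 (hT L l).1 (hT L l).2 a b
  induction R using Finset.induction_on with
  | empty =>
    intro c c1 _ c2 c3
    rw [empty_union] at c2
    have ex := fun K (p : K ∈ T) => ext_hall (K ∩ I) (range D \ (K \ I).image c) (liv G D c K)
      (by
        have a := le_card_sdiff ((K \ I).image c) (range D)
        have b : ((K \ I).image c).card ≤ (K \ I).card := card_image_le
        have d := card_sdiff_add_card_inter K I
        have := (hT K p).2
        rw [card_range] at a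
        omega)
      (l2 c K p)
      (fun y _ => by
        obtain ⟨w, q, r⟩ := (c3 K p).1 y
        exact card_lt_card (filter_ssubset.2 ⟨w, q, r⟩))
      fun y _ g _ n => (c3 K p).2 y g n
    choose! f f1 f2 using ex
    have hU : ∀ v, v ∈ T.biUnion id ∩ I → ∃ K ∈ T, v ∈ K ∩ I := fun v m => by
      obtain ⟨K, k1, k2⟩ := mem_biUnion.1 (mem_inter.1 m).1
      exact ⟨K, k1, mem_inter.2 ⟨k2, (mem_inter.1 m).2⟩⟩
    choose! κ κ1 κ2 using hU
    have lt : ∀ v ∈ T.biUnion id ∩ I, f (κ v) v < D := fun v p =>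
      mem_range.1 (mem_sdiff.1 (f2 _ (κ1 v p) v (κ2 v p)).1).1
    have out : ∀ u ∈ T.biUnion id ∩ I, ∀ v ∉ T.biUnion id ∩ I, G.Adj u v → f (κ u) u ≠ c v := by
      intro u p v q e r
      obtain ⟨a, b⟩ := f2 _ (κ1 u p) u (κ2 u p)
      have nu : ∀ m ∈ κ u, c m ≠ f (κ u) u := fun m t z => (mem_sdiff.1 a).2 (mem_image.2
        ⟨m, mem_sdiff.2 ⟨t, fun i => (c2 m).1 (z ▸ lt u p)
          (mem_inter.2 ⟨mem_biUnion.2 ⟨_, κ1 u p, t⟩, i⟩)⟩, z⟩)
      by_cases t : v ∈ κ u
      · exact nu v t r.symm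
      · exact b (mem_sdiff.2 ⟨mem_sn.2 ⟨v, e, t, (c2 v).2 q, r.symm⟩, fun z => by
          obtain ⟨m, m1, m2⟩ := mem_image.1 z
          exact nu m m1 m2⟩)
    refine h.ncol ⟨fun v => if v ∈ T.biUnion id ∩ I then f (κ v) v else c v, fun v => ?_,
      fun u v e => ?_⟩
    · beta_reduce
      split_ifs with q
      exacts [lt v q, (c2 v).2 q]
    · by_cases p : u ∈ T.biUnion id ∩ I <;> by_cases q : v ∈ T.biUnion id ∩ I
      · simp only [if_pos p, if_pos q]
        have t : κ u = κ v := by_contra fun t =>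
          ind _ (κ1 u p) _ (κ1 v q) t u (κ2 u p) v (κ2 v q) e
        rw [← t]
        exact f1 _ (κ1 u p) u (κ2 u p) v (t ▸ κ2 v q) e.ne
      · simp only [if_pos p, if_neg q]
        exact out u p v q e
      · simp only [if_neg p, if_pos q]
        exact (out v q u p e.symm).symm
      · simp only [if_neg p, if_neg q]
        exact c1 u v e ((c2 u).2 p)
  | insert v R hv ih =>
    intro c c1 hR c2 c3
    obtain ⟨vU, vI⟩ := hR v (mem_insert_self _ _)
    obtain ⟨K0, k0, vK⟩ := mem_biUnion.1 vU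
    have cv : ¬ c v < D := fun e => (c2 v).1 e (mem_union_left _ (mem_insert_self _ _))
    have ex : ∀ u, ∃ b, ∀ K ∈ T, u ∈ K ∩ I → G.Adj v u → v ∉ K → ∀ y, y ≠ b →
        ∀ A' : V → Finset ℕ, (∀ w ∈ K ∩ I, w ≠ u → A' w ⊆ liv G D c K w) →
          A' u ⊆ insert y (liv G D c K u) → Good (K ∩ I) A' := fun u => by
      by_cases k : ∃ K ∈ T, u ∈ K ∩ I ∧ G.Adj v u ∧ v ∉ K
      · obtain ⟨K, k1, k2, k3, k4⟩ := k
        obtain ⟨b, hb⟩ := ban1 (c3 K k1) (h3 K k1) (l2 c K k1) k2 (by
          have a := o2 K k1 u (mem_inter.1 k2).1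
          have m : v ∈ nb G u \ K := mem_sdiff.2 ⟨mem_nb.2 k3.symm, k4⟩
          have := card_erase_add_one m
          have : (liv G D c K u).card ≤ (((nb G u \ K).erase v).image c).card :=
            card_le_card fun y p => by
              obtain ⟨z, z1, z2, z3, z4⟩ := mem_sn.1 (mem_sdiff.1 p).1
              exact mem_image.2 ⟨z, mem_erase.2 ⟨fun e => cv (e ▸ z3),
                mem_sdiff.2 ⟨mem_nb.2 z1, z2⟩⟩, z4⟩
          have := card_image_le (s := (nb G u \ K).erase v) (f := c)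
          omega)
        exact ⟨b, fun L l m _ _ => by
          rw [← dj K k1 L l u (mem_inter.1 k2).1 (mem_inter.1 m).1]; exact hb⟩
      · exact ⟨0, fun K a b d e => absurd ⟨K, a, b, d, e⟩ k⟩
    choose B hB using ex
    have vi : v ∈ K0 \ I := mem_sdiff.2 ⟨vK, vI⟩
    obtain ⟨y, y1, y2⟩ := exists_col_notMem (D := D) (((K0 \ I).erase v).image c ∪
      (nb G v \ K0).image fun u => if c u < D then c u else B u) (by
        have := card_union_le (((K0 \ I).erase v).image c)
          ((nb G v \ K0).image fun u => if c u < D then c u else B u)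
        have := card_image_le (s := (K0 \ I).erase v) (f := c)
        have := card_image_le (s := nb G v \ K0) (f := fun u => if c u < D then c u else B u)
        have := card_erase_add_one vi
        have := card_sdiff_add_card_inter K0 I
        have := h3 K0 k0
        have := (hT K0 k0).2
        have := o2 K0 k0 v vK
        omega)
    rw [mem_union, not_or] at y2
    have cI : ∀ K ∈ T, ∀ w ∈ K ∩ I, ¬ c w < D := fun K k w m e => (c2 w).1 e (mem_union_right _
      (mem_inter.2 ⟨mem_biUnion.2 ⟨K, k, (mem_inter.1 m).1⟩, (mem_inter.1 m).2⟩))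
    have sub : ∀ K w z, z ∈ liv G D (Function.update c v y) K w →
        (G.Adj v w ∧ v ∉ K ∧ z = y) ∨ z ∈ liv G D c K w := fun K w z p => by
      obtain ⟨p1, p2⟩ := mem_sdiff.1 p
      obtain ⟨m, r1, r2, r3, r4⟩ := mem_sn.1 p1
      by_cases e : m = v
      · subst e
        exact .inl ⟨r1.symm, r2, by simpa using r4.symm⟩
      rw [Function.update_of_ne e] at r3 r4
      refine .inr (mem_sdiff.2 ⟨mem_sn.2 ⟨m, r1, r2, r3, r4⟩, fun q => ?_⟩)
      obtain ⟨x, x1, x2⟩ := mem_image.1 q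
      have : x ≠ v := fun t => cv (by rw [← t, x2, ← r4]; exact r3)
      exact p2 (mem_image.2 ⟨x, x1, by rwa [Function.update_of_ne this]⟩)
    refine ih (Function.update c v y) (c1.put fun e p q => ?_)
      (fun u m => hR u (mem_insert_of_mem m)) (fun u => ?_) fun K k => ?_
    · by_cases r : e ∈ K0
      · exact y2.1 (mem_image.2 ⟨e, mem_erase.2 ⟨p.ne', mem_sdiff.2 ⟨r, fun i =>
          cI K0 k0 e (mem_inter.2 ⟨r, i⟩) (q ▸ y1)⟩⟩, q⟩)
      · exact y2.2 (mem_image.2 ⟨e, mem_sdiff.2 ⟨mem_nb.2 p, r⟩, by rw [if_pos (q ▸ y1), q]⟩)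
    · by_cases e : u = v
      · subst e
        simp only [Function.update_self, y1, true_iff, mem_union, mem_inter, not_or]
        exact ⟨hv, fun z => vI z.2⟩
      · rw [Function.update_of_ne e, c2 u, insert_union, mem_insert, or_iff_right e]
    · by_cases t : ∃ u ∈ K ∩ I, G.Adj v u ∧ v ∉ K
      · obtain ⟨u, u1, u2, u3⟩ := t
        have uK : u ∉ K0 := fun z => u3 (dj K0 k0 K k u z (mem_inter.1 u1).1 ▸ vK)
        refine hB u K k u1 u2 u3 y (fun e => y2.2 (mem_image.2 ⟨u, mem_sdiff.2 ⟨mem_nb.2 u2, uK⟩,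
          by rw [if_neg (cI K k u u1), e]⟩)) _ (fun w w1 w2 z p => ?_) fun z p => ?_
        · exact (sub K w z p).resolve_left fun q => w2 (rs8 h hD (hT K k).1 (hT K k).2 u3
            (mem_inter.1 w1).1 (mem_inter.1 u1).1 q.1 u2)
        · exact mem_insert.2 ((sub K u z p).imp_left fun q => q.2.2)
      · have s : ∀ w ∈ K ∩ I, liv G D (Function.update c v y) K w ⊆ liv G D c K w :=
          fun w m z p => (sub K w z p).resolve_left fun q => t ⟨w, m, q.1, q.2.1⟩
        refine ⟨fun z => ((c3 K k).1 z).imp fun w p => ⟨p.1, fun r => p.2 (s w p.1 r)⟩,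
          fun z g n => le_trans (Nat.add_le_add_right (card_le_card fun w r => ?_) 2)
            ((c3 K k).2 z g n)⟩
        obtain ⟨r1, r2, r3⟩ := mem_filter.1 r
        exact mem_filter.2 ⟨r1, s w r1 r2, s w r1 r3⟩

end Pool.Agent.Lib.MP_12eaff_co.BK
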